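import Mathlib

/-! Induced paths on four vertices, attached vertices, attachment-generated sets. -/

namespace Pool.Agent.H19

open Finset Classical

variable {V : Type}

/-- `a - b - c - d` is an induced path -/
def P4 (G : SimpleGraph V) (a b c d : V) : Prop :=
  G.Adj a b ∧ G.Adj b c ∧ G.Adj c d ∧ ¬ G.Adj a c ∧ ¬ G.Adj a d ∧ ¬ G.Adj b d ∧
    a ≠ c ∧ a ≠ d ∧ b ≠ d

lemma P4.symm {G : SimpleGraph V} {a b c d : V} (h : P4 G a b c d) : P4 G d c b a := by
  obtain ⟨h1, h2, h3, h4, h5, h6, h7, h8, h9⟩ := h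
  exact ⟨h3.symm, h2.symm, h1.symm, fun h => h6 h.symm, fun h => h5 h.symm, fun h => h4 h.symm,
    h9.symm, h8.symm, h7.symm⟩

/-- the set `Q` induces a path on four vertices -/
def IsP4 (G : SimpleGraph V) (Q : Finset V) : Prop :=
  ∃ a b c d, P4 G a b c d ∧ Q = {a, b, c, d}

lemma P4.isP4 {G : SimpleGraph V} {a b c d : V} (h : P4 G a b c d) :
    IsP4 G {a, b, c, d} := ⟨a, b, c, d, h, rfl⟩

lemma P4.card {G : SimpleGraph V} {a b c d : V} (h : P4 G a b c d) :
    ({a, b, c, d} : Finset V).card = 4 := by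
  obtain ⟨h1, h2, h3, h4, h5, h6, h7, h8, h9⟩ := h
  have := h1.ne; have := h2.ne; have := h3.ne
  rw [card_insert_of_notMem, card_insert_of_notMem, card_insert_of_notMem, card_singleton] <;>
    simp_all

lemma IsP4.card {G : SimpleGraph V} {Q : Finset V} (h : IsP4 G Q) : Q.card = 4 := by
  obtain ⟨a, b, c, d, h, rfl⟩ := h
  exact h.card

/-- every vertex of a `P₄` has a neighbour and a non-neighbour in it -/
lemma IsP4.nb {G : SimpleGraph V} {Q : Finset V} (h : IsP4 G Q) {v : V} (hv : v ∈ Q) :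
    (∃ u ∈ Q, G.Adj v u) ∧ (∃ u ∈ Q, u ≠ v ∧ ¬ G.Adj v u) := by
  obtain ⟨a, b, c, d, ⟨h1, h2, h3, h4, h5, h6, h7, h8, h9⟩, rfl⟩ := h
  simp only [mem_insert, mem_singleton] at hv
  rcases hv with rfl | rfl | rfl | rfl
  · exact ⟨⟨b, by simp, h1⟩, ⟨c, by simp, h7.symm, h4⟩⟩
  · exact ⟨⟨a, by simp, h1.symm⟩, ⟨d, by simp, h9.symm, h6⟩⟩
  · exact ⟨⟨b, by simp, h2.symm⟩, ⟨a, by simp, h7, fun h => h4 h.symm⟩⟩
  · exact ⟨⟨c, by simp, h3.symm⟩, ⟨a, by simp, h8, fun h => h5 h.symm⟩⟩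

/-- some vertex of a `P₄` has only one neighbour, some vertex has only one non-neighbour -/
lemma IsP4.one {G : SimpleGraph V} {Q : Finset V} (h : IsP4 G Q) :
    (∃ v ∈ Q, ∀ u ∈ Q, ∀ u' ∈ Q, G.Adj v u → G.Adj v u' → u = u') ∧
    (∃ v ∈ Q, ∀ u ∈ Q, ∀ u' ∈ Q, u ≠ v → u' ≠ v → ¬ G.Adj v u → ¬ G.Adj v u' → u = u') := by
  obtain ⟨a, b, c, d, ⟨h1, h2, h3, h4, h5, h6, h7, h8, h9⟩, rfl⟩ := h
  refine ⟨⟨a, by simp, ?_⟩, ⟨b, by simp, ?_⟩⟩
  · intro u hu u' hu' k k'
    simp only [mem_insert, mem_singleton] at hu hu'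
    rcases hu with rfl | rfl | rfl | rfl <;> rcases hu' with rfl | rfl | rfl | rfl <;>
      first
        | rfl
        | exact absurd k (G.loopless.irrefl _)
        | exact absurd k' (G.loopless.irrefl _)
        | exact absurd k h4
        | exact absurd k h5
        | exact absurd k' h4
        | exact absurd k' h5
  · intro u hu u' hu' k k' l l'
    simp only [mem_insert, mem_singleton] at hu hu'
    rcases hu with rfl | rfl | rfl | rfl <;> rcases hu' with rfl | rfl | rfl | rfl <;>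
      first
        | rfl
        | exact absurd rfl k
        | exact absurd rfl k'
        | exact absurd h1.symm l
        | exact absurd h2 l
        | exact absurd h1.symm l'
        | exact absurd h2 l'

lemma P4.compl {G : SimpleGraph V} {a b c d : V} (h : P4 G a b c d) : P4 Gᶜ b d a c := by
  obtain ⟨h1, h2, h3, h4, h5, h6, h7, h8, h9⟩ := h
  simp only [P4, SimpleGraph.compl_adj]
  refine ⟨⟨h9, h6⟩, ⟨h8.symm, fun h => h5 h.symm⟩, ⟨h7, h4⟩, ?_, ?_, ?_, h1.ne.symm, h2.ne, h3.ne.symm⟩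
  · exact fun h => h.2 h1.symm
  · exact fun h => h.2 h2
  · exact fun h => h.2 h3.symm

lemma isP4_compl_of {G : SimpleGraph V} {Q : Finset V} (h : IsP4 G Q) : IsP4 Gᶜ Q := by
  obtain ⟨a, b, c, d, h, rfl⟩ := h
  refine ⟨b, d, a, c, h.compl, ?_⟩
  ext x; simp only [mem_insert, mem_singleton]; tauto

lemma isP4_compl {G : SimpleGraph V} {Q : Finset V} : IsP4 Gᶜ Q ↔ IsP4 G Q :=
  ⟨fun h => by simpa using isP4_compl_of h, isP4_compl_of⟩

/-- the `P₄`s inside `S` -/
noncomputable def ps (G : SimpleGraph V) (S : Finset V) : Finset (Finset V) :=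
  S.powerset.filter (IsP4 G)

/-- the number of `P₄`s inside `S` -/
noncomputable def pn (G : SimpleGraph V) (S : Finset V) : ℕ := (ps G S).card

lemma mem_ps {G : SimpleGraph V} {S Q : Finset V} : Q ∈ ps G S ↔ Q ⊆ S ∧ IsP4 G Q := by
  simp [ps]

lemma pn_mono {G : SimpleGraph V} {S S' : Finset V} (h : S ⊆ S') : pn G S ≤ pn G S' := by
  apply card_le_card
  intro Q hQ
  rw [mem_ps] at *
  exact ⟨hQ.1.trans h, hQ.2⟩

lemma pn_compl {G : SimpleGraph V} {S : Finset V} : pn Gᶜ S = pn G S := by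
  unfold pn
  congr 1
  ext Q
  rw [mem_ps, mem_ps, isP4_compl]

/-- at most `q - 2` `P₄`s in every set of at most `q` vertices -/
def QG (G : SimpleGraph V) (q : ℕ) : Prop := ∀ S : Finset V, S.card ≤ q → pn G S ≤ q - 2

/-- `v` forms a `P₄` with three vertices of `T` -/
def Att (G : SimpleGraph V) (v : V) (T : Finset V) : Prop :=
  ∃ Q, IsP4 G Q ∧ v ∈ Q ∧ Q.erase v ⊆ T

lemma Att.mono {G : SimpleGraph V} {v : V} {T T' : Finset V} (h : Att G v T) (hT : T ⊆ T') :
    Att G v T' := by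
  obtain ⟨Q, h1, h2, h3⟩ := h
  exact ⟨Q, h1, h2, h3.trans hT⟩

lemma att_compl {G : SimpleGraph V} {v : V} {T : Finset V} : Att Gᶜ v T ↔ Att G v T := by
  unfold Att
  simp only [isP4_compl]

lemma P4.att1 {G : SimpleGraph V} {a b c d : V} {T : Finset V} (h : P4 G a b c d)
    (hb : b ∈ T) (hc : c ∈ T) (hd : d ∈ T) : Att G a T := by
  refine ⟨_, h.isP4, by simp, ?_⟩
  intro x hx
  simp only [mem_erase, mem_insert, mem_singleton] at hx
  rcases hx with ⟨h1, rfl | rfl | rfl | rfl⟩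
  · exact absurd rfl h1
  all_goals assumption

lemma P4.att2 {G : SimpleGraph V} {a b c d : V} {T : Finset V} (h : P4 G a b c d)
    (ha : a ∈ T) (hc : c ∈ T) (hd : d ∈ T) : Att G b T := by
  refine ⟨_, h.isP4, by simp, ?_⟩
  intro x hx
  simp only [mem_erase, mem_insert, mem_singleton] at hx
  rcases hx with ⟨h1, rfl | rfl | rfl | rfl⟩
  · assumption
  · exact absurd rfl h1
  all_goals assumption

lemma P4.att3 {G : SimpleGraph V} {a b c d : V} {T : Finset V} (h : P4 G a b c d)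
    (ha : a ∈ T) (hb : b ∈ T) (hd : d ∈ T) : Att G c T := h.symm.att2 hd hb ha

lemma P4.att4 {G : SimpleGraph V} {a b c d : V} {T : Finset V} (h : P4 G a b c d)
    (ha : a ∈ T) (hb : b ∈ T) (hc : c ∈ T) : Att G d T := h.symm.att1 hc hb ha

/-- typical pattern on a path -/
def Typ (p1 p2 p3 p4 : Prop) : Prop :=
  (¬ p1 ∧ ¬ p2 ∧ ¬ p3 ∧ ¬ p4) ∨ (p1 ∧ p2 ∧ p3 ∧ p4) ∨ (¬ p1 ∧ p2 ∧ p3 ∧ ¬ p4)

/-- a vertex not attached to a `P₄` has a typical pattern on it -/
lemma typ_of_not_att {G : SimpleGraph V} {a b c d v : V} (h : P4 G a b c d)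
    (hv : v ∉ ({a, b, c, d} : Finset V)) {T : Finset V} (hT : {a, b, c, d} ⊆ T)
    (hn : ¬ Att G v T) :
    Typ (G.Adj v a) (G.Adj v b) (G.Adj v c) (G.Adj v d) := by
  have ha : a ∈ T := hT (by simp)
  have hb : b ∈ T := hT (by simp)
  have hc : c ∈ T := hT (by simp)
  have hd : d ∈ T := hT (by simp)
  obtain ⟨h1, h2, h3, h4, h5, h6, h7, h8, h9⟩ := h
  simp only [mem_insert, mem_singleton, not_or] at hv
  obtain ⟨va, vb, vc, vd⟩ := hv
  have e1 := G.adj_comm v a
  have e2 := G.adj_comm v b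
  have e3 := G.adj_comm v c
  have e4 := G.adj_comm v d
  have n1 := h1.ne; have n2 := h2.ne; have n3 := h3.ne
  unfold Typ
  by_cases ka : G.Adj v a <;> by_cases kb : G.Adj v b <;> by_cases kc : G.Adj v c <;>
    by_cases kd : G.Adj v d
  · tauto
  · -- a b c : d - c - v - a
    exact absurd (P4.att3 (T := T) (G := G) (a := d) (b := c) (c := v) (d := a)
      ⟨h3.symm, kc.symm, ka, fun h => kd h.symm, fun h => h5 h.symm, fun h => h4 h.symm, Ne.symm vd, h8.symm, h7.symm⟩ hd hc ha) hn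
  · -- a b d : c - d - v - a
    exact absurd (P4.att3 (T := T) (G := G) (a := c) (b := d) (c := v) (d := a)
      ⟨h3, kd.symm, ka, fun h => kc h.symm, fun h => h4 h.symm, fun h => h5 h.symm, Ne.symm vc, h7.symm, h8.symm⟩ hc hd ha) hn
  · -- a b : v - b - c - d
    exact absurd (P4.att1 (T := T) ⟨kb, h2, h3, kc, kd, h6, vc, vd, h9⟩ hb hc hd) hn
  · -- a c d : b - a - v - d
    exact absurd (P4.att3 (T := T) (G := G) (a := b) (b := a) (c := v) (d := d)
      ⟨h1.symm, ka.symm, kd, fun h => kb h.symm, h6, h5, Ne.symm vb, h9, h8⟩ hb ha hd) hn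
  · -- a c : a - v - c - d
    exact absurd (P4.att2 (T := T) (G := G) (a := a) (b := v) (c := c) (d := d)
      ⟨ka.symm, kc, h3, h4, h5, kd, h7, h8, vd⟩ ha hc hd) hn
  · -- a d (C5) : v - a - b - c
    exact absurd (P4.att1 (T := T) (G := G) (a := v) (b := a) (c := b) (d := c)
      ⟨ka, h1, h2, kb, kc, h4, vb, vc, h7⟩ ha hb hc) hn
  · -- a : v - a - b - c
    exact absurd (P4.att1 (T := T) (G := G) (a := v) (b := a) (c := b) (d := c)
      ⟨ka, h1, h2, kb, kc, h4, vb, vc, h7⟩ ha hb hc) hn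
  · -- b c d : a - b - v - d
    exact absurd (P4.att3 (T := T) (G := G) (a := a) (b := b) (c := v) (d := d)
      ⟨h1, kb.symm, kd, fun h => ka h.symm, h5, h6, Ne.symm va, h8, h9⟩ ha hb hd) hn
  · tauto
  · -- b d : a - b - v - d
    exact absurd (P4.att3 (T := T) (G := G) (a := a) (b := b) (c := v) (d := d)
      ⟨h1, kb.symm, kd, fun h => ka h.symm, h5, h6, Ne.symm va, h8, h9⟩ ha hb hd) hn
  · -- b : v - b - c - d
    exact absurd (P4.att1 (T := T) ⟨kb, h2, h3, kc, kd, h6, vc, vd, h9⟩ hb hc hd) hn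
  · -- c d : a - b - c - v
    exact absurd (P4.att4 (T := T) (G := G) (a := a) (b := b) (c := c) (d := v)
      ⟨h1, h2, kc.symm, h4, fun h => ka h.symm, fun h => kb h.symm, h7, Ne.symm va, Ne.symm vb⟩ ha hb hc) hn
  · -- c : a - b - c - v
    exact absurd (P4.att4 (T := T) (G := G) (a := a) (b := b) (c := c) (d := v)
      ⟨h1, h2, kc.symm, h4, fun h => ka h.symm, fun h => kb h.symm, h7, Ne.symm va, Ne.symm vb⟩ ha hb hc) hn
  · -- d : b - c - d - v
    exact absurd (P4.att4 (T := T) (G := G) (a := b) (b := c) (c := d) (d := v)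
      ⟨h2, h3, kd.symm, h6, fun h => kb h.symm, fun h => kc h.symm, h9, Ne.symm vb, Ne.symm vc⟩ hb hc hd) hn
  · tauto

/-- sets generated from a `P₄` by adding attached vertices -/
inductive Gen (G : SimpleGraph V) : Finset V → Prop
  | base {a b c d : V} (h : P4 G a b c d) : Gen G {a, b, c, d}
  | att {T : Finset V} {v : V} (hT : Gen G T) (h : Att G v T) : Gen G (insert v T)

lemma Gen.compl {G : SimpleGraph V} {T : Finset V} (h : Gen G T) : Gen Gᶜ T := by
  induction h with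
  | @base a b c d h =>
    have : ({a, b, c, d} : Finset V) = {b, d, a, c} := by
      ext x; simp only [mem_insert, mem_singleton]; tauto
    rw [this]
    exact Gen.base h.compl
  | att _ h ih => exact Gen.att ih (att_compl.2 h)

lemma gen_compl {G : SimpleGraph V} {T : Finset V} : Gen Gᶜ T ↔ Gen G T :=
  ⟨fun h => by simpa using h.compl, Gen.compl⟩

/-- the local counting condition -/
def LC (G : SimpleGraph V) : Prop := ∀ S : Finset V, Gen G S → S.card ≤ 8 → pn G S + 2 ≤ S.card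

lemma LC.compl {G : SimpleGraph V} (h : LC G) : LC Gᶜ := by
  intro S hS hc
  rw [pn_compl]
  exact h S (gen_compl.1 hS) hc

end Pool.Agent.H19
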