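import Pool.Agent.H19.CW.BranchT

/-! No forward branching. -/

namespace Pool.Agent.H19

open Finset Classical

variable {V : Type}

def lvF (i : ℕ) : ℕ := [1, 0, 0, 0, 2, 3, 3, 4, 4, 5, 5].getD i 0

def dmF (v a b c : ℕ) : Bool :=
  Nat.ble (lvF a + 2) (lvF v) && Nat.ble (lvF b + 2) (lvF v) && Nat.ble (lvF c + 2) (lvF v)

def fbF (q : Qd) : Bool := dmF q.1 q.2.1 q.2.2.1 q.2.2.2 || dmF q.2.1 q.1 q.2.2.1 q.2.2.2 ||
  dmF q.2.2.1 q.1 q.2.1 q.2.2.2 || dmF q.2.2.2 q.1 q.2.1 q.2.2.1

def prs (v m : ℕ) : List ℕ → List Qd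
  | [] => []
  | a :: l => l.map (fun b => (v, m, a, b)) ++ prs v m l

def rqF : List (List Qd) :=
  [prs 4 0 [1, 2, 3], prs 5 4 [0, 1, 2, 3], prs 6 4 [0, 1, 2, 3], prs 7 5 [0, 1, 2, 3, 4],
    prs 8 6 [0, 1, 2, 3, 4], prs 9 7 [0, 1, 2, 3, 4, 5], prs 10 8 [0, 1, 2, 3, 4, 6]]

theorem full_branch : full 11 false fbF rqF [(0, 1), (1, 2), (2, 3)] [(0, 2), (0, 3), (1, 3)] tbr = true := by
  decide +kernel

lemma prs_pair {v m a b : ℕ} : ∀ {L : List ℕ}, a ∈ L → b ∈ L → a ≠ b →
    (v, m, a, b) ∈ prs v m L ∨ (v, m, b, a) ∈ prs v m L := by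
  intro L
  induction L with
  | nil => intro h; simp at h
  | cons c l ih =>
    intro ha hb hab
    simp only [prs, List.mem_append, List.mem_map]
    rcases List.mem_cons.1 ha with h1 | h1 <;> rcases List.mem_cons.1 hb with h2 | h2
    · exact absurd (h1.trans h2.symm) hab
    · exact Or.inl (Or.inl ⟨b, h2, by rw [h1]⟩)
    · exact Or.inr (Or.inl ⟨a, h1, by rw [h2]⟩)
    · rcases ih h1 h2 hab with h | h
      · exact Or.inl (Or.inr h)
      · exact Or.inr (Or.inr h)

lemma prs_mem {G : SimpleGraph V} {w : ℕ → V} {v m : ℕ} {L : List ℕ} {Q : Finset V}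
    (h4 : IsP4 G Q) (hv : w v ∈ Q) (hm : w m ∈ Q) (hne : w v ≠ w m)
    (hsub : ∀ x ∈ Q, x = w v ∨ x = w m ∨ ∃ a ∈ L, x = w a) :
    ∃ q ∈ prs v m L, IsP4 G (qs w q) := by
  have hc := h4.card
  have h1 : ((Q.erase (w v)).erase (w m)).card = 2 := by
    rw [card_erase_of_mem (mem_erase.2 ⟨hne.symm, hm⟩), card_erase_of_mem hv, hc]
  obtain ⟨x, y, hxy, he⟩ := card_eq_two.1 h1
  have hx : x ∈ (Q.erase (w v)).erase (w m) := by rw [he]; simp
  have hy : y ∈ (Q.erase (w v)).erase (w m) := by rw [he]; simp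
  simp only [mem_erase] at hx hy
  obtain ⟨a, ha, rfl⟩ : ∃ a ∈ L, x = w a := by
    rcases hsub x hx.2.2 with h | h | h
    · exact absurd h hx.2.1
    · exact absurd h hx.1
    · exact h
  obtain ⟨b, hb, rfl⟩ : ∃ a ∈ L, y = w a := by
    rcases hsub y hy.2.2 with h | h | h
    · exact absurd h hy.2.1
    · exact absurd h hy.1
    · exact h
  have hQ : Q = {w v, w m, w a, w b} := by
    rw [← insert_erase hv, ← insert_erase (mem_erase.2 ⟨hne.symm, hm⟩ : w m ∈ Q.erase (w v)), he]
  rcases prs_pair (v := v) (m := m) ha hb (fun h => hxy (by rw [h])) with h | h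
  · exact ⟨_, h, by unfold qs; rw [← hQ]; exact h4⟩
  · refine ⟨_, h, ?_⟩
    unfold qs
    simp only
    rw [pair_comm (w b) (w a), ← hQ]; exact h4

/-- the branching configuration with the parent at the end of its path -/
theorem no_branch0 {G : SimpleGraph V} (hLC : LC G) {S0 S1 S2 S3 : Finset V}
    (h01 : S0 ⊆ S1) (h12 : S1 ⊆ S2) (h23 : S2 ⊆ S3)
    {u b c d m x1 y1 x2 y2 x3 y3 : V} (hnd : [u, b, c, d, m, x1, y1, x2, y2, x3, y3].Nodup)
    (hp : P4 G u b c d) (hb : b ∈ S0) (hc : c ∈ S0) (hd : d ∈ S0) (hu : u ∈ S1) (hm : m ∈ S2)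
    (hx1 : x1 ∈ S3) (hy1 : y1 ∈ S3)
    (nm : ¬ Att G m S0) (nx1 : ¬ Att G x1 S1) (ny1 : ¬ Att G y1 S1)
    (nx2 : ¬ Att G x2 S2) (ny2 : ¬ Att G y2 S2) (nx3 : ¬ Att G x3 S3) (ny3 : ¬ Att G y3 S3)
    {Qm Qx1 Qy1 Qx2 Qy2 Qx3 Qy3 : Finset V}
    (pm : IsP4 G Qm) (px1 : IsP4 G Qx1) (py1 : IsP4 G Qy1) (px2 : IsP4 G Qx2) (py2 : IsP4 G Qy2)
    (px3 : IsP4 G Qx3) (py3 : IsP4 G Qy3)
    (mm : m ∈ Qm) (um : u ∈ Qm) (sm : Qm ⊆ {m, u, b, c, d})
    (mx1 : x1 ∈ Qx1) (ux1 : m ∈ Qx1) (sx1 : Qx1 ⊆ {x1, m, u, b, c, d})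
    (my1 : y1 ∈ Qy1) (uy1 : m ∈ Qy1) (sy1 : Qy1 ⊆ {y1, m, u, b, c, d})
    (mx2 : x2 ∈ Qx2) (ux2 : x1 ∈ Qx2) (sx2 : Qx2 ⊆ {x2, x1, m, u, b, c, d})
    (my2 : y2 ∈ Qy2) (uy2 : y1 ∈ Qy2) (sy2 : Qy2 ⊆ {y2, y1, m, u, b, c, d})
    (mx3 : x3 ∈ Qx3) (ux3 : x2 ∈ Qx3) (sx3 : Qx3 ⊆ {x3, x2, x1, m, u, b, c, d})
    (my3 : y3 ∈ Qy3) (uy3 : y2 ∈ Qy3) (sy3 : Qy3 ⊆ {y3, y2, y1, m, u, b, c, d}) : False := by
  obtain ⟨k1, k2, k3, k4, k5, k6, k7, k8, k9⟩ := hp
  have hnd' := hnd
  simp only [List.nodup_cons, List.mem_cons, not_or, List.not_mem_nil] at hnd'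
  refine full_sound hLC [u, b, c, d, m, x1, y1, x2, y2, x3, y3] hnd u (e8 := false)
    (by simp) (fb := fbF) (rq := rqF) full_branch ?_ ?_ ?_ ?_
  · -- forbidden sets
    set w : ℕ → V := fun i => [u, b, c, d, m, x1, y1, x2, y2, x3, y3].getD i u with hw
    have key : ∀ v < 11, 2 ≤ lvF v → ∃ S, (∀ a < 11, lvF a + 2 ≤ lvF v → w a ∈ S) ∧
        ¬ Att G (w v) S := by
      intro v hv h2
      have e0 : S0 ⊆ S1 := h01
      have e1 : S0 ⊆ S2 := h01.trans h12
      have e2 : S0 ⊆ S3 := e1.trans h23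
      have e3 : S1 ⊆ S3 := h12.trans h23
      interval_cases v <;> simp only [lvF, List.getD] at h2 <;> try (simp at h2)
      · refine ⟨S0, ?_, nm⟩
        intro a ha hl
        interval_cases a <;> simp [lvF] at hl <;> simp [w, hb, hc, hd]
      · refine ⟨S1, ?_, nx1⟩
        intro a ha hl
        interval_cases a <;> simp [lvF] at hl <;> simp [w, hu, e0 hb, e0 hc, e0 hd]
      · refine ⟨S1, ?_, ny1⟩
        intro a ha hl
        interval_cases a <;> simp [lvF] at hl <;> simp [w, hu, e0 hb, e0 hc, e0 hd]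
      · refine ⟨S2, ?_, nx2⟩
        intro a ha hl
        interval_cases a <;> simp [lvF] at hl <;> simp [w, h12 hu, e1 hb, e1 hc, e1 hd, hm]
      · refine ⟨S2, ?_, ny2⟩
        intro a ha hl
        interval_cases a <;> simp [lvF] at hl <;> simp [w, h12 hu, e1 hb, e1 hc, e1 hd, hm]
      · refine ⟨S3, ?_, nx3⟩
        intro a ha hl
        interval_cases a <;> simp [lvF] at hl <;>
          simp [w, e3 hu, e2 hb, e2 hc, e2 hd, h23 hm, hx1, hy1]
      · refine ⟨S3, ?_, ny3⟩
        intro a ha hl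
        interval_cases a <;> simp [lvF] at hl <;>
          simp [w, e3 hu, e2 hb, e2 hc, e2 hd, h23 hm, hx1, hy1]
    have dom : ∀ (v a b c : ℕ) (Q : Finset V), v < 11 → a < 11 → b < 11 → c < 11 →
        dmF v a b c = true → Q = {w v, w a, w b, w c} → ¬ IsP4 G Q := by
      intro v a b c Q hv ha hb hc hd hQ h4
      simp only [dmF, Bool.and_eq_true, Nat.ble_eq] at hd
      obtain ⟨⟨l1, l2⟩, l3⟩ := hd
      obtain ⟨S, hS, hn⟩ := key v hv (by omega)
      apply hn
      refine ⟨Q, h4, by rw [hQ]; simp, ?_⟩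
      rw [hQ]
      intro x hx
      simp only [mem_erase, mem_insert, mem_singleton] at hx
      rcases hx with ⟨h1, rfl | rfl | rfl | rfl⟩
      · exact absurd rfl h1
      · exact hS _ ha l1
      · exact hS _ hb l2
      · exact hS _ hc l3
    rintro ⟨q1, q2, q3, q4⟩ hq l1 l2 l3 l4
    simp only [fbF, Bool.or_eq_true] at hq
    simp only [List.length_cons, List.length_nil] at l1 l2 l3 l4
    rcases hq with ((hq | hq) | hq) | hq
    · exact dom _ _ _ _ _ l1 l2 l3 l4 hq rfl
    · refine dom _ _ _ _ _ l2 l1 l3 l4 hq ?_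
      unfold qs; rw [Finset.insert_comm]
    · refine dom _ _ _ _ _ l3 l1 l2 l4 hq ?_
      unfold qs; simp only
      rw [Finset.insert_comm (w q2), Finset.insert_comm (w q1)]
    · refine dom _ _ _ _ _ l4 l1 l2 l3 hq ?_
      unfold qs; simp only
      rw [Finset.pair_comm (w q3), Finset.insert_comm (w q2), Finset.insert_comm (w q1)]
  · intro r hr
    simp only [rqF, List.mem_cons, List.not_mem_nil, or_false] at hr
    rcases hr with rfl | rfl | rfl | rfl | rfl | rfl | rfl
    · apply prs_mem pm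
      · exact mm
      · exact um
      · exact fun h => hnd'.1.2.2.2.1 h.symm
      · intro x hx
        have := sm hx
        simp only [mem_insert, mem_singleton] at this
        rcases this with rfl | rfl | rfl | rfl | rfl
        · exact Or.inl rfl
        · exact Or.inr (Or.inl rfl)
        · exact Or.inr (Or.inr ⟨1, by simp, rfl⟩)
        · exact Or.inr (Or.inr ⟨2, by simp, rfl⟩)
        · exact Or.inr (Or.inr ⟨3, by simp, rfl⟩)
    · apply prs_mem px1
      · exact mx1
      · exact ux1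
      · show x1 ≠ m
        intro h; subst h; simp at hnd'
      · intro x hx
        have := sx1 hx
        simp only [mem_insert, mem_singleton] at this
        rcases this with rfl | rfl | rfl | rfl | rfl | rfl
        · exact Or.inl rfl
        · exact Or.inr (Or.inl rfl)
        · exact Or.inr (Or.inr ⟨0, by simp, rfl⟩)
        · exact Or.inr (Or.inr ⟨1, by simp, rfl⟩)
        · exact Or.inr (Or.inr ⟨2, by simp, rfl⟩)
        · exact Or.inr (Or.inr ⟨3, by simp, rfl⟩)
    · apply prs_mem py1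
      · exact my1
      · exact uy1
      · show y1 ≠ m
        intro h; subst h; simp at hnd'
      · intro x hx
        have := sy1 hx
        simp only [mem_insert, mem_singleton] at this
        rcases this with rfl | rfl | rfl | rfl | rfl | rfl
        · exact Or.inl rfl
        · exact Or.inr (Or.inl rfl)
        · exact Or.inr (Or.inr ⟨0, by simp, rfl⟩)
        · exact Or.inr (Or.inr ⟨1, by simp, rfl⟩)
        · exact Or.inr (Or.inr ⟨2, by simp, rfl⟩)
        · exact Or.inr (Or.inr ⟨3, by simp, rfl⟩)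
    · apply prs_mem px2
      · exact mx2
      · exact ux2
      · show x2 ≠ x1
        intro h; subst h; simp at hnd'
      · intro x hx
        have := sx2 hx
        simp only [mem_insert, mem_singleton] at this
        rcases this with rfl | rfl | rfl | rfl | rfl | rfl | rfl
        · exact Or.inl rfl
        · exact Or.inr (Or.inl rfl)
        · exact Or.inr (Or.inr ⟨4, by simp, rfl⟩)
        · exact Or.inr (Or.inr ⟨0, by simp, rfl⟩)
        · exact Or.inr (Or.inr ⟨1, by simp, rfl⟩)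
        · exact Or.inr (Or.inr ⟨2, by simp, rfl⟩)
        · exact Or.inr (Or.inr ⟨3, by simp, rfl⟩)
    · apply prs_mem py2
      · exact my2
      · exact uy2
      · show y2 ≠ y1
        intro h; subst h; simp at hnd'
      · intro x hx
        have := sy2 hx
        simp only [mem_insert, mem_singleton] at this
        rcases this with rfl | rfl | rfl | rfl | rfl | rfl | rfl
        · exact Or.inl rfl
        · exact Or.inr (Or.inl rfl)
        · exact Or.inr (Or.inr ⟨4, by simp, rfl⟩)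
        · exact Or.inr (Or.inr ⟨0, by simp, rfl⟩)
        · exact Or.inr (Or.inr ⟨1, by simp, rfl⟩)
        · exact Or.inr (Or.inr ⟨2, by simp, rfl⟩)
        · exact Or.inr (Or.inr ⟨3, by simp, rfl⟩)
    · apply prs_mem px3
      · exact mx3
      · exact ux3
      · show x3 ≠ x2
        intro h; subst h; simp at hnd'
      · intro x hx
        have := sx3 hx
        simp only [mem_insert, mem_singleton] at this
        rcases this with rfl | rfl | rfl | rfl | rfl | rfl | rfl | rfl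
        · exact Or.inl rfl
        · exact Or.inr (Or.inl rfl)
        · exact Or.inr (Or.inr ⟨5, by simp, rfl⟩)
        · exact Or.inr (Or.inr ⟨4, by simp, rfl⟩)
        · exact Or.inr (Or.inr ⟨0, by simp, rfl⟩)
        · exact Or.inr (Or.inr ⟨1, by simp, rfl⟩)
        · exact Or.inr (Or.inr ⟨2, by simp, rfl⟩)
        · exact Or.inr (Or.inr ⟨3, by simp, rfl⟩)
    · apply prs_mem py3
      · exact my3
      · exact uy3
      · show y3 ≠ y2
        intro h; subst h; simp at hnd'
      · intro x hx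
        have := sy3 hx
        simp only [mem_insert, mem_singleton] at this
        rcases this with rfl | rfl | rfl | rfl | rfl | rfl | rfl | rfl
        · exact Or.inl rfl
        · exact Or.inr (Or.inl rfl)
        · exact Or.inr (Or.inr ⟨6, by simp, rfl⟩)
        · exact Or.inr (Or.inr ⟨4, by simp, rfl⟩)
        · exact Or.inr (Or.inr ⟨0, by simp, rfl⟩)
        · exact Or.inr (Or.inr ⟨1, by simp, rfl⟩)
        · exact Or.inr (Or.inr ⟨2, by simp, rfl⟩)
        · exact Or.inr (Or.inr ⟨3, by simp, rfl⟩)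
  · intro p hp
    simp only [List.mem_cons, List.not_mem_nil, or_false] at hp
    rcases hp with rfl | rfl | rfl
    · exact k1
    · exact k2
    · exact k3
  · intro p hp
    simp only [List.mem_cons, List.not_mem_nil, or_false] at hp
    rcases hp with rfl | rfl | rfl
    · exact k4
    · exact k5
    · exact k6

end Pool.Agent.H19
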