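import Pool.Agent.H19.CW.Branch

/-! No forward branching: final form. -/

namespace Pool.Agent.H19

open Finset Classical

variable {V : Type}

/-- put a vertex of a `P₄` at the end, in the graph or in its complement -/
lemma IsP4.ends {G : SimpleGraph V} {Q : Finset V} (h : IsP4 G Q) {u : V} (hu : u ∈ Q) :
    (∃ b c d, P4 G u b c d ∧ Q = {u, b, c, d}) ∨ (∃ b c d, P4 Gᶜ u b c d ∧ Q = {u, b, c, d}) := by
  obtain ⟨a, b, c, d, h, rfl⟩ := h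
  simp only [mem_insert, mem_singleton] at hu
  rcases hu with rfl | rfl | rfl | rfl
  · exact Or.inl ⟨b, c, d, h, rfl⟩
  · refine Or.inr ⟨d, a, c, h.compl, ?_⟩
    ext x; simp only [mem_insert, mem_singleton]; tauto
  · refine Or.inr ⟨a, d, b, h.symm.compl, ?_⟩
    ext x; simp only [mem_insert, mem_singleton]; tauto
  · refine Or.inl ⟨c, b, a, h.symm, ?_⟩
    ext x; simp only [mem_insert, mem_singleton]; tauto

theorem no_branch {G : SimpleGraph V} (hLC : LC G) {S0 S1 S2 S3 S4 : Finset V}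
    (h01 : S0 ⊆ S1) (h12 : S1 ⊆ S2) (h23 : S2 ⊆ S3) (h34 : S3 ⊆ S4)
    {u m x1 y1 x2 y2 x3 y3 : V}
    (hu : u ∈ S1) (hm : m ∈ S2) (hm' : m ∉ S1)
    (hx1 : x1 ∈ S3) (hx1' : x1 ∉ S2) (hy1 : y1 ∈ S3) (hy1' : y1 ∉ S2)
    (hx2 : x2 ∈ S4) (hx2' : x2 ∉ S3) (hy2 : y2 ∈ S4) (hy2' : y2 ∉ S3)
    (hx3 : x3 ∉ S4) (hy3 : y3 ∉ S4) (n1 : x1 ≠ y1) (n2 : x2 ≠ y2) (n3 : x3 ≠ y3)
    (nm : ¬ Att G m S0) (nx1 : ¬ Att G x1 S1) (ny1 : ¬ Att G y1 S1)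
    (nx2 : ¬ Att G x2 S2) (ny2 : ¬ Att G y2 S2) (nx3 : ¬ Att G x3 S3) (ny3 : ¬ Att G y3 S3)
    {Qu Qm Qx1 Qy1 Qx2 Qy2 Qx3 Qy3 : Finset V}
    (pu : IsP4 G Qu) (uu : u ∈ Qu) (su : Qu.erase u ⊆ S0)
    (pm : IsP4 G Qm) (px1 : IsP4 G Qx1) (py1 : IsP4 G Qy1) (px2 : IsP4 G Qx2) (py2 : IsP4 G Qy2)
    (px3 : IsP4 G Qx3) (py3 : IsP4 G Qy3)
    (mm : m ∈ Qm) (um : u ∈ Qm) (sm : Qm.erase m ⊆ Qu)
    (mx1 : x1 ∈ Qx1) (ux1 : m ∈ Qx1) (sx1 : Qx1.erase x1 ⊆ Qm)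
    (my1 : y1 ∈ Qy1) (uy1 : m ∈ Qy1) (sy1 : Qy1.erase y1 ⊆ Qm)
    (mx2 : x2 ∈ Qx2) (ux2 : x1 ∈ Qx2) (sx2 : Qx2.erase x2 ⊆ Qx1)
    (my2 : y2 ∈ Qy2) (uy2 : y1 ∈ Qy2) (sy2 : Qy2.erase y2 ⊆ Qy1)
    (mx3 : x3 ∈ Qx3) (ux3 : x2 ∈ Qx3) (sx3 : Qx3.erase x3 ⊆ Qx2)
    (my3 : y3 ∈ Qy3) (uy3 : y2 ∈ Qy3) (sy3 : Qy3.erase y3 ⊆ Qy2) : False := by
  have sub : ∀ {Q R : Finset V} {v : V}, Q.erase v ⊆ R → ∀ x ∈ Q, x = v ∨ x ∈ R := by
    intro Q R v h x hx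
    by_cases hxv : x = v
    · exact Or.inl hxv
    · exact Or.inr (h (mem_erase.2 ⟨hxv, hx⟩))
  -- the statement for a graph in which `u` is an end
  have main : ∀ (H : SimpleGraph V), LC H → (∀ Q, IsP4 H Q ↔ IsP4 G Q) →
      (∀ v T, Att H v T ↔ Att G v T) → ∀ b c d, P4 H u b c d → Qu = {u, b, c, d} → False := by
    intro H hH hI hA b c d hp hQ
    have mb : b ∈ S0 := su (mem_erase.2 ⟨hp.1.ne.symm, by rw [hQ]; simp⟩)
    have mc : c ∈ S0 := su (mem_erase.2 ⟨hp.2.2.2.2.2.2.1.symm, by rw [hQ]; simp⟩)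
    have md : d ∈ S0 := su (mem_erase.2 ⟨hp.2.2.2.2.2.2.2.1.symm, by rw [hQ]; simp⟩)
    have s1 : Qm ⊆ {m, u, b, c, d} := by
      intro x hx
      rcases sub sm x hx with h | h
      · simp [h]
      · rw [hQ] at h; exact mem_insert_of_mem h
    have s2 : Qx1 ⊆ {x1, m, u, b, c, d} := by
      intro x hx
      rcases sub sx1 x hx with h | h
      · simp [h]
      · exact mem_insert_of_mem (s1 h)
    have s3 : Qy1 ⊆ {y1, m, u, b, c, d} := by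
      intro x hx
      rcases sub sy1 x hx with h | h
      · simp [h]
      · exact mem_insert_of_mem (s1 h)
    have s4 : Qx2 ⊆ {x2, x1, m, u, b, c, d} := by
      intro x hx
      rcases sub sx2 x hx with h | h
      · simp [h]
      · exact mem_insert_of_mem (s2 h)
    have s5 : Qy2 ⊆ {y2, y1, m, u, b, c, d} := by
      intro x hx
      rcases sub sy2 x hx with h | h
      · simp [h]
      · exact mem_insert_of_mem (s3 h)
    have s6 : Qx3 ⊆ {x3, x2, x1, m, u, b, c, d} := by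
      intro x hx
      rcases sub sx3 x hx with h | h
      · simp [h]
      · exact mem_insert_of_mem (s4 h)
    have s7 : Qy3 ⊆ {y3, y2, y1, m, u, b, c, d} := by
      intro x hx
      rcases sub sy3 x hx with h | h
      · simp [h]
      · exact mem_insert_of_mem (s5 h)
    refine no_branch0 hH h01 h12 h23 (u := u) (b := b) (c := c) (d := d) (m := m) (x1 := x1)
      (y1 := y1) (x2 := x2) (y2 := y2) (x3 := x3) (y3 := y3) ?_ hp mb mc md hu hm hx1 hy1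
      (by rw [hA]; exact nm) (by rw [hA]; exact nx1) (by rw [hA]; exact ny1)
      (by rw [hA]; exact nx2) (by rw [hA]; exact ny2) (by rw [hA]; exact nx3)
      (by rw [hA]; exact ny3) ((hI _).2 pm) ((hI _).2 px1) ((hI _).2 py1) ((hI _).2 px2)
      ((hI _).2 py2) ((hI _).2 px3) ((hI _).2 py3) mm um s1 mx1 ux1 s2 my1 uy1 s3 mx2 ux2 s4
      my2 uy2 s5 mx3 ux3 s6 my3 uy3 s7
    -- distinctness
    have d1 := hp.1.ne
    have d2 := hp.2.1.ne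
    have d3 := hp.2.2.1.ne
    have d4 := hp.2.2.2.2.2.2.1
    have d5 := hp.2.2.2.2.2.2.2.1
    have d6 := hp.2.2.2.2.2.2.2.2
    have g : ∀ {x y : V} {S : Finset V}, x ∈ S → y ∉ S → x ≠ y := by
      intro x y S hx hy h; exact hy (h ▸ hx)
    have b1 := h01 mb; have c1 := h01 mc; have e1 := h01 md
    have b2 := h12 b1; have c2 := h12 c1; have e2 := h12 e1; have u2 := h12 hu
    have b3 := h23 b2; have c3 := h23 c2; have e3 := h23 e2; have u3 := h23 u2; have m3 := h23 hm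
    have b4 := h34 b3; have c4 := h34 c3; have e4 := h34 e3; have u4 := h34 u3; have m4 := h34 m3
    have x14 := h34 hx1; have y14 := h34 hy1
    simp only [List.nodup_cons, List.mem_cons, not_or, List.not_mem_nil, not_false_eq_true,
      and_true, List.nodup_nil]
    refine ⟨⟨d1, d4, d5, g hu hm', g u2 hx1', g u2 hy1', g u3 hx2', g u3 hy2', g u4 hx3, g u4 hy3⟩,
      ⟨d2, d6, g b1 hm', g b2 hx1', g b2 hy1', g b3 hx2', g b3 hy2', g b4 hx3, g b4 hy3⟩,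
      ⟨d3, g c1 hm', g c2 hx1', g c2 hy1', g c3 hx2', g c3 hy2', g c4 hx3, g c4 hy3⟩,
      ⟨g e1 hm', g e2 hx1', g e2 hy1', g e3 hx2', g e3 hy2', g e4 hx3, g e4 hy3⟩,
      ⟨g hm hx1', g hm hy1', g m3 hx2', g m3 hy2', g m4 hx3, g m4 hy3⟩,
      ⟨n1, g hx1 hx2', g hx1 hy2', g x14 hx3, g x14 hy3⟩,
      ⟨g hy1 hx2', g hy1 hy2', g y14 hx3, g y14 hy3⟩,
      ⟨n2, g hx2 hx3, g hx2 hy3⟩, ⟨g hy2 hx3, g hy2 hy3⟩, n3⟩
  rcases pu.ends uu with ⟨b, c, d, hp, hQ⟩ | ⟨b, c, d, hp, hQ⟩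
  · exact main G hLC (fun _ => Iff.rfl) (fun _ _ => Iff.rfl) b c d hp hQ
  · exact main Gᶜ hLC.compl (fun _ => isP4_compl) (fun _ _ => att_compl) b c d hp hQ

end Pool.Agent.H19
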