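import Pool.Agent.H19.CW.Chk

/-! Certificate: no forward branching. -/

namespace Pool.Agent.H19

open CT

def tbr_1 : CT := (br 5 6 (br 7 6 (br 9 6 (fb 4 6 1 9) (wi [(0,1,5,4),(4,5,1,7),(4,5,9,7),(0,1,6,4),(4,6,1,7),(4,6,9,7)])) (br 9 6 (fb 4 6 1 9) (br 0 8 (br 1 8 (br 2 8 (br 3 8 (br 4 8 (br 5 8 (br 6 8 (rq 4) (wi [(0,1,5,4),(4,5,1,7),(0,1,6,4),(0,1,6,8),(5,4,6,7),(5,1,6,8)])) (br 6 8 (rq 4) (wi [(0,1,5,4),(4,5,1,7),(0,1,6,4),(0,1,5,8),(5,4,6,7),(0,1,6,8)]))) (fb 1 2 4 8)) (fb 1 2 3 8)) (fb 0 1 2 8)) (br 2 8 (br 3 8 (fb 3 2 1 8) (fb 0 1 8 3)) (br 3 8 (br 4 8 (br 5 8 (br 6 8 (wi [(0,1,5,4),(4,5,1,7),(0,1,6,4),(4,5,1,8),(5,4,6,7),(4,6,1,8)]) (rq 4)) (br 6 8 (wi [(0,1,5,4),(4,5,1,7),(0,1,6,4),(4,6,1,8),(5,4,6,7),(6,4,5,8)])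 (rq 4))) (fb 0 1 8 4)) (fb 0 1 8 3)))) (br 1 8 (br 2 8 (fb 2 1 0 8) (br 3 8 (fb 0 8 2 3) (fb 1 0 8 3))) (br 2 8 (br 3 8 (fb 3 2 1 8) (fb 0 8 3 2)) (br 3 8 (fb 0 8 2 3) (br 4 8 (fb 0 8 2 4) (br 5 8 (wi [(0,1,2,4),(0,1,5,4),(4,5,1,7),(0,1,6,4),(0,8,2,5),(5,4,6,7),(0,8,4,5)]) (br 6 8 (wi [(0,1,2,4),(0,1,5,4),(4,5,1,7),(0,1,6,4),(0,8,2,6),(5,4,6,7),(0,8,4,6)]) (rq 4)))))))))) (br 7 6 (br 9 6 (fb 4 6 1 9) (wi [(0,1,5,4),(4,5,1,7),(4,5,9,7),(0,1,6,4),(4,6,1,7),(4,6,9,7)])) (br 9 6 (fb 4 6 1 9) (br 0 8 (br 1 8 (br 2 8 (br 3 8 (br 4 8 (br 5 8 (br 6 8 (rq 4) (br 7 8 (br 9 8 (br 0 10 (br 1 10 (br 2 10 (br 3 10 (br 4 10 (br 5 10 (br 6 10 (br 7 10 (br 8 10 (rq 6) (wi [(0,1,2,3),(0,1,2,4),(0,1,6,4),(0,1,6,8),(1,6,8,10),(3,2,6,8),(2,6,8,10)]))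 (wi [(0,1,2,3),(0,1,2,4),(0,1,5,4),(4,5,1,7),(0,1,7,10),(5,1,7,10),(3,2,7,10)])) (fb 0 1 6 10)) (fb 0 1 5 10)) (fb 1 2 4 10)) (fb 1 2 3 10)) (fb 0 1 2 10)) (br 2 10 (br 3 10 (fb 3 2 1 10) (fb 0 1 10 3)) (br 3 10 (br 4 10 (br 5 10 (fb 4 5 1 10) (br 6 10 (fb 4 6 1 10) (br 7 10 (br 8 10 (rq 6) (wi [(0,1,2,3),(0,1,2,4),(0,1,6,4),(0,1,6,8),(0,1,10,8),(3,2,6,8),(3,2,10,8)])) (br 8 10 (rq 6) (wi [(0,1,2,3),(0,1,2,4),(0,1,6,4),(0,1,6,8),(0,1,10,8),(3,2,6,8),(3,2,10,8)]))))) (fb 0 1 10 4)) (fb 0 1 10 3)))) (br 1 10 (br 2 10 (fb 2 1 0 10) (br 3 10 (fb 0 10 2 3) (fb 1 0 10 3))) (br 2 10 (br 3 10 (fb 3 2 1 10) (fb 0 10 3 2)) (br 3 10 (fb 0 10 2 3) (br 4 10 (fb 0 10 2 4) (br 5 10 (fb 0 10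 2 5) (br 6 10 (fb 0 10 2 6) (br 7 10 (wi [(0,1,2,3),(0,1,2,4),(0,1,5,4),(4,5,1,7),(0,10,2,7),(3,10,1,7),(4,10,1,7)]) (br 8 10 (wi [(0,1,2,3),(0,1,2,4),(0,1,6,4),(0,1,6,8),(0,10,6,8),(3,2,6,8),(3,10,6,8)]) (rq 6)))))))))) (wi [(0,1,2,3),(0,1,2,4),(0,1,6,4),(0,1,6,8),(0,1,9,8),(3,2,6,8),(3,2,9,8)])) (wi [(0,1,5,4),(4,5,1,7),(0,1,6,4),(0,1,6,8),(0,1,7,8),(5,1,7,8)]))) (br 6 8 (rq 4) (wi [(0,1,2,3),(0,1,2,4),(0,1,5,4),(0,1,6,4),(0,1,5,8),(3,2,5,8),(0,1,6,8)]))) (fb 1 2 4 8)) (fb 1 2 3 8)) (fb 0 1 2 8)) (br 2 8 (br 3 8 (fb 3 2 1 8) (fb 0 1 8 3)) (br 3 8 (br 4 8 (br 5 8 (br 6 8 (br 7 8 (br 9 8 (br 0 10 (br 1 10 (br 2 10 (br 3 10 (br 4 10 (br 5 10 (br 6 10 (br 7 10 (br 8 10 (rq 6)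 (wi [(0,1,5,4),(0,1,6,4),(4,5,1,8),(0,1,8,10),(4,6,1,8),(5,1,8,10)])) (wi [(0,1,5,4),(4,5,1,7),(0,1,6,4),(4,5,1,8),(0,1,7,10),(4,6,1,8),(5,1,7,10)])) (fb 0 1 6 10)) (fb 0 1 5 10)) (fb 1 2 4 10)) (fb 1 2 3 10)) (fb 0 1 2 10)) (br 2 10 (br 3 10 (fb 3 2 1 10) (fb 0 1 10 3)) (br 3 10 (br 4 10 (br 5 10 (fb 4 5 1 10) (br 6 10 (fb 4 6 1 10) (br 7 10 (br 8 10 (rq 6) (wi [(0,1,5,4),(0,1,6,4),(4,5,1,8),(4,5,10,8),(4,6,1,8),(4,6,10,8)])) (br 8 10 (rq 6) (wi [(0,1,5,4),(4,5,1,7),(0,1,6,4),(4,5,1,8),(4,5,10,7),(4,6,1,8),(4,5,10,8)]))))) (fb 0 1 10 4)) (fb 0 1 10 3)))) (br 1 10 (br 2 10 (fb 2 1 0 10) (br 3 10 (fb 0 10 2 3) (fb 1 0 10 3))) (br 2 10 (br 3 10 (fb 3 2 1 10) (fb 0 10 3 2)) (br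 3 10 (fb 0 10 2 3) (br 4 10 (fb 0 10 2 4) (br 5 10 (fb 0 10 2 5) (br 6 10 (fb 0 10 2 6) (br 7 10 (wi [(0,1,2,3),(0,1,2,4),(0,1,5,4),(4,5,1,7),(0,10,2,7),(3,10,1,7),(4,10,1,7)]) (br 8 10 (wi [(0,1,2,3),(0,1,2,4),(0,1,5,4),(4,5,1,8),(0,10,2,8),(3,10,1,8),(4,10,1,8)]) (rq 6)))))))))) (wi [(0,1,5,4),(4,5,1,7),(4,5,9,7),(0,1,6,4),(4,5,1,8),(4,6,1,8),(4,5,9,8)])) (wi [(0,1,5,4),(4,5,1,7),(0,1,6,4),(4,5,1,8),(4,6,1,8),(4,6,7,8)])) (rq 4)) (br 6 8 (br 7 8 (br 9 8 (wi [(0,1,5,4),(4,5,1,7),(4,5,9,7),(0,1,6,4),(4,6,1,8),(7,6,5,8),(7,9,5,8)]) (wi [(0,1,5,4),(4,5,1,7),(4,5,9,7),(0,1,6,4),(4,6,1,8),(7,6,5,8),(4,6,9,8)])) (wi [(0,1,5,4),(4,5,1,7),(0,1,6,4),(4,6,1,8),(4,5,8,7),(4,6,7,8)]))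 (rq 4))) (fb 0 1 8 4)) (fb 0 1 8 3)))) (br 1 8 (br 2 8 (fb 2 1 0 8) (br 3 8 (fb 0 8 2 3) (fb 1 0 8 3))) (br 2 8 (br 3 8 (fb 3 2 1 8) (fb 0 8 3 2)) (br 3 8 (fb 0 8 2 3) (br 4 8 (fb 0 8 2 4) (br 5 8 (wi [(0,1,2,3),(0,1,2,4),(0,1,5,4),(0,8,2,5),(0,8,4,5),(3,8,1,5)]) (br 6 8 (wi [(0,1,2,4),(0,1,5,4),(0,1,6,4),(0,8,2,6),(0,8,4,6),(0,8,5,6)]) (rq 4)))))))))))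

def tbr_2 : CT := (br 1 5 (br 2 5 (br 3 5 (br 4 5 (rq 1) (br 0 7 (br 1 7 (br 2 7 (br 3 7 (br 4 7 (br 5 7 (rq 3) (br 0 9 (br 1 9 (br 2 9 (br 3 9 (br 4 9 (br 5 9 (br 7 9 (rq 5) (br 0 6 (br 1 6 (br 2 6 (br 3 6 (br 4 6 (rq 2) (wi [(0,1,2,3),(0,1,2,4),(1,2,4,5),(1,2,4,6),(3,2,4,5),(3,2,4,6)])) (fb 1 2 3 6)) (fb 0 1 2 6)) (br 2 6 (br 3 6 (fb 3 2 1 6) (fb 0 1 6 3)) (br 3 6 (br 4 6 (rq 2) (br 5 6 (wi [(0,1,2,3),(0,1,2,4),(1,2,4,5),(0,1,6,4),(3,2,4,5),(1,6,4,5)]) (wi [(0,1,2,3),(0,1,2,4),(1,2,4,5),(0,1,6,4),(3,2,4,5),(0,1,6,5)]))) (fb 0 1 6 3)))) (br 1 6 (br 2 6 (fb 2 1 0 6) (br 3 6 (fb 0 6 2 3) (fb 1 0 6 3))) (br 2 6 (br 3 6 (fb 3 2 1 6) (fb 0 6 3 2)) (br 3 6 (fb 0 6 2 3) (br 4 6 (br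 5 6 (wi [(0,1,2,3),(0,1,2,4),(1,2,4,5),(0,6,2,4),(3,2,4,5),(5,4,2,6)]) (wi [(0,1,2,3),(0,1,2,4),(1,2,4,5),(0,6,2,4),(3,2,4,5),(0,6,5,4)])) (rq 2))))))) (fb 2 4 5 9)) (fb 1 2 4 9)) (fb 1 2 3 9)) (fb 0 1 2 9)) (br 2 9 (br 3 9 (fb 3 2 1 9) (fb 0 1 9 3)) (br 3 9 (br 4 9 (br 5 9 (fb 5 4 2 9) (fb 0 1 9 5)) (fb 0 1 9 4)) (fb 0 1 9 3)))) (br 1 9 (br 2 9 (fb 2 1 0 9) (br 3 9 (fb 0 9 2 3) (fb 1 0 9 3))) (br 2 9 (br 3 9 (fb 3 2 1 9) (fb 0 9 3 2)) (br 3 9 (fb 0 9 2 3) (br 4 9 (fb 0 9 2 4) (br 5 9 (fb 0 9 4 5) (br 7 9 (wi [(0,1,2,3),(0,1,2,4),(1,2,4,5),(2,4,5,7),(0,9,5,7),(3,2,4,5),(1,9,5,7)]) (rq 5))))))))) (fb 1 2 4 7)) (fb 1 2 3 7)) (fb 0 1 2 7)) (br 2 7 (br 3 7 (fb 3 2 1 7) (fb 0 1 7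 3)) (br 3 7 (br 4 7 (br 5 7 (br 0 9 (br 1 9 (br 2 9 (br 3 9 (br 4 9 (br 5 9 (br 7 9 (rq 5) (wi [(0,1,2,3),(0,1,2,4),(1,2,4,5),(5,4,2,7),(0,1,7,9),(3,2,4,5),(3,2,7,9)])) (fb 2 4 5 9)) (fb 1 2 4 9)) (fb 1 2 3 9)) (fb 0 1 2 9)) (br 2 9 (br 3 9 (fb 3 2 1 9) (fb 0 1 9 3)) (br 3 9 (br 4 9 (br 5 9 (fb 5 4 2 9) (fb 0 1 9 5)) (fb 0 1 9 4)) (fb 0 1 9 3)))) (br 1 9 (br 2 9 (fb 2 1 0 9) (br 3 9 (fb 0 9 2 3) (fb 1 0 9 3))) (br 2 9 (br 3 9 (fb 3 2 1 9) (fb 0 9 3 2)) (br 3 9 (fb 0 9 2 3) (br 4 9 (fb 0 9 2 4) (br 5 9 (fb 0 9 4 5) (br 7 9 (wi [(0,1,2,3),(0,1,2,4),(1,2,4,5),(5,4,2,7),(0,9,2,7),(3,2,4,5),(3,9,1,7)]) (rq 5)))))))) (wi [(0,1,2,3),(0,1,2,4),(1,2,4,5),(0,1,7,5),(3,2,4,5),(1,7,5,4)]))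 (fb 0 1 7 4)) (fb 0 1 7 3)))) (br 1 7 (br 2 7 (fb 2 1 0 7) (br 3 7 (fb 0 7 2 3) (fb 1 0 7 3))) (br 2 7 (br 3 7 (fb 3 2 1 7) (fb 0 7 3 2)) (br 3 7 (fb 0 7 2 3) (br 4 7 (fb 0 7 2 4) (br 5 7 (wi [(0,1,2,3),(0,1,2,4),(1,2,4,5),(0,7,4,5),(3,2,4,5),(1,7,4,5)]) (rq 3)))))))) (fb 1 2 3 5)) (fb 0 1 2 5)) (br 2 5 (br 3 5 (fb 3 2 1 5) (fb 0 1 5 3)) (br 3 5 (br 4 5 (rq 1) (br 0 7 (br 1 7 (br 2 7 (br 3 7 (br 4 7 (br 5 7 (rq 3) (br 0 9 (br 1 9 (br 2 9 (br 3 9 (br 4 9 (br 5 9 (br 7 9 (rq 5) (wi [(0,1,2,3),(0,1,2,4),(0,1,5,4),(0,1,5,7),(1,5,7,9),(3,2,5,7),(2,5,7,9)])) (fb 0 1 5 9)) (fb 1 2 4 9)) (fb 1 2 3 9)) (fb 0 1 2 9)) (br 2 9 (br 3 9 (fb 3 2 1 9) (fb 0 1 9 3)) (br 3 9 (br 4 9 (br 5 9 (fb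 4 5 1 9) (br 7 9 (rq 5) (wi [(0,1,2,3),(0,1,2,4),(0,1,5,4),(0,1,5,7),(0,1,9,7),(3,2,5,7),(3,2,9,7)]))) (fb 0 1 9 4)) (fb 0 1 9 3)))) (br 1 9 (br 2 9 (fb 2 1 0 9) (br 3 9 (fb 0 9 2 3) (fb 1 0 9 3))) (br 2 9 (br 3 9 (fb 3 2 1 9) (fb 0 9 3 2)) (br 3 9 (fb 0 9 2 3) (br 4 9 (fb 0 9 2 4) (br 5 9 (fb 0 9 2 5) (br 7 9 (wi [(0,1,2,3),(0,1,2,4),(0,1,5,4),(0,1,5,7),(0,9,5,7),(3,2,5,7),(3,9,5,7)]) (rq 5))))))))) (fb 1 2 4 7)) (fb 1 2 3 7)) (fb 0 1 2 7)) (br 2 7 (br 3 7 (fb 3 2 1 7) (fb 0 1 7 3)) (br 3 7 (br 4 7 (br 5 7 (br 0 9 (br 1 9 (br 2 9 (br 3 9 (br 4 9 (br 5 9 (br 7 9 (rq 5) (wi [(0,1,2,3),(0,1,2,4),(0,1,5,4),(4,5,1,7),(0,1,7,9),(5,1,7,9),(3,2,7,9)])) (fb 0 1 5 9)) (fb 1 2 4 9)) (fb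 1 2 3 9)) (fb 0 1 2 9)) (br 2 9 (br 3 9 (fb 3 2 1 9) (fb 0 1 9 3)) (br 3 9 (br 4 9 (br 5 9 (fb 4 5 1 9) (br 7 9 (rq 5) (br 0 6 (br 1 6 (br 2 6 (br 3 6 (br 4 6 (rq 2) (br 5 6 (wi [(0,1,2,3),(0,1,2,4),(0,1,5,4),(1,2,4,6),(3,2,4,6),(1,5,4,6)]) (wi [(0,1,2,3),(0,1,2,4),(0,1,5,4),(1,2,4,6),(3,2,4,6),(0,1,5,6)]))) (fb 1 2 3 6)) (fb 0 1 2 6)) (br 2 6 (br 3 6 (fb 3 2 1 6) (fb 0 1 6 3)) (br 3 6 (br 4 6 (rq 2) tbr_1) (fb 0 1 6 3)))) (br 1 6 (br 2 6 (fb 2 1 0 6) (br 3 6 (fb 0 6 2 3) (fb 1 0 6 3))) (br 2 6 (br 3 6 (fb 3 2 1 6) (fb 0 6 3 2)) (br 3 6 (fb 0 6 2 3) (br 4 6 (br 5 6 (wi [(0,1,2,3),(0,1,2,4),(0,1,5,4),(0,6,2,4),(0,6,2,5),(3,6,1,5)]) (wi [(0,1,2,3),(0,1,2,4),(0,1,5,4),(0,6,2,4),(0,6,5,4),(3,6,5,4)]))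 (rq 2)))))))) (fb 0 1 9 4)) (fb 0 1 9 3)))) (br 1 9 (br 2 9 (fb 2 1 0 9) (br 3 9 (fb 0 9 2 3) (fb 1 0 9 3))) (br 2 9 (br 3 9 (fb 3 2 1 9) (fb 0 9 3 2)) (br 3 9 (fb 0 9 2 3) (br 4 9 (fb 0 9 2 4) (br 5 9 (fb 0 9 2 5) (br 7 9 (wi [(0,1,2,3),(0,1,2,4),(0,1,5,4),(4,5,1,7),(0,9,2,7),(3,9,1,7),(4,9,1,7)]) (rq 5)))))))) (rq 3)) (fb 0 1 7 4)) (fb 0 1 7 3)))) (br 1 7 (br 2 7 (fb 2 1 0 7) (br 3 7 (fb 0 7 2 3) (fb 1 0 7 3))) (br 2 7 (br 3 7 (fb 3 2 1 7) (fb 0 7 3 2)) (br 3 7 (fb 0 7 2 3) (br 4 7 (fb 0 7 2 4) (br 5 7 (wi [(0,1,2,3),(0,1,2,4),(0,1,5,4),(0,7,2,5),(0,7,4,5),(3,7,1,5)]) (rq 3)))))))) (fb 0 1 5 3))))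

def tbr_3 : CT := (br 0 6 (br 1 6 (br 2 6 (br 3 6 (br 4 6 (rq 2) (br 5 6 (wi [(0,1,2,3),(0,1,2,4),(0,5,2,4),(1,2,4,6),(3,2,4,6),(5,2,4,6)]) (wi [(0,1,2,3),(0,1,2,4),(0,5,2,4),(1,2,4,6),(3,2,4,6),(0,5,6,4)]))) (fb 1 2 3 6)) (fb 0 1 2 6)) (br 2 6 (br 3 6 (fb 3 2 1 6) (fb 0 1 6 3)) (br 3 6 (br 4 6 (rq 2) (br 5 6 (wi [(0,1,2,3),(0,1,2,4),(0,5,2,4),(0,1,6,4),(0,5,2,6),(3,5,1,6)]) (wi [(0,1,2,3),(0,1,2,4),(0,5,2,4),(0,1,6,4),(0,5,6,4),(3,5,6,4)]))) (fb 0 1 6 3)))) (br 1 6 (br 2 6 (fb 2 1 0 6) (br 3 6 (fb 0 6 2 3) (fb 1 0 6 3))) (br 2 6 (br 3 6 (fb 3 2 1 6) (fb 0 6 3 2)) (br 3 6 (fb 0 6 2 3) (br 4 6 (br 5 6 (br 7 6 (wi [(0,1,2,4),(0,5,2,4),(4,2,5,7),(0,6,2,4),(6,0,5,7),(6,1,5,7)])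 (br 9 6 (fb 4 9 0 6) (wi [(0,5,2,4),(4,2,5,7),(4,9,5,7),(0,6,2,4),(4,2,6,7),(4,9,6,7)]))) (br 7 6 (br 9 6 (fb 4 9 0 6) (br 0 8 (br 1 8 (br 2 8 (br 3 8 (br 4 8 (br 5 8 (br 6 8 (rq 4) (br 7 8 (br 9 8 (wi [(0,5,2,4),(4,2,5,7),(4,9,5,7),(0,6,2,4),(4,2,6,8),(7,5,6,8),(4,9,6,8)]) (wi [(0,5,2,4),(4,2,5,7),(4,9,5,7),(0,6,2,4),(4,2,6,8),(7,5,6,8),(7,5,9,8)])) (wi [(0,5,2,4),(4,2,5,7),(0,6,2,4),(4,2,6,8),(0,5,7,8),(0,6,8,7)]))) (br 6 8 (rq 4) (br 7 8 (br 9 8 (wi [(0,5,2,4),(4,2,5,7),(4,9,5,7),(0,6,2,4),(4,2,5,8),(4,2,6,8),(4,9,5,8)]) (br 0 10 (br 1 10 (br 2 10 (br 3 10 (br 4 10 (br 5 10 (br 6 10 (br 7 10 (br 8 10 (rq 6) (wi [(0,5,2,4),(0,6,2,4),(4,2,5,8),(0,5,8,10),(4,2,6,8),(0,6,8,10)]))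 (wi [(0,1,2,4),(0,5,2,4),(4,2,5,7),(0,5,7,10),(1,5,7,10),(2,5,7,10)])) (fb 4 2 6 10)) (fb 4 2 5 10)) (fb 1 2 4 10)) (fb 1 2 3 10)) (fb 0 1 2 10)) (br 2 10 (br 3 10 (fb 3 2 1 10) (fb 0 1 10 3)) (br 3 10 (br 4 10 (br 5 10 (fb 0 5 2 10) (br 6 10 (fb 0 6 2 10) (br 7 10 (br 8 10 (rq 6) (wi [(0,1,2,3),(0,1,2,4),(0,5,2,4),(4,2,5,8),(0,1,10,8),(3,2,10,8),(4,2,10,8)])) (wi [(0,1,2,3),(0,1,2,4),(0,5,2,4),(4,2,5,7),(0,1,10,7),(3,2,10,7),(4,2,10,7)])))) (fb 0 1 10 4)) (fb 0 1 10 3)))) (br 1 10 (br 2 10 (fb 2 1 0 10) (br 3 10 (fb 0 10 2 3) (fb 1 0 10 3))) (br 2 10 (br 3 10 (fb 3 2 1 10) (fb 0 10 3 2)) (br 3 10 (fb 0 10 2 3) (br 4 10 (fb 0 10 2 4) (br 5 10 (fb 4 10 0 5) (br 6 10 (fb 4 10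 0 6) (br 7 10 (br 8 10 (wi [(0,5,2,4),(4,2,5,7),(0,6,2,4),(4,2,5,8),(4,10,5,7),(4,2,6,8),(4,10,5,8)]) (rq 6)) (br 8 10 (wi [(0,5,2,4),(0,6,2,4),(4,2,5,8),(4,10,5,8),(4,2,6,8),(4,10,6,8)]) (rq 6))))))))))) (wi [(0,5,2,4),(4,2,5,7),(0,6,2,4),(4,2,5,8),(4,2,6,8),(0,6,8,7)])))) (fb 1 2 4 8)) (fb 1 2 3 8)) (fb 0 1 2 8)) (br 2 8 (br 3 8 (fb 3 2 1 8) (fb 0 1 8 3)) (br 3 8 (br 4 8 (br 5 8 (br 6 8 (wi [(0,1,2,3),(0,1,2,4),(0,5,2,4),(0,6,2,4),(0,5,2,8),(3,5,1,8),(0,6,2,8)]) (rq 4)) (br 6 8 (br 7 8 (br 9 8 (wi [(0,1,2,3),(0,1,2,4),(0,6,2,4),(0,6,2,8),(0,9,2,8),(3,6,1,8),(3,9,1,8)]) (br 0 10 (br 1 10 (br 2 10 (br 3 10 (br 4 10 (br 5 10 (br 6 10 (br 7 10 (br 8 10 (rq 6) (wi [(0,1,2,3),(0,1,2,4),(0,6,2,4),(0,6,2,8),(0,1,8,10),(3,6,1,8),(6,1,8,10)]))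 (wi [(0,1,2,4),(0,5,2,4),(4,2,5,7),(0,5,7,10),(1,5,7,10),(2,5,7,10)])) (fb 4 2 6 10)) (fb 4 2 5 10)) (fb 1 2 4 10)) (fb 1 2 3 10)) (fb 0 1 2 10)) (br 2 10 (br 3 10 (fb 3 2 1 10) (fb 0 1 10 3)) (br 3 10 (br 4 10 (br 5 10 (fb 0 5 2 10) (br 6 10 (fb 0 6 2 10) (br 7 10 (br 8 10 (rq 6) (wi [(0,1,2,3),(0,1,2,4),(0,6,2,4),(0,6,2,8),(0,6,10,8),(3,6,1,8),(3,6,10,8)])) (wi [(0,1,2,3),(0,1,2,4),(0,5,2,4),(4,2,5,7),(0,1,10,7),(3,2,10,7),(4,2,10,7)])))) (fb 0 1 10 4)) (fb 0 1 10 3)))) (br 1 10 (br 2 10 (fb 2 1 0 10) (br 3 10 (fb 0 10 2 3) (fb 1 0 10 3))) (br 2 10 (br 3 10 (fb 3 2 1 10) (fb 0 10 3 2)) (br 3 10 (fb 0 10 2 3) (br 4 10 (fb 0 10 2 4) (br 5 10 (fb 4 10 0 5) (br 6 10 (fb 4 10 0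 6) (br 7 10 (br 8 10 (wi [(0,1,2,3),(0,1,2,4),(0,6,2,4),(0,6,2,8),(0,10,2,8),(3,6,1,8),(3,10,1,8)]) (rq 6)) (br 8 10 (wi [(0,1,2,3),(0,1,2,4),(0,6,2,4),(0,6,2,8),(0,10,2,8),(3,6,1,8),(3,10,1,8)]) (rq 6))))))))))) (wi [(0,1,2,3),(0,1,2,4),(0,6,2,4),(0,6,2,8),(0,1,8,7),(3,6,1,8),(6,1,8,7)])) (rq 4))) (fb 0 1 8 4)) (fb 0 1 8 3)))) (br 1 8 (br 2 8 (fb 2 1 0 8) (br 3 8 (fb 0 8 2 3) (fb 1 0 8 3))) (br 2 8 (br 3 8 (fb 3 2 1 8) (fb 0 8 3 2)) (br 3 8 (fb 0 8 2 3) (br 4 8 (fb 0 8 2 4) (br 5 8 (wi [(0,1,2,3),(0,1,2,4),(0,5,2,4),(4,8,0,5),(4,8,1,5),(4,8,3,5)]) (br 6 8 (wi [(0,1,2,3),(0,1,2,4),(0,6,2,4),(4,8,0,6),(4,8,1,6),(4,8,3,6)]) (rq 4))))))))) (br 9 6 (fb 4 9 0 6) (wi [(0,5,2,4),(4,2,5,7),(4,9,5,7),(0,6,2,4),(4,2,6,7),(4,9,6,7)]))))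 (rq 2))))))

def tbr_4 : CT := (br 0 7 (br 1 7 (br 2 7 (br 3 7 (br 4 7 (br 5 7 (rq 3) (br 0 9 (br 1 9 (br 2 9 (br 3 9 (br 4 9 (br 5 9 (br 7 9 (rq 5) (br 0 6 (br 1 6 (br 2 6 (br 3 6 (br 4 6 (rq 2) (br 5 6 (br 7 6 (wi [(0,1,2,3),(0,1,2,4),(1,2,4,5),(2,4,5,7),(1,2,4,6),(3,4,5,7),(6,4,5,7)]) (wi [(0,1,2,3),(0,1,2,4),(1,2,4,5),(2,4,5,7),(1,2,4,6),(3,4,5,7),(2,4,6,7)])) (br 7 6 (br 9 6 (br 0 8 (br 1 8 (br 2 8 (br 3 8 (br 4 8 (br 5 8 (br 6 8 (rq 4) (br 7 8 (wi [(1,2,4,5),(2,4,5,7),(3,4,5,7),(1,2,4,6),(2,4,6,8),(3,4,6,8),(7,5,6,8)]) (wi [(1,2,4,5),(2,4,5,7),(3,4,5,7),(1,2,4,6),(2,4,6,8),(3,4,6,8),(4,5,7,8)]))) (wi [(0,1,2,3),(0,1,2,4),(1,2,4,5),(2,4,5,7),(2,4,5,8),(3,4,5,7),(3,4,5,8)]))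 (fb 1 2 4 8)) (fb 1 2 3 8)) (fb 0 1 2 8)) (br 2 8 (br 3 8 (fb 3 2 1 8) (fb 0 1 8 3)) (br 3 8 (br 4 8 (br 5 8 (br 6 8 (wi [(1,2,4,5),(2,4,5,7),(4,5,7,9),(1,2,4,6),(5,4,2,8),(6,5,7,9),(6,4,2,8)]) (wi [(0,1,2,4),(1,2,4,5),(1,2,4,6),(5,4,2,8),(0,1,8,6),(1,8,6,4)])) (wi [(0,1,2,3),(0,1,2,4),(1,2,4,5),(2,4,5,7),(0,1,8,5),(3,4,5,7),(1,8,5,4)])) (fb 0 1 8 4)) (fb 0 1 8 3)))) (br 1 8 (br 2 8 (fb 2 1 0 8) (br 3 8 (fb 0 8 2 3) (fb 1 0 8 3))) (br 2 8 (br 3 8 (fb 3 2 1 8) (fb 0 8 3 2)) (br 3 8 (fb 0 8 2 3) (br 4 8 (fb 0 8 2 4) (br 5 8 (wi [(0,1,2,3),(0,1,2,4),(1,2,4,5),(2,4,5,7),(0,8,4,5),(3,4,5,7),(1,8,4,5)]) (br 6 8 (wi [(0,1,2,4),(1,2,4,5),(1,2,4,6),(0,8,4,6),(0,8,5,6),(1,8,4,6)]) (rq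 4)))))))) (fb 2 4 6 9)) (wi [(0,1,2,3),(0,1,2,4),(1,2,4,5),(2,4,5,7),(1,2,4,6),(3,4,5,7),(2,4,6,7)])))) (fb 1 2 3 6)) (fb 0 1 2 6)) (br 2 6 (br 3 6 (fb 3 2 1 6) (fb 0 1 6 3)) (br 3 6 (br 4 6 (rq 2) (wi [(0,1,2,3),(0,1,2,4),(1,2,4,5),(2,4,5,7),(0,1,6,4),(3,4,5,7),(1,6,4,3)])) (fb 0 1 6 3)))) (br 1 6 (br 2 6 (fb 2 1 0 6) (br 3 6 (fb 0 6 2 3) (fb 1 0 6 3))) (br 2 6 (br 3 6 (fb 3 2 1 6) (fb 0 6 3 2)) (br 3 6 (fb 0 6 2 3) (br 4 6 (wi [(0,1,2,3),(0,1,2,4),(1,2,4,5),(2,4,5,7),(0,6,2,4),(3,4,5,7),(0,6,3,4)]) (rq 2))))))) (fb 2 4 5 9)) (fb 1 2 4 9)) (fb 1 2 3 9)) (fb 0 1 2 9)) (br 2 9 (br 3 9 (fb 3 2 1 9) (fb 0 1 9 3)) (br 3 9 (br 4 9 (br 5 9 (fb 5 4 2 9) (fb 0 1 9 5)) (fb 0 1 9 4))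 (fb 0 1 9 3)))) (br 1 9 (br 2 9 (fb 2 1 0 9) (br 3 9 (fb 0 9 2 3) (fb 1 0 9 3))) (br 2 9 (br 3 9 (fb 3 2 1 9) (fb 0 9 3 2)) (br 3 9 (fb 0 9 2 3) (br 4 9 (fb 0 9 2 4) (br 5 9 (fb 0 9 4 5) (br 7 9 (wi [(0,1,2,3),(0,1,2,4),(1,2,4,5),(2,4,5,7),(0,9,5,7),(3,4,5,7),(1,9,5,7)]) (rq 5))))))))) (fb 1 2 4 7)) (fb 1 2 3 7)) (fb 0 1 2 7)) (br 2 7 (br 3 7 (fb 3 2 1 7) (fb 0 1 7 3)) (br 3 7 (br 4 7 (br 5 7 (br 0 9 (br 1 9 (br 2 9 (br 3 9 (br 4 9 (br 5 9 (br 7 9 (rq 5) (wi [(0,1,2,3),(0,1,2,4),(1,2,4,5),(5,4,2,7),(0,1,7,9),(3,2,7,9),(4,2,7,9)])) (fb 2 4 5 9)) (fb 1 2 4 9)) (fb 1 2 3 9)) (fb 0 1 2 9)) (br 2 9 (br 3 9 (fb 3 2 1 9) (fb 0 1 9 3)) (br 3 9 (br 4 9 (br 5 9 (fb 5 4 2 9) (fb 0 1 9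 5)) (fb 0 1 9 4)) (fb 0 1 9 3)))) (br 1 9 (br 2 9 (fb 2 1 0 9) (br 3 9 (fb 0 9 2 3) (fb 1 0 9 3))) (br 2 9 (br 3 9 (fb 3 2 1 9) (fb 0 9 3 2)) (br 3 9 (fb 0 9 2 3) (br 4 9 (fb 0 9 2 4) (br 5 9 (fb 0 9 4 5) (br 7 9 (wi [(0,1,2,3),(0,1,2,4),(1,2,4,5),(5,4,2,7),(0,9,2,7),(3,9,1,7),(4,9,1,7)]) (rq 5)))))))) (wi [(0,1,2,3),(0,1,2,4),(1,2,4,5),(0,1,7,5),(1,7,5,4),(3,2,7,5)])) (fb 0 1 7 4)) (fb 0 1 7 3)))) (br 1 7 (br 2 7 (fb 2 1 0 7) (br 3 7 (fb 0 7 2 3) (fb 1 0 7 3))) (br 2 7 (br 3 7 (fb 3 2 1 7) (fb 0 7 3 2)) (br 3 7 (fb 0 7 2 3) (br 4 7 (fb 0 7 2 4) (br 5 7 (br 0 9 (br 1 9 (br 2 9 (br 3 9 (br 4 9 (br 5 9 (br 7 9 (rq 5) (br 0 6 (br 1 6 (br 2 6 (br 3 6 (br 4 6 (rq 2) (br 5 6 (br 7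 6 (wi [(0,1,2,4),(1,2,4,5),(0,7,4,5),(1,2,4,6),(1,7,4,5),(0,7,4,6)]) (br 9 6 (br 0 8 (br 1 8 (br 2 8 (br 3 8 (br 4 8 (br 5 8 (br 6 8 (rq 4) (wi [(0,1,2,3),(0,1,2,4),(1,2,4,5),(1,2,4,6),(2,4,6,8),(3,4,6,8),(5,4,6,8)])) (wi [(0,1,2,3),(0,1,2,4),(1,2,4,5),(0,7,4,5),(2,4,5,8),(1,7,4,5),(3,4,5,8)])) (fb 1 2 4 8)) (fb 1 2 3 8)) (fb 0 1 2 8)) (br 2 8 (br 3 8 (fb 3 2 1 8) (fb 0 1 8 3)) (br 3 8 (br 4 8 (br 5 8 (br 6 8 (wi [(0,1,2,4),(1,2,4,5),(0,7,4,5),(1,2,4,6),(5,4,2,8),(1,7,4,5),(6,4,2,8)]) (wi [(0,1,2,4),(1,2,4,5),(0,7,4,5),(1,2,4,6),(5,4,2,8),(1,7,4,5),(0,1,8,6)])) (wi [(0,1,2,4),(1,2,4,5),(0,7,4,5),(0,1,8,5),(1,7,4,5),(1,8,5,4)])) (fb 0 1 8 4)) (fb 0 1 8 3)))) (br 1 8 (br 2 8 (fb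 2 1 0 8) (br 3 8 (fb 0 8 2 3) (fb 1 0 8 3))) (br 2 8 (br 3 8 (fb 3 2 1 8) (fb 0 8 3 2)) (br 3 8 (fb 0 8 2 3) (br 4 8 (fb 0 8 2 4) (br 5 8 (wi [(0,1,2,4),(1,2,4,5),(0,7,4,5),(0,8,4,5),(1,7,4,5),(1,8,4,5)]) (br 6 8 (wi [(0,1,2,4),(1,2,4,5),(0,7,4,5),(1,2,4,6),(0,8,4,6),(1,7,4,5),(1,8,4,6)]) (rq 4)))))))) (fb 2 4 6 9))) (br 7 6 (wi [(0,1,2,4),(1,2,4,5),(0,7,4,5),(1,2,4,6),(1,7,4,5),(0,7,4,6)]) (wi [(0,1,2,4),(1,2,4,5),(0,7,4,5),(1,2,4,6),(1,7,4,5),(0,7,6,5)])))) (fb 1 2 3 6)) (fb 0 1 2 6)) (br 2 6 (br 3 6 (fb 3 2 1 6) (fb 0 1 6 3)) (br 3 6 (br 4 6 (rq 2) (wi [(0,1,2,3),(0,1,2,4),(1,2,4,5),(0,7,4,5),(0,1,6,4),(1,7,4,5),(1,6,4,3)])) (fb 0 1 6 3)))) (br 1 6 (br 2 6 (fb 2 1 0 6) (br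 3 6 (fb 0 6 2 3) (fb 1 0 6 3))) (br 2 6 (br 3 6 (fb 3 2 1 6) (fb 0 6 3 2)) (br 3 6 (fb 0 6 2 3) (br 4 6 (wi [(0,1,2,3),(0,1,2,4),(1,2,4,5),(0,7,4,5),(0,6,2,4),(1,7,4,5),(0,6,3,4)]) (rq 2))))))) (fb 2 4 5 9)) (fb 1 2 4 9)) (fb 1 2 3 9)) (fb 0 1 2 9)) (br 2 9 (br 3 9 (fb 3 2 1 9) (fb 0 1 9 3)) (br 3 9 (br 4 9 (br 5 9 (fb 5 4 2 9) (fb 0 1 9 5)) (fb 0 1 9 4)) (fb 0 1 9 3)))) (br 1 9 (br 2 9 (fb 2 1 0 9) (br 3 9 (fb 0 9 2 3) (fb 1 0 9 3))) (br 2 9 (br 3 9 (fb 3 2 1 9) (fb 0 9 3 2)) (br 3 9 (fb 0 9 2 3) (br 4 9 (fb 0 9 2 4) (br 5 9 (fb 0 9 4 5) (br 7 9 (wi [(0,1,2,4),(1,2,4,5),(0,7,4,5),(5,9,0,7),(1,7,4,5),(5,9,1,7)]) (rq 5)))))))) (rq 3)))))))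

def tbr_5 : CT := (br 0 7 (br 1 7 (br 2 7 (br 3 7 (br 4 7 (br 5 7 (rq 3) (br 0 9 (br 1 9 (br 2 9 (br 3 9 (br 4 9 (br 5 9 (br 7 9 (rq 5) (wi [(0,1,4,3),(0,5,3,4),(4,1,5,7),(0,5,7,9),(4,3,5,7),(1,5,7,9)])) (fb 4 1 5 9)) (fb 0 1 4 9)) (fb 1 2 3 9)) (fb 0 1 2 9)) (br 2 9 (br 3 9 (fb 3 2 1 9) (fb 0 1 9 3)) (br 3 9 (br 4 9 (fb 3 4 1 9) (br 5 9 (fb 0 5 2 9) (fb 0 5 9 4))) (fb 0 1 9 3)))) (br 1 9 (br 2 9 (fb 2 1 0 9) (br 3 9 (fb 0 9 2 3) (fb 1 0 9 3))) (br 2 9 (br 3 9 (fb 3 2 1 9) (fb 0 9 3 2)) (br 3 9 (fb 0 9 2 3) (br 4 9 (fb 0 9 3 4) (br 5 9 (fb 4 9 0 5) (br 7 9 (br 0 6 (br 1 6 (br 2 6 (br 3 6 (br 4 6 (rq 2) (wi [(0,1,2,3),(0,1,4,3),(0,5,3,4),(4,1,5,7),(0,1,4,6),(4,3,5,7),(2,1,4,6)]))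 (fb 1 2 3 6)) (fb 0 1 2 6)) (br 2 6 (br 3 6 (fb 3 2 1 6) (fb 0 1 6 3)) (br 3 6 (br 4 6 (wi [(0,1,2,3),(0,1,4,3),(0,5,3,4),(4,1,5,7),(3,4,1,6),(4,3,5,7),(4,3,2,6)]) (rq 2)) (fb 0 1 6 3)))) (br 1 6 (br 2 6 (fb 2 1 0 6) (br 3 6 (fb 0 6 2 3) (fb 1 0 6 3))) (br 2 6 (br 3 6 (fb 3 2 1 6) (fb 0 6 3 2)) (br 3 6 (fb 0 6 2 3) (br 4 6 (br 5 6 (br 7 6 (wi [(0,1,4,3),(0,5,3,4),(4,1,5,7),(0,6,3,4),(4,3,5,7),(6,0,5,7)]) (wi [(0,1,4,3),(0,5,3,4),(4,1,5,7),(0,6,3,4),(4,3,5,7),(4,1,6,7)])) (br 7 6 (br 9 6 (fb 4 9 0 6) (br 0 8 (br 1 8 (br 2 8 (br 3 8 (br 4 8 (br 5 8 (br 6 8 (rq 4) (wi [(0,1,4,3),(0,5,3,4),(4,1,5,7),(0,6,3,4),(4,1,6,8),(4,3,5,7),(4,3,6,8)])) (wi [(0,1,4,3),(0,5,3,4),(4,1,5,7),(4,1,5,8),(4,3,5,7),(4,3,5,8)]))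 (fb 0 1 4 8)) (fb 1 2 3 8)) (fb 0 1 2 8)) (br 2 8 (br 3 8 (fb 3 2 1 8) (fb 0 1 8 3)) (br 3 8 (br 4 8 (fb 3 4 1 8) (br 5 8 (wi [(0,1,2,3),(0,1,4,3),(0,5,3,4),(4,1,5,7),(0,5,2,8),(4,3,5,7),(3,5,1,8)]) (br 6 8 (wi [(0,1,2,3),(0,1,4,3),(0,5,3,4),(0,6,3,4),(0,5,8,4),(0,6,2,8),(3,6,1,8)]) (wi [(0,1,4,3),(0,5,3,4),(4,1,5,7),(0,6,3,4),(0,5,8,4),(4,3,5,7),(0,6,8,4)])))) (fb 0 1 8 3)))) (br 1 8 (br 2 8 (fb 2 1 0 8) (br 3 8 (fb 0 8 2 3) (fb 1 0 8 3))) (br 2 8 (br 3 8 (fb 3 2 1 8) (fb 0 8 3 2)) (br 3 8 (fb 0 8 2 3) (br 4 8 (fb 0 8 3 4) (br 5 8 (wi [(0,1,2,3),(0,1,4,3),(0,5,3,4),(4,1,5,7),(4,8,0,5),(4,3,5,7),(4,8,2,5)]) (br 6 8 (wi [(0,1,2,3),(0,1,4,3),(0,5,3,4),(0,6,3,4),(4,8,0,6),(4,8,2,6),(4,8,5,6)])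 (rq 4))))))))) (wi [(0,1,4,3),(0,5,3,4),(4,1,5,7),(0,6,3,4),(4,3,5,7),(4,1,6,7)]))) (rq 2)))))) (rq 5))))))))) (fb 0 1 4 7)) (fb 1 2 3 7)) (fb 0 1 2 7)) (br 2 7 (br 3 7 (fb 3 2 1 7) (fb 0 1 7 3)) (br 3 7 (br 4 7 (fb 3 4 1 7) (br 5 7 (wi [(0,1,2,3),(0,1,4,3),(0,5,3,4),(0,5,2,7),(3,5,1,7),(4,7,2,5)]) (br 0 9 (br 1 9 (br 2 9 (br 3 9 (br 4 9 (br 5 9 (br 7 9 (rq 5) (wi [(0,1,2,3),(0,1,4,3),(0,5,3,4),(0,5,7,4),(0,1,7,9),(0,5,7,9),(3,2,7,9)])) (fb 4 1 5 9)) (fb 0 1 4 9)) (fb 1 2 3 9)) (fb 0 1 2 9)) (br 2 9 (br 3 9 (fb 3 2 1 9) (fb 0 1 9 3)) (br 3 9 (br 4 9 (fb 3 4 1 9) (br 5 9 (fb 0 5 2 9) (fb 0 5 9 4))) (fb 0 1 9 3)))) (br 1 9 (br 2 9 (fb 2 1 0 9) (br 3 9 (fb 0 9 2 3) (fb 1 0 9 3)))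 (br 2 9 (br 3 9 (fb 3 2 1 9) (fb 0 9 3 2)) (br 3 9 (fb 0 9 2 3) (br 4 9 (fb 0 9 3 4) (br 5 9 (fb 4 9 0 5) (br 7 9 (wi [(0,1,2,3),(0,1,4,3),(0,5,3,4),(0,5,7,4),(0,9,2,7),(0,9,4,7),(3,9,1,7)]) (rq 5)))))))))) (fb 0 1 7 3)))) (br 1 7 (br 2 7 (fb 2 1 0 7) (br 3 7 (fb 0 7 2 3) (fb 1 0 7 3))) (br 2 7 (br 3 7 (fb 3 2 1 7) (fb 0 7 3 2)) (br 3 7 (fb 0 7 2 3) (br 4 7 (fb 0 7 3 4) (br 5 7 (br 0 9 (br 1 9 (br 2 9 (br 3 9 (br 4 9 (br 5 9 (br 7 9 (rq 5) (wi [(0,1,2,3),(0,1,4,3),(0,5,3,4),(4,7,0,5),(5,0,7,9),(4,7,2,5),(5,1,7,9)])) (fb 4 1 5 9)) (fb 0 1 4 9)) (fb 1 2 3 9)) (fb 0 1 2 9)) (br 2 9 (br 3 9 (fb 3 2 1 9) (fb 0 1 9 3)) (br 3 9 (br 4 9 (fb 3 4 1 9) (br 5 9 (fb 0 5 2 9) (fb 0 5 9 4)))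 (fb 0 1 9 3)))) (br 1 9 (br 2 9 (fb 2 1 0 9) (br 3 9 (fb 0 9 2 3) (fb 1 0 9 3))) (br 2 9 (br 3 9 (fb 3 2 1 9) (fb 0 9 3 2)) (br 3 9 (fb 0 9 2 3) (br 4 9 (fb 0 9 3 4) (br 5 9 (fb 4 9 0 5) (br 7 9 (br 0 6 (br 1 6 (br 2 6 (br 3 6 (br 4 6 (rq 2) (wi [(0,1,2,3),(0,1,4,3),(0,5,3,4),(4,7,0,5),(0,1,4,6),(4,7,2,5),(2,1,4,6)])) (fb 1 2 3 6)) (fb 0 1 2 6)) (br 2 6 (br 3 6 (fb 3 2 1 6) (fb 0 1 6 3)) (br 3 6 (br 4 6 (wi [(0,1,2,3),(0,1,4,3),(0,5,3,4),(4,7,0,5),(3,4,1,6),(4,7,2,5),(4,3,2,6)]) (rq 2)) (fb 0 1 6 3)))) (br 1 6 (br 2 6 (fb 2 1 0 6) (br 3 6 (fb 0 6 2 3) (fb 1 0 6 3))) (br 2 6 (br 3 6 (fb 3 2 1 6) (fb 0 6 3 2)) (br 3 6 (fb 0 6 2 3) (br 4 6 (br 5 6 (br 7 6 (wi [(0,1,2,3),(0,1,4,3),(0,5,3,4),(4,7,0,5),(0,6,3,4),(4,7,2,5),(4,7,0,6)])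 (br 9 6 (fb 4 9 0 6) (br 0 8 (br 1 8 (br 2 8 (br 3 8 (br 4 8 (br 5 8 (br 6 8 (rq 4) (wi [(0,1,4,3),(0,5,3,4),(0,6,3,4),(5,0,6,8),(4,1,6,8),(5,1,6,8)])) (wi [(0,1,2,3),(0,1,4,3),(0,5,3,4),(4,7,0,5),(4,1,5,8),(4,7,2,5),(4,3,5,8)])) (fb 0 1 4 8)) (fb 1 2 3 8)) (fb 0 1 2 8)) (br 2 8 (br 3 8 (fb 3 2 1 8) (fb 0 1 8 3)) (br 3 8 (br 4 8 (fb 3 4 1 8) (br 5 8 (wi [(0,1,2,3),(0,1,4,3),(0,5,3,4),(4,7,0,5),(0,5,2,8),(4,7,2,5),(3,5,1,8)]) (br 6 8 (wi [(0,1,2,3),(0,1,4,3),(0,5,3,4),(0,6,3,4),(0,5,8,4),(0,6,2,8),(6,0,5,8)]) (wi [(0,5,3,4),(4,7,0,5),(5,9,4,7),(0,6,3,4),(0,5,8,4),(5,9,6,7),(0,6,8,4)])))) (fb 0 1 8 3)))) (br 1 8 (br 2 8 (fb 2 1 0 8) (br 3 8 (fb 0 8 2 3) (fb 1 0 8 3))) (br 2 8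 (br 3 8 (fb 3 2 1 8) (fb 0 8 3 2)) (br 3 8 (fb 0 8 2 3) (br 4 8 (fb 0 8 3 4) (br 5 8 (wi [(0,1,2,3),(0,1,4,3),(0,5,3,4),(4,7,0,5),(4,8,0,5),(4,7,2,5),(4,8,2,5)]) (br 6 8 (br 7 8 (wi [(0,5,3,4),(4,7,0,5),(4,7,2,5),(0,6,3,4),(4,8,0,6),(4,8,2,6),(5,8,4,7)]) (wi [(0,5,3,4),(4,7,0,5),(4,7,2,5),(0,6,3,4),(4,8,0,6),(4,8,2,6),(5,8,7,6)])) (rq 4)))))))))) (br 7 6 (wi [(0,1,2,3),(0,1,4,3),(0,5,3,4),(4,7,0,5),(0,6,3,4),(4,7,2,5),(4,7,0,6)]) (wi [(0,1,2,3),(0,1,4,3),(0,5,3,4),(4,7,0,5),(0,6,3,4),(4,7,2,5),(4,7,6,5)]))) (rq 2)))))) (rq 5)))))))) (rq 3)))))))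

def tbr_6 : CT := (br 0 6 (br 1 6 (br 2 6 (br 3 6 (br 4 6 (rq 2) (br 5 6 (br 7 6 (br 9 6 (wi [(0,1,4,5),(0,7,4,5),(5,4,7,9),(0,1,4,6),(0,7,4,6),(6,4,7,9)]) (fb 1 4 6 9)) (br 9 6 (br 0 8 (br 1 8 (br 2 8 (br 3 8 (br 4 8 (br 5 8 (br 6 8 (rq 4) (wi [(0,1,2,3),(0,1,4,3),(0,1,4,6),(1,4,6,8),(2,4,6,8),(3,4,6,8)])) (wi [(0,1,2,3),(0,1,4,3),(0,1,4,5),(1,4,5,8),(2,4,5,8),(3,4,5,8)])) (fb 0 1 4 8)) (fb 1 2 3 8)) (fb 0 1 2 8)) (br 2 8 (br 3 8 (fb 3 2 1 8) (fb 0 1 8 3)) (br 3 8 (br 4 8 (fb 3 4 1 8) (br 5 8 (br 6 8 (rq 4) (br 7 8 (wi [(0,1,2,3),(0,1,4,3),(0,1,4,6),(0,1,8,6),(0,7,2,8),(3,2,8,6),(0,7,4,8)]) (br 9 8 (br 0 10 (br 1 10 (br 2 10 (br 3 10 (br 4 10 (br 5 10 (br 6 10 (br 7 10 (br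 8 10 (rq 6) (wi [(0,1,2,3),(0,1,4,3),(0,1,4,6),(0,1,8,6),(0,1,8,10),(3,2,8,6),(3,2,8,10)])) (br 8 10 (rq 6) (wi [(0,1,2,3),(0,1,4,3),(0,1,4,6),(0,1,8,6),(0,1,8,10),(3,2,8,6),(3,2,8,10)]))) (fb 1 4 6 10)) (fb 1 4 5 10)) (fb 0 1 4 10)) (fb 1 2 3 10)) (fb 0 1 2 10)) (br 2 10 (br 3 10 (fb 3 2 1 10) (fb 0 1 10 3)) (br 3 10 (br 4 10 (fb 3 4 1 10) (br 5 10 (br 6 10 (br 7 10 (wi [(0,1,2,3),(0,1,4,3),(0,1,4,5),(0,7,4,5),(0,7,2,10),(0,7,4,10),(3,7,1,10)]) (br 8 10 (wi [(0,1,2,3),(0,1,4,3),(0,1,4,6),(0,1,8,6),(6,8,1,10),(3,2,8,6),(6,8,2,10)]) (rq 6))) (fb 0 1 10 6)) (fb 0 1 10 5))) (fb 0 1 10 3)))) (br 1 10 (br 2 10 (fb 2 1 0 10) (br 3 10 (fb 0 10 2 3) (fb 1 0 10 3))) (br 2 10 (br 3 10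 (fb 3 2 1 10) (fb 0 10 3 2)) (br 3 10 (fb 0 10 2 3) (br 4 10 (fb 0 10 2 4) (br 5 10 (fb 0 10 4 5) (br 6 10 (fb 0 10 4 6) (br 7 10 (wi [(0,1,2,3),(0,1,4,3),(0,1,4,5),(0,7,4,5),(5,10,0,7),(5,10,1,7),(5,10,2,7)]) (br 8 10 (wi [(0,1,2,3),(0,1,4,3),(0,1,4,6),(0,1,8,6),(0,10,2,8),(3,2,8,6),(0,10,4,8)]) (rq 6)))))))))) (wi [(0,1,2,3),(0,1,4,3),(0,1,4,6),(0,1,8,6),(0,1,8,9),(3,2,8,6),(3,2,8,9)])))) (br 6 8 (rq 4) (wi [(0,1,2,3),(0,1,4,3),(0,1,4,5),(0,1,4,6),(0,1,8,5),(3,2,8,5),(0,1,8,6)])))) (fb 0 1 8 3)))) (br 1 8 (br 2 8 (fb 2 1 0 8) (br 3 8 (fb 0 8 2 3) (fb 1 0 8 3))) (br 2 8 (br 3 8 (fb 3 2 1 8) (fb 0 8 3 2)) (br 3 8 (fb 0 8 2 3) (br 4 8 (fb 0 8 2 4) (br 5 8 (br 6 8 (br 7 8 (wi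 [(0,1,4,5),(0,7,4,5),(0,1,4,6),(0,8,4,5),(0,8,4,6),(6,7,0,8)]) (br 9 8 (br 0 10 (br 1 10 (br 2 10 (br 3 10 (br 4 10 (br 5 10 (br 6 10 (br 7 10 (br 8 10 (rq 6) (wi [(0,1,4,5),(0,1,4,6),(0,8,4,5),(5,4,8,10),(0,8,4,6),(6,4,8,10)])) (br 8 10 (rq 6) (wi [(0,1,4,5),(0,7,4,5),(0,1,4,6),(0,8,4,5),(5,4,7,10),(0,8,4,6),(5,4,8,10)]))) (fb 1 4 6 10)) (fb 1 4 5 10)) (fb 0 1 4 10)) (fb 1 2 3 10)) (fb 0 1 2 10)) (br 2 10 (br 3 10 (fb 3 2 1 10) (fb 0 1 10 3)) (br 3 10 (br 4 10 (fb 3 4 1 10) (br 5 10 (br 6 10 (br 7 10 (wi [(0,1,2,3),(0,1,4,3),(0,1,4,5),(0,7,4,5),(0,7,2,10),(0,7,4,10),(3,7,1,10)]) (br 8 10 (wi [(0,1,2,3),(0,1,4,3),(0,1,4,5),(0,8,4,5),(0,8,2,10),(0,8,4,10),(3,8,1,10)]) (rq 6)))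 (fb 0 1 10 6)) (fb 0 1 10 5))) (fb 0 1 10 3)))) (br 1 10 (br 2 10 (fb 2 1 0 10) (br 3 10 (fb 0 10 2 3) (fb 1 0 10 3))) (br 2 10 (br 3 10 (fb 3 2 1 10) (fb 0 10 3 2)) (br 3 10 (fb 0 10 2 3) (br 4 10 (fb 0 10 2 4) (br 5 10 (fb 0 10 4 5) (br 6 10 (fb 0 10 4 6) (br 7 10 (wi [(0,1,4,5),(0,7,4,5),(0,1,4,6),(0,8,4,5),(5,10,0,7),(0,8,4,6),(5,10,1,7)]) (br 8 10 (wi [(0,1,4,5),(0,1,4,6),(0,8,4,5),(5,10,0,8),(0,8,4,6),(6,10,0,8)]) (rq 6)))))))))) (wi [(0,1,4,5),(0,7,4,5),(5,4,7,9),(0,1,4,6),(0,8,4,5),(0,8,4,6),(5,4,8,9)]))) (rq 4)) (br 6 8 (br 7 8 (wi [(0,1,4,5),(0,7,4,5),(0,1,4,6),(0,8,4,6),(5,8,0,7),(6,7,0,8)]) (br 9 8 (wi [(0,1,4,5),(0,7,4,5),(5,4,7,9),(0,1,4,6),(0,8,4,6),(5,8,7,6),(5,8,7,9)])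 (wi [(0,1,4,5),(0,7,4,5),(5,4,7,9),(0,1,4,6),(0,8,4,6),(5,8,7,6),(6,4,8,9)]))) (rq 4)))))))) (fb 1 4 6 9))) (br 7 6 (br 9 6 (wi [(0,1,4,5),(0,7,4,5),(5,4,7,9),(0,1,4,6),(0,7,4,6),(6,4,7,9)]) (fb 1 4 6 9)) (wi [(0,1,4,5),(0,7,4,5),(0,1,4,6),(0,7,6,5),(1,7,6,5)])))) (fb 1 2 3 6)) (fb 0 1 2 6)) (br 2 6 (br 3 6 (fb 3 2 1 6) (fb 0 1 6 3)) (br 3 6 (br 4 6 (br 5 6 (wi [(0,1,2,3),(0,1,4,3),(0,1,4,5),(3,4,1,6),(5,4,1,6),(5,4,2,6)]) (wi [(0,1,2,3),(0,1,4,3),(0,1,4,5),(3,4,1,6),(0,1,6,5),(3,2,6,5)])) (rq 2)) (fb 0 1 6 3)))) (br 1 6 (br 2 6 (fb 2 1 0 6) (br 3 6 (fb 0 6 2 3) (fb 1 0 6 3))) (br 2 6 (br 3 6 (fb 3 2 1 6) (fb 0 6 3 2)) (br 3 6 (fb 0 6 2 3) (br 4 6 (br 5 6 (wi [(0,1,2,3),(0,1,4,3),(0,1,4,5),(0,6,2,4),(0,6,3,4),(5,4,1,6)])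 (wi [(0,1,2,3),(0,1,4,3),(0,1,4,5),(0,6,2,4),(0,6,3,4),(0,6,5,4)])) (rq 2))))))

def tbr_7 : CT := (br 5 6 (br 7 6 (br 9 6 (br 0 8 (br 1 8 (br 2 8 (br 3 8 (br 4 8 (br 5 8 (br 6 8 (rq 4) (wi [(0,1,4,3),(3,4,1,5),(3,4,1,6),(0,1,6,8),(4,1,6,8),(5,1,6,8)])) (wi [(0,1,2,3),(0,1,4,3),(3,4,1,5),(0,1,5,8),(4,1,5,8),(3,2,5,8)])) (fb 0 1 4 8)) (fb 1 2 3 8)) (fb 0 1 2 8)) (br 2 8 (br 3 8 (fb 3 2 1 8) (fb 0 1 8 3)) (br 3 8 (br 4 8 (fb 3 4 1 8) (br 5 8 (br 6 8 (rq 4) (br 7 8 (wi [(3,4,1,5),(3,4,7,5),(3,4,1,6),(3,4,8,6),(5,7,4,8),(6,8,4,7)]) (br 9 8 (wi [(3,4,1,5),(3,4,7,5),(5,7,4,9),(3,4,1,6),(3,4,8,6),(5,7,8,6),(6,8,4,9)]) (wi [(3,4,1,5),(3,4,7,5),(5,7,4,9),(3,4,1,6),(3,4,8,6),(5,7,8,6),(5,7,8,9)]))))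 (br 6 8 (rq 4) (br 7 8 (wi [(3,4,1,5),(3,4,7,5),(3,4,1,6),(3,4,8,5),(3,4,8,6),(6,8,4,7)]) (br 9 8 (wi [(3,4,1,5),(3,4,7,5),(5,7,4,9),(3,4,1,6),(3,4,8,5),(3,4,8,6),(5,8,4,9)]) (br 0 10 (br 1 10 (br 2 10 (br 3 10 (br 4 10 (br 5 10 (br 6 10 (br 7 10 (br 8 10 (rq 6) (wi [(0,1,2,3),(0,1,4,3),(3,4,1,5),(3,4,8,5),(0,1,8,10),(3,2,8,10),(3,4,8,10)])) (wi [(0,1,7,10),(6,1,7,10),(6,2,7,10),(0,1,2,3),(0,1,4,3),(3,4,1,6),(3,2,7,10)])) (fb 0 1 6 10)) (fb 0 1 5 10)) (fb 0 1 4 10)) (fb 1 2 3 10)) (fb 0 1 2 10)) (br 2 10 (br 3 10 (fb 3 2 1 10) (fb 0 1 10 3)) (br 3 10 (br 4 10 (fb 3 4 1 10) (br 5 10 (br 6 10 (br 7 10 (br 8 10 (wi [(3,4,1,5),(3,4,7,5),(3,4,1,6),(3,4,8,5),(5,7,4,10),(3,4,8,6),(5,8,4,10)])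 (rq 6)) (br 8 10 (wi [(3,4,1,5),(3,4,1,6),(3,4,8,5),(5,8,4,10),(3,4,8,6),(6,8,4,10)]) (rq 6))) (fb 3 4 10 6)) (fb 3 4 10 5))) (fb 0 1 10 3)))) (br 1 10 (br 2 10 (fb 2 1 0 10) (br 3 10 (fb 0 10 2 3) (fb 1 0 10 3))) (br 2 10 (br 3 10 (fb 3 2 1 10) (fb 0 10 3 2)) (br 3 10 (fb 0 10 2 3) (br 4 10 (fb 0 10 2 4) (br 5 10 (fb 0 10 2 5) (br 6 10 (fb 0 10 2 6) (br 7 10 (wi [(0,1,2,3),(0,1,4,3),(3,4,1,5),(3,4,7,5),(0,10,2,7),(0,10,4,7),(0,10,5,7)]) (br 8 10 (wi [(0,1,2,3),(0,1,4,3),(3,4,1,5),(3,4,8,5),(0,10,2,8),(0,10,4,8),(0,10,5,8)]) (rq 6))))))))))))))) (fb 0 1 8 3)))) (br 1 8 (br 2 8 (fb 2 1 0 8) (br 3 8 (fb 0 8 2 3) (fb 1 0 8 3))) (br 2 8 (br 3 8 (fb 3 2 1 8) (fb 0 8 3 2)) (br 3 8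 (fb 0 8 2 3) (br 4 8 (fb 0 8 2 4) (br 5 8 (br 6 8 (wi [(0,1,2,3),(0,1,4,3),(3,4,1,5),(3,4,1,6),(0,8,2,5),(3,8,1,5),(0,8,2,6)]) (rq 4)) (br 6 8 (br 7 8 (wi [(0,1,2,3),(0,1,4,3),(3,4,1,6),(0,8,2,6),(0,8,2,7),(3,8,1,6),(0,8,4,7)]) (br 9 8 (wi [(0,1,2,3),(0,1,4,3),(3,4,1,6),(0,8,2,6),(0,8,2,9),(3,8,1,6),(0,8,4,9)]) (br 0 10 (br 1 10 (br 2 10 (br 3 10 (br 4 10 (br 5 10 (br 6 10 (br 7 10 (br 8 10 (rq 6) (wi [(0,1,2,3),(0,1,4,3),(3,4,1,6),(0,8,2,6),(6,1,8,10),(3,8,1,6),(6,2,8,10)])) (wi [(0,1,7,10),(6,1,7,10),(6,2,7,10),(0,1,2,3),(0,1,4,3),(3,4,1,6),(3,2,7,10)])) (fb 0 1 6 10)) (fb 0 1 5 10)) (fb 0 1 4 10)) (fb 1 2 3 10)) (fb 0 1 2 10)) (br 2 10 (br 3 10 (fb 3 2 1 10) (fb 0 1 10 3))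 (br 3 10 (br 4 10 (fb 3 4 1 10) (br 5 10 (br 6 10 (br 7 10 (br 8 10 (wi [(0,1,2,3),(0,1,4,3),(3,4,1,6),(0,8,2,6),(0,8,2,10),(3,8,1,6),(0,8,4,10)]) (rq 6)) (br 8 10 (wi [(0,1,2,3),(0,1,4,3),(3,4,1,6),(0,8,2,6),(0,8,2,10),(3,8,1,6),(0,8,4,10)]) (rq 6))) (fb 3 4 10 6)) (fb 3 4 10 5))) (fb 0 1 10 3)))) (br 1 10 (br 2 10 (fb 2 1 0 10) (br 3 10 (fb 0 10 2 3) (fb 1 0 10 3))) (br 2 10 (br 3 10 (fb 3 2 1 10) (fb 0 10 3 2)) (br 3 10 (fb 0 10 2 3) (br 4 10 (fb 0 10 2 4) (br 5 10 (fb 0 10 2 5) (br 6 10 (fb 0 10 2 6) (br 7 10 (wi [(0,1,2,3),(0,1,4,3),(3,4,1,5),(3,4,7,5),(0,10,2,7),(0,10,4,7),(0,10,5,7)]) (br 8 10 (wi [(0,1,2,3),(0,1,4,3),(3,4,1,6),(0,8,2,6),(6,10,0,8),(3,8,1,6),(6,10,3,8)])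 (rq 6)))))))))))) (rq 4)))))))) (fb 3 4 9 6)) (br 9 6 (wi [(3,4,1,5),(3,4,7,5),(5,7,4,9),(3,4,1,6),(3,4,7,6),(6,7,4,9)]) (fb 3 4 9 6))) (br 7 6 (br 9 6 (br 0 8 (br 1 8 (br 2 8 (br 3 8 (br 4 8 (br 5 8 (br 6 8 (rq 4) (wi [(0,1,4,3),(3,4,1,5),(3,4,7,5),(3,4,1,6),(0,1,6,8),(4,7,5,6),(4,1,6,8)])) (wi [(0,1,4,3),(3,4,1,5),(3,4,7,5),(3,4,1,6),(0,1,5,8),(4,7,5,6),(4,1,5,8)])) (fb 0 1 4 8)) (fb 1 2 3 8)) (fb 0 1 2 8)) (br 2 8 (br 3 8 (fb 3 2 1 8) (fb 0 1 8 3)) (br 3 8 (br 4 8 (fb 3 4 1 8) (br 5 8 (br 6 8 (rq 4) (wi [(3,4,1,5),(3,4,7,5),(3,4,1,6),(3,4,8,6),(4,7,5,6),(4,8,6,5)])) (br 6 8 (rq 4) (wi [(3,4,1,5),(3,4,7,5),(3,4,1,6),(3,4,8,5),(4,7,5,6),(3,4,8,6)])))) (fb 0 1 8 3)))) (br 1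 8 (br 2 8 (fb 2 1 0 8) (br 3 8 (fb 0 8 2 3) (fb 1 0 8 3))) (br 2 8 (br 3 8 (fb 3 2 1 8) (fb 0 8 3 2)) (br 3 8 (fb 0 8 2 3) (br 4 8 (fb 0 8 2 4) (br 5 8 (br 6 8 (wi [(0,1,2,3),(0,1,4,3),(3,4,1,5),(3,4,1,6),(0,8,2,5),(3,8,1,5),(0,8,2,6)]) (rq 4)) (br 6 8 (wi [(0,1,2,3),(0,1,4,3),(3,4,1,5),(3,4,1,6),(0,8,2,6),(0,8,5,6),(3,8,1,6)]) (rq 4)))))))) (fb 3 4 9 6)) (br 9 6 (wi [(3,4,1,5),(3,4,7,5),(5,7,4,9),(3,4,1,6),(3,4,7,6),(6,7,4,9)]) (fb 3 4 9 6))))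

def tbr_8 : CT := (br 1 5 (br 2 5 (br 3 5 (br 4 5 (rq 1) (br 0 7 (br 1 7 (br 2 7 (br 3 7 (br 4 7 (br 5 7 (rq 3) (wi [(0,1,2,3),(0,1,4,3),(0,1,4,5),(1,4,5,7),(2,4,5,7),(3,4,5,7)])) (fb 0 1 4 7)) (fb 1 2 3 7)) (fb 0 1 2 7)) (br 2 7 (br 3 7 (fb 3 2 1 7) (fb 0 1 7 3)) (br 3 7 (br 4 7 (fb 3 4 1 7) (br 5 7 (rq 3) (br 0 9 (br 1 9 (br 2 9 (br 3 9 (br 4 9 (br 5 9 (br 7 9 (rq 5) (wi [(0,1,2,3),(0,1,4,3),(0,1,4,5),(0,1,7,5),(0,1,7,9),(3,2,7,5),(3,2,7,9)])) (fb 1 4 5 9)) (fb 0 1 4 9)) (fb 1 2 3 9)) (fb 0 1 2 9)) (br 2 9 (br 3 9 (fb 3 2 1 9) (fb 0 1 9 3)) (br 3 9 (br 4 9 (fb 3 4 1 9) (br 5 9 (br 7 9 (wi [(0,1,2,3),(0,1,4,3),(0,1,4,5),(0,1,7,5),(5,7,1,9),(3,2,7,5),(5,7,2,9)]) (rq 5)) (fb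 0 1 9 5))) (fb 0 1 9 3)))) (br 1 9 (br 2 9 (fb 2 1 0 9) (br 3 9 (fb 0 9 2 3) (fb 1 0 9 3))) (br 2 9 (br 3 9 (fb 3 2 1 9) (fb 0 9 3 2)) (br 3 9 (fb 0 9 2 3) (br 4 9 (fb 0 9 2 4) (br 5 9 (fb 0 9 4 5) (br 7 9 (wi [(0,1,2,3),(0,1,4,3),(0,1,4,5),(0,1,7,5),(0,9,2,7),(3,2,7,5),(0,9,4,7)]) (rq 5)))))))))) (fb 0 1 7 3)))) (br 1 7 (br 2 7 (fb 2 1 0 7) (br 3 7 (fb 0 7 2 3) (fb 1 0 7 3))) (br 2 7 (br 3 7 (fb 3 2 1 7) (fb 0 7 3 2)) (br 3 7 (fb 0 7 2 3) (br 4 7 (fb 0 7 2 4) (br 5 7 (br 0 9 (br 1 9 (br 2 9 (br 3 9 (br 4 9 (br 5 9 (br 7 9 (rq 5) tbr_6) (fb 1 4 5 9)) (fb 0 1 4 9)) (fb 1 2 3 9)) (fb 0 1 2 9)) (br 2 9 (br 3 9 (fb 3 2 1 9) (fb 0 1 9 3)) (br 3 9 (br 4 9 (fb 3 4 1 9) (br 5 9 (br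 7 9 (wi [(0,1,2,3),(0,1,4,3),(0,1,4,5),(0,7,4,5),(0,7,2,9),(0,7,4,9),(3,7,1,9)]) (rq 5)) (fb 0 1 9 5))) (fb 0 1 9 3)))) (br 1 9 (br 2 9 (fb 2 1 0 9) (br 3 9 (fb 0 9 2 3) (fb 1 0 9 3))) (br 2 9 (br 3 9 (fb 3 2 1 9) (fb 0 9 3 2)) (br 3 9 (fb 0 9 2 3) (br 4 9 (fb 0 9 2 4) (br 5 9 (fb 0 9 4 5) (br 7 9 (wi [(0,1,2,3),(0,1,4,3),(0,1,4,5),(0,7,4,5),(5,9,0,7),(5,9,1,7),(5,9,2,7)]) (rq 5)))))))) (rq 3)))))))) (fb 1 2 3 5)) (fb 0 1 2 5)) (br 2 5 (br 3 5 (fb 3 2 1 5) (fb 0 1 5 3)) (br 3 5 (br 4 5 (br 0 7 (br 1 7 (br 2 7 (br 3 7 (br 4 7 (br 5 7 (rq 3) (wi [(0,1,2,3),(0,1,4,3),(3,4,1,5),(0,1,5,7),(4,1,5,7),(3,2,5,7)])) (fb 0 1 4 7)) (fb 1 2 3 7)) (fb 0 1 2 7)) (br 2 7 (br 3 7 (fb 3 2 1 7)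 (fb 0 1 7 3)) (br 3 7 (br 4 7 (fb 3 4 1 7) (br 5 7 (rq 3) (br 0 9 (br 1 9 (br 2 9 (br 3 9 (br 4 9 (br 5 9 (br 7 9 (rq 5) (wi [(0,1,2,3),(0,1,4,3),(3,4,1,5),(3,4,7,5),(0,1,7,9),(3,2,7,9),(3,4,7,9)])) (fb 0 1 5 9)) (fb 0 1 4 9)) (fb 1 2 3 9)) (fb 0 1 2 9)) (br 2 9 (br 3 9 (fb 3 2 1 9) (fb 0 1 9 3)) (br 3 9 (br 4 9 (fb 3 4 1 9) (br 5 9 (br 7 9 (br 0 6 (br 1 6 (br 2 6 (br 3 6 (br 4 6 (rq 2) (br 5 6 (wi [(0,1,2,3),(0,1,4,3),(3,4,1,5),(0,1,4,6),(5,1,4,6),(5,2,4,6)]) (wi [(0,1,2,3),(0,1,4,3),(3,4,1,5),(0,1,4,6),(0,1,5,6),(3,2,5,6)]))) (fb 1 2 3 6)) (fb 0 1 2 6)) (br 2 6 (br 3 6 (fb 3 2 1 6) (fb 0 1 6 3)) (br 3 6 (br 4 6 tbr_7 (rq 2)) (fb 0 1 6 3)))) (br 1 6 (br 2 6 (fb 2 1 0 6) (br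 3 6 (fb 0 6 2 3) (fb 1 0 6 3))) (br 2 6 (br 3 6 (fb 3 2 1 6) (fb 0 6 3 2)) (br 3 6 (fb 0 6 2 3) (br 4 6 (br 5 6 (wi [(0,1,2,3),(0,1,4,3),(3,4,1,5),(0,6,2,4),(0,6,3,4),(0,6,2,5)]) (wi [(0,1,2,3),(0,1,4,3),(3,4,1,5),(0,6,2,4),(0,6,3,4),(4,3,6,5)])) (rq 2)))))) (rq 5)) (fb 3 4 9 5))) (fb 0 1 9 3)))) (br 1 9 (br 2 9 (fb 2 1 0 9) (br 3 9 (fb 0 9 2 3) (fb 1 0 9 3))) (br 2 9 (br 3 9 (fb 3 2 1 9) (fb 0 9 3 2)) (br 3 9 (fb 0 9 2 3) (br 4 9 (fb 0 9 2 4) (br 5 9 (fb 0 9 2 5) (br 7 9 (wi [(0,1,2,3),(0,1,4,3),(3,4,1,5),(3,4,7,5),(0,9,2,7),(0,9,4,7),(0,9,5,7)]) (rq 5)))))))))) (fb 0 1 7 3)))) (br 1 7 (br 2 7 (fb 2 1 0 7) (br 3 7 (fb 0 7 2 3) (fb 1 0 7 3))) (br 2 7 (br 3 7 (fb 3 2 1 7) (fb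 0 7 3 2)) (br 3 7 (fb 0 7 2 3) (br 4 7 (fb 0 7 2 4) (br 5 7 (br 0 9 (br 1 9 (br 2 9 (br 3 9 (br 4 9 (br 5 9 (br 7 9 (rq 5) (wi [(0,1,2,3),(0,1,4,3),(3,4,1,5),(0,7,2,5),(5,1,7,9),(3,7,1,5),(5,2,7,9)])) (fb 0 1 5 9)) (fb 0 1 4 9)) (fb 1 2 3 9)) (fb 0 1 2 9)) (br 2 9 (br 3 9 (fb 3 2 1 9) (fb 0 1 9 3)) (br 3 9 (br 4 9 (fb 3 4 1 9) (br 5 9 (br 7 9 (wi [(0,1,2,3),(0,1,4,3),(3,4,1,5),(0,7,2,5),(0,7,2,9),(3,7,1,5),(0,7,4,9)]) (rq 5)) (fb 3 4 9 5))) (fb 0 1 9 3)))) (br 1 9 (br 2 9 (fb 2 1 0 9) (br 3 9 (fb 0 9 2 3) (fb 1 0 9 3))) (br 2 9 (br 3 9 (fb 3 2 1 9) (fb 0 9 3 2)) (br 3 9 (fb 0 9 2 3) (br 4 9 (fb 0 9 2 4) (br 5 9 (fb 0 9 2 5) (br 7 9 (wi [(0,1,2,3),(0,1,4,3),(3,4,1,5),(0,7,2,5),(5,9,0,7),(3,7,1,5),(5,9,3,7)])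 (rq 5)))))))) (rq 3))))))) (rq 1)) (fb 0 1 5 3))))

def tbr_9 : CT := (br 2 4 (br 3 4 (fb 3 2 1 4) (br 0 5 (br 1 5 (br 2 5 (br 3 5 (br 4 5 (rq 1) (wi [(0,1,2,3),(0,1,4,3),(0,1,4,5),(2,1,4,5),(2,3,4,5)])) (fb 1 2 3 5)) (fb 0 1 2 5)) (br 2 5 (br 3 5 (fb 3 2 1 5) (fb 0 1 5 3)) (br 3 5 (br 4 5 (br 0 7 (br 1 7 (br 2 7 (br 3 7 (br 4 7 (br 5 7 (rq 3) (wi [(0,1,2,3),(0,1,4,3),(3,4,1,5),(0,1,5,7),(4,3,2,5),(4,1,5,7)])) (fb 0 1 4 7)) (fb 1 2 3 7)) (fb 0 1 2 7)) (br 2 7 (br 3 7 (fb 3 2 1 7) (fb 0 1 7 3)) (br 3 7 (br 4 7 (fb 3 4 1 7) (br 5 7 (br 0 9 (br 1 9 (br 2 9 (br 3 9 (br 4 9 (br 5 9 (br 7 9 (rq 5) (wi [(0,1,2,3),(0,1,4,3),(3,4,1,5),(4,7,2,5),(0,1,7,9),(4,3,2,5),(5,1,7,9)])) (fb 0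 1 5 9)) (fb 0 1 4 9)) (fb 1 2 3 9)) (fb 0 1 2 9)) (br 2 9 (br 3 9 (fb 3 2 1 9) (fb 0 1 9 3)) (br 3 9 (br 4 9 (fb 3 4 1 9) (br 5 9 (fb 4 9 2 5) (fb 3 4 9 5))) (fb 0 1 9 3)))) (br 1 9 (br 2 9 (fb 2 1 0 9) (br 3 9 (fb 0 9 2 3) (fb 1 0 9 3))) (br 2 9 (br 3 9 (fb 3 2 1 9) (fb 0 9 3 2)) (br 3 9 (fb 0 9 2 3) (br 4 9 (fb 0 9 3 4) (br 5 9 (fb 0 9 2 5) (br 7 9 (wi [(0,1,2,3),(0,1,4,3),(3,4,1,5),(4,7,2,5),(0,9,2,7),(4,3,2,5),(0,9,4,7)]) (rq 5)))))))) (br 0 9 (br 1 9 (br 2 9 (br 3 9 (br 4 9 (br 5 9 (br 7 9 (rq 5) (wi [(0,1,2,3),(0,1,4,3),(3,4,1,5),(3,4,7,5),(0,1,7,9),(4,3,2,5),(3,2,7,9)])) (fb 0 1 5 9)) (fb 0 1 4 9)) (fb 1 2 3 9)) (fb 0 1 2 9)) (br 2 9 (br 3 9 (fb 3 2 1 9) (fb 0 1 9 3))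 (br 3 9 (br 4 9 (fb 3 4 1 9) (br 5 9 (fb 4 9 2 5) (fb 3 4 9 5))) (fb 0 1 9 3)))) (br 1 9 (br 2 9 (fb 2 1 0 9) (br 3 9 (fb 0 9 2 3) (fb 1 0 9 3))) (br 2 9 (br 3 9 (fb 3 2 1 9) (fb 0 9 3 2)) (br 3 9 (fb 0 9 2 3) (br 4 9 (fb 0 9 3 4) (br 5 9 (fb 0 9 2 5) (br 7 9 (wi [(0,1,2,3),(0,1,4,3),(3,4,1,5),(3,4,7,5),(0,9,2,7),(4,3,2,5),(0,9,4,7)]) (rq 5)))))))))) (fb 0 1 7 3)))) (br 1 7 (br 2 7 (fb 2 1 0 7) (br 3 7 (fb 0 7 2 3) (fb 1 0 7 3))) (br 2 7 (br 3 7 (fb 3 2 1 7) (fb 0 7 3 2)) (br 3 7 (fb 0 7 2 3) (br 4 7 (fb 0 7 3 4) (br 5 7 (wi [(0,1,2,3),(0,1,4,3),(3,4,1,5),(0,7,2,5),(4,3,2,5),(3,7,1,5)]) (rq 3))))))) (rq 1)) (fb 0 1 5 3)))) (br 1 5 (br 2 5 (fb 2 1 0 5) (br 3 5 (fb 0 5 2 3) (fb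 1 0 5 3))) (br 2 5 (br 3 5 (fb 3 2 1 5) (fb 0 5 3 2)) (br 3 5 (fb 0 5 2 3) (br 4 5 tbr_5 (rq 1))))))) (br 3 4 (rq 0) (br 0 5 tbr_8 (br 1 5 (br 2 5 (fb 2 1 0 5) (br 3 5 (fb 0 5 2 3) (fb 1 0 5 3))) (br 2 5 (br 3 5 (fb 3 2 1 5) (fb 0 5 3 2)) (br 3 5 (fb 0 5 2 3) (br 4 5 (br 0 7 (br 1 7 (br 2 7 (br 3 7 (br 4 7 (br 5 7 (rq 3) (wi [(0,1,2,3),(0,1,4,3),(0,5,2,4),(4,1,5,7),(0,5,3,4),(4,2,5,7)])) (fb 0 1 4 7)) (fb 1 2 3 7)) (fb 0 1 2 7)) (br 2 7 (br 3 7 (fb 3 2 1 7) (fb 0 1 7 3)) (br 3 7 (br 4 7 (fb 3 4 1 7) (br 5 7 (wi [(0,1,2,3),(0,1,4,3),(0,5,2,4),(0,5,2,7),(0,5,3,4),(3,5,1,7)]) (br 0 9 (br 1 9 (br 2 9 (br 3 9 (br 4 9 (br 5 9 (br 7 9 (rq 5) (wi [(0,1,2,3),(0,1,4,3),(0,5,2,4),(0,5,7,4),(0,1,7,9),(0,5,3,4),(0,5,7,9)]))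 (fb 4 1 5 9)) (fb 0 1 4 9)) (fb 1 2 3 9)) (fb 0 1 2 9)) (br 2 9 (br 3 9 (fb 3 2 1 9) (fb 0 1 9 3)) (br 3 9 (br 4 9 (fb 3 4 1 9) (br 5 9 (fb 0 5 2 9) (fb 0 5 9 4))) (fb 0 1 9 3)))) (br 1 9 (br 2 9 (fb 2 1 0 9) (br 3 9 (fb 0 9 2 3) (fb 1 0 9 3))) (br 2 9 (br 3 9 (fb 3 2 1 9) (fb 0 9 3 2)) (br 3 9 (fb 0 9 2 3) (br 4 9 (fb 0 9 2 4) (br 5 9 (fb 4 9 0 5) (br 7 9 (wi [(0,1,2,3),(0,1,4,3),(0,5,2,4),(0,5,7,4),(0,9,2,7),(0,5,3,4),(0,9,4,7)]) (rq 5)))))))))) (fb 0 1 7 3)))) (br 1 7 (br 2 7 (fb 2 1 0 7) (br 3 7 (fb 0 7 2 3) (fb 1 0 7 3))) (br 2 7 (br 3 7 (fb 3 2 1 7) (fb 0 7 3 2)) (br 3 7 (fb 0 7 2 3) (br 4 7 (fb 0 7 2 4) (br 5 7 (br 0 9 (br 1 9 (br 2 9 (br 3 9 (br 4 9 (br 5 9 (br 7 9 (rq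 5) (wi [(0,1,2,3),(0,1,4,3),(0,5,2,4),(4,7,0,5),(5,0,7,9),(0,5,3,4),(5,1,7,9)])) (fb 4 1 5 9)) (fb 0 1 4 9)) (fb 1 2 3 9)) (fb 0 1 2 9)) (br 2 9 (br 3 9 (fb 3 2 1 9) (fb 0 1 9 3)) (br 3 9 (br 4 9 (fb 3 4 1 9) (br 5 9 (fb 0 5 2 9) (fb 0 5 9 4))) (fb 0 1 9 3)))) (br 1 9 (br 2 9 (fb 2 1 0 9) (br 3 9 (fb 0 9 2 3) (fb 1 0 9 3))) (br 2 9 (br 3 9 (fb 3 2 1 9) (fb 0 9 3 2)) (br 3 9 (fb 0 9 2 3) (br 4 9 (fb 0 9 2 4) (br 5 9 (fb 4 9 0 5) (br 7 9 (br 0 6 (br 1 6 (br 2 6 (br 3 6 (br 4 6 (rq 2) (br 5 6 (wi [(0,1,2,3),(0,1,4,3),(0,5,2,4),(0,1,4,6),(0,5,3,4),(5,1,4,6)]) (wi [(0,1,2,3),(0,1,4,3),(0,5,2,4),(0,1,4,6),(0,5,3,4),(0,5,6,4)]))) (fb 1 2 3 6)) (fb 0 1 2 6)) (br 2 6 (br 3 6 (fb 3 2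 1 6) (fb 0 1 6 3)) (br 3 6 (br 4 6 (br 5 6 (wi [(0,1,2,3),(0,1,4,3),(0,5,2,4),(3,4,1,6),(0,5,3,4),(0,5,2,6)]) (wi [(0,1,2,3),(0,1,4,3),(0,5,2,4),(3,4,1,6),(0,5,3,4),(4,3,5,6)])) (rq 2)) (fb 0 1 6 3)))) (br 1 6 (br 2 6 (fb 2 1 0 6) (br 3 6 (fb 0 6 2 3) (fb 1 0 6 3))) (br 2 6 (br 3 6 (fb 3 2 1 6) (fb 0 6 3 2)) (br 3 6 (fb 0 6 2 3) (br 4 6 (wi [(0,1,2,3),(0,1,4,3),(0,5,2,4),(0,6,2,4),(0,5,3,4),(0,6,3,4)]) (rq 2)))))) (rq 5)))))))) (rq 3))))))) (rq 1))))))))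

def tbr_10 : CT := (br 0 6 (br 1 6 (br 2 6 (br 3 6 (br 4 6 (rq 2) (br 5 6 (br 7 6 (br 9 6 (br 0 8 (br 1 8 (br 2 8 (br 3 8 (br 4 8 (br 5 8 (br 6 8 (rq 4) (wi [(1,0,4,5),(0,4,5,7),(1,0,4,6),(0,4,6,8),(6,4,5,7),(5,4,6,8)])) (br 6 8 (rq 4) (wi [(1,0,4,5),(0,4,5,7),(1,0,4,6),(0,4,5,8),(6,4,5,7),(0,4,6,8)]))) (fb 1 0 4 8)) (fb 1 2 3 8)) (fb 0 1 2 8)) (br 2 8 (br 3 8 (fb 3 2 1 8) (fb 0 1 8 3)) (br 3 8 (br 4 8 (fb 4 0 1 8) (fb 0 4 8 2)) (fb 0 1 8 3)))) (br 1 8 (br 2 8 (fb 2 1 0 8) (br 3 8 (fb 0 8 2 3) (fb 1 0 8 3))) (br 2 8 (br 3 8 (fb 3 2 1 8) (fb 0 8 3 2)) (br 3 8 (fb 0 8 2 3) (br 4 8 (fb 2 8 0 4) (br 5 8 (wi [(2,1,0,4),(1,0,4,5),(0,4,5,7),(1,0,4,6),(1,8,4,5),(6,4,5,7),(2,8,4,5)])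 (br 6 8 (wi [(2,1,0,4),(1,0,4,5),(0,4,5,7),(1,0,4,6),(1,8,4,6),(6,4,5,7),(2,8,4,6)]) (rq 4)))))))) (fb 0 4 6 9)) (br 9 6 (wi [(1,0,4,5),(0,4,5,7),(4,5,7,9),(1,0,4,6),(0,4,6,7),(4,6,7,9)]) (fb 0 4 6 9))) (br 7 6 (br 9 6 (br 0 8 (br 1 8 (br 2 8 (br 3 8 (br 4 8 (br 5 8 (br 6 8 (rq 4) (br 7 8 (wi [(1,0,4,5),(0,4,5,7),(4,5,7,9),(1,0,4,6),(0,4,6,8),(6,5,7,9),(7,5,6,8)]) (wi [(1,0,4,5),(0,4,5,7),(4,5,7,9),(1,0,4,6),(0,4,6,8),(6,5,7,9),(4,5,7,8)]))) (br 6 8 (rq 4) (wi [(1,0,4,5),(0,4,5,7),(4,5,7,9),(1,0,4,6),(0,4,5,8),(6,5,7,9),(0,4,6,8)]))) (fb 1 0 4 8)) (fb 1 2 3 8)) (fb 0 1 2 8)) (br 2 8 (br 3 8 (fb 3 2 1 8) (fb 0 1 8 3)) (br 3 8 (br 4 8 (fb 4 0 1 8) (fb 0 4 8 2)) (fb 0 1 8 3))))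 (br 1 8 (br 2 8 (fb 2 1 0 8) (br 3 8 (fb 0 8 2 3) (fb 1 0 8 3))) (br 2 8 (br 3 8 (fb 3 2 1 8) (fb 0 8 3 2)) (br 3 8 (fb 0 8 2 3) (br 4 8 (fb 2 8 0 4) (br 5 8 (wi [(0,1,2,3),(2,1,0,4),(1,0,4,5),(1,8,4,5),(2,8,4,5),(3,8,4,5)]) (br 6 8 (wi [(1,0,4,5),(0,4,5,7),(4,5,7,9),(1,0,4,6),(0,8,5,6),(6,5,7,9),(1,8,4,6)]) (rq 4)))))))) (fb 0 4 6 9)) (br 9 6 (wi [(1,0,4,5),(0,4,5,7),(4,5,7,9),(1,0,4,6),(0,4,6,7),(4,6,7,9)]) (fb 0 4 6 9))))) (fb 1 2 3 6)) (fb 0 1 2 6)) (br 2 6 (br 3 6 (fb 3 2 1 6) (fb 0 1 6 3)) (br 3 6 (br 4 6 (br 5 6 (br 7 6 (br 9 6 (br 0 8 (br 1 8 (br 2 8 (br 3 8 (br 4 8 (br 5 8 (br 6 8 (rq 4) (br 7 8 (br 9 8 (br 0 10 (br 1 10 (br 2 10 (br 3 10 (br 4 10 (br 5 10 (br 6 10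 (br 7 10 (br 8 10 (rq 6) (wi [(0,1,2,3),(2,1,0,4),(4,0,1,6),(0,1,6,8),(1,6,8,10),(3,2,6,8),(2,6,8,10)])) (br 8 10 (rq 6) (wi [(0,1,2,3),(2,1,0,4),(4,0,1,6),(0,1,6,8),(1,6,8,10),(3,2,6,8),(2,6,8,10)]))) (fb 0 1 6 10)) (fb 0 4 5 10)) (fb 1 0 4 10)) (fb 1 2 3 10)) (fb 0 1 2 10)) (br 2 10 (br 3 10 (fb 3 2 1 10) (fb 0 1 10 3)) (br 3 10 (br 4 10 (fb 4 0 1 10) (fb 0 4 10 2)) (fb 0 1 10 3)))) (br 1 10 (br 2 10 (fb 2 1 0 10) (br 3 10 (fb 0 10 2 3) (fb 1 0 10 3))) (br 2 10 (br 3 10 (fb 3 2 1 10) (fb 0 10 3 2)) (br 3 10 (fb 0 10 2 3) (br 4 10 (fb 2 10 0 4) (br 5 10 (fb 1 10 4 5) (br 6 10 (fb 0 10 2 6) (br 7 10 (wi [(2,1,0,4),(1,0,4,5),(0,4,5,7),(0,10,5,7),(1,10,5,7),(2,10,5,7)]) (br 8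 10 (wi [(0,1,2,3),(2,1,0,4),(4,0,1,6),(0,1,6,8),(0,10,6,8),(3,2,6,8),(3,10,6,8)]) (rq 6)))))))))) (wi [(0,1,2,3),(2,1,0,4),(4,0,1,6),(0,1,6,8),(1,6,8,9),(3,2,6,8),(2,6,8,9)])) (wi [(0,1,2,3),(2,1,0,4),(4,0,1,6),(0,1,6,8),(1,6,8,7),(3,2,6,8),(2,6,8,7)]))) (br 6 8 (rq 4) (wi [(1,0,4,5),(4,0,1,6),(0,4,5,8),(0,1,6,8),(1,6,8,5)]))) (fb 1 0 4 8)) (fb 1 2 3 8)) (fb 0 1 2 8)) (br 2 8 (br 3 8 (fb 3 2 1 8) (fb 0 1 8 3)) (br 3 8 (br 4 8 (fb 4 0 1 8) (fb 0 4 8 2)) (fb 0 1 8 3)))) (br 1 8 (br 2 8 (fb 2 1 0 8) (br 3 8 (fb 0 8 2 3) (fb 1 0 8 3))) (br 2 8 (br 3 8 (fb 3 2 1 8) (fb 0 8 3 2)) (br 3 8 (fb 0 8 2 3) (br 4 8 (fb 2 8 0 4) (br 5 8 (wi [(0,1,2,3),(2,1,0,4),(1,0,4,5),(1,8,4,5),(2,8,4,5),(3,8,4,5)])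 (br 6 8 (wi [(0,1,2,3),(2,1,0,4),(4,0,1,6),(0,8,2,6),(3,8,1,6),(4,8,1,6)]) (rq 4)))))))) (fb 0 1 6 9)) (wi [(1,0,4,5),(0,4,5,7),(4,0,1,6),(0,1,6,7),(1,6,7,5)])) (wi [(1,0,4,5),(4,0,1,6),(0,1,6,5),(0,4,5,6)])) (br 5 6 (wi [(0,1,2,3),(2,1,0,4),(1,0,4,5),(0,4,6,2),(3,2,6,4),(1,6,4,5)]) (wi [(0,1,2,3),(2,1,0,4),(1,0,4,5),(0,4,6,2),(3,2,6,4),(0,1,6,5)]))) (fb 0 1 6 3)))) (br 1 6 (br 2 6 (fb 2 1 0 6) (br 3 6 (fb 0 6 2 3) (fb 1 0 6 3))) (br 2 6 (br 3 6 (fb 3 2 1 6) (fb 0 6 3 2)) (br 3 6 (fb 0 6 2 3) (br 4 6 (br 5 6 (wi [(0,1,2,3),(2,1,0,4),(1,0,4,5),(2,6,0,4),(3,6,0,4),(5,4,0,6)]) (wi [(0,1,2,3),(2,1,0,4),(1,0,4,5),(2,6,0,4),(3,6,0,4),(1,6,5,4)])) (rq 2))))))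

def tbr_11 : CT := (br 0 5 (br 1 5 (br 2 5 (br 3 5 (br 4 5 (rq 1) (br 0 7 (br 1 7 (br 2 7 (br 3 7 (br 4 7 (br 5 7 (rq 3) (br 0 9 (br 1 9 (br 2 9 (br 3 9 (br 4 9 (br 5 9 (br 7 9 (rq 5) tbr_10) (fb 0 4 5 9)) (fb 1 0 4 9)) (fb 1 2 3 9)) (fb 0 1 2 9)) (br 2 9 (br 3 9 (fb 3 2 1 9) (fb 0 1 9 3)) (br 3 9 (br 4 9 (fb 4 0 1 9) (fb 0 4 9 2)) (fb 0 1 9 3)))) (br 1 9 (br 2 9 (fb 2 1 0 9) (br 3 9 (fb 0 9 2 3) (fb 1 0 9 3))) (br 2 9 (br 3 9 (fb 3 2 1 9) (fb 0 9 3 2)) (br 3 9 (fb 0 9 2 3) (br 4 9 (fb 2 9 0 4) (br 5 9 (fb 1 9 4 5) (br 7 9 (wi [(2,1,0,4),(1,0,4,5),(0,4,5,7),(0,9,5,7),(1,9,5,7),(2,9,5,7)]) (rq 5))))))))) (fb 1 0 4 7)) (fb 1 2 3 7)) (fb 0 1 2 7)) (br 2 7 (br 3 7 (fb 3 2 1 7)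 (fb 0 1 7 3)) (br 3 7 (br 4 7 (fb 4 0 1 7) (fb 0 4 7 2)) (fb 0 1 7 3)))) (br 1 7 (br 2 7 (fb 2 1 0 7) (br 3 7 (fb 0 7 2 3) (fb 1 0 7 3))) (br 2 7 (br 3 7 (fb 3 2 1 7) (fb 0 7 3 2)) (br 3 7 (fb 0 7 2 3) (br 4 7 (fb 2 7 0 4) (br 5 7 (wi [(0,1,2,3),(2,1,0,4),(1,0,4,5),(1,7,4,5),(2,7,4,5),(3,7,4,5)]) (rq 3)))))))) (fb 1 2 3 5)) (fb 0 1 2 5)) (br 2 5 (br 3 5 (fb 3 2 1 5) (fb 0 1 5 3)) (br 3 5 (br 4 5 (br 0 7 (br 1 7 (br 2 7 (br 3 7 (br 4 7 (br 5 7 (rq 3) (br 0 9 (br 1 9 (br 2 9 (br 3 9 (br 4 9 (br 5 9 (br 7 9 (rq 5) (wi [(0,1,2,3),(2,1,0,4),(4,0,1,5),(0,1,5,7),(1,5,7,9),(3,2,5,7),(2,5,7,9)])) (fb 0 1 5 9)) (fb 1 0 4 9)) (fb 1 2 3 9)) (fb 0 1 2 9)) (br 2 9 (br 3 9 (fb 3 2 1 9) (fb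 0 1 9 3)) (br 3 9 (br 4 9 (fb 4 0 1 9) (fb 0 4 9 2)) (fb 0 1 9 3)))) (br 1 9 (br 2 9 (fb 2 1 0 9) (br 3 9 (fb 0 9 2 3) (fb 1 0 9 3))) (br 2 9 (br 3 9 (fb 3 2 1 9) (fb 0 9 3 2)) (br 3 9 (fb 0 9 2 3) (br 4 9 (fb 2 9 0 4) (br 5 9 (fb 0 9 2 5) (br 7 9 (wi [(0,1,2,3),(2,1,0,4),(4,0,1,5),(0,1,5,7),(0,9,5,7),(3,2,5,7),(3,9,5,7)]) (rq 5))))))))) (fb 1 0 4 7)) (fb 1 2 3 7)) (fb 0 1 2 7)) (br 2 7 (br 3 7 (fb 3 2 1 7) (fb 0 1 7 3)) (br 3 7 (br 4 7 (fb 4 0 1 7) (fb 0 4 7 2)) (fb 0 1 7 3)))) (br 1 7 (br 2 7 (fb 2 1 0 7) (br 3 7 (fb 0 7 2 3) (fb 1 0 7 3))) (br 2 7 (br 3 7 (fb 3 2 1 7) (fb 0 7 3 2)) (br 3 7 (fb 0 7 2 3) (br 4 7 (fb 2 7 0 4) (br 5 7 (wi [(0,1,2,3),(2,1,0,4),(4,0,1,5),(0,7,2,5),(3,7,1,5),(4,7,1,5)])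 (rq 3))))))) (br 0 7 (br 1 7 (br 2 7 (br 3 7 (br 4 7 (br 5 7 (rq 3) (wi [(0,1,2,3),(2,1,0,4),(0,4,5,2),(0,1,5,7),(3,2,5,4),(0,4,5,7)])) (fb 1 0 4 7)) (fb 1 2 3 7)) (fb 0 1 2 7)) (br 2 7 (br 3 7 (fb 3 2 1 7) (fb 0 1 7 3)) (br 3 7 (br 4 7 (fb 4 0 1 7) (fb 0 4 7 2)) (fb 0 1 7 3)))) (br 1 7 (br 2 7 (fb 2 1 0 7) (br 3 7 (fb 0 7 2 3) (fb 1 0 7 3))) (br 2 7 (br 3 7 (fb 3 2 1 7) (fb 0 7 3 2)) (br 3 7 (fb 0 7 2 3) (br 4 7 (fb 2 7 0 4) (br 5 7 (wi [(0,1,2,3),(2,1,0,4),(0,4,5,2),(0,7,2,5),(3,2,5,4),(3,7,1,5)]) (rq 3)))))))) (fb 0 1 5 3)))) (br 1 5 (br 2 5 (fb 2 1 0 5) (br 3 5 (fb 0 5 2 3) (fb 1 0 5 3))) (br 2 5 (br 3 5 (fb 3 2 1 5) (fb 0 5 3 2)) (br 3 5 (fb 0 5 2 3) (br 4 5 (br 0 7 (br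 1 7 (br 2 7 (br 3 7 (br 4 7 (br 5 7 (rq 3) (br 0 9 (br 1 9 (br 2 9 (br 3 9 (br 4 9 (br 5 9 (br 7 9 (rq 5) (wi [(0,1,2,3),(2,1,0,4),(2,5,0,4),(4,0,5,7),(0,5,7,9),(3,5,0,4),(1,5,7,9)])) (fb 4 0 5 9)) (fb 1 0 4 9)) (fb 1 2 3 9)) (fb 0 1 2 9)) (br 2 9 (br 3 9 (fb 3 2 1 9) (fb 0 1 9 3)) (br 3 9 (br 4 9 (fb 4 0 1 9) (fb 0 4 9 2)) (fb 0 1 9 3)))) (br 1 9 (br 2 9 (fb 2 1 0 9) (br 3 9 (fb 0 9 2 3) (fb 1 0 9 3))) (br 2 9 (br 3 9 (fb 3 2 1 9) (fb 0 9 3 2)) (br 3 9 (fb 0 9 2 3) (br 4 9 (fb 2 9 0 4) (br 5 9 (fb 4 9 1 5) (br 7 9 (br 0 6 (br 1 6 (br 2 6 (br 3 6 (br 4 6 (rq 2) (br 5 6 (wi [(0,1,2,3),(2,1,0,4),(2,5,0,4),(1,0,4,6),(3,5,0,4),(5,0,4,6)]) (wi [(0,1,2,3),(2,1,0,4),(2,5,0,4),(1,0,4,6),(3,5,0,4),(1,5,6,4)])))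 (fb 1 2 3 6)) (fb 0 1 2 6)) (br 2 6 (br 3 6 (fb 3 2 1 6) (fb 0 1 6 3)) (br 3 6 (br 4 6 (br 5 6 (wi [(0,1,2,3),(2,1,0,4),(2,5,0,4),(4,0,1,6),(3,5,0,4),(0,5,2,6)]) (wi [(0,1,2,3),(2,1,0,4),(2,5,0,4),(4,0,1,6),(3,5,0,4),(4,0,5,6)])) (wi [(0,1,2,3),(2,1,0,4),(2,5,0,4),(0,4,6,2),(3,5,0,4),(3,2,6,4)])) (fb 0 1 6 3)))) (br 1 6 (br 2 6 (fb 2 1 0 6) (br 3 6 (fb 0 6 2 3) (fb 1 0 6 3))) (br 2 6 (br 3 6 (fb 3 2 1 6) (fb 0 6 3 2)) (br 3 6 (fb 0 6 2 3) (br 4 6 (wi [(0,1,2,3),(2,1,0,4),(2,5,0,4),(2,6,0,4),(3,5,0,4),(3,6,0,4)]) (rq 2)))))) (rq 5))))))))) (fb 1 0 4 7)) (fb 1 2 3 7)) (fb 0 1 2 7)) (br 2 7 (br 3 7 (fb 3 2 1 7) (fb 0 1 7 3)) (br 3 7 (br 4 7 (fb 4 0 1 7) (fb 0 4 7 2)) (fb 0 1 7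 3)))) (br 1 7 (br 2 7 (fb 2 1 0 7) (br 3 7 (fb 0 7 2 3) (fb 1 0 7 3))) (br 2 7 (br 3 7 (fb 3 2 1 7) (fb 0 7 3 2)) (br 3 7 (fb 0 7 2 3) (br 4 7 (fb 2 7 0 4) (br 5 7 (wi [(0,1,2,3),(2,1,0,4),(2,5,0,4),(4,7,1,5),(3,5,0,4),(4,7,2,5)]) (rq 3))))))) (rq 1))))))

def tbr_12 : CT := (br 0 7 (br 1 7 (br 2 7 (br 3 7 (br 4 7 (br 5 7 (rq 3) (br 0 9 (br 1 9 (br 2 9 (br 3 9 (br 4 9 (br 5 9 (br 7 9 (rq 5) (wi [(0,1,2,3),(0,4,2,3),(3,5,0,4),(4,0,5,7),(0,5,7,9),(4,2,5,7),(1,5,7,9)])) (fb 4 0 5 9)) (fb 1 0 4 9)) (fb 1 2 3 9)) (fb 0 1 2 9)) (br 2 9 (br 3 9 (fb 3 2 1 9) (fb 0 1 9 3)) (br 3 9 (br 4 9 (fb 4 0 1 9) (br 5 9 (fb 0 5 2 9) (fb 3 5 9 4))) (fb 0 1 9 3)))) (br 1 9 (br 2 9 (fb 2 1 0 9) (br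 3 9 (fb 0 9 2 3) (fb 1 0 9 3))) (br 2 9 (br 3 9 (fb 3 2 1 9) (fb 0 9 3 2)) (br 3 9 (fb 0 9 2 3) (br 4 9 (fb 3 9 0 4) (br 5 9 (fb 4 9 1 5) (br 7 9 (br 0 6 (br 1 6 (br 2 6 (br 3 6 (br 4 6 (rq 2) (wi [(0,1,2,3),(0,4,2,3),(3,5,0,4),(4,0,5,7),(1,0,4,6),(4,2,5,7),(1,2,4,6)])) (fb 1 2 3 6)) (fb 0 1 2 6)) (br 2 6 (br 3 6 (fb 3 2 1 6) (fb 0 1 6 3)) (br 3 6 (br 4 6 (wi [(0,1,2,3),(0,4,2,3),(3,5,0,4),(4,0,5,7),(4,0,1,6),(4,2,5,7),(0,4,2,6)]) (rq 2)) (fb 0 1 6 3)))) (br 1 6 (br 2 6 (fb 2 1 0 6) (br 3 6 (fb 0 6 2 3) (fb 1 0 6 3))) (br 2 6 (br 3 6 (fb 3 2 1 6) (fb 0 6 3 2)) (br 3 6 (fb 0 6 2 3) (br 4 6 (br 5 6 (br 7 6 (wi [(0,4,2,3),(3,5,0,4),(4,0,5,7),(3,6,0,4),(4,2,5,7),(6,0,5,7)]) (wi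 [(0,4,2,3),(3,5,0,4),(4,0,5,7),(3,6,0,4),(4,2,5,7),(4,0,6,7)])) (br 7 6 (br 9 6 (fb 4 9 1 6) (br 0 8 (br 1 8 (br 2 8 (br 3 8 (br 4 8 (br 5 8 (br 6 8 (rq 4) (wi [(0,4,2,3),(3,5,0,4),(4,0,5,7),(3,6,0,4),(4,0,6,8),(4,2,5,7),(4,2,6,8)])) (wi [(0,4,2,3),(3,5,0,4),(4,0,5,7),(4,0,5,8),(4,2,5,7),(4,2,5,8)])) (fb 1 0 4 8)) (fb 1 2 3 8)) (fb 0 1 2 8)) (br 2 8 (br 3 8 (fb 3 2 1 8) (fb 0 1 8 3)) (br 3 8 (br 4 8 (fb 4 0 1 8) (br 5 8 (wi [(0,4,2,3),(3,5,0,4),(4,0,5,7),(0,5,2,8),(4,2,5,7),(5,0,4,8)]) (br 6 8 (wi [(0,4,2,3),(3,5,0,4),(4,0,5,7),(3,6,0,4),(3,5,8,4),(4,2,5,7),(0,6,2,8)]) (wi [(0,4,2,3),(3,5,0,4),(4,0,5,7),(3,6,0,4),(3,5,8,4),(4,2,5,7),(3,6,8,4)])))) (fb 0 1 8 3)))) (br 1 8 (br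 2 8 (fb 2 1 0 8) (br 3 8 (fb 0 8 2 3) (fb 1 0 8 3))) (br 2 8 (br 3 8 (fb 3 2 1 8) (fb 0 8 3 2)) (br 3 8 (fb 0 8 2 3) (br 4 8 (fb 3 8 0 4) (br 5 8 (wi [(0,1,2,3),(0,4,2,3),(3,5,0,4),(4,0,5,7),(4,8,1,5),(4,2,5,7),(4,8,3,5)]) (br 6 8 (wi [(0,1,2,3),(0,4,2,3),(3,5,0,4),(3,6,0,4),(4,8,1,6),(4,8,3,6),(4,8,5,6)]) (rq 4))))))))) (wi [(0,4,2,3),(3,5,0,4),(4,0,5,7),(3,6,0,4),(4,2,5,7),(4,0,6,7)]))) (rq 2)))))) (rq 5))))))))) (fb 1 0 4 7)) (fb 1 2 3 7)) (fb 0 1 2 7)) (br 2 7 (br 3 7 (fb 3 2 1 7) (fb 0 1 7 3)) (br 3 7 (br 4 7 (fb 4 0 1 7) (br 5 7 (wi [(0,1,2,3),(0,4,2,3),(3,5,0,4),(0,5,2,7),(5,0,4,7),(3,5,1,7)]) (br 0 9 (br 1 9 (br 2 9 (br 3 9 (br 4 9 (br 5 9 (br 7 9 (rq 5) (wi [(0,1,2,3),(0,4,2,3),(3,5,0,4),(3,5,7,4),(0,1,7,9),(0,4,7,9),(0,5,7,9)]))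 (fb 4 0 5 9)) (fb 1 0 4 9)) (fb 1 2 3 9)) (fb 0 1 2 9)) (br 2 9 (br 3 9 (fb 3 2 1 9) (fb 0 1 9 3)) (br 3 9 (br 4 9 (fb 4 0 1 9) (br 5 9 (fb 0 5 2 9) (fb 3 5 9 4))) (fb 0 1 9 3)))) (br 1 9 (br 2 9 (fb 2 1 0 9) (br 3 9 (fb 0 9 2 3) (fb 1 0 9 3))) (br 2 9 (br 3 9 (fb 3 2 1 9) (fb 0 9 3 2)) (br 3 9 (fb 0 9 2 3) (br 4 9 (fb 3 9 0 4) (br 5 9 (fb 4 9 1 5) (br 7 9 (wi [(0,1,2,3),(0,4,2,3),(3,5,0,4),(3,5,7,4),(0,9,2,7),(3,9,1,7),(3,9,4,7)]) (rq 5)))))))))) (fb 0 1 7 3)))) (br 1 7 (br 2 7 (fb 2 1 0 7) (br 3 7 (fb 0 7 2 3) (fb 1 0 7 3))) (br 2 7 (br 3 7 (fb 3 2 1 7) (fb 0 7 3 2)) (br 3 7 (fb 0 7 2 3) (br 4 7 (fb 3 7 0 4) (br 5 7 (br 0 9 (br 1 9 (br 2 9 (br 3 9 (br 4 9 (br 5 9 (br 7 9 (rq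 5) (wi [(0,1,2,3),(0,4,2,3),(3,5,0,4),(4,7,1,5),(5,0,7,9),(4,7,3,5),(5,1,7,9)])) (fb 4 0 5 9)) (fb 1 0 4 9)) (fb 1 2 3 9)) (fb 0 1 2 9)) (br 2 9 (br 3 9 (fb 3 2 1 9) (fb 0 1 9 3)) (br 3 9 (br 4 9 (fb 4 0 1 9) (br 5 9 (fb 0 5 2 9) (fb 3 5 9 4))) (fb 0 1 9 3)))) (br 1 9 (br 2 9 (fb 2 1 0 9) (br 3 9 (fb 0 9 2 3) (fb 1 0 9 3))) (br 2 9 (br 3 9 (fb 3 2 1 9) (fb 0 9 3 2)) (br 3 9 (fb 0 9 2 3) (br 4 9 (fb 3 9 0 4) (br 5 9 (fb 4 9 1 5) (br 7 9 (br 0 6 (br 1 6 (br 2 6 (br 3 6 (br 4 6 (rq 2) (wi [(0,1,2,3),(0,4,2,3),(3,5,0,4),(4,7,1,5),(1,0,4,6),(4,7,3,5),(1,2,4,6)])) (fb 1 2 3 6)) (fb 0 1 2 6)) (br 2 6 (br 3 6 (fb 3 2 1 6) (fb 0 1 6 3)) (br 3 6 (br 4 6 (wi [(0,1,2,3),(0,4,2,3),(3,5,0,4),(4,7,1,5),(4,0,1,6),(4,7,3,5),(0,4,2,6)])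 (rq 2)) (fb 0 1 6 3)))) (br 1 6 (br 2 6 (fb 2 1 0 6) (br 3 6 (fb 0 6 2 3) (fb 1 0 6 3))) (br 2 6 (br 3 6 (fb 3 2 1 6) (fb 0 6 3 2)) (br 3 6 (fb 0 6 2 3) (br 4 6 (br 5 6 (br 7 6 (wi [(0,1,2,3),(0,4,2,3),(3,5,0,4),(4,7,1,5),(3,6,0,4),(4,7,3,5),(4,7,1,6)]) (br 9 6 (fb 4 9 1 6) (br 0 8 (br 1 8 (br 2 8 (br 3 8 (br 4 8 (br 5 8 (br 6 8 (rq 4) (wi [(3,5,0,4),(4,7,3,5),(5,9,4,7),(3,6,0,4),(4,0,6,8),(5,9,6,7),(5,0,6,8)])) (wi [(0,1,2,3),(0,4,2,3),(3,5,0,4),(4,7,1,5),(4,0,5,8),(4,7,3,5),(4,2,5,8)])) (fb 1 0 4 8)) (fb 1 2 3 8)) (fb 0 1 2 8)) (br 2 8 (br 3 8 (fb 3 2 1 8) (fb 0 1 8 3)) (br 3 8 (br 4 8 (fb 4 0 1 8) (br 5 8 (wi [(0,1,2,3),(0,4,2,3),(3,5,0,4),(4,7,1,5),(0,5,2,8),(4,7,3,5),(5,0,4,8)])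 (br 6 8 (wi [(0,4,2,3),(3,5,0,4),(3,6,0,4),(3,5,8,4),(0,6,2,8),(6,0,4,8)]) (wi [(3,5,0,4),(4,7,3,5),(5,9,4,7),(3,6,0,4),(3,5,8,4),(5,9,6,7),(3,6,8,4)])))) (fb 0 1 8 3)))) (br 1 8 (br 2 8 (fb 2 1 0 8) (br 3 8 (fb 0 8 2 3) (fb 1 0 8 3))) (br 2 8 (br 3 8 (fb 3 2 1 8) (fb 0 8 3 2)) (br 3 8 (fb 0 8 2 3) (br 4 8 (fb 3 8 0 4) (br 5 8 (wi [(0,1,2,3),(0,4,2,3),(3,5,0,4),(4,7,1,5),(4,8,1,5),(4,7,3,5),(4,8,3,5)]) (br 6 8 (br 7 8 (wi [(3,5,0,4),(4,7,3,5),(3,6,0,4),(4,8,3,6),(4,7,1,5),(5,8,4,7),(4,8,1,6)]) (wi [(3,5,0,4),(4,7,3,5),(3,6,0,4),(4,8,3,6),(4,7,1,5),(5,8,7,6),(4,8,1,6)])) (rq 4)))))))))) (br 7 6 (wi [(0,1,2,3),(0,4,2,3),(3,5,0,4),(4,7,1,5),(3,6,0,4),(4,7,3,5),(4,7,1,6)]) (wi [(0,1,2,3),(0,4,2,3),(3,5,0,4),(4,7,1,5),(3,6,0,4),(4,7,3,5),(4,7,6,5)])))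 (rq 2)))))) (rq 5)))))))) (rq 3)))))))

def tbr_13 : CT := (br 0 6 (br 1 6 (br 2 6 (br 3 6 (br 4 6 (rq 2) (br 5 6 (wi [(0,1,2,3),(1,0,4,3),(1,5,3,4),(1,0,4,6),(1,2,4,6),(5,0,4,6)]) (wi [(0,1,2,3),(1,0,4,3),(1,5,3,4),(1,0,4,6),(1,2,4,6),(1,5,6,4)]))) (fb 1 2 3 6)) (fb 0 1 2 6)) (br 2 6 (br 3 6 (fb 3 2 1 6) (fb 0 1 6 3)) (br 3 6 (br 4 6 (br 5 6 (wi [(0,1,2,3),(1,0,4,3),(1,5,3,4),(4,0,1,6),(0,4,2,6),(0,5,2,6)]) (wi [(0,1,2,3),(1,0,4,3),(1,5,3,4),(4,0,1,6),(0,4,2,6),(4,0,5,6)])) (br 5 6 (wi [(0,1,2,3),(1,0,4,3),(1,5,3,4),(1,6,4,3),(0,5,2,6),(5,0,4,6)]) (br 7 6 (wi [(0,1,2,3),(1,0,4,3),(1,5,3,4),(4,7,1,5),(1,6,4,3),(0,7,2,6),(6,5,0,7)]) (br 9 6 (fb 0 9 2 6) (br 0 8 (br 1 8 (br 2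 8 (br 3 8 (br 4 8 (br 5 8 (br 6 8 (rq 4) (wi [(1,0,4,3),(1,5,3,4),(1,6,4,3),(0,1,6,8),(0,4,6,8),(0,5,6,8)])) (wi [(0,1,2,3),(1,0,4,3),(1,5,3,4),(4,0,5,8),(4,2,5,8),(4,3,5,8)])) (fb 1 0 4 8)) (fb 1 2 3 8)) (fb 0 1 2 8)) (br 2 8 (br 3 8 (fb 3 2 1 8) (fb 0 1 8 3)) (br 3 8 (br 4 8 (fb 4 0 1 8) (fb 1 8 4 3)) (fb 0 1 8 3)))) (br 1 8 (br 2 8 (fb 2 1 0 8) (br 3 8 (fb 0 8 2 3) (fb 1 0 8 3))) (br 2 8 (br 3 8 (fb 3 2 1 8) (fb 0 8 3 2)) (br 3 8 (fb 0 8 2 3) (br 4 8 (fb 1 8 3 4) (br 5 8 (br 6 8 (wi [(0,1,2,3),(1,0,4,3),(1,5,3,4),(1,6,4,3),(4,8,1,5),(0,8,2,6),(6,5,0,8)]) (rq 4)) (br 6 8 (br 7 8 (wi [(0,1,2,3),(1,0,4,3),(1,6,4,3),(0,8,2,6),(6,7,0,8),(3,8,1,6),(6,7,3,8)]) (br 9 8 (wi [(0,1,2,3),(1,0,4,3),(1,6,4,3),(0,8,2,6),(6,9,0,8),(3,8,1,6),(6,9,3,8)])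 (br 0 10 (br 1 10 (br 2 10 (br 3 10 (br 4 10 (br 5 10 (br 6 10 (br 7 10 (br 8 10 (rq 6) (wi [(0,1,2,3),(1,0,4,3),(1,6,4,3),(0,8,2,6),(6,1,8,10),(3,8,1,6),(6,2,8,10)])) (wi [(0,1,2,3),(1,0,4,3),(1,5,3,4),(4,7,1,5),(5,0,7,10),(5,1,7,10),(5,2,7,10)])) (fb 0 1 6 10)) (fb 4 0 5 10)) (fb 1 0 4 10)) (fb 1 2 3 10)) (fb 0 1 2 10)) (br 2 10 (br 3 10 (fb 3 2 1 10) (fb 0 1 10 3)) (br 3 10 (br 4 10 (fb 4 0 1 10) (fb 1 10 4 3)) (fb 0 1 10 3)))) (br 1 10 (br 2 10 (fb 2 1 0 10) (br 3 10 (fb 0 10 2 3) (fb 1 0 10 3))) (br 2 10 (br 3 10 (fb 3 2 1 10) (fb 0 10 3 2)) (br 3 10 (fb 0 10 2 3) (br 4 10 (fb 1 10 3 4) (br 5 10 (fb 4 10 1 5) (br 6 10 (fb 0 10 2 6) (br 7 10 (br 8 10 (wi [(0,1,2,3),(1,0,4,3),(1,6,4,3),(0,8,2,6),(6,10,0,8),(3,8,1,6),(6,10,3,8)])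 (rq 6)) (br 8 10 (wi [(0,1,2,3),(1,0,4,3),(1,6,4,3),(0,8,2,6),(6,10,0,8),(3,8,1,6),(6,10,3,8)]) (rq 6)))))))))))) (rq 4)))))))))))) (fb 0 1 6 3)))) (br 1 6 (br 2 6 (fb 2 1 0 6) (br 3 6 (fb 0 6 2 3) (fb 1 0 6 3))) (br 2 6 (br 3 6 (fb 3 2 1 6) (fb 0 6 3 2)) (br 3 6 (fb 0 6 2 3) (br 4 6 (br 5 6 (br 7 6 (br 9 6 (fb 4 9 1 6) (wi [(1,5,3,4),(4,7,1,5),(5,9,4,7),(1,6,3,4),(4,7,1,6),(6,9,4,7)])) (br 9 6 (fb 4 9 1 6) (br 0 8 (br 1 8 (br 2 8 (br 3 8 (br 4 8 (br 5 8 (br 6 8 (rq 4) (wi [(1,0,4,3),(1,5,3,4),(1,6,3,4),(4,0,6,8),(5,0,6,8),(5,1,6,8)])) (wi [(0,1,2,3),(1,0,4,3),(1,5,3,4),(4,0,5,8),(4,2,5,8),(4,3,5,8)])) (fb 1 0 4 8)) (fb 1 2 3 8)) (fb 0 1 2 8)) (br 2 8 (br 3 8 (fb 3 2 1 8) (fb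 0 1 8 3)) (br 3 8 (br 4 8 (fb 4 0 1 8) (fb 1 8 4 3)) (fb 0 1 8 3)))) (br 1 8 (br 2 8 (fb 2 1 0 8) (br 3 8 (fb 0 8 2 3) (fb 1 0 8 3))) (br 2 8 (br 3 8 (fb 3 2 1 8) (fb 0 8 3 2)) (br 3 8 (fb 0 8 2 3) (br 4 8 (fb 1 8 3 4) (br 5 8 (br 6 8 (wi [(1,5,3,4),(4,7,1,5),(5,9,4,7),(1,6,3,4),(4,8,1,5),(5,9,6,7),(4,8,1,6)]) (rq 4)) (br 6 8 (br 7 8 (wi [(1,5,3,4),(4,7,1,5),(5,9,4,7),(1,6,3,4),(4,8,1,6),(5,9,6,7),(5,8,4,7)]) (wi [(1,5,3,4),(4,7,1,5),(5,9,4,7),(1,6,3,4),(4,8,1,6),(5,9,6,7),(5,8,7,6)])) (rq 4)))))))))) (br 7 6 (br 9 6 (fb 4 9 1 6) (wi [(1,5,3,4),(4,7,1,5),(5,9,4,7),(1,6,3,4),(4,7,1,6),(6,9,4,7)])) (br 9 6 (fb 4 9 1 6) (br 0 8 (br 1 8 (br 2 8 (br 3 8 (br 4 8 (br 5 8 (br 6 8 (rq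 4) (wi [(0,1,2,3),(1,0,4,3),(1,6,3,4),(4,0,6,8),(4,2,6,8),(4,3,6,8)])) (wi [(0,1,2,3),(1,0,4,3),(1,5,3,4),(4,0,5,8),(4,2,5,8),(4,3,5,8)])) (fb 1 0 4 8)) (fb 1 2 3 8)) (fb 0 1 2 8)) (br 2 8 (br 3 8 (fb 3 2 1 8) (fb 0 1 8 3)) (br 3 8 (br 4 8 (fb 4 0 1 8) (fb 1 8 4 3)) (fb 0 1 8 3)))) (br 1 8 (br 2 8 (fb 2 1 0 8) (br 3 8 (fb 0 8 2 3) (fb 1 0 8 3))) (br 2 8 (br 3 8 (fb 3 2 1 8) (fb 0 8 3 2)) (br 3 8 (fb 0 8 2 3) (br 4 8 (fb 1 8 3 4) (br 5 8 (br 6 8 (wi [(1,5,3,4),(4,7,1,5),(1,6,3,4),(4,8,1,5),(4,7,6,5),(4,8,1,6)]) (rq 4)) (br 6 8 (wi [(1,5,3,4),(4,7,1,5),(1,6,3,4),(4,8,1,6),(4,7,6,5),(4,8,5,6)]) (rq 4))))))))))) (rq 2))))))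

def tbr_14 : CT := (br 0 5 (br 1 5 (br 2 5 (br 3 5 (br 4 5 (rq 1) (br 0 7 (br 1 7 (br 2 7 (br 3 7 (br 4 7 (br 5 7 (rq 3) (wi [(0,1,2,3),(1,0,4,3),(1,0,4,5),(0,4,5,7),(1,2,4,5),(2,4,5,7)])) (fb 1 0 4 7)) (fb 1 2 3 7)) (fb 0 1 2 7)) (br 2 7 (br 3 7 (fb 3 2 1 7) (fb 0 1 7 3)) (br 3 7 (br 4 7 (fb 4 0 1 7) (fb 1 7 4 3)) (fb 0 1 7 3)))) (br 1 7 (br 2 7 (fb 2 1 0 7) (br 3 7 (fb 0 7 2 3) (fb 1 0 7 3))) (br 2 7 (br 3 7 (fb 3 2 1 7) (fb 0 7 3 2)) (br 3 7 (fb 0 7 2 3) (br 4 7 (fb 1 7 3 4) (br 5 7 (br 0 9 (br 1 9 (br 2 9 (br 3 9 (br 4 9 (br 5 9 (br 7 9 (rq 5) (br 0 6 (br 1 6 (br 2 6 (br 3 6 (br 4 6 (rq 2) (wi [(0,1,2,3),(1,0,4,3),(1,0,4,5),(1,0,4,6),(1,2,4,5),(1,2,4,6)])) (fb 1 2 3 6))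 (fb 0 1 2 6)) (br 2 6 (br 3 6 (fb 3 2 1 6) (fb 0 1 6 3)) (br 3 6 (br 4 6 (wi [(0,1,2,3),(1,0,4,3),(1,0,4,5),(4,0,1,6),(1,2,4,5),(0,4,2,6)]) (br 5 6 (wi [(0,1,2,3),(1,0,4,3),(1,0,4,5),(1,6,4,3),(1,2,4,5),(1,6,4,5)]) (wi [(0,1,2,3),(1,0,4,3),(1,0,4,5),(1,6,4,3),(1,2,4,5),(0,1,6,5)]))) (fb 0 1 6 3)))) (br 1 6 (br 2 6 (fb 2 1 0 6) (br 3 6 (fb 0 6 2 3) (fb 1 0 6 3))) (br 2 6 (br 3 6 (fb 3 2 1 6) (fb 0 6 3 2)) (br 3 6 (fb 0 6 2 3) (br 4 6 (br 5 6 (wi [(0,1,2,3),(1,0,4,3),(1,0,4,5),(1,6,3,4),(1,2,4,5),(5,4,0,6)]) (wi [(0,1,2,3),(1,0,4,3),(1,0,4,5),(1,6,3,4),(1,2,4,5),(1,6,5,4)])) (rq 2))))))) (fb 0 4 5 9)) (fb 1 0 4 9)) (fb 1 2 3 9)) (fb 0 1 2 9)) (br 2 9 (br 3 9 (fb 3 2 1 9) (fb 0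 1 9 3)) (br 3 9 (br 4 9 (fb 4 0 1 9) (fb 1 9 4 3)) (fb 0 1 9 3)))) (br 1 9 (br 2 9 (fb 2 1 0 9) (br 3 9 (fb 0 9 2 3) (fb 1 0 9 3))) (br 2 9 (br 3 9 (fb 3 2 1 9) (fb 0 9 3 2)) (br 3 9 (fb 0 9 2 3) (br 4 9 (fb 1 9 3 4) (br 5 9 (fb 1 9 4 5) (br 7 9 (wi [(0,1,2,3),(1,0,4,3),(1,0,4,5),(1,7,4,5),(5,9,0,7),(1,2,4,5),(5,9,1,7)]) (rq 5)))))))) (rq 3)))))))) (fb 1 2 3 5)) (fb 0 1 2 5)) (br 2 5 (br 3 5 (fb 3 2 1 5) (fb 0 1 5 3)) (br 3 5 (br 4 5 (br 0 7 (br 1 7 (br 2 7 (br 3 7 (br 4 7 (br 5 7 (rq 3) (wi [(0,1,2,3),(1,0,4,3),(4,0,1,5),(0,1,5,7),(0,4,2,5),(3,2,5,7)])) (fb 1 0 4 7)) (fb 1 2 3 7)) (fb 0 1 2 7)) (br 2 7 (br 3 7 (fb 3 2 1 7) (fb 0 1 7 3)) (br 3 7 (br 4 7 (fb 4 0 1 7) (fb 1 7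 4 3)) (fb 0 1 7 3)))) (br 1 7 (br 2 7 (fb 2 1 0 7) (br 3 7 (fb 0 7 2 3) (fb 1 0 7 3))) (br 2 7 (br 3 7 (fb 3 2 1 7) (fb 0 7 3 2)) (br 3 7 (fb 0 7 2 3) (br 4 7 (fb 1 7 3 4) (br 5 7 (wi [(0,1,2,3),(1,0,4,3),(4,0,1,5),(0,7,2,5),(0,4,2,5),(3,7,1,5)]) (rq 3))))))) (br 0 7 (br 1 7 (br 2 7 (br 3 7 (br 4 7 (br 5 7 (rq 3) (wi [(0,1,2,3),(1,0,4,3),(1,5,4,3),(0,1,5,7),(0,4,5,7),(3,2,5,7)])) (fb 1 0 4 7)) (fb 1 2 3 7)) (fb 0 1 2 7)) (br 2 7 (br 3 7 (fb 3 2 1 7) (fb 0 1 7 3)) (br 3 7 (br 4 7 (fb 4 0 1 7) (fb 1 7 4 3)) (fb 0 1 7 3)))) (br 1 7 (br 2 7 (fb 2 1 0 7) (br 3 7 (fb 0 7 2 3) (fb 1 0 7 3))) (br 2 7 (br 3 7 (fb 3 2 1 7) (fb 0 7 3 2)) (br 3 7 (fb 0 7 2 3) (br 4 7 (fb 1 7 3 4) (br 5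 7 (br 0 9 (br 1 9 (br 2 9 (br 3 9 (br 4 9 (br 5 9 (br 7 9 (rq 5) (wi [(0,1,2,3),(1,0,4,3),(1,5,4,3),(0,7,2,5),(5,1,7,9),(3,7,1,5),(5,2,7,9)])) (fb 0 1 5 9)) (fb 1 0 4 9)) (fb 1 2 3 9)) (fb 0 1 2 9)) (br 2 9 (br 3 9 (fb 3 2 1 9) (fb 0 1 9 3)) (br 3 9 (br 4 9 (fb 4 0 1 9) (fb 1 9 4 3)) (fb 0 1 9 3)))) (br 1 9 (br 2 9 (fb 2 1 0 9) (br 3 9 (fb 0 9 2 3) (fb 1 0 9 3))) (br 2 9 (br 3 9 (fb 3 2 1 9) (fb 0 9 3 2)) (br 3 9 (fb 0 9 2 3) (br 4 9 (fb 1 9 3 4) (br 5 9 (fb 0 9 2 5) (br 7 9 (wi [(0,1,2,3),(1,0,4,3),(1,5,4,3),(0,7,2,5),(5,9,0,7),(3,7,1,5),(5,9,3,7)]) (rq 5)))))))) (rq 3)))))))) (fb 0 1 5 3)))) (br 1 5 (br 2 5 (fb 2 1 0 5) (br 3 5 (fb 0 5 2 3) (fb 1 0 5 3))) (br 2 5 (br 3 5 (fb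 3 2 1 5) (fb 0 5 3 2)) (br 3 5 (fb 0 5 2 3) (br 4 5 (br 0 7 (br 1 7 (br 2 7 (br 3 7 (br 4 7 (br 5 7 (rq 3) (wi [(0,1,2,3),(1,0,4,3),(1,5,3,4),(4,0,5,7),(4,2,5,7),(4,3,5,7)])) (fb 1 0 4 7)) (fb 1 2 3 7)) (fb 0 1 2 7)) (br 2 7 (br 3 7 (fb 3 2 1 7) (fb 0 1 7 3)) (br 3 7 (br 4 7 (fb 4 0 1 7) (fb 1 7 4 3)) (fb 0 1 7 3)))) (br 1 7 (br 2 7 (fb 2 1 0 7) (br 3 7 (fb 0 7 2 3) (fb 1 0 7 3))) (br 2 7 (br 3 7 (fb 3 2 1 7) (fb 0 7 3 2)) (br 3 7 (fb 0 7 2 3) (br 4 7 (fb 1 7 3 4) (br 5 7 (br 0 9 (br 1 9 (br 2 9 (br 3 9 (br 4 9 (br 5 9 (br 7 9 (rq 5) (wi [(0,1,2,3),(1,0,4,3),(1,5,3,4),(4,7,1,5),(5,0,7,9),(5,1,7,9),(5,2,7,9)])) (fb 4 0 5 9)) (fb 1 0 4 9)) (fb 1 2 3 9)) (fb 0 1 2 9)) (br 2 9 (br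 3 9 (fb 3 2 1 9) (fb 0 1 9 3)) (br 3 9 (br 4 9 (fb 4 0 1 9) (fb 1 9 4 3)) (fb 0 1 9 3)))) (br 1 9 (br 2 9 (fb 2 1 0 9) (br 3 9 (fb 0 9 2 3) (fb 1 0 9 3))) (br 2 9 (br 3 9 (fb 3 2 1 9) (fb 0 9 3 2)) (br 3 9 (fb 0 9 2 3) (br 4 9 (fb 1 9 3 4) (br 5 9 (fb 4 9 1 5) (br 7 9 tbr_13 (rq 5)))))))) (rq 3))))))) (rq 1))))))

def tbr_15 : CT := (br 0 6 (br 1 6 (br 2 6 (br 3 6 (br 4 6 (rq 2) (br 5 6 (wi [(0,1,2,3),(0,4,3,2),(2,5,0,4),(2,1,4,6),(2,3,4,6),(5,0,4,6)]) (wi [(0,1,2,3),(0,4,3,2),(2,5,0,4),(2,1,4,6),(2,3,4,6),(2,5,6,4)]))) (fb 1 2 3 6)) (fb 0 1 2 6)) (br 2 6 (br 3 6 (fb 3 2 1 6) (fb 0 1 6 3)) (br 3 6 (br 4 6 (br 5 6 (wi [(0,1,2,3),(0,4,3,2),(2,5,0,4),(3,4,1,6),(4,3,2,6),(0,5,2,6)])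 (wi [(0,1,2,3),(0,4,3,2),(2,5,0,4),(3,4,1,6),(4,3,2,6),(4,0,5,6)])) (br 5 6 (wi [(2,5,0,4),(0,4,6,2),(0,5,2,6),(5,0,4,6)]) (br 7 6 (wi [(2,5,0,4),(4,7,2,5),(0,4,6,2),(0,7,2,6),(6,5,0,7)]) (br 9 6 (fb 0 9 2 6) (br 0 8 (br 1 8 (br 2 8 (br 3 8 (br 4 8 (br 5 8 (br 6 8 (rq 4) (wi [(0,1,2,3),(0,4,3,2),(2,5,0,4),(0,4,6,2),(0,1,6,8),(0,4,6,8),(0,5,6,8)])) (wi [(0,1,2,3),(0,4,3,2),(2,5,0,4),(4,0,5,8),(4,1,5,8),(4,3,5,8)])) (fb 2 1 4 8)) (fb 1 2 3 8)) (fb 0 1 2 8)) (br 2 8 (br 3 8 (fb 3 2 1 8) (fb 0 1 8 3)) (br 3 8 (br 4 8 (fb 3 4 1 8) (fb 0 4 8 2)) (fb 0 1 8 3)))) (br 1 8 (br 2 8 (fb 2 1 0 8) (br 3 8 (fb 0 8 2 3) (fb 1 0 8 3))) (br 2 8 (br 3 8 (fb 3 2 1 8) (fb 0 8 3 2)) (br 3 8 (fb 0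 8 2 3) (br 4 8 (fb 2 8 0 4) (br 5 8 (br 6 8 (wi [(2,5,0,4),(0,4,6,2),(4,8,2,5),(0,8,2,6),(6,5,0,8)]) (rq 4)) (br 6 8 (br 7 8 (wi [(0,1,2,3),(0,4,3,2),(0,4,6,2),(0,8,2,6),(6,7,0,8),(3,8,1,6),(6,7,3,8)]) (br 9 8 (wi [(0,1,2,3),(0,4,3,2),(0,4,6,2),(0,8,2,6),(6,9,0,8),(3,8,1,6),(6,9,3,8)]) (br 0 10 (br 1 10 (br 2 10 (br 3 10 (br 4 10 (br 5 10 (br 6 10 (br 7 10 (br 8 10 (rq 6) (wi [(0,1,2,3),(0,4,3,2),(0,4,6,2),(0,8,2,6),(6,1,8,10),(3,8,1,6),(6,2,8,10)])) (wi [(0,1,2,3),(0,4,3,2),(2,5,0,4),(4,7,2,5),(5,0,7,10),(5,1,7,10),(5,2,7,10)])) (fb 0 1 6 10)) (fb 4 0 5 10)) (fb 2 1 4 10)) (fb 1 2 3 10)) (fb 0 1 2 10)) (br 2 10 (br 3 10 (fb 3 2 1 10) (fb 0 1 10 3)) (br 3 10 (br 4 10 (fb 3 4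 1 10) (fb 0 4 10 2)) (fb 0 1 10 3)))) (br 1 10 (br 2 10 (fb 2 1 0 10) (br 3 10 (fb 0 10 2 3) (fb 1 0 10 3))) (br 2 10 (br 3 10 (fb 3 2 1 10) (fb 0 10 3 2)) (br 3 10 (fb 0 10 2 3) (br 4 10 (fb 2 10 0 4) (br 5 10 (fb 4 10 2 5) (br 6 10 (fb 0 10 2 6) (br 7 10 (br 8 10 (wi [(0,1,2,3),(0,4,3,2),(0,4,6,2),(0,8,2,6),(6,10,0,8),(3,8,1,6),(6,10,3,8)]) (rq 6)) (br 8 10 (wi [(0,1,2,3),(0,4,3,2),(0,4,6,2),(0,8,2,6),(6,10,0,8),(3,8,1,6),(6,10,3,8)]) (rq 6)))))))))))) (rq 4)))))))))))) (fb 0 1 6 3)))) (br 1 6 (br 2 6 (fb 2 1 0 6) (br 3 6 (fb 0 6 2 3) (fb 1 0 6 3))) (br 2 6 (br 3 6 (fb 3 2 1 6) (fb 0 6 3 2)) (br 3 6 (fb 0 6 2 3) (br 4 6 (br 5 6 (br 7 6 (br 9 6 (fb 4 9 2 6) (wi [(2,5,0,4),(4,7,2,5),(5,9,4,7),(2,6,0,4),(4,7,2,6),(6,9,4,7)]))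 (br 9 6 (fb 4 9 2 6) (br 0 8 (br 1 8 (br 2 8 (br 3 8 (br 4 8 (br 5 8 (br 6 8 (rq 4) (wi [(2,5,0,4),(4,7,2,5),(5,9,4,7),(2,6,0,4),(4,0,6,8),(5,9,6,7),(5,0,6,8)])) (wi [(0,1,2,3),(0,4,3,2),(2,5,0,4),(4,0,5,8),(4,1,5,8),(4,3,5,8)])) (fb 2 1 4 8)) (fb 1 2 3 8)) (fb 0 1 2 8)) (br 2 8 (br 3 8 (fb 3 2 1 8) (fb 0 1 8 3)) (br 3 8 (br 4 8 (fb 3 4 1 8) (fb 0 4 8 2)) (fb 0 1 8 3)))) (br 1 8 (br 2 8 (fb 2 1 0 8) (br 3 8 (fb 0 8 2 3) (fb 1 0 8 3))) (br 2 8 (br 3 8 (fb 3 2 1 8) (fb 0 8 3 2)) (br 3 8 (fb 0 8 2 3) (br 4 8 (fb 2 8 0 4) (br 5 8 (br 6 8 (wi [(2,5,0,4),(4,7,2,5),(5,9,4,7),(2,6,0,4),(4,8,2,5),(5,9,6,7),(4,8,2,6)]) (rq 4)) (br 6 8 (br 7 8 (wi [(2,5,0,4),(4,7,2,5),(5,9,4,7),(2,6,0,4),(4,8,2,6),(5,9,6,7),(5,8,4,7)])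 (wi [(2,5,0,4),(4,7,2,5),(5,9,4,7),(2,6,0,4),(4,8,2,6),(5,9,6,7),(5,8,7,6)])) (rq 4)))))))))) (br 7 6 (br 9 6 (fb 4 9 2 6) (wi [(2,5,0,4),(4,7,2,5),(5,9,4,7),(2,6,0,4),(4,7,2,6),(6,9,4,7)])) (br 9 6 (fb 4 9 2 6) (br 0 8 (br 1 8 (br 2 8 (br 3 8 (br 4 8 (br 5 8 (br 6 8 (rq 4) (wi [(0,1,2,3),(0,4,3,2),(2,6,0,4),(4,0,6,8),(4,1,6,8),(4,3,6,8)])) (wi [(0,1,2,3),(0,4,3,2),(2,5,0,4),(4,0,5,8),(4,1,5,8),(4,3,5,8)])) (fb 2 1 4 8)) (fb 1 2 3 8)) (fb 0 1 2 8)) (br 2 8 (br 3 8 (fb 3 2 1 8) (fb 0 1 8 3)) (br 3 8 (br 4 8 (fb 3 4 1 8) (fb 0 4 8 2)) (fb 0 1 8 3)))) (br 1 8 (br 2 8 (fb 2 1 0 8) (br 3 8 (fb 0 8 2 3) (fb 1 0 8 3))) (br 2 8 (br 3 8 (fb 3 2 1 8) (fb 0 8 3 2)) (br 3 8 (fb 0 8 2 3)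 (br 4 8 (fb 2 8 0 4) (br 5 8 (br 6 8 (wi [(2,5,0,4),(4,7,2,5),(2,6,0,4),(4,8,2,5),(4,7,6,5),(4,8,2,6)]) (rq 4)) (br 6 8 (wi [(2,5,0,4),(4,7,2,5),(2,6,0,4),(4,8,2,6),(4,7,6,5),(4,8,5,6)]) (rq 4))))))))))) (rq 2))))))

def tbr_16 : CT := (br 0 5 (br 1 5 (br 2 5 (br 3 5 (br 4 5 (rq 1) (br 0 7 (br 1 7 (br 2 7 (br 3 7 (br 4 7 (br 5 7 (rq 3) (wi [(0,1,2,3),(0,4,3,2),(2,1,4,5),(0,4,5,7),(2,3,4,5),(1,4,5,7)])) (fb 2 1 4 7)) (fb 1 2 3 7)) (fb 0 1 2 7)) (br 2 7 (br 3 7 (fb 3 2 1 7) (fb 0 1 7 3)) (br 3 7 (br 4 7 (fb 3 4 1 7) (fb 0 4 7 2)) (fb 0 1 7 3)))) (br 1 7 (br 2 7 (fb 2 1 0 7) (br 3 7 (fb 0 7 2 3) (fb 1 0 7 3))) (br 2 7 (br 3 7 (fb 3 2 1 7) (fb 0 7 3 2)) (br 3 7 (fb 0 7 2 3) (br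 4 7 (fb 2 7 0 4) (br 5 7 (br 0 9 (br 1 9 (br 2 9 (br 3 9 (br 4 9 (br 5 9 (br 7 9 (rq 5) (br 0 6 (br 1 6 (br 2 6 (br 3 6 (br 4 6 (rq 2) (wi [(0,1,2,3),(0,4,3,2),(2,1,4,5),(2,1,4,6),(2,3,4,5),(2,3,4,6)])) (fb 1 2 3 6)) (fb 0 1 2 6)) (br 2 6 (br 3 6 (fb 3 2 1 6) (fb 0 1 6 3)) (br 3 6 (br 4 6 (wi [(0,1,2,3),(0,4,3,2),(2,1,4,5),(3,4,1,6),(2,3,4,5),(4,3,2,6)]) (br 5 6 (wi [(0,1,2,3),(0,4,3,2),(2,1,4,5),(0,4,6,2),(2,3,4,5),(2,6,4,5)]) (wi [(0,1,2,3),(0,4,3,2),(2,1,4,5),(0,4,6,2),(2,3,4,5),(0,1,6,5)]))) (fb 0 1 6 3)))) (br 1 6 (br 2 6 (fb 2 1 0 6) (br 3 6 (fb 0 6 2 3) (fb 1 0 6 3))) (br 2 6 (br 3 6 (fb 3 2 1 6) (fb 0 6 3 2)) (br 3 6 (fb 0 6 2 3) (br 4 6 (br 5 6 (wi [(0,1,2,3),(0,4,3,2),(2,1,4,5),(2,6,0,4),(2,3,4,5),(5,4,0,6)])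 (wi [(0,1,2,3),(0,4,3,2),(2,1,4,5),(2,6,0,4),(2,3,4,5),(2,6,5,4)])) (rq 2))))))) (fb 0 4 5 9)) (fb 2 1 4 9)) (fb 1 2 3 9)) (fb 0 1 2 9)) (br 2 9 (br 3 9 (fb 3 2 1 9) (fb 0 1 9 3)) (br 3 9 (br 4 9 (fb 3 4 1 9) (fb 0 4 9 2)) (fb 0 1 9 3)))) (br 1 9 (br 2 9 (fb 2 1 0 9) (br 3 9 (fb 0 9 2 3) (fb 1 0 9 3))) (br 2 9 (br 3 9 (fb 3 2 1 9) (fb 0 9 3 2)) (br 3 9 (fb 0 9 2 3) (br 4 9 (fb 2 9 0 4) (br 5 9 (fb 2 9 4 5) (br 7 9 (wi [(0,1,2,3),(0,4,3,2),(2,1,4,5),(2,7,4,5),(5,9,0,7),(2,3,4,5),(5,9,1,7)]) (rq 5)))))))) (rq 3)))))))) (fb 1 2 3 5)) (fb 0 1 2 5)) (br 2 5 (br 3 5 (fb 3 2 1 5) (fb 0 1 5 3)) (br 3 5 (br 4 5 (br 0 7 (br 1 7 (br 2 7 (br 3 7 (br 4 7 (br 5 7 (rq 3) (wi [(0,1,2,3),(0,4,3,2),(3,4,1,5),(0,1,5,7),(4,3,2,5),(4,1,5,7)]))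 (fb 2 1 4 7)) (fb 1 2 3 7)) (fb 0 1 2 7)) (br 2 7 (br 3 7 (fb 3 2 1 7) (fb 0 1 7 3)) (br 3 7 (br 4 7 (fb 3 4 1 7) (fb 0 4 7 2)) (fb 0 1 7 3)))) (br 1 7 (br 2 7 (fb 2 1 0 7) (br 3 7 (fb 0 7 2 3) (fb 1 0 7 3))) (br 2 7 (br 3 7 (fb 3 2 1 7) (fb 0 7 3 2)) (br 3 7 (fb 0 7 2 3) (br 4 7 (fb 2 7 0 4) (br 5 7 (wi [(0,1,2,3),(0,4,3,2),(3,4,1,5),(0,7,2,5),(4,3,2,5),(3,7,1,5)]) (rq 3))))))) (br 0 7 (br 1 7 (br 2 7 (br 3 7 (br 4 7 (br 5 7 (rq 3) (wi [(0,1,2,3),(0,4,3,2),(0,4,5,2),(0,1,5,7),(0,4,5,7),(3,2,5,7)])) (fb 2 1 4 7)) (fb 1 2 3 7)) (fb 0 1 2 7)) (br 2 7 (br 3 7 (fb 3 2 1 7) (fb 0 1 7 3)) (br 3 7 (br 4 7 (fb 3 4 1 7) (fb 0 4 7 2)) (fb 0 1 7 3)))) (br 1 7 (br 2 7 (fb 2 1 0 7) (br 3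 7 (fb 0 7 2 3) (fb 1 0 7 3))) (br 2 7 (br 3 7 (fb 3 2 1 7) (fb 0 7 3 2)) (br 3 7 (fb 0 7 2 3) (br 4 7 (fb 2 7 0 4) (br 5 7 (br 0 9 (br 1 9 (br 2 9 (br 3 9 (br 4 9 (br 5 9 (br 7 9 (rq 5) (wi [(0,1,2,3),(0,4,3,2),(0,4,5,2),(0,7,2,5),(5,1,7,9),(3,7,1,5),(5,2,7,9)])) (fb 0 1 5 9)) (fb 2 1 4 9)) (fb 1 2 3 9)) (fb 0 1 2 9)) (br 2 9 (br 3 9 (fb 3 2 1 9) (fb 0 1 9 3)) (br 3 9 (br 4 9 (fb 3 4 1 9) (fb 0 4 9 2)) (fb 0 1 9 3)))) (br 1 9 (br 2 9 (fb 2 1 0 9) (br 3 9 (fb 0 9 2 3) (fb 1 0 9 3))) (br 2 9 (br 3 9 (fb 3 2 1 9) (fb 0 9 3 2)) (br 3 9 (fb 0 9 2 3) (br 4 9 (fb 2 9 0 4) (br 5 9 (fb 0 9 2 5) (br 7 9 (wi [(0,1,2,3),(0,4,3,2),(0,4,5,2),(0,7,2,5),(5,9,0,7),(3,7,1,5),(5,9,3,7)]) (rq 5))))))))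 (rq 3)))))))) (fb 0 1 5 3)))) (br 1 5 (br 2 5 (fb 2 1 0 5) (br 3 5 (fb 0 5 2 3) (fb 1 0 5 3))) (br 2 5 (br 3 5 (fb 3 2 1 5) (fb 0 5 3 2)) (br 3 5 (fb 0 5 2 3) (br 4 5 (br 0 7 (br 1 7 (br 2 7 (br 3 7 (br 4 7 (br 5 7 (rq 3) (wi [(0,1,2,3),(0,4,3,2),(2,5,0,4),(4,0,5,7),(4,1,5,7),(4,3,5,7)])) (fb 2 1 4 7)) (fb 1 2 3 7)) (fb 0 1 2 7)) (br 2 7 (br 3 7 (fb 3 2 1 7) (fb 0 1 7 3)) (br 3 7 (br 4 7 (fb 3 4 1 7) (fb 0 4 7 2)) (fb 0 1 7 3)))) (br 1 7 (br 2 7 (fb 2 1 0 7) (br 3 7 (fb 0 7 2 3) (fb 1 0 7 3))) (br 2 7 (br 3 7 (fb 3 2 1 7) (fb 0 7 3 2)) (br 3 7 (fb 0 7 2 3) (br 4 7 (fb 2 7 0 4) (br 5 7 (br 0 9 (br 1 9 (br 2 9 (br 3 9 (br 4 9 (br 5 9 (br 7 9 (rq 5) (wi [(0,1,2,3),(0,4,3,2),(2,5,0,4),(4,7,2,5),(5,0,7,9),(5,1,7,9),(5,2,7,9)]))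 (fb 4 0 5 9)) (fb 2 1 4 9)) (fb 1 2 3 9)) (fb 0 1 2 9)) (br 2 9 (br 3 9 (fb 3 2 1 9) (fb 0 1 9 3)) (br 3 9 (br 4 9 (fb 3 4 1 9) (fb 0 4 9 2)) (fb 0 1 9 3)))) (br 1 9 (br 2 9 (fb 2 1 0 9) (br 3 9 (fb 0 9 2 3) (fb 1 0 9 3))) (br 2 9 (br 3 9 (fb 3 2 1 9) (fb 0 9 3 2)) (br 3 9 (fb 0 9 2 3) (br 4 9 (fb 2 9 0 4) (br 5 9 (fb 4 9 2 5) (br 7 9 tbr_15 (rq 5)))))))) (rq 3))))))) (rq 1))))))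

def tbr_17 : CT := (br 0 6 (br 1 6 (br 2 6 (br 3 6 (br 4 6 (rq 2) (br 5 6 (br 7 6 (br 9 6 (wi [(3,2,4,5),(3,7,4,5),(5,4,7,9),(3,2,4,6),(3,7,4,6),(6,4,7,9)]) (fb 0 4 6 9)) (br 9 6 (br 0 8 (br 1 8 (br 2 8 (br 3 8 (br 4 8 (br 5 8 (br 6 8 (rq 4) (wi [(0,1,2,3),(0,4,2,3),(3,2,4,6),(0,4,6,8),(1,4,6,8),(2,4,6,8)])) (wi [(0,1,2,3),(0,4,2,3),(3,2,4,5),(0,4,5,8),(1,4,5,8),(2,4,5,8)])) (fb 3 2 4 8)) (fb 1 2 3 8)) (fb 0 1 2 8)) (br 2 8 (br 3 8 (fb 3 2 1 8) (fb 0 1 8 3)) (br 3 8 (br 4 8 (fb 0 4 2 8) (br 5 8 (br 6 8 (rq 4) (br 7 8 (wi [(0,1,2,3),(0,4,2,3),(3,2,4,6),(0,1,8,6),(0,7,2,8),(3,2,8,6),(0,7,6,8)]) (br 9 8 (br 0 10 (br 1 10 (br 2 10 (br 3 10 (br 4 10 (br 5 10 (br 6 10 (br 7 10 (br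 8 10 (rq 6) (wi [(0,1,2,3),(0,4,2,3),(3,2,4,6),(0,1,8,6),(0,1,8,10),(3,2,8,6),(0,4,8,10)])) (br 8 10 (rq 6) (wi [(0,1,2,3),(0,4,2,3),(3,2,4,6),(0,1,8,6),(0,1,8,10),(3,2,8,6),(0,4,8,10)]))) (fb 0 4 6 10)) (fb 0 4 5 10)) (fb 3 2 4 10)) (fb 1 2 3 10)) (fb 0 1 2 10)) (br 2 10 (br 3 10 (fb 3 2 1 10) (fb 0 1 10 3)) (br 3 10 (br 4 10 (fb 0 4 2 10) (br 5 10 (br 6 10 (br 7 10 (wi [(0,7,2,10),(6,7,2,10),(6,7,1,10),(0,1,2,3),(0,4,2,3),(3,2,4,6),(3,7,1,10)]) (br 8 10 (wi [(0,1,2,3),(0,4,2,3),(3,2,4,6),(0,1,8,6),(6,8,1,10),(3,2,8,6),(6,8,2,10)]) (rq 6))) (fb 0 1 10 6)) (fb 0 1 10 5))) (fb 0 1 10 3)))) (br 1 10 (br 2 10 (fb 2 1 0 10) (br 3 10 (fb 0 10 2 3) (fb 1 0 10 3))) (br 2 10 (br 3 10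 (fb 3 2 1 10) (fb 0 10 3 2)) (br 3 10 (fb 0 10 2 3) (br 4 10 (fb 3 10 0 4) (br 5 10 (fb 3 10 4 5) (br 6 10 (fb 3 10 4 6) (br 7 10 (wi [(0,1,2,3),(0,4,2,3),(3,2,4,5),(3,7,4,5),(5,10,0,7),(5,10,1,7),(5,10,2,7)]) (br 8 10 (wi [(0,1,2,3),(0,4,2,3),(3,2,4,6),(0,1,8,6),(0,10,2,8),(3,2,8,6),(0,10,6,8)]) (rq 6)))))))))) (wi [(0,1,2,3),(0,4,2,3),(3,2,4,6),(0,1,8,6),(0,1,8,9),(3,2,8,6),(0,4,8,9)])))) (br 6 8 (rq 4) (wi [(0,1,2,3),(0,4,2,3),(3,2,4,5),(3,2,4,6),(0,1,8,5),(3,2,8,5),(0,1,8,6)])))) (fb 0 1 8 3)))) (br 1 8 (br 2 8 (fb 2 1 0 8) (br 3 8 (fb 0 8 2 3) (fb 1 0 8 3))) (br 2 8 (br 3 8 (fb 3 2 1 8) (fb 0 8 3 2)) (br 3 8 (fb 0 8 2 3) (br 4 8 (fb 3 8 0 4) (br 5 8 (br 6 8 (br 7 8 (wi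 [(0,4,2,3),(3,2,4,5),(3,7,4,5),(3,2,4,6),(3,8,4,5),(3,8,4,6),(6,7,0,8)]) (br 9 8 (br 0 10 (br 1 10 (br 2 10 (br 3 10 (br 4 10 (br 5 10 (br 6 10 (br 7 10 (br 8 10 (rq 6) (wi [(3,2,4,5),(3,2,4,6),(3,8,4,5),(5,4,8,10),(3,8,4,6),(6,4,8,10)])) (br 8 10 (rq 6) (wi [(3,2,4,5),(3,7,4,5),(3,2,4,6),(3,8,4,5),(5,4,7,10),(3,8,4,6),(5,4,8,10)]))) (fb 0 4 6 10)) (fb 0 4 5 10)) (fb 3 2 4 10)) (fb 1 2 3 10)) (fb 0 1 2 10)) (br 2 10 (br 3 10 (fb 3 2 1 10) (fb 0 1 10 3)) (br 3 10 (br 4 10 (fb 0 4 2 10) (br 5 10 (br 6 10 (br 7 10 (wi [(0,7,2,10),(6,7,2,10),(6,7,1,10),(0,1,2,3),(0,4,2,3),(3,2,4,6),(3,7,1,10)]) (br 8 10 (wi [(0,1,2,3),(0,4,2,3),(3,2,4,5),(3,8,4,5),(0,8,2,10),(3,8,1,10),(3,8,4,10)])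 (rq 6))) (fb 0 1 10 6)) (fb 0 1 10 5))) (fb 0 1 10 3)))) (br 1 10 (br 2 10 (fb 2 1 0 10) (br 3 10 (fb 0 10 2 3) (fb 1 0 10 3))) (br 2 10 (br 3 10 (fb 3 2 1 10) (fb 0 10 3 2)) (br 3 10 (fb 0 10 2 3) (br 4 10 (fb 3 10 0 4) (br 5 10 (fb 3 10 4 5) (br 6 10 (fb 3 10 4 6) (br 7 10 (wi [(0,1,2,3),(0,4,2,3),(3,2,4,5),(3,7,4,5),(5,10,0,7),(5,10,1,7),(5,10,2,7)]) (br 8 10 (wi [(0,4,2,3),(3,2,4,5),(3,2,4,6),(3,8,4,5),(5,10,0,8),(3,8,4,6),(6,10,0,8)]) (rq 6)))))))))) (wi [(3,2,4,5),(3,7,4,5),(5,4,7,9),(3,2,4,6),(3,8,4,5),(3,8,4,6),(5,4,8,9)]))) (rq 4)) (br 6 8 (br 7 8 (wi [(0,4,2,3),(3,2,4,5),(3,7,4,5),(3,2,4,6),(3,8,4,6),(5,8,0,7),(6,7,0,8)]) (br 9 8 (wi [(3,2,4,5),(3,7,4,5),(5,4,7,9),(3,2,4,6),(3,8,4,6),(5,8,7,6),(5,8,7,9)])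 (wi [(3,2,4,5),(3,7,4,5),(5,4,7,9),(3,2,4,6),(3,8,4,6),(5,8,7,6),(6,4,8,9)]))) (rq 4)))))))) (fb 0 4 6 9))) (br 7 6 (br 9 6 (wi [(3,2,4,5),(3,7,4,5),(5,4,7,9),(3,2,4,6),(3,7,4,6),(6,4,7,9)]) (fb 0 4 6 9)) (wi [(0,1,2,3),(0,4,2,3),(3,2,4,5),(3,7,4,5),(3,2,4,6),(0,7,6,5),(1,7,6,5)])))) (fb 1 2 3 6)) (fb 0 1 2 6)) (br 2 6 (br 3 6 (fb 3 2 1 6) (fb 0 1 6 3)) (br 3 6 (br 4 6 (br 5 6 (wi [(0,1,2,3),(0,4,2,3),(3,2,4,5),(0,4,2,6),(5,4,1,6),(5,4,2,6)]) (wi [(0,1,2,3),(0,4,2,3),(3,2,4,5),(0,4,2,6),(0,1,6,5),(0,4,5,6)])) (rq 2)) (fb 0 1 6 3)))) (br 1 6 (br 2 6 (fb 2 1 0 6) (br 3 6 (fb 0 6 2 3) (fb 1 0 6 3))) (br 2 6 (br 3 6 (fb 3 2 1 6) (fb 0 6 3 2)) (br 3 6 (fb 0 6 2 3) (br 4 6 (br 5 6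 (wi [(0,1,2,3),(0,4,2,3),(3,2,4,5),(3,6,0,4),(3,6,1,4),(5,4,0,6)]) (wi [(0,1,2,3),(0,4,2,3),(3,2,4,5),(3,6,0,4),(3,6,1,4),(3,6,5,4)])) (rq 2))))))

def tbr_18 : CT := (br 5 6 (br 7 6 (br 9 6 (br 0 8 (br 1 8 (br 2 8 (br 3 8 (br 4 8 (br 5 8 (br 6 8 (rq 4) (wi [(0,1,2,3),(0,4,2,3),(0,4,2,5),(0,4,2,6),(0,1,6,8),(4,1,6,8),(5,1,6,8)])) (wi [(0,1,2,3),(0,4,2,3),(0,4,2,5),(0,1,5,8),(4,1,5,8),(3,2,5,8)])) (fb 3 2 4 8)) (fb 1 2 3 8)) (fb 0 1 2 8)) (br 2 8 (br 3 8 (fb 3 2 1 8) (fb 0 1 8 3)) (br 3 8 (br 4 8 (fb 0 4 2 8) (br 5 8 (br 6 8 (rq 4) (br 7 8 (wi [(0,4,2,5),(0,4,7,5),(0,4,2,6),(0,4,8,6),(5,7,4,8),(6,8,4,7)]) (br 9 8 (wi [(0,4,2,5),(0,4,7,5),(5,7,4,9),(0,4,2,6),(0,4,8,6),(5,7,8,6),(6,8,4,9)])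 (wi [(0,4,2,5),(0,4,7,5),(5,7,4,9),(0,4,2,6),(0,4,8,6),(5,7,8,6),(5,7,8,9)])))) (br 6 8 (rq 4) (br 7 8 (wi [(0,4,2,5),(0,4,7,5),(0,4,2,6),(0,4,8,5),(0,4,8,6),(6,8,4,7)]) (br 9 8 (wi [(0,4,2,5),(0,4,7,5),(5,7,4,9),(0,4,2,6),(0,4,8,5),(0,4,8,6),(5,8,4,9)]) (br 0 10 (br 1 10 (br 2 10 (br 3 10 (br 4 10 (br 5 10 (br 6 10 (br 7 10 (br 8 10 (rq 6) (wi [(0,1,2,3),(0,4,2,3),(0,4,2,5),(0,4,8,5),(0,1,8,10),(0,4,8,10),(3,2,8,10)])) (wi [(0,1,2,3),(0,4,2,3),(0,4,2,5),(0,4,7,5),(0,1,7,10),(0,4,7,10),(3,2,7,10)])) (fb 0 1 6 10)) (fb 0 1 5 10)) (fb 3 2 4 10)) (fb 1 2 3 10)) (fb 0 1 2 10)) (br 2 10 (br 3 10 (fb 3 2 1 10) (fb 0 1 10 3)) (br 3 10 (br 4 10 (fb 0 4 2 10) (br 5 10 (br 6 10 (br 7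 10 (br 8 10 (wi [(0,4,2,5),(0,4,7,5),(0,4,2,6),(0,4,8,5),(5,7,4,10),(0,4,8,6),(5,8,4,10)]) (rq 6)) (br 8 10 (wi [(0,4,2,5),(0,4,2,6),(0,4,8,5),(5,8,4,10),(0,4,8,6),(6,8,4,10)]) (rq 6))) (fb 0 4 10 6)) (fb 0 4 10 5))) (fb 0 1 10 3)))) (br 1 10 (br 2 10 (fb 2 1 0 10) (br 3 10 (fb 0 10 2 3) (fb 1 0 10 3))) (br 2 10 (br 3 10 (fb 3 2 1 10) (fb 0 10 3 2)) (br 3 10 (fb 0 10 2 3) (br 4 10 (fb 3 10 0 4) (br 5 10 (fb 0 10 2 5) (br 6 10 (fb 0 10 2 6) (br 7 10 (wi [(0,4,2,5),(0,4,7,5),(0,4,2,6),(0,4,8,5),(0,10,2,7),(0,4,8,6),(0,10,5,7)]) (br 8 10 (wi [(0,4,2,5),(0,4,2,6),(0,4,8,5),(0,10,2,8),(0,4,8,6),(0,10,5,8)]) (rq 6))))))))))))))) (fb 0 1 8 3)))) (br 1 8 (br 2 8 (fb 2 1 0 8) (br 3 8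 (fb 0 8 2 3) (fb 1 0 8 3))) (br 2 8 (br 3 8 (fb 3 2 1 8) (fb 0 8 3 2)) (br 3 8 (fb 0 8 2 3) (br 4 8 (fb 3 8 0 4) (br 5 8 (br 6 8 (wi [(0,1,2,3),(0,4,2,3),(0,4,2,5),(0,4,2,6),(0,8,2,5),(3,8,1,5),(0,8,2,6)]) (rq 4)) (br 6 8 (br 7 8 (wi [(0,4,2,5),(0,4,7,5),(0,4,2,6),(0,8,2,6),(0,8,2,7),(0,8,5,7)]) (br 9 8 (wi [(0,1,2,3),(0,4,2,3),(0,4,2,6),(0,8,2,6),(0,8,2,9),(3,8,1,6),(3,8,1,9)]) (br 0 10 (br 1 10 (br 2 10 (br 3 10 (br 4 10 (br 5 10 (br 6 10 (br 7 10 (br 8 10 (rq 6) (wi [(0,1,2,3),(0,4,2,3),(0,4,2,6),(0,8,2,6),(6,1,8,10),(3,8,1,6),(6,2,8,10)])) (wi [(0,1,2,3),(0,4,2,3),(0,4,2,5),(0,4,7,5),(0,1,7,10),(0,4,7,10),(3,2,7,10)])) (fb 0 1 6 10)) (fb 0 1 5 10)) (fb 3 2 4 10)) (fb 1 2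 3 10)) (fb 0 1 2 10)) (br 2 10 (br 3 10 (fb 3 2 1 10) (fb 0 1 10 3)) (br 3 10 (br 4 10 (fb 0 4 2 10) (br 5 10 (br 6 10 (br 7 10 (br 8 10 (wi [(0,1,2,3),(0,4,2,3),(0,4,2,6),(0,8,2,6),(0,8,2,10),(3,8,1,6),(3,8,1,10)]) (rq 6)) (br 8 10 (wi [(0,1,2,3),(0,4,2,3),(0,4,2,6),(0,8,2,6),(0,8,2,10),(3,8,1,6),(3,8,1,10)]) (rq 6))) (fb 0 4 10 6)) (fb 0 4 10 5))) (fb 0 1 10 3)))) (br 1 10 (br 2 10 (fb 2 1 0 10) (br 3 10 (fb 0 10 2 3) (fb 1 0 10 3))) (br 2 10 (br 3 10 (fb 3 2 1 10) (fb 0 10 3 2)) (br 3 10 (fb 0 10 2 3) (br 4 10 (fb 3 10 0 4) (br 5 10 (fb 0 10 2 5) (br 6 10 (fb 0 10 2 6) (br 7 10 (wi [(0,1,2,3),(0,4,2,3),(0,4,2,5),(0,4,7,5),(0,10,2,7),(0,10,5,7),(3,10,1,7)]) (br 8 10 (wi [(0,1,2,3),(0,4,2,3),(0,4,2,6),(0,8,2,6),(6,10,0,8),(3,8,1,6),(6,10,3,8)])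 (rq 6)))))))))))) (rq 4)))))))) (fb 0 4 9 6)) (br 9 6 (wi [(0,4,2,5),(0,4,7,5),(5,7,4,9),(0,4,2,6),(0,4,7,6),(6,7,4,9)]) (fb 0 4 9 6))) (br 7 6 (br 9 6 (br 0 8 (br 1 8 (br 2 8 (br 3 8 (br 4 8 (br 5 8 (br 6 8 (rq 4) (wi [(0,1,2,3),(0,4,2,3),(0,4,2,6),(0,1,6,8),(4,1,6,8),(3,2,6,8)])) (wi [(0,1,2,3),(0,4,2,3),(0,4,2,5),(0,1,5,8),(4,1,5,8),(3,2,5,8)])) (fb 3 2 4 8)) (fb 1 2 3 8)) (fb 0 1 2 8)) (br 2 8 (br 3 8 (fb 3 2 1 8) (fb 0 1 8 3)) (br 3 8 (br 4 8 (fb 0 4 2 8) (br 5 8 (br 6 8 (rq 4) (wi [(0,4,2,5),(0,4,7,5),(0,4,2,6),(0,4,8,6),(4,7,5,6),(4,8,6,5)])) (br 6 8 (rq 4) (wi [(0,4,2,5),(0,4,7,5),(0,4,2,6),(0,4,8,5),(4,7,5,6),(0,4,8,6)])))) (fb 0 1 8 3)))) (br 1 8 (br 2 8 (fb 2 1 0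 8) (br 3 8 (fb 0 8 2 3) (fb 1 0 8 3))) (br 2 8 (br 3 8 (fb 3 2 1 8) (fb 0 8 3 2)) (br 3 8 (fb 0 8 2 3) (br 4 8 (fb 3 8 0 4) (br 5 8 (br 6 8 (wi [(0,4,2,5),(0,4,7,5),(0,4,2,6),(0,8,2,5),(4,7,5,6),(0,8,2,6)]) (rq 4)) (br 6 8 (wi [(0,4,2,5),(0,4,7,5),(0,4,2,6),(0,8,2,6),(4,7,5,6),(0,8,5,6)]) (rq 4)))))))) (fb 0 4 9 6)) (br 9 6 (wi [(0,4,2,5),(0,4,7,5),(5,7,4,9),(0,4,2,6),(0,4,7,6),(6,7,4,9)]) (fb 0 4 9 6))))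

def tbr_19 : CT := (br 1 5 (br 2 5 (br 3 5 (br 4 5 (rq 1) (br 0 7 (br 1 7 (br 2 7 (br 3 7 (br 4 7 (br 5 7 (rq 3) (wi [(0,1,2,3),(0,4,2,3),(3,2,4,5),(0,4,5,7),(1,4,5,7),(2,4,5,7)])) (fb 3 2 4 7)) (fb 1 2 3 7)) (fb 0 1 2 7)) (br 2 7 (br 3 7 (fb 3 2 1 7) (fb 0 1 7 3)) (br 3 7 (br 4 7 (fb 0 4 2 7) (br 5 7 (rq 3) (br 0 9 (br 1 9 (br 2 9 (br 3 9 (br 4 9 (br 5 9 (br 7 9 (rq 5) (wi [(0,1,2,3),(0,4,2,3),(3,2,4,5),(0,1,7,5),(0,1,7,9),(3,2,7,5),(0,4,7,9)])) (fb 0 4 5 9)) (fb 3 2 4 9)) (fb 1 2 3 9)) (fb 0 1 2 9)) (br 2 9 (br 3 9 (fb 3 2 1 9) (fb 0 1 9 3)) (br 3 9 (br 4 9 (fb 0 4 2 9) (br 5 9 (br 7 9 (wi [(0,1,2,3),(0,4,2,3),(3,2,4,5),(0,1,7,5),(5,7,1,9),(3,2,7,5),(5,7,2,9)]) (rq 5)) (fb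 0 1 9 5))) (fb 0 1 9 3)))) (br 1 9 (br 2 9 (fb 2 1 0 9) (br 3 9 (fb 0 9 2 3) (fb 1 0 9 3))) (br 2 9 (br 3 9 (fb 3 2 1 9) (fb 0 9 3 2)) (br 3 9 (fb 0 9 2 3) (br 4 9 (fb 3 9 0 4) (br 5 9 (fb 3 9 4 5) (br 7 9 (wi [(0,1,2,3),(0,4,2,3),(3,2,4,5),(0,1,7,5),(0,9,2,7),(3,2,7,5),(0,9,5,7)]) (rq 5)))))))))) (fb 0 1 7 3)))) (br 1 7 (br 2 7 (fb 2 1 0 7) (br 3 7 (fb 0 7 2 3) (fb 1 0 7 3))) (br 2 7 (br 3 7 (fb 3 2 1 7) (fb 0 7 3 2)) (br 3 7 (fb 0 7 2 3) (br 4 7 (fb 3 7 0 4) (br 5 7 (br 0 9 (br 1 9 (br 2 9 (br 3 9 (br 4 9 (br 5 9 (br 7 9 (rq 5) tbr_17) (fb 0 4 5 9)) (fb 3 2 4 9)) (fb 1 2 3 9)) (fb 0 1 2 9)) (br 2 9 (br 3 9 (fb 3 2 1 9) (fb 0 1 9 3)) (br 3 9 (br 4 9 (fb 0 4 2 9) (br 5 9 (br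 7 9 (wi [(0,1,2,3),(0,4,2,3),(3,2,4,5),(3,7,4,5),(0,7,2,9),(3,7,1,9),(3,7,4,9)]) (rq 5)) (fb 0 1 9 5))) (fb 0 1 9 3)))) (br 1 9 (br 2 9 (fb 2 1 0 9) (br 3 9 (fb 0 9 2 3) (fb 1 0 9 3))) (br 2 9 (br 3 9 (fb 3 2 1 9) (fb 0 9 3 2)) (br 3 9 (fb 0 9 2 3) (br 4 9 (fb 3 9 0 4) (br 5 9 (fb 3 9 4 5) (br 7 9 (wi [(0,1,2,3),(0,4,2,3),(3,2,4,5),(3,7,4,5),(5,9,0,7),(5,9,1,7),(5,9,2,7)]) (rq 5)))))))) (rq 3)))))))) (fb 1 2 3 5)) (fb 0 1 2 5)) (br 2 5 (br 3 5 (fb 3 2 1 5) (fb 0 1 5 3)) (br 3 5 (br 4 5 (br 0 7 (br 1 7 (br 2 7 (br 3 7 (br 4 7 (br 5 7 (rq 3) (wi [(0,1,2,3),(0,4,2,3),(0,4,2,5),(0,1,5,7),(4,1,5,7),(3,2,5,7)])) (fb 3 2 4 7)) (fb 1 2 3 7)) (fb 0 1 2 7)) (br 2 7 (br 3 7 (fb 3 2 1 7)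 (fb 0 1 7 3)) (br 3 7 (br 4 7 (fb 0 4 2 7) (br 5 7 (rq 3) (br 0 9 (br 1 9 (br 2 9 (br 3 9 (br 4 9 (br 5 9 (br 7 9 (rq 5) (wi [(0,1,2,3),(0,4,2,3),(0,4,2,5),(0,4,7,5),(0,1,7,9),(0,4,7,9),(3,2,7,9)])) (fb 0 1 5 9)) (fb 3 2 4 9)) (fb 1 2 3 9)) (fb 0 1 2 9)) (br 2 9 (br 3 9 (fb 3 2 1 9) (fb 0 1 9 3)) (br 3 9 (br 4 9 (fb 0 4 2 9) (br 5 9 (br 7 9 (br 0 6 (br 1 6 (br 2 6 (br 3 6 (br 4 6 (rq 2) (br 5 6 (wi [(0,1,2,3),(0,4,2,3),(0,4,2,5),(3,2,4,6),(5,1,4,6),(5,2,4,6)]) (wi [(0,1,2,3),(0,4,2,3),(0,4,2,5),(3,2,4,6),(0,1,5,6),(0,4,6,5)]))) (fb 1 2 3 6)) (fb 0 1 2 6)) (br 2 6 (br 3 6 (fb 3 2 1 6) (fb 0 1 6 3)) (br 3 6 (br 4 6 tbr_18 (rq 2)) (fb 0 1 6 3)))) (br 1 6 (br 2 6 (fb 2 1 0 6) (br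 3 6 (fb 0 6 2 3) (fb 1 0 6 3))) (br 2 6 (br 3 6 (fb 3 2 1 6) (fb 0 6 3 2)) (br 3 6 (fb 0 6 2 3) (br 4 6 (br 5 6 (wi [(0,1,2,3),(0,4,2,3),(0,4,2,5),(3,6,0,4),(3,6,1,4),(0,6,2,5)]) (wi [(0,1,2,3),(0,4,2,3),(0,4,2,5),(3,6,0,4),(3,6,1,4),(4,0,6,5)])) (rq 2)))))) (rq 5)) (fb 0 4 9 5))) (fb 0 1 9 3)))) (br 1 9 (br 2 9 (fb 2 1 0 9) (br 3 9 (fb 0 9 2 3) (fb 1 0 9 3))) (br 2 9 (br 3 9 (fb 3 2 1 9) (fb 0 9 3 2)) (br 3 9 (fb 0 9 2 3) (br 4 9 (fb 3 9 0 4) (br 5 9 (fb 0 9 2 5) (br 7 9 (wi [(0,1,2,3),(0,4,2,3),(0,4,2,5),(0,4,7,5),(0,9,2,7),(0,9,5,7),(3,9,1,7)]) (rq 5)))))))))) (fb 0 1 7 3)))) (br 1 7 (br 2 7 (fb 2 1 0 7) (br 3 7 (fb 0 7 2 3) (fb 1 0 7 3))) (br 2 7 (br 3 7 (fb 3 2 1 7) (fb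 0 7 3 2)) (br 3 7 (fb 0 7 2 3) (br 4 7 (fb 3 7 0 4) (br 5 7 (br 0 9 (br 1 9 (br 2 9 (br 3 9 (br 4 9 (br 5 9 (br 7 9 (rq 5) (wi [(0,1,2,3),(0,4,2,3),(0,4,2,5),(0,7,2,5),(5,1,7,9),(3,7,1,5),(5,2,7,9)])) (fb 0 1 5 9)) (fb 3 2 4 9)) (fb 1 2 3 9)) (fb 0 1 2 9)) (br 2 9 (br 3 9 (fb 3 2 1 9) (fb 0 1 9 3)) (br 3 9 (br 4 9 (fb 0 4 2 9) (br 5 9 (br 7 9 (wi [(0,1,2,3),(0,4,2,3),(0,4,2,5),(0,7,2,5),(0,7,2,9),(3,7,1,5),(3,7,1,9)]) (rq 5)) (fb 0 4 9 5))) (fb 0 1 9 3)))) (br 1 9 (br 2 9 (fb 2 1 0 9) (br 3 9 (fb 0 9 2 3) (fb 1 0 9 3))) (br 2 9 (br 3 9 (fb 3 2 1 9) (fb 0 9 3 2)) (br 3 9 (fb 0 9 2 3) (br 4 9 (fb 3 9 0 4) (br 5 9 (fb 0 9 2 5) (br 7 9 (wi [(0,1,2,3),(0,4,2,3),(0,4,2,5),(0,7,2,5),(5,9,0,7),(3,7,1,5),(5,9,3,7)])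 (rq 5)))))))) (rq 3))))))) (rq 1)) (fb 0 1 5 3))))

def tbr_20 : CT := (br 1 4 (br 2 4 (br 3 4 tbr_11 (fb 1 2 3 4)) (br 3 4 (br 0 5 (br 1 5 (br 2 5 (br 3 5 (br 4 5 (rq 1) (wi [(0,1,2,3),(0,4,2,3),(1,0,4,5),(1,2,4,5),(3,2,4,5)])) (fb 1 2 3 5)) (fb 0 1 2 5)) (br 2 5 (br 3 5 (fb 3 2 1 5) (fb 0 1 5 3)) (br 3 5 (br 4 5 (br 0 7 (br 1 7 (br 2 7 (br 3 7 (br 4 7 (br 5 7 (rq 3) (wi [(0,1,2,3),(0,4,2,3),(4,0,1,5),(0,1,5,7),(0,4,2,5),(3,2,5,7)])) (fb 1 0 4 7)) (fb 1 2 3 7)) (fb 0 1 2 7)) (br 2 7 (br 3 7 (fb 3 2 1 7) (fb 0 1 7 3)) (br 3 7 (br 4 7 (fb 4 0 1 7) (br 5 7 (br 0 9 (br 1 9 (br 2 9 (br 3 9 (br 4 9 (br 5 9 (br 7 9 (rq 5) (wi [(0,1,2,3),(0,4,2,3),(4,0,1,5),(4,7,1,5),(0,1,7,9),(0,4,2,5),(0,4,7,9)]))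 (fb 0 1 5 9)) (fb 1 0 4 9)) (fb 1 2 3 9)) (fb 0 1 2 9)) (br 2 9 (br 3 9 (fb 3 2 1 9) (fb 0 1 9 3)) (br 3 9 (br 4 9 (fb 4 0 1 9) (br 5 9 (fb 4 9 1 5) (fb 0 4 9 5))) (fb 0 1 9 3)))) (br 1 9 (br 2 9 (fb 2 1 0 9) (br 3 9 (fb 0 9 2 3) (fb 1 0 9 3))) (br 2 9 (br 3 9 (fb 3 2 1 9) (fb 0 9 3 2)) (br 3 9 (fb 0 9 2 3) (br 4 9 (fb 3 9 0 4) (br 5 9 (fb 0 9 2 5) (br 7 9 (wi [(0,1,2,3),(0,4,2,3),(4,0,1,5),(4,7,1,5),(0,9,2,7),(0,4,2,5),(3,9,1,7)]) (rq 5)))))))) (br 0 9 (br 1 9 (br 2 9 (br 3 9 (br 4 9 (br 5 9 (br 7 9 (rq 5) (wi [(0,1,2,3),(0,4,2,3),(4,0,1,5),(0,4,7,5),(0,1,7,9),(0,4,2,5),(0,4,7,9)])) (fb 0 1 5 9)) (fb 1 0 4 9)) (fb 1 2 3 9)) (fb 0 1 2 9)) (br 2 9 (br 3 9 (fb 3 2 1 9) (fb 0 1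 9 3)) (br 3 9 (br 4 9 (fb 4 0 1 9) (br 5 9 (fb 4 9 1 5) (fb 0 4 9 5))) (fb 0 1 9 3)))) (br 1 9 (br 2 9 (fb 2 1 0 9) (br 3 9 (fb 0 9 2 3) (fb 1 0 9 3))) (br 2 9 (br 3 9 (fb 3 2 1 9) (fb 0 9 3 2)) (br 3 9 (fb 0 9 2 3) (br 4 9 (fb 3 9 0 4) (br 5 9 (fb 0 9 2 5) (br 7 9 (wi [(0,1,2,3),(0,4,2,3),(4,0,1,5),(0,4,7,5),(0,9,2,7),(0,4,2,5),(0,9,5,7)]) (rq 5)))))))))) (fb 0 1 7 3)))) (br 1 7 (br 2 7 (fb 2 1 0 7) (br 3 7 (fb 0 7 2 3) (fb 1 0 7 3))) (br 2 7 (br 3 7 (fb 3 2 1 7) (fb 0 7 3 2)) (br 3 7 (fb 0 7 2 3) (br 4 7 (fb 3 7 0 4) (br 5 7 (wi [(0,1,2,3),(0,4,2,3),(4,0,1,5),(0,7,2,5),(0,4,2,5),(3,7,1,5)]) (rq 3))))))) (rq 1)) (fb 0 1 5 3)))) (br 1 5 (br 2 5 (fb 2 1 0 5) (br 3 5 (fb 0 5 2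 3) (fb 1 0 5 3))) (br 2 5 (br 3 5 (fb 3 2 1 5) (fb 0 5 3 2)) (br 3 5 (fb 0 5 2 3) (br 4 5 tbr_12 (rq 1)))))) tbr_14)) (br 2 4 (br 3 4 (fb 3 2 1 4) tbr_16) (br 3 4 (br 0 5 tbr_19 (br 1 5 (br 2 5 (fb 2 1 0 5) (br 3 5 (fb 0 5 2 3) (fb 1 0 5 3))) (br 2 5 (br 3 5 (fb 3 2 1 5) (fb 0 5 3 2)) (br 3 5 (fb 0 5 2 3) (br 4 5 (br 0 7 (br 1 7 (br 2 7 (br 3 7 (br 4 7 (br 5 7 (rq 3) (wi [(0,1,2,3),(0,4,2,3),(3,5,0,4),(4,0,5,7),(3,5,1,4),(4,1,5,7)])) (fb 3 2 4 7)) (fb 1 2 3 7)) (fb 0 1 2 7)) (br 2 7 (br 3 7 (fb 3 2 1 7) (fb 0 1 7 3)) (br 3 7 (br 4 7 (fb 0 4 2 7) (br 5 7 (wi [(0,1,2,3),(0,4,2,3),(3,5,0,4),(0,5,2,7),(3,5,1,4),(5,0,4,7)]) (br 0 9 (br 1 9 (br 2 9 (br 3 9 (br 4 9 (br 5 9 (br 7 9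 (rq 5) (wi [(0,1,2,3),(0,4,2,3),(3,5,0,4),(3,5,7,4),(0,1,7,9),(3,5,1,4),(0,4,7,9)])) (fb 4 0 5 9)) (fb 3 2 4 9)) (fb 1 2 3 9)) (fb 0 1 2 9)) (br 2 9 (br 3 9 (fb 3 2 1 9) (fb 0 1 9 3)) (br 3 9 (br 4 9 (fb 0 4 2 9) (br 5 9 (fb 0 5 2 9) (fb 3 5 9 4))) (fb 0 1 9 3)))) (br 1 9 (br 2 9 (fb 2 1 0 9) (br 3 9 (fb 0 9 2 3) (fb 1 0 9 3))) (br 2 9 (br 3 9 (fb 3 2 1 9) (fb 0 9 3 2)) (br 3 9 (fb 0 9 2 3) (br 4 9 (fb 3 9 0 4) (br 5 9 (fb 4 9 3 5) (br 7 9 (wi [(0,1,2,3),(0,4,2,3),(3,5,0,4),(3,5,7,4),(0,9,2,7),(3,5,1,4),(3,9,1,7)]) (rq 5)))))))))) (fb 0 1 7 3)))) (br 1 7 (br 2 7 (fb 2 1 0 7) (br 3 7 (fb 0 7 2 3) (fb 1 0 7 3))) (br 2 7 (br 3 7 (fb 3 2 1 7) (fb 0 7 3 2)) (br 3 7 (fb 0 7 2 3) (br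 4 7 (fb 3 7 0 4) (br 5 7 (br 0 9 (br 1 9 (br 2 9 (br 3 9 (br 4 9 (br 5 9 (br 7 9 (rq 5) (wi [(0,1,2,3),(0,4,2,3),(3,5,0,4),(4,7,3,5),(5,0,7,9),(3,5,1,4),(5,1,7,9)])) (fb 4 0 5 9)) (fb 3 2 4 9)) (fb 1 2 3 9)) (fb 0 1 2 9)) (br 2 9 (br 3 9 (fb 3 2 1 9) (fb 0 1 9 3)) (br 3 9 (br 4 9 (fb 0 4 2 9) (br 5 9 (fb 0 5 2 9) (fb 3 5 9 4))) (fb 0 1 9 3)))) (br 1 9 (br 2 9 (fb 2 1 0 9) (br 3 9 (fb 0 9 2 3) (fb 1 0 9 3))) (br 2 9 (br 3 9 (fb 3 2 1 9) (fb 0 9 3 2)) (br 3 9 (fb 0 9 2 3) (br 4 9 (fb 3 9 0 4) (br 5 9 (fb 4 9 3 5) (br 7 9 (br 0 6 (br 1 6 (br 2 6 (br 3 6 (br 4 6 (rq 2) (br 5 6 (wi [(0,1,2,3),(0,4,2,3),(3,5,0,4),(3,2,4,6),(3,5,1,4),(5,0,4,6)]) (wi [(0,1,2,3),(0,4,2,3),(3,5,0,4),(3,2,4,6),(3,5,1,4),(3,5,6,4)])))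 (fb 1 2 3 6)) (fb 0 1 2 6)) (br 2 6 (br 3 6 (fb 3 2 1 6) (fb 0 1 6 3)) (br 3 6 (br 4 6 (br 5 6 (wi [(0,1,2,3),(0,4,2,3),(3,5,0,4),(0,4,2,6),(3,5,1,4),(0,5,2,6)]) (wi [(0,1,2,3),(0,4,2,3),(3,5,0,4),(0,4,2,6),(3,5,1,4),(4,0,5,6)])) (rq 2)) (fb 0 1 6 3)))) (br 1 6 (br 2 6 (fb 2 1 0 6) (br 3 6 (fb 0 6 2 3) (fb 1 0 6 3))) (br 2 6 (br 3 6 (fb 3 2 1 6) (fb 0 6 3 2)) (br 3 6 (fb 0 6 2 3) (br 4 6 (wi [(0,1,2,3),(0,4,2,3),(3,5,0,4),(3,6,0,4),(3,5,1,4),(3,6,1,4)]) (rq 2)))))) (rq 5)))))))) (rq 3))))))) (rq 1)))))) (rq 0))))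

def tbr : CT := (br 0 4 (br 1 4 (br 2 4 (rq 0) (br 3 4 (br 0 5 tbr_2 (br 1 5 (br 2 5 (fb 2 1 0 5) (br 3 5 (fb 0 5 2 3) (fb 1 0 5 3))) (br 2 5 (br 3 5 (fb 3 2 1 5) (fb 0 5 3 2)) (br 3 5 (fb 0 5 2 3) (br 4 5 (br 0 7 (br 1 7 (br 2 7 (br 3 7 (br 4 7 (br 5 7 (rq 3) (br 0 9 (br 1 9 (br 2 9 (br 3 9 (br 4 9 (br 5 9 (br 7 9 (rq 5) (wi [(0,1,2,4),(0,5,2,4),(4,2,5,7),(0,5,7,9),(1,5,7,9),(2,5,7,9)])) (fb 4 2 5 9)) (fb 1 2 4 9)) (fb 1 2 3 9)) (fb 0 1 2 9)) (br 2 9 (br 3 9 (fb 3 2 1 9) (fb 0 1 9 3)) (br 3 9 (br 4 9 (br 5 9 (fb 0 5 2 9) (br 7 9 (rq 5) (wi [(0,1,2,3),(0,1,2,4),(0,5,2,4),(4,2,5,7),(0,1,9,7),(3,2,9,7),(4,2,9,7)]))) (fb 0 1 9 4)) (fb 0 1 9 3)))) (br 1 9 (br 2 9 (fb 2 1 0 9) (br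 3 9 (fb 0 9 2 3) (fb 1 0 9 3))) (br 2 9 (br 3 9 (fb 3 2 1 9) (fb 0 9 3 2)) (br 3 9 (fb 0 9 2 3) (br 4 9 (fb 0 9 2 4) (br 5 9 (fb 4 9 0 5) (br 7 9 tbr_3 (rq 5))))))))) (fb 1 2 4 7)) (fb 1 2 3 7)) (fb 0 1 2 7)) (br 2 7 (br 3 7 (fb 3 2 1 7) (fb 0 1 7 3)) (br 3 7 (br 4 7 (br 5 7 (br 0 9 (br 1 9 (br 2 9 (br 3 9 (br 4 9 (br 5 9 (br 7 9 (rq 5) (wi [(0,1,2,3),(0,1,2,4),(0,5,2,4),(0,5,2,7),(0,1,7,9),(3,5,1,7),(5,1,7,9)])) (fb 4 2 5 9)) (fb 1 2 4 9)) (fb 1 2 3 9)) (fb 0 1 2 9)) (br 2 9 (br 3 9 (fb 3 2 1 9) (fb 0 1 9 3)) (br 3 9 (br 4 9 (br 5 9 (fb 0 5 2 9) (br 7 9 (rq 5) (wi [(0,1,2,3),(0,1,2,4),(0,5,2,4),(0,5,2,7),(0,5,9,7),(3,5,1,7),(3,5,9,7)]))) (fb 0 1 9 4)) (fb 0 1 9 3)))) (br 1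 9 (br 2 9 (fb 2 1 0 9) (br 3 9 (fb 0 9 2 3) (fb 1 0 9 3))) (br 2 9 (br 3 9 (fb 3 2 1 9) (fb 0 9 3 2)) (br 3 9 (fb 0 9 2 3) (br 4 9 (fb 0 9 2 4) (br 5 9 (fb 4 9 0 5) (br 7 9 (wi [(0,1,2,3),(0,1,2,4),(0,5,2,4),(0,5,2,7),(0,9,2,7),(3,5,1,7),(3,9,1,7)]) (rq 5)))))))) (rq 3)) (fb 0 1 7 4)) (fb 0 1 7 3)))) (br 1 7 (br 2 7 (fb 2 1 0 7) (br 3 7 (fb 0 7 2 3) (fb 1 0 7 3))) (br 2 7 (br 3 7 (fb 3 2 1 7) (fb 0 7 3 2)) (br 3 7 (fb 0 7 2 3) (br 4 7 (fb 0 7 2 4) (br 5 7 (wi [(0,1,2,3),(0,1,2,4),(0,5,2,4),(4,7,0,5),(4,7,1,5),(4,7,3,5)]) (rq 3))))))) (rq 1)))))) (br 0 5 (br 1 5 (br 2 5 (br 3 5 (br 4 5 (rq 1) tbr_4) (fb 1 2 3 5)) (fb 0 1 2 5)) (br 2 5 (br 3 5 (fb 3 2 1 5) (fb 0 1 5 3)) (br 3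 5 (br 4 5 (rq 1) (br 0 7 (br 1 7 (br 2 7 (br 3 7 (br 4 7 (br 5 7 (rq 3) (wi [(0,1,2,3),(0,1,2,4),(0,1,5,4),(0,1,5,7),(1,5,4,3),(3,2,5,7)])) (fb 1 2 4 7)) (fb 1 2 3 7)) (fb 0 1 2 7)) (br 2 7 (br 3 7 (fb 3 2 1 7) (fb 0 1 7 3)) (br 3 7 (br 4 7 (br 5 7 (br 0 9 (br 1 9 (br 2 9 (br 3 9 (br 4 9 (br 5 9 (br 7 9 (rq 5) (wi [(0,1,2,3),(0,1,2,4),(0,1,5,4),(4,5,1,7),(0,1,7,9),(1,5,4,3),(5,1,7,9)])) (fb 0 1 5 9)) (fb 1 2 4 9)) (fb 1 2 3 9)) (fb 0 1 2 9)) (br 2 9 (br 3 9 (fb 3 2 1 9) (fb 0 1 9 3)) (br 3 9 (br 4 9 (br 5 9 (fb 4 5 1 9) (fb 3 4 5 9)) (fb 0 1 9 4)) (fb 0 1 9 3)))) (br 1 9 (br 2 9 (fb 2 1 0 9) (br 3 9 (fb 0 9 2 3) (fb 1 0 9 3))) (br 2 9 (br 3 9 (fb 3 2 1 9) (fb 0 9 3 2)) (br 3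 9 (fb 0 9 2 3) (br 4 9 (fb 0 9 2 4) (br 5 9 (fb 0 9 2 5) (br 7 9 (wi [(0,1,2,3),(0,1,2,4),(0,1,5,4),(4,5,1,7),(0,9,2,7),(1,5,4,3),(3,9,1,7)]) (rq 5)))))))) (br 0 9 (br 1 9 (br 2 9 (br 3 9 (br 4 9 (br 5 9 (br 7 9 (rq 5) (wi [(0,1,2,3),(0,1,2,4),(0,1,5,4),(3,4,5,7),(0,1,7,9),(1,5,4,3),(3,2,7,9)])) (fb 0 1 5 9)) (fb 1 2 4 9)) (fb 1 2 3 9)) (fb 0 1 2 9)) (br 2 9 (br 3 9 (fb 3 2 1 9) (fb 0 1 9 3)) (br 3 9 (br 4 9 (br 5 9 (fb 4 5 1 9) (fb 3 4 5 9)) (fb 0 1 9 4)) (fb 0 1 9 3)))) (br 1 9 (br 2 9 (fb 2 1 0 9) (br 3 9 (fb 0 9 2 3) (fb 1 0 9 3))) (br 2 9 (br 3 9 (fb 3 2 1 9) (fb 0 9 3 2)) (br 3 9 (fb 0 9 2 3) (br 4 9 (fb 0 9 2 4) (br 5 9 (fb 0 9 2 5) (br 7 9 (wi [(0,1,2,3),(0,1,2,4),(0,1,5,4),(3,4,5,7),(0,9,2,7),(1,5,4,3),(0,9,5,7)])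 (rq 5))))))))) (fb 0 1 7 4)) (fb 0 1 7 3)))) (br 1 7 (br 2 7 (fb 2 1 0 7) (br 3 7 (fb 0 7 2 3) (fb 1 0 7 3))) (br 2 7 (br 3 7 (fb 3 2 1 7) (fb 0 7 3 2)) (br 3 7 (fb 0 7 2 3) (br 4 7 (fb 0 7 2 4) (br 5 7 (wi [(0,1,2,3),(0,1,2,4),(0,1,5,4),(0,7,2,5),(1,5,4,3),(0,7,4,5)]) (rq 3)))))))) (fb 0 1 5 3)))) (br 1 5 (br 2 5 (fb 2 1 0 5) (br 3 5 (fb 0 5 2 3) (fb 1 0 5 3))) (br 2 5 (br 3 5 (fb 3 2 1 5) (fb 0 5 3 2)) (br 3 5 (fb 0 5 2 3) (br 4 5 (wi [(0,1,2,3),(0,1,2,4),(0,5,2,4),(0,5,3,4),(1,5,3,4)]) (rq 1)))))))) tbr_9) tbr_20)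

end Pool.Agent.H19
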