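import Pool.Agent.H19.CW.Basic

/-! A checker for finite case analyses on induced `P₄`s. -/

namespace Pool.Agent.H19

open Finset Classical

variable {V : Type}

/-- quadruples of indices -/
abbrev Qd := ℕ × ℕ × ℕ × ℕ

/-- code of an unordered pair of indices -/
def ix (i j : ℕ) : ℕ := if i < j then 16 * i + j else 16 * j + i

lemma ix_inj {i j i' j' : ℕ} (hi : i < 16) (hj : j < 16) (hi' : i' < 16) (hj' : j' < 16)
    (h : ix i j = ix i' j') : (i = i' ∧ j = j') ∨ (i = j' ∧ j = i') := by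
  unfold ix at h
  split_ifs at h <;> omega

/-- certificates -/
inductive CT where
  | br (i j : ℕ) (t0 t1 : CT)
  | fb (a b c d : ℕ)
  | wi (L : List Qd)
  | w8 (L : List Qd)
  | rq (r : ℕ)

/-- known adjacency -/
def ka (P : ℕ) (i j : ℕ) : Bool := Nat.testBit P (ix i j)

/-- known path -/
def p4k (n P N : ℕ) (q : Qd) : Bool :=
  decide (q.1 < n) && decide (q.2.1 < n) && decide (q.2.2.1 < n) && decide (q.2.2.2 < n) &&
  (q.1 != q.2.2.1) && (q.1 != q.2.2.2) && (q.2.1 != q.2.2.2) &&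
  ka P q.1 q.2.1 && ka P q.2.1 q.2.2.1 && ka P q.2.2.1 q.2.2.2 &&
  ka N q.1 q.2.2.1 && ka N q.1 q.2.2.2 && ka N q.2.1 q.2.2.2

def mq (i : ℕ) (q : Qd) : Bool := (i == q.1) || (i == q.2.1) || (i == q.2.2.1) || (i == q.2.2.2)

/-- all indices of `p` occur in `q` -/
def sq (p q : Qd) : Bool := mq p.1 q && mq p.2.1 q && mq p.2.2.1 q && mq p.2.2.2 q

/-- some index of `p` does not occur in `q` -/
def dq (p q : Qd) : Bool := !(sq p q)

def pw : List Qd → Bool
  | [] => true
  | q :: l => l.all (dq q) && pw l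

def ml (i : ℕ) : List ℕ → Bool
  | [] => false
  | j :: l => (i == j) || ml i l

/-- add the vertices of a path to a generated set -/
def stp (acc : List ℕ) (q : Qd) : Option (List ℕ) :=
  let ma := ml q.1 acc
  let mb := ml q.2.1 acc
  let mc := ml q.2.2.1 acc
  let md := ml q.2.2.2 acc
  if mb && mc && md then (if ma then some acc else some (q.1 :: acc))
  else if ma && mc && md then some (q.2.1 :: acc)
  else if ma && mb && md then some (q.2.2.1 :: acc)
  else if ma && mb && mc then some (q.2.2.2 :: acc)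
  else none

def stps : List ℕ → List Qd → Option (List ℕ)
  | acc, [] => some acc
  | acc, q :: l => match stp acc q with
    | none => none
    | some acc' => stps acc' l

def win (n P N : ℕ) : List Qd → Bool
  | [] => false
  | q :: l => (q :: l).all (p4k n P N) && pw (q :: l) &&
      (match stps [q.1, q.2.1, q.2.2.1, q.2.2.2] l with
        | none => false
        | some acc => decide (acc.length ≤ 8) && decide (acc.length ≤ l.length + 2))

def ins4 (q : Qd) (acc : List ℕ) : List ℕ :=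
  let acc := if ml q.1 acc then acc else q.1 :: acc
  let acc := if ml q.2.1 acc then acc else q.2.1 :: acc
  let acc := if ml q.2.2.1 acc then acc else q.2.2.1 :: acc
  if ml q.2.2.2 acc then acc else q.2.2.2 :: acc

def win8 (n P N : ℕ) (L : List Qd) : Bool :=
  L.all (p4k n P N) && pw L && decide (7 ≤ L.length) &&
    decide ((L.foldr ins4 []).length ≤ 8)

/-- is the quadruple known not to be a `P₄`? -/
def iso (P a b c d : ℕ) : Bool := ka P a b && ka P a c && ka P a d

def cyc (P a b c d : ℕ) : Bool := ka P a b && ka P b c && ka P c d && ka P d a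

def np4 (n P N : ℕ) (q : Qd) : Bool :=
  let a := q.1
  let b := q.2.1
  let c := q.2.2.1
  let d := q.2.2.2
  decide (a < n) && decide (b < n) && decide (c < n) && decide (d < n) &&
  (a != b) && (a != c) && (a != d) && (b != c) && (b != d) && (c != d) &&
  (iso P a b c d || iso P b a c d || iso P c a b d || iso P d a b c ||
   iso N a b c d || iso N b a c d || iso N c a b d || iso N d a b c ||
   cyc P a b c d || cyc P a c b d || cyc P a b d c ||
   cyc N a b c d || cyc N a c b d || cyc N a b d c)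

/-- the checker -/
def chk (n : ℕ) (e8 : Bool) (fb : Qd → Bool) (rq : List (List Qd)) : CT → ℕ → ℕ → Bool
  | .br i j t0 t1, P, N => decide (i < 16) && decide (j < 16) &&
      chk n e8 fb rq t0 P (N ||| (1 <<< ix i j)) && chk n e8 fb rq t1 (P ||| (1 <<< ix i j)) N
  | .fb a b c d, P, N => p4k n P N (a, b, c, d) && fb (a, b, c, d)
  | .wi L, P, N => win n P N L
  | .w8 L, P, N => e8 && win8 n P N L
  | .rq r, P, N => match rq[r]? with
    | none => false
    | some l => l.all (np4 n P N)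

/-- the set of a quadruple -/
noncomputable def qs (w : ℕ → V) (q : Qd) : Finset V := {w q.1, w q.2.1, w q.2.2.1, w q.2.2.2}

/-- the known adjacencies are correct -/
def OkP (G : SimpleGraph V) (w : ℕ → V) (P : ℕ) : Prop :=
  ∀ i < 16, ∀ j < 16, ka P i j = true → G.Adj (w i) (w j)

def OkN (G : SimpleGraph V) (w : ℕ → V) (N : ℕ) : Prop :=
  ∀ i < 16, ∀ j < 16, ka N i j = true → ¬ G.Adj (w i) (w j)

section

variable {G : SimpleGraph V} {w : ℕ → V} {n : ℕ}

lemma p4k_lt {P N : ℕ} {q : Qd} (h : p4k n P N q = true) :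
    q.1 < n ∧ q.2.1 < n ∧ q.2.2.1 < n ∧ q.2.2.2 < n := by
  unfold p4k at h
  simp only [Bool.and_eq_true, decide_eq_true_eq, bne_iff_ne, ne_eq] at h
  tauto

lemma p4k_sound (hn : n ≤ 16) (hw : ∀ i < n, ∀ j < n, w i = w j → i = j) {P N : ℕ}
    (hP : OkP G w P) (hN : OkN G w N) {q : Qd} (h : p4k n P N q = true) :
    P4 G (w q.1) (w q.2.1) (w q.2.2.1) (w q.2.2.2) := by
  unfold p4k at h
  simp only [Bool.and_eq_true, decide_eq_true_eq, bne_iff_ne, ne_eq] at h
  obtain ⟨⟨⟨⟨⟨⟨⟨⟨⟨⟨⟨⟨ha, hb⟩, hc⟩, hd⟩, n1⟩, n2⟩, n3⟩, k1⟩, k2⟩, k3⟩, k4⟩, k5⟩, k6⟩ := h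
  refine ⟨hP _ (by omega) _ (by omega) k1, hP _ (by omega) _ (by omega) k2,
    hP _ (by omega) _ (by omega) k3, hN _ (by omega) _ (by omega) k4,
    hN _ (by omega) _ (by omega) k5, hN _ (by omega) _ (by omega) k6,
    fun h => n1 (hw _ ha _ hc h), fun h => n2 (hw _ ha _ hd h), fun h => n3 (hw _ hb _ hd h)⟩

lemma mem_qs_of_mq {i : ℕ} {q : Qd} (h : mq i q = true) : w i ∈ qs w q := by
  unfold mq at h
  simp only [Bool.or_eq_true, beq_iff_eq] at h
  unfold qs
  simp only [mem_insert, mem_singleton]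
  rcases h with ((rfl | rfl) | rfl) | rfl <;> simp

lemma mq_of_mem_qs (hw : ∀ i < n, ∀ j < n, w i = w j → i = j) {i : ℕ} (hi : i < n) {q : Qd}
    (hq : q.1 < n ∧ q.2.1 < n ∧ q.2.2.1 < n ∧ q.2.2.2 < n) (h : w i ∈ qs w q) :
    mq i q = true := by
  unfold qs at h
  simp only [mem_insert, mem_singleton] at h
  unfold mq
  simp only [Bool.or_eq_true, beq_iff_eq]
  rcases h with h | h | h | h
  · exact Or.inl (Or.inl (Or.inl (hw _ hi _ hq.1 h)))
  · exact Or.inl (Or.inl (Or.inr (hw _ hi _ hq.2.1 h)))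
  · exact Or.inl (Or.inr (hw _ hi _ hq.2.2.1 h))
  · exact Or.inr (hw _ hi _ hq.2.2.2 h)

lemma qs_sub_of_sq {p q : Qd} (h : sq p q = true) : qs w p ⊆ qs w q := by
  unfold sq at h
  simp only [Bool.and_eq_true] at h
  intro x hx
  unfold qs at hx
  simp only [mem_insert, mem_singleton] at hx
  rcases hx with rfl | rfl | rfl | rfl
  · exact mem_qs_of_mq h.1.1.1
  · exact mem_qs_of_mq h.1.1.2
  · exact mem_qs_of_mq h.1.2
  · exact mem_qs_of_mq h.2

lemma sq_of_qs_sub (hw : ∀ i < n, ∀ j < n, w i = w j → i = j) {p q : Qd}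
    (hp : p.1 < n ∧ p.2.1 < n ∧ p.2.2.1 < n ∧ p.2.2.2 < n)
    (hq : q.1 < n ∧ q.2.1 < n ∧ q.2.2.1 < n ∧ q.2.2.2 < n) (h : qs w p ⊆ qs w q) :
    sq p q = true := by
  unfold sq
  simp only [Bool.and_eq_true]
  refine ⟨⟨⟨?_, ?_⟩, ?_⟩, ?_⟩
  · exact mq_of_mem_qs hw hp.1 hq (h (by simp [qs]))
  · exact mq_of_mem_qs hw hp.2.1 hq (h (by simp [qs]))
  · exact mq_of_mem_qs hw hp.2.2.1 hq (h (by simp [qs]))
  · exact mq_of_mem_qs hw hp.2.2.2 hq (h (by simp [qs]))

lemma qs_card_le (q : Qd) : (qs w q).card ≤ 4 := by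
  unfold qs
  exact card_le_four

lemma pw_sound (hw : ∀ i < n, ∀ j < n, w i = w j → i = j) : ∀ {L : List Qd},
    (∀ q ∈ L, q.1 < n ∧ q.2.1 < n ∧ q.2.2.1 < n ∧ q.2.2.2 < n) → pw L = true →
    (L.map (qs w)).Nodup := by
  intro L
  induction L with
  | nil => intro _ _; simp
  | cons q l ih =>
    intro hL h
    simp only [pw, Bool.and_eq_true, List.all_eq_true] at h
    rw [List.map_cons, List.nodup_cons]
    refine ⟨?_, ih (fun q hq => hL q (List.mem_cons_of_mem _ hq)) h.2⟩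
    intro hm
    rw [List.mem_map] at hm
    obtain ⟨p, hp, he⟩ := hm
    have := h.1 p hp
    unfold dq at this
    rw [Bool.not_eq_true'] at this
    have h2 := sq_of_qs_sub hw (hL q List.mem_cons_self) (hL p (List.mem_cons_of_mem _ hp))
      (by rw [he])
    rw [this] at h2
    exact Bool.noConfusion h2

lemma ml_mem {i : ℕ} : ∀ {l : List ℕ}, ml i l = true → i ∈ l := by
  intro l
  induction l with
  | nil => intro h; simp [ml] at h
  | cons j l ih =>
    intro h
    simp only [ml, Bool.or_eq_true, beq_iff_eq] at h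
    rcases h with rfl | h
    · exact List.mem_cons_self
    · exact List.mem_cons_of_mem _ (ih h)

/-- the vertex set of a list of indices -/
noncomputable def ls (w : ℕ → V) (l : List ℕ) : Finset V := (l.map w).toFinset

lemma mem_ls {w : ℕ → V} {l : List ℕ} {i : ℕ} (h : i ∈ l) : w i ∈ ls w l := by
  unfold ls
  rw [List.mem_toFinset]
  exact List.mem_map_of_mem h

lemma ls_cons (w : ℕ → V) (i : ℕ) (l : List ℕ) : ls w (i :: l) = insert (w i) (ls w l) := by
  unfold ls
  simp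

lemma ls_card (w : ℕ → V) (l : List ℕ) : (ls w l).card ≤ l.length := by
  unfold ls
  exact (List.toFinset_card_le _).trans (by simp)

lemma stp_sound {acc acc' : List ℕ} {q : Qd}
    (hp : P4 G (w q.1) (w q.2.1) (w q.2.2.1) (w q.2.2.2)) (hg : Gen G (ls w acc))
    (h : stp acc q = some acc') :
    Gen G (ls w acc') ∧ qs w q ⊆ ls w acc' ∧ ls w acc ⊆ ls w acc' := by
  unfold stp at h
  simp only at h
  have sub : ∀ (a b c d : V) (T : Finset V), a ∈ T → b ∈ T → c ∈ T → d ∈ T →
      ({a, b, c, d} : Finset V) ⊆ T := by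
    intro a b c d T ha hb hc hd x hx
    simp only [mem_insert, mem_singleton] at hx
    rcases hx with rfl | rfl | rfl | rfl <;> assumption
  split_ifs at h with h1 h2 h3 h4 h5
  · simp only [Option.some.injEq] at h; subst h
    simp only [Bool.and_eq_true] at h1
    exact ⟨hg, sub _ _ _ _ _ (mem_ls (ml_mem h2)) (mem_ls (ml_mem h1.1.1)) (mem_ls (ml_mem h1.1.2))
      (mem_ls (ml_mem h1.2)), Subset.refl _⟩
  · simp only [Option.some.injEq] at h; subst h
    simp only [Bool.and_eq_true] at h1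
    have b1 := mem_ls (w := w) (ml_mem h1.1.1)
    have c1 := mem_ls (w := w) (ml_mem h1.1.2)
    have d1 := mem_ls (w := w) (ml_mem h1.2)
    rw [ls_cons]
    exact ⟨Gen.att hg (hp.att1 b1 c1 d1), sub _ _ _ _ _ (mem_insert_self _ _)
      (mem_insert_of_mem b1) (mem_insert_of_mem c1) (mem_insert_of_mem d1), subset_insert _ _⟩
  · simp only [Option.some.injEq] at h; subst h
    simp only [Bool.and_eq_true] at h3
    have b1 := mem_ls (w := w) (ml_mem h3.1.1)
    have c1 := mem_ls (w := w) (ml_mem h3.1.2)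
    have d1 := mem_ls (w := w) (ml_mem h3.2)
    rw [ls_cons]
    exact ⟨Gen.att hg (hp.att2 b1 c1 d1), sub _ _ _ _ _ (mem_insert_of_mem b1)
      (mem_insert_self _ _) (mem_insert_of_mem c1) (mem_insert_of_mem d1), subset_insert _ _⟩
  · simp only [Option.some.injEq] at h; subst h
    simp only [Bool.and_eq_true] at h4
    have b1 := mem_ls (w := w) (ml_mem h4.1.1)
    have c1 := mem_ls (w := w) (ml_mem h4.1.2)
    have d1 := mem_ls (w := w) (ml_mem h4.2)
    rw [ls_cons]
    exact ⟨Gen.att hg (hp.att3 b1 c1 d1), sub _ _ _ _ _ (mem_insert_of_mem b1)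
      (mem_insert_of_mem c1) (mem_insert_self _ _) (mem_insert_of_mem d1), subset_insert _ _⟩
  · simp only [Option.some.injEq] at h; subst h
    simp only [Bool.and_eq_true] at h5
    have b1 := mem_ls (w := w) (ml_mem h5.1.1)
    have c1 := mem_ls (w := w) (ml_mem h5.1.2)
    have d1 := mem_ls (w := w) (ml_mem h5.2)
    rw [ls_cons]
    exact ⟨Gen.att hg (hp.att4 b1 c1 d1), sub _ _ _ _ _ (mem_insert_of_mem b1)
      (mem_insert_of_mem c1) (mem_insert_of_mem d1) (mem_insert_self _ _), subset_insert _ _⟩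

lemma stps_sound : ∀ {L : List Qd} {acc acc' : List ℕ},
    (∀ q ∈ L, P4 G (w q.1) (w q.2.1) (w q.2.2.1) (w q.2.2.2)) → Gen G (ls w acc) →
    stps acc L = some acc' →
    Gen G (ls w acc') ∧ (∀ q ∈ L, qs w q ⊆ ls w acc') ∧ ls w acc ⊆ ls w acc' := by
  intro L
  induction L with
  | nil =>
    intro acc acc' _ hg h
    simp only [stps, Option.some.injEq] at h; subst h
    exact ⟨hg, by simp, Subset.refl _⟩
  | cons q l ih =>
    intro acc acc' hL hg h
    simp only [stps] at h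
    cases hs : stp acc q with
    | none => rw [hs] at h; simp at h
    | some a1 =>
      rw [hs] at h
      simp only at h
      obtain ⟨g1, g2, g3⟩ := stp_sound (hL q List.mem_cons_self) hg hs
      obtain ⟨k1, k2, k3⟩ := ih (fun q hq => hL q (List.mem_cons_of_mem _ hq)) g1 h
      refine ⟨k1, ?_, g3.trans k3⟩
      intro p hp
      rcases List.mem_cons.1 hp with rfl | hp
      · exact g2.trans k3
      · exact k2 p hp

lemma pn_ge {S : Finset V} {L : List Qd}
    (hL : ∀ q ∈ L, IsP4 G (qs w q) ∧ qs w q ⊆ S) (hd : (L.map (qs w)).Nodup) :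
    L.length ≤ pn G S := by
  have h1 : (L.map (qs w)).toFinset.card = L.length := by
    rw [List.toFinset_card_of_nodup hd]; simp
  rw [← h1]
  apply card_le_card
  intro Q hQ
  rw [List.mem_toFinset, List.mem_map] at hQ
  obtain ⟨q, hq, rfl⟩ := hQ
  rw [mem_ps]
  exact ⟨(hL q hq).2, (hL q hq).1⟩

lemma win_sound (hn : n ≤ 16) (hw : ∀ i < n, ∀ j < n, w i = w j → i = j) (hLC : LC G) {P N : ℕ}
    (hP : OkP G w P) (hN : OkN G w N) {L : List Qd} (h : win n P N L = true) : False := by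
  cases L with
  | nil => simp [win] at h
  | cons q l =>
    simp only [win, Bool.and_eq_true] at h
    obtain ⟨⟨h1, h2⟩, h3⟩ := h
    rw [List.all_eq_true] at h1
    have hp : ∀ p ∈ q :: l, P4 G (w p.1) (w p.2.1) (w p.2.2.1) (w p.2.2.2) :=
      fun p hp => p4k_sound hn hw hP hN (h1 p hp)
    have hnd := pw_sound hw (fun p hp => p4k_lt (h1 p hp)) h2
    cases hs : stps [q.1, q.2.1, q.2.2.1, q.2.2.2] l with
    | none => rw [hs] at h3; simp at h3
    | some acc =>
      rw [hs] at h3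
      simp only [Bool.and_eq_true, decide_eq_true_eq] at h3
      have hb : ls w [q.1, q.2.1, q.2.2.1, q.2.2.2] = {w q.1, w q.2.1, w q.2.2.1, w q.2.2.2} := by
        simp [ls]
      have hg : Gen G (ls w [q.1, q.2.1, q.2.2.1, q.2.2.2]) := by
        rw [hb]; exact Gen.base (hp q List.mem_cons_self)
      obtain ⟨k1, k2, k3⟩ := stps_sound (fun p hp' => hp p (List.mem_cons_of_mem _ hp')) hg hs
      have hc := ls_card w acc
      have hlc := hLC _ k1 (by omega)
      have hpn : (q :: l).length ≤ pn G (ls w acc) := by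
        apply pn_ge _ hnd
        intro p hp'
        refine ⟨(hp p hp').isP4, ?_⟩
        rcases List.mem_cons.1 hp' with rfl | hp''
        · refine Subset.trans ?_ k3
          rw [hb]; exact Subset.refl _
        · exact k2 p hp''
      simp only [List.length_cons] at hpn
      omega

lemma ins4_sub {q : Qd} {acc : List ℕ} : qs w q ⊆ ls w (ins4 q acc) ∧ ls w acc ⊆ ls w (ins4 q acc) := by
  have step : ∀ (i : ℕ) (l : List ℕ), w i ∈ ls w (if ml i l then l else i :: l) ∧
      ls w l ⊆ ls w (if ml i l then l else i :: l) := by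
    intro i l
    split_ifs with h
    · exact ⟨mem_ls (ml_mem h), Subset.refl _⟩
    · rw [ls_cons]; exact ⟨mem_insert_self _ _, subset_insert _ _⟩
  unfold ins4
  simp only
  obtain ⟨a1, a2⟩ := step q.1 acc
  obtain ⟨b1, b2⟩ := step q.2.1 (if ml q.1 acc then acc else q.1 :: acc)
  set l1 := (if ml q.1 acc then acc else q.1 :: acc)
  obtain ⟨c1, c2⟩ := step q.2.2.1 (if ml q.2.1 l1 then l1 else q.2.1 :: l1)
  set l2 := (if ml q.2.1 l1 then l1 else q.2.1 :: l1)
  obtain ⟨d1, d2⟩ := step q.2.2.2 (if ml q.2.2.1 l2 then l2 else q.2.2.1 :: l2)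
  set l3 := (if ml q.2.2.1 l2 then l2 else q.2.2.1 :: l2)
  refine ⟨?_, a2.trans (b2.trans (c2.trans d2))⟩
  intro x hx
  unfold qs at hx
  simp only [mem_insert, mem_singleton] at hx
  rcases hx with rfl | rfl | rfl | rfl
  · exact d2 (c2 (b2 a1))
  · exact d2 (c2 b1)
  · exact d2 c1
  · exact d1

lemma win8_sound (hn : n ≤ 16) (hw : ∀ i < n, ∀ j < n, w i = w j → i = j)
    (h8 : ∀ S : Finset V, S.card ≤ 8 → pn G S ≤ 6) {P N : ℕ}
    (hP : OkP G w P) (hN : OkN G w N) {L : List Qd} (h : win8 n P N L = true) : False := by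
  simp only [win8, Bool.and_eq_true, decide_eq_true_eq] at h
  obtain ⟨⟨⟨h1, h2⟩, h3⟩, h4⟩ := h
  rw [List.all_eq_true] at h1
  have hp : ∀ p ∈ L, P4 G (w p.1) (w p.2.1) (w p.2.2.1) (w p.2.2.2) :=
    fun p hp => p4k_sound hn hw hP hN (h1 p hp)
  have hnd := pw_sound hw (fun p hp => p4k_lt (h1 p hp)) h2
  have key : ∀ L : List Qd, ∀ p ∈ L, qs w p ⊆ ls w (L.foldr ins4 []) := by
    intro L
    induction L with
    | nil => intro p hp; simp at hp
    | cons q l ih =>
      intro p hp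
      rw [List.foldr_cons]
      rcases List.mem_cons.1 hp with rfl | hp
      · exact ins4_sub.1
      · exact (ih p hp).trans ins4_sub.2
  have hc := ls_card w (L.foldr ins4 [])
  have := h8 _ (hc.trans h4)
  have := pn_ge (S := ls w (L.foldr ins4 [])) (fun p hp' => ⟨(hp p hp').isP4, key L p hp'⟩) hnd
  omega

lemma iso_sound {a b c d : ℕ} (ha : a < 16) (hb : b < 16) (hc : c < 16) (hd : d < 16)
    {P N : ℕ} (hP : OkP G w P) (hN : OkN G w N) (h : iso P a b c d = true ∨ iso N a b c d = true)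
    {Q : Finset V} (hQ : Q = {w a, w b, w c, w d}) (h4 : IsP4 G Q) : False := by
  have hmem : w a ∈ Q := by rw [hQ]; simp
  obtain ⟨⟨u, hu, hau⟩, u', hu', hne, hau'⟩ := h4.nb hmem
  rw [hQ] at hu hu'
  simp only [mem_insert, mem_singleton] at hu hu'
  simp only [iso, Bool.and_eq_true] at h
  rcases h with ⟨⟨h1, h2⟩, h3⟩ | ⟨⟨h1, h2⟩, h3⟩
  · rcases hu' with rfl | rfl | rfl | rfl
    · exact hne rfl
    · exact hau' (hP _ ha _ hb h1)
    · exact hau' (hP _ ha _ hc h2)
    · exact hau' (hP _ ha _ hd h3)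
  · rcases hu with rfl | rfl | rfl | rfl
    · exact G.loopless.irrefl _ hau
    · exact (hN _ ha _ hb h1) hau
    · exact (hN _ ha _ hc h2) hau
    · exact (hN _ ha _ hd h3) hau

lemma cyc_sound {a b c d : ℕ} (ha : a < 16) (hb : b < 16) (hc : c < 16) (hd : d < 16)
    (hac : w a ≠ w c) (hbd : w b ≠ w d) (hab : w a ≠ w b) (hbc : w b ≠ w c) (hcd : w c ≠ w d)
    (hda : w d ≠ w a)
    {P N : ℕ} (hP : OkP G w P) (hN : OkN G w N) (h : cyc P a b c d = true ∨ cyc N a b c d = true)
    {Q : Finset V} (hQ : Q = {w a, w b, w c, w d}) (h4 : IsP4 G Q) : False := by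
  obtain ⟨⟨v, hv, h5⟩, v', hv', h6⟩ := h4.one
  have ma : w a ∈ Q := by rw [hQ]; simp
  have mb : w b ∈ Q := by rw [hQ]; simp
  have mc : w c ∈ Q := by rw [hQ]; simp
  have md : w d ∈ Q := by rw [hQ]; simp
  rw [hQ] at hv hv'
  simp only [mem_insert, mem_singleton] at hv hv'
  simp only [cyc, Bool.and_eq_true] at h
  rcases h with ⟨⟨⟨h1, h2⟩, h3⟩, h7⟩ | ⟨⟨⟨h1, h2⟩, h3⟩, h7⟩
  · have k1 := hP _ ha _ hb h1
    have k2 := hP _ hb _ hc h2
    have k3 := hP _ hc _ hd h3
    have k4 := hP _ hd _ ha h7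
    rcases hv with rfl | rfl | rfl | rfl
    · exact hbd (h5 _ mb _ md k1 k4.symm)
    · exact hac (h5 _ ma _ mc k1.symm k2)
    · exact hbd (h5 _ mb _ md k2.symm k3)
    · exact hac (h5 _ ma _ mc k4 k3.symm)
  · have k1 := hN _ ha _ hb h1
    have k2 := hN _ hb _ hc h2
    have k3 := hN _ hc _ hd h3
    have k4 := hN _ hd _ ha h7
    rcases hv' with rfl | rfl | rfl | rfl
    · exact hbd (h6 _ mb _ md hab.symm hda k1 (fun h => k4 h.symm))
    · exact hac (h6 _ ma _ mc hab hbc.symm (fun h => k1 h.symm) k2)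
    · exact hbd (h6 _ mb _ md hbc hcd.symm (fun h => k2 h.symm) k3)
    · exact hac (h6 _ ma _ mc hda.symm hcd k4 (fun h => k3 h.symm))

lemma np4_aux {a b c d : ℕ} (ha' : a < 16) (hb' : b < 16) (hc' : c < 16) (hd' : d < 16)
    (m1 : w a ≠ w b) (m2 : w a ≠ w c) (m3 : w a ≠ w d) (m4 : w b ≠ w c) (m5 : w b ≠ w d)
    (m6 : w c ≠ w d) {P N : ℕ} (hP : OkP G w P) (hN : OkN G w N) {Q : Finset V}
    (e0 : Q = {w a, w b, w c, w d}) (h4 : IsP4 G Q)
    (h : (iso P a b c d || iso P b a c d || iso P c a b d || iso P d a b c ||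
   iso N a b c d || iso N b a c d || iso N c a b d || iso N d a b c ||
   cyc P a b c d || cyc P a c b d || cyc P a b d c ||
   cyc N a b c d || cyc N a c b d || cyc N a b d c) = true) : False := by
  have e1 : Q = {w b, w a, w c, w d} := by rw [e0, Finset.insert_comm]
  have e2 : Q = {w c, w a, w b, w d} := by
    rw [e0, Finset.insert_comm (w b), Finset.insert_comm (w a)]
  have e4 : Q = {w a, w c, w b, w d} := by rw [e0, Finset.insert_comm (w b)]
  have e5 : Q = {w a, w b, w d, w c} := by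
    rw [e0, Finset.pair_comm (w c)]
  have e3 : Q = {w d, w a, w b, w c} := by
    rw [e5, Finset.insert_comm (w b), Finset.insert_comm (w a)]
  by_cases hh : iso P a b c d = true
  · exact iso_sound ha' hb' hc' hd' hP hN (Or.inl hh) e0 h4
  by_cases hh : iso P b a c d = true
  · exact iso_sound hb' ha' hc' hd' hP hN (Or.inl hh) e1 h4
  by_cases hh : iso P c a b d = true
  · exact iso_sound hc' ha' hb' hd' hP hN (Or.inl hh) e2 h4
  by_cases hh : iso P d a b c = true
  · exact iso_sound hd' ha' hb' hc' hP hN (Or.inl hh) e3 h4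
  by_cases hh : iso N a b c d = true
  · exact iso_sound ha' hb' hc' hd' hP hN (Or.inr hh) e0 h4
  by_cases hh : iso N b a c d = true
  · exact iso_sound hb' ha' hc' hd' hP hN (Or.inr hh) e1 h4
  by_cases hh : iso N c a b d = true
  · exact iso_sound hc' ha' hb' hd' hP hN (Or.inr hh) e2 h4
  by_cases hh : iso N d a b c = true
  · exact iso_sound hd' ha' hb' hc' hP hN (Or.inr hh) e3 h4
  by_cases hh : cyc P a b c d = true
  · exact cyc_sound ha' hb' hc' hd' m2 m5 m1 m4 m6 m3.symm hP hN (Or.inl hh) e0 h4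
  by_cases hh : cyc P a c b d = true
  · exact cyc_sound ha' hc' hb' hd' m1 m6 m2 m4.symm m5 m3.symm hP hN (Or.inl hh) e4 h4
  by_cases hh : cyc P a b d c = true
  · exact cyc_sound ha' hb' hd' hc' m3 m4 m1 m5 m6.symm m2.symm hP hN (Or.inl hh) e5 h4
  by_cases hh : cyc N a b c d = true
  · exact cyc_sound ha' hb' hc' hd' m2 m5 m1 m4 m6 m3.symm hP hN (Or.inr hh) e0 h4
  by_cases hh : cyc N a c b d = true
  · exact cyc_sound ha' hc' hb' hd' m1 m6 m2 m4.symm m5 m3.symm hP hN (Or.inr hh) e4 h4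
  by_cases hh : cyc N a b d c = true
  · exact cyc_sound ha' hb' hd' hc' m3 m4 m1 m5 m6.symm m2.symm hP hN (Or.inr hh) e5 h4
  simp_all

lemma np4_sound (hn : n ≤ 16) (hw : ∀ i < n, ∀ j < n, w i = w j → i = j) {P N : ℕ}
    (hP : OkP G w P) (hN : OkN G w N) {q : Qd} (h : np4 n P N q = true) (h4 : IsP4 G (qs w q)) :
    False := by
  obtain ⟨a, b, c, d⟩ := q
  unfold np4 at h
  rw [Bool.and_eq_true] at h
  obtain ⟨h0, h⟩ := h
  simp only [Bool.and_eq_true, decide_eq_true_eq, bne_iff_ne, ne_eq] at h0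
  obtain ⟨⟨⟨⟨⟨⟨⟨⟨⟨ha, hb⟩, hc⟩, hd⟩, n1⟩, n2⟩, n3⟩, n4⟩, n5⟩, n6⟩ := h0
  exact np4_aux (by omega) (by omega) (by omega) (by omega)
    (fun h => n1 (hw _ ha _ hb h)) (fun h => n2 (hw _ ha _ hc h)) (fun h => n3 (hw _ ha _ hd h))
    (fun h => n4 (hw _ hb _ hc h)) (fun h => n5 (hw _ hb _ hd h)) (fun h => n6 (hw _ hc _ hd h))
    hP hN (e0 := rfl) h4 h

lemma ka_or {P i j i' j' : ℕ} (hi : i < 16) (hj : j < 16) (hi' : i' < 16) (hj' : j' < 16)
    (h : ka (P ||| (1 <<< ix i j)) i' j' = true) :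
    ka P i' j' = true ∨ (i = i' ∧ j = j') ∨ (i = j' ∧ j = i') := by
  unfold ka at h ⊢
  rw [Nat.testBit_or, Bool.or_eq_true] at h
  rcases h with h | h
  · exact Or.inl h
  · right
    rw [Nat.one_shiftLeft, Nat.testBit_two_pow] at h
    simp only [decide_eq_true_eq] at h
    exact ix_inj hi hj hi' hj' h

theorem chk_sound (hn : n ≤ 16) (hw : ∀ i < n, ∀ j < n, w i = w j → i = j) (hLC : LC G)
    {e8 : Bool} (h8 : e8 = true → ∀ S : Finset V, S.card ≤ 8 → pn G S ≤ 6)
    {fb : Qd → Bool} (hfb : ∀ q, fb q = true → q.1 < n → q.2.1 < n → q.2.2.1 < n → q.2.2.2 < n →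
      ¬ IsP4 G (qs w q)) {rq : List (List Qd)}
    (hrq : ∀ l ∈ rq, ∃ q ∈ l, IsP4 G (qs w q)) : ∀ (t : CT) (P N : ℕ), OkP G w P → OkN G w N →
    chk n e8 fb rq t P N = true → False := by
  intro t
  induction t with
  | br i j t0 t1 ih0 ih1 =>
    intro P N hP hN h
    simp only [chk, Bool.and_eq_true, decide_eq_true_eq] at h
    obtain ⟨⟨⟨hi, hj⟩, h0⟩, h1⟩ := h
    by_cases hA : G.Adj (w i) (w j)
    · refine ih1 _ _ ?_ hN h1
      intro i' hi' j' hj' hk
      rcases ka_or hi hj hi' hj' hk with hk | ⟨rfl, rfl⟩ | ⟨rfl, rfl⟩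
      · exact hP _ hi' _ hj' hk
      · exact hA
      · exact hA.symm
    · refine ih0 _ _ hP ?_ h0
      intro i' hi' j' hj' hk
      rcases ka_or hi hj hi' hj' hk with hk | ⟨rfl, rfl⟩ | ⟨rfl, rfl⟩
      · exact hN _ hi' _ hj' hk
      · exact hA
      · exact fun h => hA h.symm
  | fb a b c d =>
    intro P N hP hN h
    simp only [chk, Bool.and_eq_true] at h
    obtain ⟨k1, k2, k3, k4⟩ := p4k_lt h.1
    exact hfb _ h.2 k1 k2 k3 k4 (p4k_sound hn hw hP hN h.1).isP4
  | wi L =>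
    intro P N hP hN h
    exact win_sound hn hw hLC hP hN h
  | w8 L =>
    intro P N hP hN h
    simp only [chk, Bool.and_eq_true] at h
    exact win8_sound hn hw (h8 h.1) hP hN h.2
  | rq r =>
    intro P N hP hN h
    simp only [chk] at h
    cases hr : rq[r]? with
    | none => rw [hr] at h; simp at h
    | some l =>
      rw [hr] at h
      simp only [List.all_eq_true] at h
      have hl : l ∈ rq := List.mem_of_getElem? hr
      obtain ⟨q, hq, h4⟩ := hrq l hl
      exact np4_sound hn hw hP hN (h q hq) h4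

/-- masks from lists of pairs -/
def mk (l : List (ℕ × ℕ)) : ℕ := l.foldr (fun p m => m ||| (1 <<< ix p.1 p.2)) 0

def rg (l : List (ℕ × ℕ)) : Bool := l.all (fun p => decide (p.1 < 16) && decide (p.2 < 16))

lemma okP_mk : ∀ {l : List (ℕ × ℕ)}, rg l = true → (∀ p ∈ l, G.Adj (w p.1) (w p.2)) →
    OkP G w (mk l) := by
  intro l
  induction l with
  | nil =>
    intro _ _ i _ j _ h
    simp [mk, ka] at h
  | cons p l ih =>
    intro hr h i hi j hj hk
    simp only [rg, List.all_cons, Bool.and_eq_true, decide_eq_true_eq] at hr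
    have hk' : ka (mk l ||| (1 <<< ix p.1 p.2)) i j = true := hk
    rcases ka_or hr.1.1 hr.1.2 hi hj hk' with hk | ⟨rfl, rfl⟩ | ⟨rfl, rfl⟩
    · exact ih hr.2 (fun q hq => h q (List.mem_cons_of_mem _ hq)) i hi j hj hk
    · exact h p List.mem_cons_self
    · exact (h p List.mem_cons_self).symm

lemma okN_mk : ∀ {l : List (ℕ × ℕ)}, rg l = true → (∀ p ∈ l, ¬ G.Adj (w p.1) (w p.2)) →
    OkN G w (mk l) := by
  intro l
  induction l with
  | nil =>
    intro _ _ i _ j _ h
    simp [mk, ka] at h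
  | cons p l ih =>
    intro hr h i hi j hj hk
    simp only [rg, List.all_cons, Bool.and_eq_true, decide_eq_true_eq] at hr
    have hk' : ka (mk l ||| (1 <<< ix p.1 p.2)) i j = true := hk
    rcases ka_or hr.1.1 hr.1.2 hi hj hk' with hk | ⟨rfl, rfl⟩ | ⟨rfl, rfl⟩
    · exact ih hr.2 (fun q hq => h q (List.mem_cons_of_mem _ hq)) i hi j hj hk
    · exact h p List.mem_cons_self
    · exact fun h' => h p List.mem_cons_self h'.symm

end

/-- list version with everything checked -/
def full (n : ℕ) (e8 : Bool) (fb : Qd → Bool) (rq : List (List Qd)) (pos neg : List (ℕ × ℕ))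
    (t : CT) : Bool :=
  decide (n ≤ 16) && rg pos && rg neg && chk n e8 fb rq t (mk pos) (mk neg)

theorem full_sound {G : SimpleGraph V} (hLC : LC G) (l : List V) (hl : l.Nodup) (z : V)
    {e8 : Bool} (h8 : e8 = true → ∀ S : Finset V, S.card ≤ 8 → pn G S ≤ 6)
    {fb : Qd → Bool} {rq : List (List Qd)} {pos neg : List (ℕ × ℕ)} {t : CT}
    (hc : full l.length e8 fb rq pos neg t = true)
    (hfb : ∀ q, fb q = true → q.1 < l.length → q.2.1 < l.length → q.2.2.1 < l.length →
      q.2.2.2 < l.length → ¬ IsP4 G (qs (fun i => l.getD i z) q))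
    (hrq : ∀ r ∈ rq, ∃ q ∈ r, IsP4 G (qs (fun i => l.getD i z) q))
    (hpos : ∀ p ∈ pos, G.Adj (l.getD p.1 z) (l.getD p.2 z))
    (hneg : ∀ p ∈ neg, ¬ G.Adj (l.getD p.1 z) (l.getD p.2 z)) : False := by
  simp only [full, Bool.and_eq_true, decide_eq_true_eq] at hc
  obtain ⟨⟨⟨h1, h2⟩, h3⟩, h4⟩ := hc
  refine chk_sound (w := fun i => l.getD i z) h1 ?_ hLC h8 hfb hrq t _ _
    (okP_mk h2 hpos) (okN_mk h3 hneg) h4
  intro i hi j hj h
  simp only [List.getD_eq_getElem?_getD, List.getElem?_eq_getElem hi, List.getElem?_eq_getElem hj,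
    Option.getD_some] at h
  exact (List.Nodup.getElem_inj_iff hl).1 h

end Pool.Agent.H19
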