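import Pool.Agent.H19.CW.Sparse

/-! Twin legs. -/

namespace Pool.Agent.H19

open Finset Classical

variable {V : Type} {G : SimpleGraph V}

/-- twin legs, relative to a set -/
def TW (G : SimpleGraph V) (R : Finset V) (p p' : V × V) : Prop :=
  Sp2 G (G.Adj p.1 p.2) p p' ∧
    ∀ v ∈ R, v ≠ p.1 → v ≠ p.2 → v ≠ p'.1 → v ≠ p'.2 →
      (G.Adj v p.1 ↔ G.Adj v p'.1) ∧ (G.Adj v p.2 ↔ G.Adj v p'.2)

lemma TW.mono {R R' : Finset V} {p p' : V × V} (h : TW G R p p') (hR : R' ⊆ R) : TW G R' p p' :=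
  ⟨h.1, fun v hv => h.2 v (hR hv)⟩

lemma TW.symm {R : Finset V} {p p' : V × V} (h : TW G R p p') : TW G R p' p := by
  obtain ⟨h1, h2⟩ := h
  have e : G.Adj p'.1 p'.2 = G.Adj p.1 p.2 := propext h1.2.2.2.2.2.2.1
  refine ⟨?_, fun v hv a b c d => ?_⟩
  · rw [e]; exact h1.symm
  · have := h2 v hv c d a b
    exact ⟨this.1.symm, this.2.symm⟩

/-- all the distinctness facts -/
lemma TW.ne {R : Finset V} {p p' : V × V} (h : TW G R p p') : p.1 ≠ p.2 ∧ p'.1 ≠ p'.2 ∧
    p.1 ≠ p'.1 ∧ p.1 ≠ p'.2 ∧ p.2 ≠ p'.1 ∧ p.2 ≠ p'.2 :=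
  ⟨h.1.2.2.2.1, h.1.2.2.2.2.1, h.1.1.ne, h.1.ne12, h.1.symm.ne12.symm, h.1.2.2.1⟩

lemma TW.trans [Fintype V] {p p' p'' : V × V} (h : TW G univ p p') (k : TW G univ p' p'')
    (hne : p ≠ p'') : TW G univ p p'' := by
  obtain ⟨n1, n2, n3, n4, n5, n6⟩ := h.ne
  obtain ⟨m1, m2, m3, m4, m5, m6⟩ := k.ne
  obtain ⟨⟨h1, h2, -, -, -, -, h7, h8, h9⟩, hu⟩ := h
  obtain ⟨⟨k1, k2, -, -, -, -, k7, k8, k9⟩, ku⟩ := k
  have sy := G.adj_comm
  have a1 : p.1 ≠ p''.1 := by
    intro he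
    have hne2 : p.2 ≠ p''.2 := fun h => hne (Prod.ext he h)
    have := (hu p''.2 (mem_univ _) (by rw [he]; exact m2.symm) hne2.symm m4.symm m6.symm).1
    rw [he, sy p''.2 p''.1, sy p''.2 p'.1] at this
    rw [he] at h7
    tauto
  have a2 : p.2 ≠ p''.2 := by
    intro he
    have := (hu p''.1 (mem_univ _) a1.symm (by rw [he]; exact m2) m3.symm m5.symm).2
    rw [he] at this
    tauto
  have a3 : p.1 ≠ p''.2 := by
    intro he
    rw [he] at h1 h8
    rw [sy p''.2 p'.1] at h1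
    rw [sy p''.2 p'.2] at h8
    rw [he] at h7
    tauto
  have a4 : p.2 ≠ p''.1 := by
    intro he
    rw [he] at h2 h9
    rw [sy p''.1 p'.2] at h2
    rw [sy p''.1 p'.2] at k9
    rw [he] at h7
    tauto
  have u1 := hu p''.1 (mem_univ _) a1.symm a4.symm m3.symm m5.symm
  have u2 := hu p''.2 (mem_univ _) a3.symm a2.symm m4.symm m6.symm
  refine ⟨⟨?_, ?_, a2, n1, m2, Iff.rfl, ?_, ?_, ?_⟩, ?_⟩
  · exact (u1.1.2 k1.symm).symm
  · intro h'
    exact k2 (u2.2.1 h'.symm).symm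
  · tauto
  · rw [sy p.1 p''.2, u2.1, sy p''.2 p'.1]; tauto
  · rw [u1.2]; tauto
  · intro v _ v1 v2 v3 v4
    by_cases w1 : v = p'.1
    · subst w1
      refine ⟨iff_of_true h1.symm k1, ?_⟩
      tauto
    by_cases w2 : v = p'.2
    · subst w2
      refine ⟨?_, iff_of_false (fun h => h2 h.symm) k2⟩
      rw [sy p'.2 p.1, sy p'.2 p''.1]; tauto
    have e1 := hu v (mem_univ _) v1 v2 w1 w2
    have e2 := ku v (mem_univ _) w1 w2 v3 v4
    exact ⟨e1.1.trans e2.1, e1.2.trans e2.2⟩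

/-- choosing a leg avoiding a small set -/
lemma avoid {A : Finset (V × V)} (h1 : ∀ a ∈ A, ∀ a' ∈ A, a ≠ a' → a.1 ≠ a'.1 ∧ a.2 ≠ a'.2)
    (X : Finset V) (hc : 2 * X.card < A.card) : ∃ a ∈ A, a.1 ∉ X ∧ a.2 ∉ X := by
  by_contra hcon
  push Not at hcon
  have hsub : A ⊆ A.filter (fun a => a.1 ∈ X) ∪ A.filter (fun a => a.2 ∈ X) := by
    intro a ha
    rw [mem_union, mem_filter, mem_filter]
    by_cases h : a.1 ∈ X
    · exact Or.inl ⟨ha, h⟩
    · exact Or.inr ⟨ha, hcon a ha h⟩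
  have e1 : (A.filter (fun a => a.1 ∈ X)).card ≤ X.card := by
    apply card_le_card_of_injOn Prod.fst
    · intro a ha; exact (mem_filter.1 (mem_coe.1 ha)).2
    · intro a ha b hb hab
      by_contra hne
      exact (h1 a (mem_filter.1 (mem_coe.1 ha)).1 b (mem_filter.1 (mem_coe.1 hb)).1 hne).1 hab
  have e2 : (A.filter (fun a => a.2 ∈ X)).card ≤ X.card := by
    apply card_le_card_of_injOn Prod.snd
    · intro a ha; exact (mem_filter.1 (mem_coe.1 ha)).2
    · intro a ha b hb hab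
      by_contra hne
      exact (h1 a (mem_filter.1 (mem_coe.1 ha)).1 b (mem_filter.1 (mem_coe.1 hb)).1 hne).2 hab
  have := (card_le_card hsub).trans (card_union_le _ _)
  omega

/-- legs with many twins -/
def Rich [Fintype V] (G : SimpleGraph V) (p : V × V) : Prop :=
  ∃ A : Finset (V × V), 7 ≤ A.card ∧ ∀ a ∈ A, TW G univ p a

lemma twin_dis [Fintype V] {p : V × V} {A : Finset (V × V)} (hA : ∀ a ∈ A, TW G univ p a) :
    ∀ a ∈ A, ∀ a' ∈ A, a ≠ a' → a.1 ≠ a'.1 ∧ a.2 ≠ a'.2 := by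
  intro a ha a' ha' hne
  have := ((hA a ha).symm.trans (hA a' ha') hne).ne
  exact ⟨this.2.2.1, this.2.2.2.2.2⟩

lemma Rich.twin [Fintype V] {p p' : V × V} (h : Rich G p) (ht : TW G univ p p') : Rich G p' := by
  obtain ⟨A, h1, h2⟩ := h
  have hpA : p ∉ A := fun h => (h2 p h).ne.2.2.1 rfl
  refine ⟨insert p (A.erase p'), ?_, ?_⟩
  · rw [card_insert_of_notMem (fun h => hpA (mem_of_mem_erase h))]
    have := pred_card_le_card_erase (s := A) (a := p')
    omega
  · intro a ha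
    rcases mem_insert.1 ha with rfl | ha
    · exact ht.symm
    · exact ht.symm.trans (h2 a (mem_of_mem_erase ha)) (ne_of_mem_erase ha).symm

/-- auxiliary choice of two legs -/
lemma choose_two [Fintype V] {p h : V × V} (hp : Rich G p) (hh : Rich G h) (x : V) (Y : V × V → Finset V)
    (hY : ∀ a, (Y a).card ≤ 3) : ∃ a b, TW G univ p a ∧ TW G univ h b ∧ a.1 ≠ x ∧ a.2 ≠ x ∧
      b.1 ∉ Y a ∧ b.2 ∉ Y a := by
  obtain ⟨A, hA, hA'⟩ := hp
  obtain ⟨B, hB, hB'⟩ := hh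
  obtain ⟨a, ha, ha1, ha2⟩ := avoid (twin_dis hA') {x} (by rw [card_singleton]; omega)
  obtain ⟨b, hb, hb1, hb2⟩ := avoid (twin_dis hB') (Y a) (by have := hY a; omega)
  rw [mem_singleton] at ha1 ha2
  exact ⟨a, b, hA' a ha, hB' b hb, ha1, ha2, hb1, hb2⟩

lemma overlap1 [Fintype V] {p h : V × V} (hp : Rich G p) (hh : Rich G h) (e : p.1 = h.1) :
    p = h := by
  by_contra hne
  have hne2 : p.2 ≠ h.2 := fun k => hne (Prod.ext e k)
  obtain ⟨a, b, ta, tb, a1, a2, b1, b2⟩ := choose_two hp hh h.2 (fun a => {p.2, a.1, a.2})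
    (fun a => card_le_three)
  simp only [mem_insert, mem_singleton, not_or] at b1 b2
  obtain ⟨p12, a12, pa11, pa12, pa21, pa22⟩ := ta.ne
  obtain ⟨h12, b12, hb11, hb12, hb21, hb22⟩ := tb.ne
  have u1 := (ta.2 b.2 (mem_univ _) (by rw [e]; exact hb12.symm) b2.1 b2.2.1 b2.2.2).1
  have u2 := (tb.2 a.1 (mem_univ _) (by rw [← e]; exact pa11.symm) a1 (Ne.symm b1.2.1)
    (Ne.symm b2.2.1)).2
  have u3 := (ta.2 h.2 (mem_univ _) (by rw [e]; exact h12.symm) hne2.symm (Ne.symm a1)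
    (Ne.symm a2)).1
  have h8 := tb.1.2.2.2.2.2.2.2.1
  rw [e] at u1 u3
  rw [G.adj_comm b.2 h.1, G.adj_comm b.2 a.1] at u1
  rw [G.adj_comm h.2 h.1, G.adj_comm h.2 a.1] at u3
  tauto

lemma overlap2 [Fintype V] {p h : V × V} (hp : Rich G p) (hh : Rich G h) (e : p.2 = h.2) :
    p = h := by
  by_contra hne
  have hne2 : p.1 ≠ h.1 := fun k => hne (Prod.ext k e)
  obtain ⟨a, b, ta, tb, a1, a2, b1, b2⟩ := choose_two hp hh h.1 (fun a => {p.1, a.1, a.2})
    (fun a => card_le_three)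
  simp only [mem_insert, mem_singleton, not_or] at b1 b2
  obtain ⟨p12, a12, pa11, pa12, pa21, pa22⟩ := ta.ne
  obtain ⟨h12, b12, hb11, hb12, hb21, hb22⟩ := tb.ne
  have u1 := (ta.2 b.1 (mem_univ _) b1.1 (by rw [e]; exact hb21.symm) b1.2.1 b1.2.2).2
  have u2 := (tb.2 a.2 (mem_univ _) a2 (by rw [← e]; exact pa22.symm) (Ne.symm b1.2.2)
    (Ne.symm b2.2.2)).1
  have u3 := (ta.2 h.1 (mem_univ _) hne2.symm (by rw [e]; exact h12) (Ne.symm a1)
    (Ne.symm a2)).2
  have h9 := tb.1.2.2.2.2.2.2.2.2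
  rw [e] at u1 u3
  rw [G.adj_comm b.1 a.2] at u1
  rw [G.adj_comm h.1 a.2] at u3
  tauto

lemma overlap3 [Fintype V] {p h : V × V} (hp : Rich G p) (hh : Rich G h) (e : p.1 = h.2) :
    False := by
  obtain ⟨a, b, ta, tb, a1, a2, b1, b2⟩ := choose_two hp hh h.1 (fun a => {p.2, a.1, a.2})
    (fun a => card_le_three)
  simp only [mem_insert, mem_singleton, not_or] at b1 b2
  obtain ⟨p12, a12, pa11, pa12, pa21, pa22⟩ := ta.ne
  obtain ⟨h12, b12, hb11, hb12, hb21, hb22⟩ := tb.ne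
  have u1 := (ta.2 b.2 (mem_univ _) (by rw [e]; exact hb22.symm) b2.1 b2.2.1 b2.2.2).1
  have u2 := (tb.2 a.1 (mem_univ _) a1 (by rw [← e]; exact pa11.symm) (Ne.symm b1.2.1)
    (Ne.symm b2.2.1)).2
  have k1 := tb.1.2.1
  have k2 := ta.1.1
  rw [e] at u1 k2
  rw [G.adj_comm b.2 h.2, G.adj_comm b.2 a.1] at u1
  rw [G.adj_comm a.1 h.2] at u2
  tauto

/-- rich legs sharing a vertex are equal -/
theorem overlap [Fintype V] {p h : V × V} (hp : Rich G p) (hh : Rich G h)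
    (e : p.1 = h.1 ∨ p.1 = h.2 ∨ p.2 = h.1 ∨ p.2 = h.2) : p = h := by
  rcases e with e | e | e | e
  · exact overlap1 hp hh e
  · exact (overlap3 hp hh e).elim
  · exact (overlap3 hh hp e.symm).elim
  · exact overlap2 hp hh e

/-- removing a leg with two further twins keeps primality -/
theorem prm_remove {R : Finset V} {p p1 p2 : V × V} (hP : PrmOn G R)
    (m1 : p1.1 ∈ R) (m2 : p1.2 ∈ R) (m3 : p2.1 ∈ R) (m4 : p2.2 ∈ R)
    (mp1 : p.1 ∈ R) (mp2 : p.2 ∈ R)
    (t1 : TW G R p p1) (t2 : TW G R p p2) (t12 : TW G R p1 p2) :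
    PrmOn G (R \ {p.1, p.2}) := by
  obtain ⟨n1, n2, n3, n4, n5, n6⟩ := t1.ne
  obtain ⟨-, k2, k3, k4, k5, k6⟩ := t2.ne
  obtain ⟨-, -, l3, l4, l5, l6⟩ := t12.ne
  intro N hN hMod
  by_contra hcon
  push Not at hcon
  obtain ⟨hN1, hN2⟩ := hcon
  have hNR : N ⊆ R := hN.trans sdiff_subset
  have hNp : p.1 ∉ N ∧ p.2 ∉ N := by
    constructor
    · intro h; have := (mem_sdiff.1 (hN h)).2; simp at this
    · intro h; have := (mem_sdiff.1 (hN h)).2; simp at this
  have memR1 : ∀ z, z ∈ R → z ≠ p.1 → z ≠ p.2 → z ∈ R \ {p.1, p.2} := by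
    intro z hz h1 h2
    rw [mem_sdiff, mem_insert, mem_singleton, not_or]
    exact ⟨hz, h1, h2⟩
  -- if `N` misses a twin leg
  have caseA : ∀ p' : V × V, TW G R p p' → p'.1 ∈ R → p'.2 ∈ R → p'.1 ∉ N → p'.2 ∉ N → False := by
    intro p' t mp1' mp2' h1 h2
    obtain ⟨-, -, j3, j4, j5, j6⟩ := t.ne
    have hNM : ∀ z ∈ R, z ∉ N → ∀ x ∈ N, ∀ y ∈ N, (G.Adj z x ↔ G.Adj z y) := by
      intro z hz hzN x hx y hy
      have hxp : ∀ w ∈ N, w ≠ p.1 ∧ w ≠ p.2 ∧ w ≠ p'.1 ∧ w ≠ p'.2 := by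
        intro w hw
        refine ⟨?_, ?_, ?_, ?_⟩ <;> rintro rfl
        · exact hNp.1 hw
        · exact hNp.2 hw
        · exact h1 hw
        · exact h2 hw
      obtain ⟨x1, x2, x3, x4⟩ := hxp x hx
      obtain ⟨y1, y2, y3, y4⟩ := hxp y hy
      have ux := t.2 x (hNR hx) x1 x2 x3 x4
      have uy := t.2 y (hNR hy) y1 y2 y3 y4
      by_cases z1 : z = p.1
      · subst z1
        have := hMod p'.1 (memR1 _ mp1' j3.symm j5.symm) h1 x hx y hy
        rw [G.adj_comm p.1 x, G.adj_comm p.1 y, ux.1, uy.1, G.adj_comm x, G.adj_comm y]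
        exact this
      by_cases z2 : z = p.2
      · subst z2
        have := hMod p'.2 (memR1 _ mp2' j4.symm j6.symm) h2 x hx y hy
        rw [G.adj_comm p.2 x, G.adj_comm p.2 y, ux.2, uy.2, G.adj_comm x, G.adj_comm y]
        exact this
      exact hMod z (memR1 z hz z1 z2) hzN x hx y hy
    rcases hP N hNR hNM with h | h
    · omega
    · rw [h] at hNp; exact hNp.1 mp1
  have hm1 : p1.1 ∈ N ∨ p1.2 ∈ N := by
    by_contra h
    push Not at h
    exact caseA p1 t1 m1 m2 h.1 h.2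
  have hm2 : p2.1 ∈ N ∨ p2.2 ∈ N := by
    by_contra h
    push Not at h
    exact caseA p2 t2 m3 m4 h.1 h.2
  -- distinguishing vertices belong to `N`
  have dist : ∀ z u w, z ∈ R → z ≠ p.1 → z ≠ p.2 → u ∈ N → w ∈ N →
      ¬ (G.Adj z u ↔ G.Adj z w) → z ∈ N := by
    intro z u w hz h1 h2 hu hw hd
    by_contra hzN
    exact hd (hMod z (memR1 z hz h1 h2) hzN u hu w hw)
  obtain ⟨⟨h1, h2, -, -, -, -, h7, h8, h9⟩, -⟩ := t12
  have dc1 := fun u w => dist p1.1 u w m1 n3.symm n5.symm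
  have ds1 := fun u w => dist p1.2 u w m2 n4.symm n6.symm
  have dc2 := fun u w => dist p2.1 u w m3 k3.symm k5.symm
  have ds2 := fun u w => dist p2.2 u w m4 k4.symm k6.symm
  have sy := G.adj_comm
  have hall : p1.1 ∈ N ∧ p1.2 ∈ N := by
    rcases hm1 with a | a <;> rcases hm2 with b | b
    · refine ⟨a, ds1 _ _ a b ?_⟩
      rw [sy p1.2 p1.1, sy p1.2 p2.1]; tauto
    · -- c1, s2
      by_cases ht : G.Adj p1.1 p1.2
      · refine ⟨a, ds1 _ _ a b ?_⟩
        rw [sy p1.2 p1.1]; tauto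
      · have c2 := dc2 _ _ a b (by rw [sy p2.1 p1.1]; tauto)
        refine ⟨a, ds1 _ _ c2 b ?_⟩
        rw [sy p1.2 p2.1]; tauto
    · -- s1, c2
      by_cases ht : G.Adj p1.1 p1.2
      · have s2 := ds2 _ _ a b (by rw [sy p2.2 p1.2, sy p2.2 p2.1]; tauto)
        refine ⟨dc1 _ _ a s2 ?_, a⟩
        tauto
      · refine ⟨dc1 _ _ a b ?_, a⟩
        tauto
    · refine ⟨dc1 _ _ a b ?_, a⟩
      tauto
  -- the module with the leg added
  have hbig := hP (N ∪ {p.1, p.2}) (union_subset hNR (by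
    intro z hz
    simp only [mem_insert, mem_singleton] at hz
    rcases hz with rfl | rfl <;> assumption)) (by
    intro z hz hzN x hx y hy
    simp only [mem_union, mem_insert, mem_singleton, not_or] at hzN
    obtain ⟨hzN, z1, z2⟩ := hzN
    have z3 : z ≠ p1.1 := fun h => hzN (h ▸ hall.1)
    have z4 : z ≠ p1.2 := fun h => hzN (h ▸ hall.2)
    have u := t1.2 z hz z1 z2 z3 z4
    have hz' := memR1 z hz z1 z2
    have key : ∀ w ∈ N ∪ {p.1, p.2}, (G.Adj z w ↔ G.Adj z p1.1) := by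
      intro w hw
      simp only [mem_union, mem_insert, mem_singleton] at hw
      rcases hw with hw | rfl | rfl
      · exact hMod z hz' hzN w hw _ hall.1
      · exact u.1
      · rw [u.2]; exact hMod z hz' hzN _ hall.2 _ hall.1
    rw [key x hx, key y hy])
  rcases hbig with h | h
  · have := card_le_card (subset_union_left (s₁ := N) (s₂ := {p.1, p.2}))
    omega
  · apply hN2
    rw [← h]
    ext z
    simp only [mem_sdiff, mem_union, mem_insert, mem_singleton]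
    constructor
    · intro hz
      refine ⟨Or.inl hz, ?_⟩
      rintro (rfl | rfl)
      · exact hNp.1 hz
      · exact hNp.2 hz
    · rintro ⟨h1 | h1, h2⟩
      · exact h1
      · exact absurd h1 h2

/-- the twins of `p` inside `R` -/
noncomputable def KT [Fintype V] (G : SimpleGraph V) (R : Finset V) (p : V × V) : Finset (V × V) :=
  univ.filter (fun a => TW G univ p a ∧ a.1 ∈ R ∧ a.2 ∈ R)

lemma mem_KT [Fintype V] {R : Finset V} {p a : V × V} :
    a ∈ KT G R p ↔ TW G univ p a ∧ a.1 ∈ R ∧ a.2 ∈ R := by simp [KT]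

lemma rich_of_KT [Fintype V] {R : Finset V} {p : V × V} (h : 7 ≤ (KT G R p).card) : Rich G p :=
  ⟨KT G R p, h, fun a ha => (mem_KT.1 ha).1⟩

/-- good reductions -/
def Good [Fintype V] (G : SimpleGraph V) (R : Finset V) (EX : Finset (V × V)) : Prop :=
  PrmOn G R ∧ lv EX = univ \ R ∧ ∀ e ∈ EX, 9 ≤ (KT G R e).card

theorem exists_good [Fintype V] (hP : Prm G) : ∃ R EX, Good G R EX ∧
    ∀ p : V × V, p.1 ∈ R → p.2 ∈ R → (KT G R p).card ≤ 9 := by
  obtain ⟨R, hR0, hmin⟩ := exists_min_image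
    (univ.filter (fun R : Finset V => ∃ EX, Good G R EX)) (fun R => R.card)
    ⟨univ, mem_filter.2 ⟨mem_univ _, ∅, by
      refine ⟨?_, by simp [lv], by simp⟩
      intro M _ hM
      exact hP M (fun z hz => hM z (mem_univ z) hz)⟩⟩
  obtain ⟨-, EX, hG⟩ := mem_filter.1 hR0
  refine ⟨R, EX, hG, ?_⟩
  intro p mp1 mp2
  by_contra hcon
  push Not at hcon
  obtain ⟨hPR, hlv, hex⟩ := hG
  -- disjointness of twins of `p` from `p`
  have hdis : ∀ a, TW G univ p a → a.1 ≠ p.1 ∧ a.1 ≠ p.2 ∧ a.2 ≠ p.1 ∧ a.2 ≠ p.2 := by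
    intro a ha
    obtain ⟨-, -, n3, n4, n5, n6⟩ := ha.ne
    exact ⟨n3.symm, n5.symm, n4.symm, n6.symm⟩
  have hnew : Good G (R \ {p.1, p.2}) (insert p EX) := by
    refine ⟨?_, ?_, ?_⟩
    · obtain ⟨p1, p2, h1, h2, hne⟩ := one_lt_card_iff.1 (by omega : 1 < (KT G R p).card)
      obtain ⟨a1, a2, a3⟩ := mem_KT.1 h1
      obtain ⟨b1, b2, b3⟩ := mem_KT.1 h2
      exact prm_remove hPR a2 a3 b2 b3 mp1 mp2 (a1.mono (subset_univ _)) (b1.mono (subset_univ _))
        ((a1.symm.trans b1 hne).mono (subset_univ _))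
    · ext z
      have := congrArg (fun s => z ∈ s) hlv
      simp only [mem_sdiff, mem_univ, true_and, eq_iff_iff] at this
      have h3 : z ∈ lv (insert p EX) ↔ (z = p.1 ∨ z = p.2) ∨ z ∈ lv EX := by
        rw [mem_lv, mem_lv]
        constructor
        · rintro ⟨a, ha, hz⟩
          rcases mem_insert.1 ha with rfl | ha
          · exact Or.inl hz
          · exact Or.inr ⟨a, ha, hz⟩
        · rintro (hz | ⟨a, ha, hz⟩)
          · exact ⟨p, mem_insert_self _ _, hz⟩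
          · exact ⟨a, mem_insert_of_mem ha, hz⟩
      rw [h3, this]
      simp only [mem_sdiff, mem_univ, true_and, mem_insert, mem_singleton, not_and, not_not]
      tauto
    · intro e he
      rcases mem_insert.1 he with rfl | he
      · refine le_trans (by omega) (card_le_card (s := KT G R e) ?_)
        intro a ha
        obtain ⟨a1, a2, a3⟩ := mem_KT.1 ha
        obtain ⟨d1, d2, d3, d4⟩ := hdis a a1
        refine mem_KT.2 ⟨a1, ?_, ?_⟩
        · simp only [mem_sdiff, mem_insert, mem_singleton, not_or]; exact ⟨a2, d1, d2⟩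
        · simp only [mem_sdiff, mem_insert, mem_singleton, not_or]; exact ⟨a3, d3, d4⟩
      · have heR : e.1 ∉ R := by
          have : e.1 ∈ lv EX := mem_lv.2 ⟨e, he, Or.inl rfl⟩
          rw [hlv] at this
          exact (mem_sdiff.1 this).2
        by_cases ht : TW G univ e p
        · refine le_trans (by omega) (card_le_card (s := KT G R p) ?_)
          intro a ha
          obtain ⟨a1, a2, a3⟩ := mem_KT.1 ha
          obtain ⟨d1, d2, d3, d4⟩ := hdis a a1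
          have hne : e ≠ a := by rintro rfl; exact heR a2
          refine mem_KT.2 ⟨ht.trans a1 hne, ?_, ?_⟩
          · simp only [mem_sdiff, mem_insert, mem_singleton, not_or]; exact ⟨a2, d1, d2⟩
          · simp only [mem_sdiff, mem_insert, mem_singleton, not_or]; exact ⟨a3, d3, d4⟩
        · refine le_trans (hex e he) (card_le_card ?_)
          intro a ha
          obtain ⟨a1, a2, a3⟩ := mem_KT.1 ha
          have ra : Rich G a := (rich_of_KT (R := R) (by have := hex e he; omega)).twin a1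
          have rp : Rich G p := rich_of_KT (by omega : 7 ≤ (KT G R p).card)
          have hno : ¬ (a.1 = p.1 ∨ a.1 = p.2 ∨ a.2 = p.1 ∨ a.2 = p.2) := by
            intro h
            have := overlap ra rp h
            subst this
            exact ht a1
          push Not at hno
          obtain ⟨d1, d2, d3, d4⟩ := hno
          refine mem_KT.2 ⟨a1, ?_, ?_⟩
          · simp only [mem_sdiff, mem_insert, mem_singleton, not_or]; exact ⟨a2, d1, d2⟩
          · simp only [mem_sdiff, mem_insert, mem_singleton, not_or]; exact ⟨a3, d3, d4⟩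
  have h1 := hmin (R \ {p.1, p.2}) (mem_filter.2 ⟨mem_univ _, _, hnew⟩)
  have h2 : (R \ {p.1, p.2}).card < R.card := by
    apply card_lt_card
    refine ⟨sdiff_subset, fun h => ?_⟩
    have := (mem_sdiff.1 (h mp1)).2
    simp at this
  omega

/-- twins of the reduction are twins of the graph -/
theorem tw_lift [Fintype V] {R : Finset V} {EX : Finset (V × V)} (hG : Good G R EX) {p p' : V × V}
    (m1 : p.1 ∈ R) (m2 : p.2 ∈ R) (m3 : p'.1 ∈ R) (m4 : p'.2 ∈ R) (h : TW G R p p') :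
    TW G univ p p' := by
  obtain ⟨hPR, hlv, hex⟩ := hG
  refine ⟨h.1, ?_⟩
  intro v _ v1 v2 v3 v4
  by_cases hv : v ∈ R
  · exact h.2 v hv v1 v2 v3 v4
  · have : v ∈ lv EX := by rw [hlv]; exact mem_sdiff.2 ⟨mem_univ _, hv⟩
    obtain ⟨e, he, hve⟩ := mem_lv.1 this
    have heR : e.1 ∉ R ∧ e.2 ∉ R := by
      constructor
      · have : e.1 ∈ lv EX := mem_lv.2 ⟨e, he, Or.inl rfl⟩
        rw [hlv] at this; exact (mem_sdiff.1 this).2
      · have : e.2 ∈ lv EX := mem_lv.2 ⟨e, he, Or.inr rfl⟩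
        rw [hlv] at this; exact (mem_sdiff.1 this).2
    obtain ⟨a, ha, a1, a2⟩ := avoid (twin_dis (fun a ha => (mem_KT.1 ha).1)) {p.1, p.2, p'.1, p'.2}
      (A := KT G R e) (by
        have := hex e he
        have : ({p.1, p.2, p'.1, p'.2} : Finset V).card ≤ 4 := card_le_four
        omega)
    obtain ⟨ta, aR1, aR2⟩ := mem_KT.1 ha
    simp only [mem_insert, mem_singleton, not_or] at a1 a2
    have key : ∀ x ∈ R, x ≠ a.1 → x ≠ a.2 →
        (G.Adj e.1 x ↔ G.Adj a.1 x) ∧ (G.Adj e.2 x ↔ G.Adj a.2 x) := by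
      intro x hx h1 h2
      have := ta.2 x (mem_univ _) (by rintro rfl; exact heR.1 hx) (by rintro rfl; exact heR.2 hx)
        h1 h2
      rw [G.adj_comm e.1 x, G.adj_comm a.1 x, G.adj_comm e.2 x, G.adj_comm a.2 x]
      exact this
    have k1 := key p.1 m1 (Ne.symm a1.1) (Ne.symm a2.1)
    have k2 := key p.2 m2 (Ne.symm a1.2.1) (Ne.symm a2.2.1)
    have k3 := key p'.1 m3 (Ne.symm a1.2.2.1) (Ne.symm a2.2.2.1)
    have k4 := key p'.2 m4 (Ne.symm a1.2.2.2) (Ne.symm a2.2.2.2)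
    have u1 := h.2 a.1 aR1 a1.1 a1.2.1 a1.2.2.1 a1.2.2.2
    have u2 := h.2 a.2 aR2 a2.1 a2.2.1 a2.2.2.1 a2.2.2.2
    rcases hve with rfl | rfl
    · rw [k1.1, k2.1, k3.1, k4.1]; exact u1
    · rw [k1.2, k2.2, k3.2, k4.2]; exact u2

end Pool.Agent.H19
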