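import Pool.Agent.H19.CW.Sparse

/-! The main bound, with a hypothesis on classes. -/

namespace Pool.Agent.H19

open Finset Classical

lemma QG.compl {V : Type} {G : SimpleGraph V} {q : ℕ} (h : QG G q) : QG Gᶜ q := by
  intro S hS
  rw [pn_compl]; exact h S hS

theorem core (C : ℕ) : ∃ K : ℕ, ∀ (q : ℕ) (V : Type) [Fintype V] (G : SimpleGraph V), 8 ≤ q →
    Prm G → QG G q → (univ : Finset V).Nonempty →
    (q + 1 ≤ Fintype.card V → ∀ t, (D3 G t).card ≤ C) → TR G (K + q) univ univ := by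
  obtain ⟨K, hK⟩ := tr_att C
  refine ⟨K, ?_⟩
  intro q V _ G hq hP hQ hn hC
  by_cases hc : q + 1 ≤ Fintype.card V
  · by_cases hT : Tyc G
    · exact (tr_sparse hP hT hn).mono (by omega)
    · unfold Tyc at hT
      push Not at hT
      obtain ⟨a, b, c, d, m, hp, hm, hT⟩ := hT
      exact (hK q V G hq hP hQ hc (hC hc) a b c d m hp hm hT).mono (by omega)
  · exact tr_card hn (by rw [card_univ]; omega)

lemma d3_nine {V : Type} [Fintype V] {G : SimpleGraph V} {q : ℕ} (hq : 9 ≤ q) (hP : Prm G)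
    (hQ : QG G q) (hc : q + 1 ≤ Fintype.card V) (t : Finset V) : (D3 G t).card ≤ 114 := by
  have h1 := class_le9 hP (lc_of_prime hP (by omega) hQ hc)
    (fun T hT hcT => lc9_of_prime hP hq hQ hc hT hcT)
  have h2 := class_le9 hP.compl (lc_of_prime hP.compl (by omega) hQ.compl hc)
    (fun T hT hcT => lc9_of_prime hP.compl hq hQ.compl hc hT hcT)
  exact (d3_le h1 h2 t).trans (by norm_num)

theorem prime_nine (q : ℕ) (hq : 9 ≤ q) : ∃ K : ℕ, ∀ (V : Type) [Fintype V] (G : SimpleGraph V),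
    Prm G → QG G q → (univ : Finset V).Nonempty → TR G K univ univ := by
  obtain ⟨K, hK⟩ := core 114
  exact ⟨K + q, fun V _ G hP hQ hn => hK q V G (by omega) hP hQ hn
    (fun hc t => d3_nine hq hP hQ hc t)⟩

lemma isP4_map {V W : Type} {G : SimpleGraph V} {H : SimpleGraph W} {f : W → V}
    (hf : Function.Injective f) (hadj : ∀ x y, H.Adj x y ↔ G.Adj (f x) (f y)) {Q : Finset W}
    (h : IsP4 H Q) : IsP4 G (Q.image f) := by
  obtain ⟨a, b, c, d, hp, rfl⟩ := h
  obtain ⟨h1, h2, h3, h4, h5, h6, n1, n2, n3⟩ := hp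
  rw [hadj] at h1 h2 h3 h4 h5 h6
  refine ⟨f a, f b, f c, f d, ⟨h1, h2, h3, h4, h5, h6, hf.ne n1, hf.ne n2, hf.ne n3⟩, ?_⟩
  simp [image_insert]

lemma pn_map {V W : Type} {G : SimpleGraph V} {H : SimpleGraph W} {f : W → V}
    (hf : Function.Injective f) (hadj : ∀ x y, H.Adj x y ↔ G.Adj (f x) (f y)) (S : Finset W) :
    pn H S ≤ pn G (S.image f) := by
  apply card_le_card_of_injOn (fun Q => Q.image f)
  · intro Q hQ
    rw [mem_coe, mem_ps] at hQ ⊢
    exact ⟨image_subset_image hQ.1, isP4_map hf hadj hQ.2⟩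
  · intro Q _ Q' _ h
    exact image_injective hf h

lemma qg_map {V W : Type} {G : SimpleGraph V} {H : SimpleGraph W} {f : W → V}
    (hf : Function.Injective f) (hadj : ∀ x y, H.Adj x y ↔ G.Adj (f x) (f y)) {q : ℕ}
    (h : QG G q) : QG H q := by
  intro S hS
  exact (pn_map hf hadj S).trans (h _ (card_image_le.trans hS))

lemma qg_sg {V : Type} {G : SimpleGraph V} {R : Finset V} {q : ℕ} (h : QG G q) : QG (sg G R) q :=
  qg_map Subtype.val_injective (fun _ _ => sg_adj) h

/-- from prime graphs to all graphs -/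
theorem all_of_prime {q K : ℕ} (h : ∀ (V : Type) [Fintype V] (G : SimpleGraph V),
    Prm G → QG G q → (univ : Finset V).Nonempty → TR G K univ univ) :
    ∀ (V : Type) [Fintype V] (G : SimpleGraph V), QG G q → (univ : Finset V).Nonempty →
      TR G K univ univ := by
  intro V _ G hQ hn
  refine tr_of_prime (fun R hR hp => ?_) _ univ rfl hn
  apply tr_subtype
  refine h _ _ (prm_subtype hp) (qg_sg hQ) ?_
  obtain ⟨x, hx⟩ := hR
  exact ⟨⟨x, hx⟩, mem_univ _⟩

end Pool.Agent.H19
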