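import Pool.Agent.H19.CW.Clu1
import Pool.Agent.H19.CW.Core

/-! Large spiders contain many twin legs; classes of the reduction. -/

namespace Pool.Agent.H19

open Finset Classical

variable {V : Type} {G : SimpleGraph V}

/-- vertices of two legs -/
noncomputable def X2 (p p' : V × V) : Finset V := {p.1, p.2, p'.1, p'.2}

lemma sp_p4 {τ : Prop} {p p' : V × V} (h : Sp2 G τ p p') :
    P4 G p.2 p.1 p'.1 p'.2 ∨ P4 G p'.2 p.1 p'.1 p.2 := by
  have n1 := h.ne12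
  have n2 := h.symm.ne12
  obtain ⟨k1, k2, k3, k4, k5, k6, k7, k8, k9⟩ := h
  by_cases ht : τ
  · exact Or.inl ⟨(k6.2 ht).symm, k1, k7.2 ht,
      fun h => (k9.1 h.symm) ht, k2, fun h => (k8.1 h) ht, n2.symm, k3, n1⟩
  · exact Or.inr ⟨(k8.2 ht).symm, k1, k9.2 ht,
      fun h => ht (k7.1 h.symm), fun h => k2 h.symm, fun h => ht (k6.1 h), k5.symm, k3.symm, k4⟩

lemma X2_eq1 (p p' : V × V) : X2 p p' = {p.2, p.1, p'.1, p'.2} := by
  unfold X2; rw [insert_comm]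

lemma X2_eq2 (p p' : V × V) : X2 p p' = {p'.2, p.1, p'.1, p.2} := by
  unfold X2
  ext x; simp only [mem_insert, mem_singleton]
  constructor
  · rintro (h | h | h | h)
    · exact Or.inr (Or.inl h)
    · exact Or.inr (Or.inr (Or.inr h))
    · exact Or.inr (Or.inr (Or.inl h))
    · exact Or.inl h
  · rintro (h | h | h | h)
    · exact Or.inr (Or.inr (Or.inr h))
    · exact Or.inl h
    · exact Or.inr (Or.inr (Or.inl h))
    · exact Or.inr (Or.inl h)

lemma sp_isP4 {τ : Prop} {p p' : V × V} (h : Sp2 G τ p p') : IsP4 G (X2 p p') := by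
  rcases sp_p4 h with h | h
  · rw [X2_eq1]; exact h.isP4
  · rw [X2_eq2]; exact h.isP4

/-- same adjacencies to two legs -/
def U (G : SimpleGraph V) (v : V) (p p' : V × V) : Prop :=
  (G.Adj v p.1 ↔ G.Adj v p'.1) ∧ (G.Adj v p.2 ↔ G.Adj v p'.2)

lemma U.symm {v : V} {p p' : V × V} (h : U G v p p') : U G v p' p := ⟨h.1.symm, h.2.symm⟩

lemma U.trans {v : V} {p p' p'' : V × V} (h : U G v p p') (k : U G v p' p'') : U G v p p'' :=
  ⟨h.1.trans k.1, h.2.trans k.2⟩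

lemma U.refl (v : V) (p : V × V) : U G v p p := ⟨Iff.rfl, Iff.rfl⟩

lemma typ_u {v : V} {a b c d : V} (h : Typ (G.Adj v a) (G.Adj v b) (G.Adj v c) (G.Adj v d)) :
    (G.Adj v a ↔ G.Adj v d) ∧ (G.Adj v b ↔ G.Adj v c) := by
  rcases h with ⟨h1, h2, h3, h4⟩ | ⟨h1, h2, h3, h4⟩ | ⟨h1, h2, h3, h4⟩
  · exact ⟨iff_of_false h1 h4, iff_of_false h2 h3⟩
  · exact ⟨iff_of_true h1 h4, iff_of_true h2 h3⟩
  · exact ⟨iff_of_false h1 h4, iff_of_true h2 h3⟩

lemma sp_att {τ : Prop} {p p' : V × V} (h : Sp2 G τ p p') {v : V} (hv : v ∉ X2 p p')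
    (hne : ¬ U G v p p') : Att G v (X2 p p') := by
  by_contra hn
  apply hne
  rcases sp_p4 h with h | h
  · rw [X2_eq1] at hv hn
    have := typ_u (typ_of_not_att h hv (Subset.refl _) hn)
    exact ⟨this.2, this.1⟩
  · rw [X2_eq2] at hv hn
    have := typ_u (typ_of_not_att h hv (Subset.refl _) hn)
    exact ⟨this.2, this.1.symm⟩

lemma mem_X2 {p p' : V × V} {x : V} : x ∈ X2 p p' ↔ x = p.1 ∨ x = p.2 ∨ x = p'.1 ∨ x = p'.2 := by
  simp [X2]

/-- two different pairs of legs give different paths -/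
lemma diff_paths {x : V} {p a b : V × V} {Q Q' : Finset V} (hQ : IsP4 G Q)
    (hx : x ∈ Q) (h1 : Q.erase x ⊆ X2 p a) (h2 : Q'.erase x ⊆ X2 p b)
    (hd : a.1 ∉ X2 p b ∧ a.2 ∉ X2 p b) : Q ≠ Q' := by
  rintro rfl
  have hsub : Q.erase x ⊆ {p.1, p.2} := by
    intro y hy
    have e1 := mem_X2.1 (h1 hy)
    have e2 := h2 hy
    rw [mem_insert, mem_singleton]
    rcases e1 with h | h | h | h
    · exact Or.inl h
    · exact Or.inr h
    · rw [h] at e2; exact absurd e2 hd.1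
    · rw [h] at e2; exact absurd e2 hd.2
  have h3 := card_le_card hsub
  rw [card_erase_of_mem hx, hQ.card] at h3
  have : ({p.1, p.2} : Finset V).card ≤ 2 := card_le_two
  omega

lemma not_mem_X2 {τ : Prop} {p a b : V × V} (h1 : Sp2 G τ a p) (h2 : Sp2 G τ a b) :
    a.1 ∉ X2 p b ∧ a.2 ∉ X2 p b := by
  rw [mem_X2, mem_X2]
  push Not
  exact ⟨⟨h1.1.ne, h1.ne12, h2.1.ne, h2.ne12⟩,
    ⟨h1.symm.ne12.symm, h1.2.2.1, h2.symm.ne12.symm, h2.2.2.1⟩⟩

lemma X2_comm (p p' : V × V) : X2 p p' = X2 p' p := by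
  ext x; rw [mem_X2, mem_X2]
  constructor
  · rintro (h | h | h | h)
    · exact Or.inr (Or.inr (Or.inl h))
    · exact Or.inr (Or.inr (Or.inr h))
    · exact Or.inl h
    · exact Or.inr (Or.inl h)
  · rintro (h | h | h | h)
    · exact Or.inr (Or.inr (Or.inl h))
    · exact Or.inr (Or.inr (Or.inr h))
    · exact Or.inl h
    · exact Or.inr (Or.inl h)

/-- two paths through a nonuniform vertex -/
lemma two_paths {τ : Prop} {p1 p2 p3 : V × V} (h12 : Sp2 G τ p1 p2) (h13 : Sp2 G τ p1 p3)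
    (h23 : Sp2 G τ p2 p3) {x : V} {T : Finset V} (hT1 : X2 p1 p2 ⊆ T) (hT2 : X2 p1 p3 ⊆ T)
    (hT3 : X2 p2 p3 ⊆ T) (hx : x ∉ T) (hn : ¬ (U G x p1 p2 ∧ U G x p1 p3)) :
    ∃ Q Q', Q ≠ Q' ∧ IsP4 G Q ∧ IsP4 G Q' ∧ x ∈ Q ∧ x ∈ Q' ∧ Q ⊆ insert x T ∧ Q' ⊆ insert x T := by
  have sub : ∀ {Q S : Finset V}, S ⊆ T → Q.erase x ⊆ S → Q ⊆ insert x T := by
    intro Q S hS hQ y hy
    by_cases hyx : y = x
    · rw [hyx]; exact mem_insert_self _ _
    · exact mem_insert_of_mem (hS (hQ (mem_erase.2 ⟨hyx, hy⟩)))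
  have main : ∀ p a b : V × V, Sp2 G τ p a → Sp2 G τ p b → Sp2 G τ a b → X2 p a ⊆ T →
      X2 p b ⊆ T → ¬ U G x p a → ¬ U G x p b →
      ∃ Q Q', Q ≠ Q' ∧ IsP4 G Q ∧ IsP4 G Q' ∧ x ∈ Q ∧ x ∈ Q' ∧ Q ⊆ insert x T ∧
        Q' ⊆ insert x T := by
    intro p a b hpa hpb hab ha hb u1 u2
    obtain ⟨Q, q1, q2, q3⟩ := sp_att hpa (fun h => hx (ha h)) u1
    obtain ⟨Q', r1, r2, r3⟩ := sp_att hpb (fun h => hx (hb h)) u2
    exact ⟨Q, Q', diff_paths q1 q2 q3 r3 (not_mem_X2 hpa.symm hab), q1, r1, q2, r2,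
      sub ha q3, sub hb r3⟩
  by_cases u12 : U G x p1 p2
  · have u13 : ¬ U G x p1 p3 := fun h => hn ⟨u12, h⟩
    have u23 : ¬ U G x p2 p3 := fun h => u13 (u12.trans h)
    exact main p3 p1 p2 h13.symm h23.symm h12 (by rw [X2_comm]; exact hT2)
      (by rw [X2_comm]; exact hT3) (fun h => u13 h.symm) (fun h => u23 h.symm)
  · by_cases u13 : U G x p1 p3
    · have u23 : ¬ U G x p2 p3 := fun h => u12 (u13.trans h.symm)
      exact main p2 p1 p3 h12.symm h23 h13 (by rw [X2_comm]; exact hT1) hT3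
        (fun h => u12 h.symm) u23
    · exact main p1 p2 p3 h12 h13 h23 hT1 hT2 u12 u13

lemma pn_add2 {T : Finset V} {x : V} (hx : x ∉ T) {Q Q' : Finset V} (hne : Q ≠ Q')
    (h1 : IsP4 G Q) (h2 : IsP4 G Q') (h3 : x ∈ Q) (h4 : x ∈ Q') (h5 : Q ⊆ insert x T)
    (h6 : Q' ⊆ insert x T) : pn G T + 2 ≤ pn G (insert x T) := by
  unfold pn
  rw [← card_pair hne, ← card_union_of_disjoint]
  · apply card_le_card
    intro A hA
    rcases mem_union.1 hA with hA | hA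
    · rw [mem_ps] at hA ⊢
      exact ⟨hA.1.trans (subset_insert _ _), hA.2⟩
    · rw [mem_insert, mem_singleton] at hA
      rcases hA with rfl | rfl
      · exact mem_ps.2 ⟨h5, h1⟩
      · exact mem_ps.2 ⟨h6, h2⟩
  · rw [disjoint_left]
    intro A hA hA'
    rw [mem_ps] at hA
    rw [mem_insert, mem_singleton] at hA'
    rcases hA' with rfl | rfl
    · exact hx (hA.1 h3)
    · exact hx (hA.1 h4)

/-- at most one outside vertex is nonuniform -/
theorem one_exc (hQ : QG G 8) {τ : Prop} {F : Finset (V × V)} (hF : Spider G τ F)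
    (h3 : 3 ≤ F.card) {x y : V} (hx : x ∉ lv F) (hy : y ∉ lv F) (hxy : x ≠ y)
    (nx : ∃ p ∈ F, ∃ p' ∈ F, ¬ U G x p p') (ny : ∃ p ∈ F, ∃ p' ∈ F, ¬ U G y p p') : False := by
  obtain ⟨p1, p2, p3, m1, m2, m3, n12, n13, n23, ux, uy⟩ : ∃ p1 p2 p3, p1 ∈ F ∧ p2 ∈ F ∧ p3 ∈ F ∧
      p1 ≠ p2 ∧ p1 ≠ p3 ∧ p2 ≠ p3 ∧ ¬ (U G x p1 p2 ∧ U G x p1 p3) ∧
        ¬ (U G y p1 p2 ∧ U G y p1 p3) := by
    obtain ⟨p, hp, p', hp', hu⟩ := nx
    have hne : p ≠ p' := by rintro rfl; exact hu (U.refl _ _)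
    by_cases hu' : U G y p p'
    · obtain ⟨r, hr, r', hr', hur⟩ := ny
      obtain ⟨s, hs, hsu⟩ : ∃ s ∈ F, ¬ U G y p s := by
        by_contra hcon
        push Not at hcon
        exact hur ((hcon r hr).symm.trans (hcon r' hr'))
      refine ⟨p, p', s, hp, hp', hs, hne, ?_, ?_, fun h => hu h.1, fun h => hsu h.2⟩
      · rintro rfl; exact hsu (U.refl _ _)
      · rintro rfl; exact hsu hu'
    · have : ((F.erase p).erase p').Nonempty := by
        rw [← card_pos]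
        have e1 := pred_card_le_card_erase (s := F) (a := p)
        have e2 := pred_card_le_card_erase (s := F.erase p) (a := p')
        omega
      obtain ⟨s, hs⟩ := this
      obtain ⟨s1, s2⟩ := mem_erase.1 hs
      obtain ⟨s3, s4⟩ := mem_erase.1 s2
      exact ⟨p, p', s, hp, hp', s4, hne, s3.symm, s1.symm, fun h => hu h.1, fun h => hu' h.1⟩
  have h12 := hF p1 m1 p2 m2 n12
  have h13 := hF p1 m1 p3 m3 n13
  have h23 := hF p2 m2 p3 m3 n23
  let T : Finset V := {p1.1, p1.2, p2.1, p2.2, p3.1, p3.2}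
  have memT : ∀ z, z ∈ T ↔ z = p1.1 ∨ z = p1.2 ∨ z = p2.1 ∨ z = p2.2 ∨ z = p3.1 ∨ z = p3.2 := by
    intro z; simp [T]
  have hTF : T ⊆ lv F := by
    intro z hz
    rw [mem_lv]
    rcases (memT z).1 hz with h | h | h | h | h | h
    · exact ⟨p1, m1, Or.inl h⟩
    · exact ⟨p1, m1, Or.inr h⟩
    · exact ⟨p2, m2, Or.inl h⟩
    · exact ⟨p2, m2, Or.inr h⟩
    · exact ⟨p3, m3, Or.inl h⟩
    · exact ⟨p3, m3, Or.inr h⟩
  have hT1 : X2 p1 p2 ⊆ T := by
    intro z hz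
    rw [memT]
    rcases mem_X2.1 hz with h | h | h | h
    · exact Or.inl h
    · exact Or.inr (Or.inl h)
    · exact Or.inr (Or.inr (Or.inl h))
    · exact Or.inr (Or.inr (Or.inr (Or.inl h)))
  have hT2 : X2 p1 p3 ⊆ T := by
    intro z hz
    rw [memT]
    rcases mem_X2.1 hz with h | h | h | h
    · exact Or.inl h
    · exact Or.inr (Or.inl h)
    · exact Or.inr (Or.inr (Or.inr (Or.inr (Or.inl h))))
    · exact Or.inr (Or.inr (Or.inr (Or.inr (Or.inr h))))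
  have hT3 : X2 p2 p3 ⊆ T := by
    intro z hz
    rw [memT]
    rcases mem_X2.1 hz with h | h | h | h
    · exact Or.inr (Or.inr (Or.inl h))
    · exact Or.inr (Or.inr (Or.inr (Or.inl h)))
    · exact Or.inr (Or.inr (Or.inr (Or.inr (Or.inl h))))
    · exact Or.inr (Or.inr (Or.inr (Or.inr (Or.inr h))))
  have hxT : x ∉ T := fun h => hx (hTF h)
  have hyT : y ∉ T := fun h => hy (hTF h)
  obtain ⟨Q, Q', a1, a2, a3, a4, a5, a6, a7⟩ := two_paths h12 h13 h23 hT1 hT2 hT3 hxT ux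
  obtain ⟨S, S', b1, b2, b3, b4, b5, b6, b7⟩ := two_paths h12 h13 h23 hT1 hT2 hT3 hyT uy
  have e1 := pn_add2 hxT a1 a2 a3 a4 a5 a6 a7
  have e2 := pn_add2 (T := insert x T) (x := y) (by
    rw [mem_insert, not_or]; exact ⟨hxy.symm, hyT⟩) b1 b2 b3 b4 b5
    (b6.trans (insert_subset_insert _ (subset_insert _ _)))
    (b7.trans (insert_subset_insert _ (subset_insert _ _)))
  have e3 : 3 ≤ pn G T := by
    have c1 : X2 p1 p2 ≠ X2 p1 p3 := by
      intro h
      have : p2.1 ∈ X2 p1 p3 := by rw [← h, mem_X2]; exact Or.inr (Or.inr (Or.inl rfl))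
      exact (not_mem_X2 h12.symm h23).1 this
    have c2 : X2 p1 p2 ≠ X2 p2 p3 := by
      intro h
      have : p1.1 ∈ X2 p2 p3 := by rw [← h, mem_X2]; exact Or.inl rfl
      exact (not_mem_X2 h12 h13).1 this
    have c3 : X2 p1 p3 ≠ X2 p2 p3 := by
      intro h
      have : p1.1 ∈ X2 p2 p3 := by rw [← h, mem_X2]; exact Or.inl rfl
      exact (not_mem_X2 h12 h13).1 this
    have : ({X2 p1 p2, X2 p1 p3, X2 p2 p3} : Finset (Finset V)).card = 3 := by
      rw [card_eq_three]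
      exact ⟨_, _, _, c1, c2, c3, rfl⟩
    rw [← this]
    apply card_le_card
    intro A hA
    rw [mem_insert, mem_insert, mem_singleton] at hA
    rcases hA with rfl | rfl | rfl
    · exact mem_ps.2 ⟨hT1, sp_isP4 h12⟩
    · exact mem_ps.2 ⟨hT2, sp_isP4 h13⟩
    · exact mem_ps.2 ⟨hT3, sp_isP4 h23⟩
  have e4 : T.card ≤ 6 := card_le_six
  have e5 : (insert y (insert x T)).card ≤ 8 := by
    have := card_insert_le y (insert x T)
    have := card_insert_le x T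
    omega
  have := hQ _ e5
  omega

/-- large spiders contain many twin legs -/
theorem twin_family [Fintype V] (hQ : QG G 8) {τ : Prop} {F : Finset (V × V)}
    (hF : Spider G τ F) (h3 : 3 ≤ F.card) {s : ℕ} (hs : 4 * s ≤ F.card) :
    ∃ F' ⊆ F, s ≤ F'.card ∧ ∀ p ∈ F', ∀ p' ∈ F', p ≠ p' → TW G univ p p' := by
  have conv : ∀ F' ⊆ F, (∀ v ∉ lv F, ∀ p ∈ F', ∀ p' ∈ F', U G v p p') →
      ∀ p ∈ F', ∀ p' ∈ F', p ≠ p' → TW G univ p p' := by
    intro F' hF' hu p hp p' hp' hne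
    have hsp := hF p (hF' hp) p' (hF' hp') hne
    have e : G.Adj p.1 p.2 = τ := propext hsp.2.2.2.2.2.1
    refine ⟨by rw [e]; exact hsp, ?_⟩
    intro v _ v1 v2 v3 v4
    by_cases hv : v ∈ lv F
    · obtain ⟨a, ha, hva⟩ := mem_lv.1 hv
      have n1 : a ≠ p := by
        rintro rfl
        rcases hva with h | h
        · exact v1 h
        · exact v2 h
      have n2 : a ≠ p' := by
        rintro rfl
        rcases hva with h | h
        · exact v3 h
        · exact v4 h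
      obtain ⟨k1, k2, -, -, -, -, -, k8, k9⟩ := hF a ha p (hF' hp) n1
      obtain ⟨l1, l2, -, -, -, -, -, l8, l9⟩ := hF a ha p' (hF' hp') n2
      rcases hva with rfl | rfl
      · exact ⟨iff_of_true k1 l1, k8.trans l8.symm⟩
      · refine ⟨?_, iff_of_false k2 l2⟩
        rw [G.adj_comm, k9, G.adj_comm a.2 p'.1, l9]
    · exact hu v hv p hp p' hp'
  by_cases hex : ∃ x ∉ lv F, ∃ p ∈ F, ∃ p' ∈ F, ¬ U G x p p'
  · obtain ⟨x, hx, hn⟩ := hex
    obtain ⟨b, -, hb⟩ := exists_le_card_fiber_of_mul_le_card_of_maps_to (s := F)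
      (t := (univ : Finset (Bool × Bool)))
      (f := fun p => (decide (G.Adj x p.1), decide (G.Adj x p.2))) (n := s)
      (fun _ _ => mem_univ _) ⟨(true, true), mem_univ _⟩ (by
        have : (univ : Finset (Bool × Bool)).card = 4 := rfl
        rw [this]; exact hs)
    refine ⟨_, filter_subset _ _, hb, conv _ (filter_subset _ _) ?_⟩
    intro v hv p hp p' hp'
    by_cases hvx : v = x
    · subst hvx
      have e1 := (mem_filter.1 hp).2
      have e2 := (mem_filter.1 hp').2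
      have e3 := e1.trans e2.symm
      simp only [Prod.mk.injEq, decide_eq_decide] at e3
      exact e3
    · by_contra hu
      exact one_exc hQ hF h3 hx hv (Ne.symm hvx) hn
        ⟨p, (mem_filter.1 hp).1, p', (mem_filter.1 hp').1, hu⟩
  · push Not at hex
    exact ⟨F, Subset.refl _, by omega, conv F (Subset.refl _) hex⟩

lemma TW.compl [Fintype V] {p p' : V × V} (h : TW G univ p p') : TW Gᶜ univ p.swap p'.swap := by
  have hn := h.ne
  obtain ⟨h1, h2⟩ := h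
  have e : Gᶜ.Adj p.swap.1 p.swap.2 = ¬ G.Adj p.1 p.2 := by
    apply propext
    show Gᶜ.Adj p.2 p.1 ↔ _
    rw [SimpleGraph.compl_adj, G.adj_comm]
    exact ⟨fun h => h.2, fun h => ⟨hn.1.symm, h⟩⟩
  refine ⟨by rw [e]; exact h1.compl, ?_⟩
  intro v hv v1 v2 v3 v4
  obtain ⟨u1, u2⟩ := h2 v hv v2 v1 v4 v3
  simp only [SimpleGraph.compl_adj, Prod.fst_swap, Prod.snd_swap] at v1 v2 v3 v4 ⊢
  rw [u1, u2]
  exact ⟨⟨fun h => ⟨v3, h.2⟩, fun h => ⟨v1, h.2⟩⟩, ⟨fun h => ⟨v4, h.2⟩, fun h => ⟨v2, h.2⟩⟩⟩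

/-- classes are small without large twin families -/
theorem dd_eight [Fintype V] (hP : Prm G) (hLC : LC G) (hQ : QG G 8)
    (hno : ∀ p : V × V, (univ.filter (fun a => TW G univ p a)).card ≤ 9) (b c d : V) :
    (DD G b c d).card ≤ 795 := by
  by_contra hcon
  obtain ⟨τ, F, hF, hc⟩ := class_spider (r := 44) hP hLC (b := b) (c := c) (d := d) (by omega)
  obtain ⟨F', hF', hs, ht⟩ := twin_family hQ hF (by omega) (s := 11) (by omega)
  obtain ⟨p, hp⟩ : F'.Nonempty := card_pos.1 (by omega)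
  have h1 : F'.erase p ⊆ univ.filter (fun a => TW G univ p a) := by
    intro a ha
    exact mem_filter.2 ⟨mem_univ _, ht p hp a (mem_of_mem_erase ha) (ne_of_mem_erase ha).symm⟩
  have h2 := (card_le_card h1).trans (hno p)
  rw [card_erase_of_mem hp] at h2
  omega

theorem d3_eight [Fintype V] (hP : Prm G) (hQ : QG G 8) (hc : 8 + 1 ≤ Fintype.card V)
    (hno : ∀ p : V × V, (univ.filter (fun a => TW G univ p a)).card ≤ 9) (t : Finset V) :
    (D3 G t).card ≤ 1590 := by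
  have h1 := dd_eight hP (lc_of_prime hP (le_refl 8) hQ hc) hQ hno
  have h2 := dd_eight hP.compl (lc_of_prime hP.compl (le_refl 8) hQ.compl hc) hQ.compl (by
    intro p
    refine le_trans (card_le_card_of_injOn Prod.swap ?_ ?_) (hno p.swap)
    · intro a ha
      have := (mem_filter.1 (mem_coe.1 ha)).2.compl
      rw [compl_compl] at this
      exact mem_filter.2 ⟨mem_univ _, this⟩
    · intro a _ b _ hab
      exact Prod.swap_injective hab)
  exact (d3_le h1 h2 t).trans (by norm_num)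

lemma tw_sg {R : Finset V} {p a : {x // x ∈ R} × {x // x ∈ R}} (h : TW (sg G R) univ p a) :
    TW G R (p.1.1, p.2.1) (a.1.1, a.2.1) := by
  obtain ⟨⟨h1, h2, h3, h4, h5, h6, h7, h8, h9⟩, hu⟩ := h
  refine ⟨⟨h1, h2, fun h => h3 (Subtype.ext h), fun h => h4 (Subtype.ext h),
    fun h => h5 (Subtype.ext h), h6, h7, h8, h9⟩, ?_⟩
  intro v hv v1 v2 v3 v4
  exact hu ⟨v, hv⟩ (mem_univ _) (fun h => v1 (congrArg Subtype.val h))
    (fun h => v2 (congrArg Subtype.val h)) (fun h => v3 (congrArg Subtype.val h))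
    (fun h => v4 (congrArg Subtype.val h))

/-- the tree of the reduction -/
theorem tr_reduction : ∃ K : ℕ, ∀ (V : Type) [Fintype V] (G : SimpleGraph V) (R : Finset V)
    (EX : Finset (V × V)), QG G 8 → R.Nonempty → Good G R EX →
    (∀ p : V × V, p.1 ∈ R → p.2 ∈ R → (KT G R p).card ≤ 9) → TR G K R R := by
  obtain ⟨K, hK⟩ := core 1590
  refine ⟨K + 8, ?_⟩
  intro V _ G R EX hQ hR hG hKT
  apply tr_subtype
  refine hK 8 _ (sg G R) (le_refl 8) (prm_subtype hG.1) (qg_sg hQ) ?_ ?_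
  · obtain ⟨x, hx⟩ := hR
    exact ⟨⟨x, hx⟩, mem_univ _⟩
  · intro hc
    refine d3_eight (prm_subtype hG.1) (qg_sg hQ) hc ?_
    intro p
    refine le_trans (card_le_card_of_injOn (fun a => (a.1.1, a.2.1)) ?_ ?_)
      (hKT (p.1.1, p.2.1) p.1.2 p.2.2)
    · intro a ha
      have := tw_sg (mem_filter.1 (mem_coe.1 ha)).2
      exact mem_KT.2 ⟨tw_lift hG p.1.2 p.2.2 a.1.2 a.2.2 this, a.1.2, a.2.2⟩
    · intro a _ b _ hab
      obtain ⟨e1, e2⟩ := Prod.mk.inj hab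
      exact Prod.ext (Subtype.ext e1) (Subtype.ext e2)

end Pool.Agent.H19
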