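import Pool.Agent.H19.CW.Clu2

/-! Putting the removed twin legs back. -/

namespace Pool.Agent.H19

open Finset Classical

variable {V : Type} {G : SimpleGraph V}

/-! ### split classes -/

/-- witness of the first kind -/
def Wit1 (G : SimpleGraph V) (R A X : Finset V) : Prop :=
  ∃ a u u', a ∈ A ∧ a ∈ X ∧ (u ∈ R ∧ u ∉ A) ∧ (u' ∈ R ∧ u' ∉ A) ∧ ¬ (G.Adj a u ↔ G.Adj a u') ∧
    ∀ v ∉ X, (G.Adj v u ↔ G.Adj v u')

/-- witness of the second kind -/
def Wit2 (G : SimpleGraph V) (R A X : Finset V) : Prop :=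
  ∃ u a a', (u ∈ R ∧ u ∉ A) ∧ u ∈ X ∧ a ∈ A ∧ a' ∈ A ∧ ¬ (G.Adj u a ↔ G.Adj u a') ∧
    ∀ v ∉ X, (G.Adj v a ↔ G.Adj v a')

lemma count1 {ι : Type} {R A : Finset V} {X : ι → Finset V} (S : Finset ι)
    (hd : ∀ i ∈ S, ∀ j ∈ S, i ≠ j → Disjoint (X i) (X j)) (hw : ∀ i ∈ S, Wit1 G R A (X i)) :
    S.card ≤ rk G R A := by
  unfold Wit1 at hw
  rcases S.eq_empty_or_nonempty with h0 | ⟨i0, hi0⟩
  · rw [h0]; simp
  obtain ⟨a0, -⟩ := hw i0 hi0
  haveI : Nonempty V := ⟨a0⟩
  choose! a u u' h1 h2 h3 h4 h5 h6 using hw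
  apply card_le_card_of_injOn (fun i => onb G R A (a i))
  · intro i hi
    exact mem_coe.2 (mem_image_of_mem _ (h1 i hi))
  · intro i hi j hj hij
    by_contra hne
    have hij : onb G R A (a i) = onb G R A (a j) := hij
    have e1 : G.Adj (a i) (u i) ↔ G.Adj (a j) (u i) := by
      have := congrArg (fun s => u i ∈ s) hij
      simp only [mem_onb, (h3 i hi).1, (h3 i hi).2, not_false_eq_true, true_and, eq_iff_iff] at this
      exact this
    have e2 : G.Adj (a i) (u' i) ↔ G.Adj (a j) (u' i) := by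
      have := congrArg (fun s => u' i ∈ s) hij
      simp only [mem_onb, (h4 i hi).1, (h4 i hi).2, not_false_eq_true, true_and, eq_iff_iff] at this
      exact this
    have e3 := h6 i hi (a j) (fun h => (disjoint_left.1 (hd i hi j hj hne)) h (h2 j hj))
    exact h5 i hi (e1.trans (e3.trans e2.symm))

lemma count2 {ι : Type} {R A : Finset V} {X : ι → Finset V} (S : Finset ι)
    (hd : ∀ i ∈ S, ∀ j ∈ S, i ≠ j → Disjoint (X i) (X j)) (hw : ∀ i ∈ S, Wit2 G R A (X i)) :
    S.card ≤ rk G R A * rk G R A := by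
  unfold Wit2 at hw
  rcases S.eq_empty_or_nonempty with h0 | ⟨i0, hi0⟩
  · rw [h0]; simp
  obtain ⟨a0, -⟩ := hw i0 hi0
  haveI : Nonempty V := ⟨a0⟩
  choose! u a a' h1 h2 h3 h4 h5 h6 using hw
  have : rk G R A * rk G R A = ((A.image (onb G R A)) ×ˢ (A.image (onb G R A))).card := by
    rw [card_product]; rfl
  rw [this]
  apply card_le_card_of_injOn (fun i => (onb G R A (a i), onb G R A (a' i)))
  · intro i hi
    exact mem_coe.2 (mem_product.2 ⟨mem_image_of_mem _ (h3 i hi), mem_image_of_mem _ (h4 i hi)⟩)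
  · intro i hi j hj hij
    by_contra hne
    obtain ⟨hij1, hij2⟩ := Prod.mk.inj hij
    have e1 : G.Adj (a i) (u i) ↔ G.Adj (a j) (u i) := by
      have := congrArg (fun s => u i ∈ s) hij1
      simp only [mem_onb, (h1 i hi).1, (h1 i hi).2, not_false_eq_true, true_and, eq_iff_iff] at this
      exact this
    have e2 : G.Adj (a' i) (u i) ↔ G.Adj (a' j) (u i) := by
      have := congrArg (fun s => u i ∈ s) hij2
      simp only [mem_onb, (h1 i hi).1, (h1 i hi).2, not_false_eq_true, true_and, eq_iff_iff] at this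
      exact this
    have e3 := h6 j hj (u i) (fun h => (disjoint_left.1 (hd i hi j hj hne)) (h2 i hi) h)
    rw [G.adj_comm (u i), G.adj_comm (u i)] at e3
    apply h5 i hi
    rw [G.adj_comm (u i), G.adj_comm (u i)]
    exact e1.trans (e3.trans e2.symm)

/-- vertices of three legs -/
noncomputable def X3 (p p' p'' : V × V) : Finset V := {p.1, p.2, p'.1, p'.2, p''.1, p''.2}

lemma mem_X3 {p p' p'' : V × V} {x : V} : x ∈ X3 p p' p'' ↔
    x = p.1 ∨ x = p.2 ∨ x = p'.1 ∨ x = p'.2 ∨ x = p''.1 ∨ x = p''.2 := by simp [X3]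

lemma split_wit [Fintype V] {R A : Finset V} {p p' p'' : V × V} (t1 : TW G univ p p')
    (t2 : TW G univ p p'') (t3 : TW G univ p' p'') (m1 : p.1 ∈ R) (m2 : p.2 ∈ R)
    (m3 : p'.1 ∈ R) (m4 : p'.2 ∈ R) (m5 : p''.1 ∈ R) (m6 : p''.2 ∈ R)
    (hs : ¬ (p.1 ∈ A ↔ p.2 ∈ A)) : Wit1 G R A (X3 p p' p'') ∨ Wit2 G R A (X3 p p' p'') := by
  have n : ∀ v ∉ X3 p p' p'', v ≠ p.1 ∧ v ≠ p.2 ∧ v ≠ p'.1 ∧ v ≠ p'.2 ∧ v ≠ p''.1 ∧ v ≠ p''.2 := by
    intro v hv
    rw [mem_X3] at hv
    push Not at hv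
    exact hv
  have u1 : ∀ v ∉ X3 p p' p'', U G v p p' := fun v hv =>
    t1.2 v (mem_univ _) (n v hv).1 (n v hv).2.1 (n v hv).2.2.1 (n v hv).2.2.2.1
  have u2 : ∀ v ∉ X3 p p' p'', U G v p p'' := fun v hv =>
    t2.2 v (mem_univ _) (n v hv).1 (n v hv).2.1 (n v hv).2.2.2.2.1 (n v hv).2.2.2.2.2
  have u3 : ∀ v ∉ X3 p p' p'', U G v p' p'' := fun v hv => (u1 v hv).symm.trans (u2 v hv)
  have c1 : p.1 ∈ X3 p p' p'' := mem_X3.2 (Or.inl rfl)
  have c2 : p.2 ∈ X3 p p' p'' := mem_X3.2 (Or.inr (Or.inl rfl))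
  have c3 : p'.1 ∈ X3 p p' p'' := mem_X3.2 (Or.inr (Or.inr (Or.inl rfl)))
  have c4 : p'.2 ∈ X3 p p' p'' := mem_X3.2 (Or.inr (Or.inr (Or.inr (Or.inl rfl))))
  -- cross adjacencies
  have cr : ∀ {a b : V × V}, TW G univ a b → ¬ (G.Adj a.1 a.2 ↔ G.Adj a.1 b.2) ∧
      ¬ (G.Adj a.2 a.1 ↔ G.Adj a.2 b.1) := by
    intro a b h
    have h8 := h.1.2.2.2.2.2.2.2.1
    have h9 := h.1.2.2.2.2.2.2.2.2
    rw [G.adj_comm a.2 a.1, G.adj_comm a.2 b.1]
    constructor
    · rw [h8]; tauto
    · rw [h9]; tauto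
  by_cases hA : p.1 ∈ A
  · have hB : p.2 ∉ A := fun h => hs (iff_of_true hA h)
    by_cases q1 : p'.2 ∈ A
    · by_cases q2 : p'.1 ∈ A
      · exact Or.inr ⟨p.2, p.1, p'.1, ⟨m2, hB⟩, c2, hA, q2, (cr t1).2, fun v hv => (u1 v hv).1⟩
      · by_cases q3 : p''.2 ∈ A
        · by_cases q4 : p''.1 ∈ A
          · exact Or.inr ⟨p.2, p.1, p''.1, ⟨m2, hB⟩, c2, hA, q4, (cr t2).2, fun v hv => (u2 v hv).1⟩
          · exact Or.inl ⟨p'.2, p'.1, p''.1, q1, c4, ⟨m3, q2⟩, ⟨m5, q4⟩, (cr t3).2,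
              fun v hv => (u3 v hv).1⟩
        · exact Or.inl ⟨p.1, p.2, p''.2, hA, c1, ⟨m2, hB⟩, ⟨m6, q3⟩, (cr t2).1,
            fun v hv => (u2 v hv).2⟩
    · exact Or.inl ⟨p.1, p.2, p'.2, hA, c1, ⟨m2, hB⟩, ⟨m4, q1⟩, (cr t1).1,
        fun v hv => (u1 v hv).2⟩
  · have hB : p.2 ∈ A := by by_contra h; exact hs (iff_of_false hA h)
    by_cases q1 : p'.1 ∈ A
    · by_cases q2 : p'.2 ∈ A
      · exact Or.inr ⟨p.1, p.2, p'.2, ⟨m1, hA⟩, c1, hB, q2, (cr t1).1, fun v hv => (u1 v hv).2⟩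
      · by_cases q3 : p''.1 ∈ A
        · by_cases q4 : p''.2 ∈ A
          · exact Or.inr ⟨p.1, p.2, p''.2, ⟨m1, hA⟩, c1, hB, q4, (cr t2).1, fun v hv => (u2 v hv).2⟩
          · exact Or.inl ⟨p'.1, p'.2, p''.2, q1, c3, ⟨m4, q2⟩, ⟨m6, q4⟩, (cr t3).1,
              fun v hv => (u3 v hv).2⟩
        · exact Or.inl ⟨p.2, p.1, p''.1, hB, c2, ⟨m1, hA⟩, ⟨m5, q3⟩, (cr t2).2,
            fun v hv => (u2 v hv).1⟩
    · exact Or.inl ⟨p.2, p.1, p'.1, hB, c2, ⟨m1, hA⟩, ⟨m3, q1⟩, (cr t1).2,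
        fun v hv => (u1 v hv).1⟩

/-! ### representatives -/

section

variable [Fintype V] {R : Finset V} {EX : Finset (V × V)}

/-- chosen element -/
noncomputable def ch (s : Finset (V × V)) (d : V × V) : V × V :=
  if h : s.Nonempty then h.choose else d

lemma ch_mem {s : Finset (V × V)} {d : V × V} (h : s.Nonempty) : ch s d ∈ s := by
  unfold ch
  simp only [h, dif_pos]
  exact h.choose_spec

lemma ch_eq {s : Finset (V × V)} {d d' : V × V} (h : s.Nonempty) : ch s d = ch s d' := by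
  unfold ch
  simp only [h, dif_pos]

/-- the representative of a removed leg -/
noncomputable def rep (G : SimpleGraph V) (R : Finset V) (e : V × V) : V × V := ch (KT G R e) e

lemma Good.out (hG : Good G R EX) {e : V × V} (he : e ∈ EX) : e.1 ∉ R ∧ e.2 ∉ R := by
  constructor
  · have : e.1 ∈ lv EX := mem_lv.2 ⟨e, he, Or.inl rfl⟩
    rw [hG.2.1] at this; exact (mem_sdiff.1 this).2
  · have : e.2 ∈ lv EX := mem_lv.2 ⟨e, he, Or.inr rfl⟩
    rw [hG.2.1] at this; exact (mem_sdiff.1 this).2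

lemma Good.rep_mem (hG : Good G R EX) {e : V × V} (he : e ∈ EX) : rep G R e ∈ KT G R e :=
  ch_mem (card_pos.1 (by have := hG.2.2 e he; omega))

lemma Good.rich (hG : Good G R EX) {e : V × V} (he : e ∈ EX) : Rich G e :=
  rich_of_KT (R := R) (by have := hG.2.2 e he; omega)

lemma Good.tw (hG : Good G R EX) {e : V × V} (he : e ∈ EX) : TW G univ e (rep G R e) :=
  (mem_KT.1 (hG.rep_mem he)).1

lemma Good.rep_rich (hG : Good G R EX) {e : V × V} (he : e ∈ EX) : Rich G (rep G R e) :=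
  (hG.rich he).twin (hG.tw he)

lemma Good.rep_eq (hG : Good G R EX) {e e' : V × V} (he : e ∈ EX) (he' : e' ∈ EX)
    (h : TW G univ e e') : rep G R e = rep G R e' := by
  have hK : KT G R e = KT G R e' := by
    ext a
    rw [mem_KT, mem_KT]
    constructor
    · rintro ⟨h1, h2, h3⟩
      exact ⟨h.symm.trans h1 (by rintro rfl; exact (hG.out he').1 h2), h2, h3⟩
    · rintro ⟨h1, h2, h3⟩
      exact ⟨h.trans h1 (by rintro rfl; exact (hG.out he).1 h2), h2, h3⟩
  unfold rep
  rw [hK]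
  exact ch_eq (card_pos.1 (by have := hG.2.2 e' he'; omega))

lemma Good.tw_of_rep (hG : Good G R EX) {e e' : V × V} (he : e ∈ EX) (he' : e' ∈ EX)
    (h : rep G R e = rep G R e') : e = e' ∨ TW G univ e e' := by
  by_cases hne : e = e'
  · exact Or.inl hne
  · right
    have h1 := hG.tw he
    have h2 := hG.tw he'
    rw [h] at h1
    exact h1.trans h2.symm hne

/-- sharing a vertex -/
def Sh (p h : V × V) : Prop := p.1 = h.1 ∨ p.1 = h.2 ∨ p.2 = h.1 ∨ p.2 = h.2

lemma sh_of {p h : V × V} {v : V} (h1 : v = p.1 ∨ v = p.2) (h2 : v = h.1 ∨ v = h.2) : Sh p h := by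
  rcases h1 with rfl | rfl <;> rcases h2 with h2 | h2
  · exact Or.inl h2
  · exact Or.inr (Or.inl h2)
  · exact Or.inr (Or.inr (Or.inl h2))
  · exact Or.inr (Or.inr (Or.inr h2))

lemma Good.ex_unique (hG : Good G R EX) {e e' : V × V} (he : e ∈ EX) (he' : e' ∈ EX)
    (h : Sh e e') : e = e' := overlap (hG.rich he) (hG.rich he') h

lemma Good.rep_unique (hG : Good G R EX) {e e' : V × V} (he : e ∈ EX) (he' : e' ∈ EX)
    (h : Sh (rep G R e) (rep G R e')) : rep G R e = rep G R e' :=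
  overlap (hG.rep_rich he) (hG.rep_rich he') h

/-- the set of representatives -/
noncomputable def RP (G : SimpleGraph V) (R : Finset V) (EX : Finset (V × V)) : Finset (V × V) :=
  EX.image (rep G R)

lemma mem_RP {p : V × V} : p ∈ RP G R EX ↔ ∃ e ∈ EX, rep G R e = p := mem_image

/-- two further twins of a representative -/
lemma Good.more (hG : Good G R EX) {p : V × V} (hp : p ∈ RP G R EX) :
    ∃ p' p'', (TW G univ p p' ∧ TW G univ p p'' ∧ TW G univ p' p'') ∧
      (p.1 ∈ R ∧ p.2 ∈ R ∧ p'.1 ∈ R ∧ p'.2 ∈ R ∧ p''.1 ∈ R ∧ p''.2 ∈ R) := by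
  obtain ⟨e, he, rfl⟩ := mem_RP.1 hp
  have hm := mem_KT.1 (hG.rep_mem he)
  have hc : 1 < ((KT G R e).erase (rep G R e)).card := by
    have := pred_card_le_card_erase (s := KT G R e) (a := rep G R e)
    have := hG.2.2 e he
    omega
  obtain ⟨p', p'', h1, h2, hne⟩ := one_lt_card_iff.1 hc
  obtain ⟨a1, a2⟩ := mem_erase.1 h1
  obtain ⟨b1, b2⟩ := mem_erase.1 h2
  obtain ⟨a3, a4, a5⟩ := mem_KT.1 a2
  obtain ⟨b3, b4, b5⟩ := mem_KT.1 b2
  have t1 := hm.1.symm.trans a3 a1.symm
  have t2 := hm.1.symm.trans b3 b1.symm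
  exact ⟨p', p'', ⟨t1, t2, t1.symm.trans t2 hne⟩, hm.2.1, hm.2.2, a4, a5, b4, b5⟩

/-- twin representatives are equal -/
lemma Good.rp_twin (hG : Good G R EX) {p q : V × V} (hp : p ∈ RP G R EX) (hq : q ∈ RP G R EX)
    (h : TW G univ p q) : p = q := by
  obtain ⟨e, he, rfl⟩ := mem_RP.1 hp
  obtain ⟨e', he', rfl⟩ := mem_RP.1 hq
  by_contra hne
  have h1 := hG.tw he
  have h2 := hG.tw he'
  have hmq := (mem_KT.1 (hG.rep_mem he')).2.1
  have h3 : TW G univ e (rep G R e') := h1.trans h (by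
    intro h'; rw [← h'] at hmq; exact (hG.out he).1 hmq)
  by_cases hee : e = e'
  · exact hne (by rw [hee])
  · exact hne (hG.rep_eq he he' (h3.trans h2.symm hee))

/-- number of split classes -/
theorem split_card (hG : Good G R EX) {A : Finset V} :
    ((RP G R EX).filter (fun p => ¬ (p.1 ∈ A ↔ p.2 ∈ A))).card ≤
      rk G R A + rk G R A * rk G R A := by
  have hex : ∀ p ∈ RP G R EX, ∃ p' p'', (TW G univ p p' ∧ TW G univ p p'' ∧ TW G univ p' p'') ∧
      (p.1 ∈ R ∧ p.2 ∈ R ∧ p'.1 ∈ R ∧ p'.2 ∈ R ∧ p''.1 ∈ R ∧ p''.2 ∈ R) := fun p hp => hG.more hp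
  choose! f g h1 h2 using hex
  let X : V × V → Finset V := fun p => X3 p (f p) (g p)
  have hr : ∀ p ∈ RP G R EX, Rich G p := by
    intro p hp
    obtain ⟨e, he, rfl⟩ := mem_RP.1 hp
    exact hG.rep_rich he
  have hd : ∀ p ∈ RP G R EX, ∀ q ∈ RP G R EX, p ≠ q → Disjoint (X p) (X q) := by
    intro p hp q hq hne
    rw [disjoint_left]
    intro v hv hv'
    have leg : ∀ p ∈ RP G R EX, v ∈ X p → ∃ a, Rich G a ∧ (v = a.1 ∨ v = a.2) ∧
        (a = p ∨ TW G univ p a) := by
      intro p hp hv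
      obtain ⟨⟨t1, t2, t3⟩, -⟩ := And.intro (h1 p hp) (h2 p hp)
      rcases mem_X3.1 hv with h | h | h | h | h | h
      · exact ⟨p, hr p hp, Or.inl h, Or.inl rfl⟩
      · exact ⟨p, hr p hp, Or.inr h, Or.inl rfl⟩
      · exact ⟨f p, (hr p hp).twin t1, Or.inl h, Or.inr t1⟩
      · exact ⟨f p, (hr p hp).twin t1, Or.inr h, Or.inr t1⟩
      · exact ⟨g p, (hr p hp).twin t2, Or.inl h, Or.inr t2⟩
      · exact ⟨g p, (hr p hp).twin t2, Or.inr h, Or.inr t2⟩
    obtain ⟨a, ra, va, ta⟩ := leg p hp hv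
    obtain ⟨b, rb, vb, tb⟩ := leg q hq hv'
    have hab : a = b := overlap ra rb (sh_of va vb)
    subst hab
    apply hne
    rcases ta with rfl | ta <;> rcases tb with rfl | tb
    · rfl
    · exact (hG.rp_twin hq hp tb).symm
    · exact hG.rp_twin hp hq ta
    · by_contra hpq
      exact hpq (hG.rp_twin hp hq (ta.trans tb.symm hpq))
  set S := (RP G R EX).filter (fun p => ¬ (p.1 ∈ A ↔ p.2 ∈ A)) with hS
  have hw : ∀ p ∈ S, Wit1 G R A (X p) ∨ Wit2 G R A (X p) := by
    intro p hp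
    obtain ⟨hp, hs⟩ := mem_filter.1 hp
    obtain ⟨t1, t2, t3⟩ := h1 p hp
    obtain ⟨m1, m2, m3, m4, m5, m6⟩ := h2 p hp
    exact split_wit t1 t2 t3 m1 m2 m3 m4 m5 m6 hs
  have e1 := count1 (G := G) (R := R) (A := A) (X := X) (S.filter (fun p => Wit1 G R A (X p)))
    (fun i hi j hj => hd i (mem_filter.1 (mem_filter.1 hi).1).1 j (mem_filter.1 (mem_filter.1 hj).1).1)
    (fun i hi => (mem_filter.1 hi).2)
  have e2 := count2 (G := G) (R := R) (A := A) (X := X) (S.filter (fun p => Wit2 G R A (X p)))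
    (fun i hi j hj => hd i (mem_filter.1 (mem_filter.1 hi).1).1 j (mem_filter.1 (mem_filter.1 hj).1).1)
    (fun i hi => (mem_filter.1 hi).2)
  have e3 : S ⊆ S.filter (fun p => Wit1 G R A (X p)) ∪ S.filter (fun p => Wit2 G R A (X p)) := by
    intro p hp
    rcases hw p hp with h | h
    · exact mem_union_left _ (mem_filter.2 ⟨hp, h⟩)
    · exact mem_union_right _ (mem_filter.2 ⟨hp, h⟩)
  have e4 := (card_le_card e3).trans (card_union_le _ _)
  omega

/-! ### blocks -/

/-- the block of a vertex -/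
noncomputable def blk (G : SimpleGraph V) (R : Finset V) (EX : Finset (V × V)) (x : V) : Finset V :=
  insert x (lv (EX.filter (fun e => (rep G R e).1 = x)))

lemma mem_blk {x v : V} : v ∈ blk G R EX x ↔
    v = x ∨ ∃ e ∈ EX, (rep G R e).1 = x ∧ (v = e.1 ∨ v = e.2) := by
  unfold blk
  rw [mem_insert, mem_lv]
  constructor
  · rintro (h | ⟨e, he, hv⟩)
    · exact Or.inl h
    · exact Or.inr ⟨e, (mem_filter.1 he).1, (mem_filter.1 he).2, hv⟩
  · rintro (h | ⟨e, he, hx, hv⟩)
    · exact Or.inl h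
    · exact Or.inr ⟨e, mem_filter.2 ⟨he, hx⟩, hv⟩

lemma rk_block {E : Finset (V × V)} {D : Finset V}
    (hE : ∀ e ∈ E, ∀ e' ∈ E, e = e' ∨ TW G univ e e') (hD : D.card ≤ 3) :
    rk G univ (lv E ∪ D) ≤ 5 := by
  let L : Finset (V ⊕ Bool) := D.disjSum univ
  have hL : L.card ≤ 5 := by
    rw [card_disjSum, Finset.card_univ, Fintype.card_bool]; omega
  refine le_trans (rk_le_of_label L (fun x => if x ∈ D then Sum.inl x else
    Sum.inr (decide (∃ p ∈ E, x = p.1))) ?_ ?_) hL
  · intro x hx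
    by_cases hxE : x ∈ D
    · simp only [hxE, if_true]; rw [inl_mem_disjSum]; exact hxE
    · simp only [hxE, if_false]; rw [inr_mem_disjSum]; exact mem_univ _
  · intro x hx y hy hxy
    by_cases hxE : x ∈ D <;> by_cases hyE : y ∈ D <;>
      simp only [hxE, hyE, if_true, if_false, reduceCtorEq, Sum.inr.injEq, Sum.inl.injEq] at hxy
    · rw [hxy]
    · have hxy : ((∃ p ∈ E, x = p.1) ↔ (∃ p ∈ E, y = p.1)) := by simpa using hxy
      have hx' := mem_lv.1 ((mem_union.1 hx).resolve_right hxE)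
      have hy' := mem_lv.1 ((mem_union.1 hy).resolve_right hyE)
      have main : ∀ z ∉ lv E ∪ D, (G.Adj x z ↔ G.Adj y z) := by
        intro z hz
        rw [mem_union, not_or] at hz
        have hzF : ∀ p ∈ E, z ≠ p.1 ∧ z ≠ p.2 := by
          intro p hp
          have := hz.1
          rw [mem_lv] at this
          push Not at this
          exact this p hp
        have hu : ∀ p ∈ E, ∀ p' ∈ E, U G z p p' := by
          intro p hp p' hp'
          rcases hE p hp p' hp' with rfl | h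
          · exact U.refl _ _
          · exact h.2 z (mem_univ _) (hzF p hp).1 (hzF p hp).2 (hzF p' hp').1 (hzF p' hp').2
        rw [G.adj_comm x z, G.adj_comm y z]
        by_cases hc : ∃ p ∈ E, x = p.1
        · obtain ⟨p, hp, rfl⟩ := hc
          obtain ⟨p', hp', rfl⟩ := hxy.1 ⟨p, hp, rfl⟩
          exact (hu p hp p' hp').1
        · have hc' : ¬ ∃ p ∈ E, y = p.1 := fun h => hc (hxy.2 h)
          obtain ⟨p, hp, hx1⟩ := hx'
          obtain ⟨p', hp', hy1⟩ := hy'
          have hx2 := hx1.resolve_left (fun h => hc ⟨p, hp, h⟩)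
          have hy2 := hy1.resolve_left (fun h => hc' ⟨p', hp', h⟩)
          rw [hx2, hy2]
          exact (hu p hp p' hp').2
      ext z
      rw [mem_onb, mem_onb]
      by_cases hz : z ∈ lv E ∪ D
      · simp [hz]
      · rw [main z hz]

lemma tr_block (hG : Good G R EX) (x : V) : TR G 5 univ (blk G R EX x) := by
  set F := EX.filter (fun e => (rep G R e).1 = x) with hF
  have hE : ∀ e ∈ F, ∀ e' ∈ F, e = e' ∨ TW G univ e e' := by
    intro e he e' he'
    obtain ⟨h1, h2⟩ := mem_filter.1 he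
    obtain ⟨h3, h4⟩ := mem_filter.1 he'
    exact hG.tw_of_rep h1 h3 (hG.rep_unique h1 h3 (Or.inl (h2.trans h4.symm)))
  have step : ∀ F' : Finset (V × V), F' ⊆ F → TR G 5 univ (lv F' ∪ {x}) := by
    intro F'
    induction F' using Finset.induction_on with
    | empty => intro _; simpa [lv] using TR.leaf (G := G) (K := 5) (R := univ) x
    | insert p s hps ih =>
      intro hsub
      have hs : s ⊆ F := fun x hx => hsub (mem_insert_of_mem hx)
      have hEs : ∀ e ∈ s, ∀ e' ∈ s, e = e' ∨ TW G univ e e' := fun e he e' he' =>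
        hE e (hs he) e' (hs he')
      have h1 := ih hs
      have h2 : TR G 5 univ (insert p.1 (lv s ∪ {x})) := by
        refine h1.add ?_
        have : insert p.1 (lv s ∪ {x}) = lv s ∪ {p.1, x} := by
          ext z; simp only [mem_insert, mem_union, mem_singleton]; tauto
        rw [this]
        exact rk_block hEs (card_le_two.trans (by norm_num))
      have h3 : TR G 5 univ (insert p.2 (insert p.1 (lv s ∪ {x}))) := by
        refine h2.add ?_
        have : insert p.2 (insert p.1 (lv s ∪ {x})) = lv s ∪ {p.2, p.1, x} := by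
          ext z; simp only [mem_insert, mem_union, mem_singleton]; tauto
        rw [this]
        exact rk_block hEs card_le_three
      have : lv (insert p s) ∪ {x} = insert p.2 (insert p.1 (lv s ∪ {x})) := by
        ext z
        simp only [lv, biUnion_insert, mem_insert, mem_union, mem_singleton]; tauto
      rw [this]
      exact h3
  have := step F (Subset.refl _)
  have e : blk G R EX x = lv F ∪ {x} := by
    unfold blk
    rw [union_comm, ← insert_eq]
  rw [e]; exact this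

lemma blk_disjoint (hG : Good G R EX) {x y : V} (hx : x ∈ R) (hy : y ∈ R) (hne : x ≠ y) :
    Disjoint (blk G R EX x) (blk G R EX y) := by
  rw [disjoint_left]
  intro v h1 h2
  rw [mem_blk] at h1 h2
  have out : ∀ e ∈ EX, v = e.1 ∨ v = e.2 → v ∉ R := by
    rintro e he (h | h)
    · rw [h]; exact (hG.out he).1
    · rw [h]; exact (hG.out he).2
  rcases h1 with rfl | ⟨e, he, hex, hve⟩ <;> rcases h2 with h2 | ⟨e', he', hex', hve'⟩
  · exact hne h2
  · exact out e' he' hve' hx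
  · rw [h2] at hve; exact out e he (by rw [h2]; exact hve) (by rw [h2]; exact hy)
  · have := hG.ex_unique he he' (sh_of hve hve')
    subst this
    exact hne (hex.symm.trans hex')

lemma blk_union (hG : Good G R EX) : R.biUnion (blk G R EX) = univ := by
  rw [eq_univ_iff_forall]
  intro v
  rw [mem_biUnion]
  by_cases hv : v ∈ R
  · exact ⟨v, hv, mem_blk.2 (Or.inl rfl)⟩
  · have : v ∈ lv EX := by rw [hG.2.1]; exact mem_sdiff.2 ⟨mem_univ _, hv⟩
    obtain ⟨e, he, hve⟩ := mem_lv.1 this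
    exact ⟨(rep G R e).1, (mem_KT.1 (hG.rep_mem he)).2.1, mem_blk.2 (Or.inr ⟨e, he, rfl, hve⟩)⟩

/-- the rows of the enlarged sets -/
theorem rk_blow (hG : Good G R EX) {A : Finset V} (hA : A ⊆ R) {K : ℕ} (hK : rk G R A ≤ K) :
    rk G univ (A.biUnion (blk G R EX)) ≤ (K + K * K) * 3 + K * 2 ^ (K + K * K) := by
  set AS := A.biUnion (blk G R EX) with hAS
  have memAS : ∀ v, v ∈ AS ↔ v ∈ A ∨ ∃ e ∈ EX, (rep G R e).1 ∈ A ∧ (v = e.1 ∨ v = e.2) := by
    intro v
    rw [hAS, mem_biUnion]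
    constructor
    · rintro ⟨x, hx, hv⟩
      rcases mem_blk.1 hv with rfl | ⟨e, he, h1, h2⟩
      · exact Or.inl hx
      · exact Or.inr ⟨e, he, by rw [h1]; exact hx, h2⟩
    · rintro (h | ⟨e, he, h1, h2⟩)
      · exact ⟨v, h, mem_blk.2 (Or.inl rfl)⟩
      · exact ⟨_, h1, mem_blk.2 (Or.inr ⟨e, he, rfl, h2⟩)⟩
  -- the leg of a removed vertex
  have hex : ∀ v, v ∉ R → ∃ e ∈ EX, v = e.1 ∨ v = e.2 := by
    intro v hv
    have : v ∈ lv EX := by rw [hG.2.1]; exact mem_sdiff.2 ⟨mem_univ _, hv⟩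
    exact mem_lv.1 this
  choose! ex hex1 hex2 using hex
  have repR : ∀ e ∈ EX, (rep G R e).1 ∈ R ∧ (rep G R e).2 ∈ R := fun e he =>
    (mem_KT.1 (hG.rep_mem he)).2
  have inAS : ∀ v, v ∉ R → (v ∈ AS ↔ (rep G R (ex v)).1 ∈ A) := by
    intro v hv
    rw [memAS]
    constructor
    · rintro (h | ⟨e, he, h1, h2⟩)
      · exact absurd (hA h) hv
      · have := hG.ex_unique he (hex1 v hv) (sh_of h2 (hex2 v hv))
        rw [← this]; exact h1
    · intro h
      exact Or.inr ⟨ex v, hex1 v hv, h, hex2 v hv⟩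
  -- adjacency to removed vertices
  have ka : ∀ e ∈ EX, ∀ x, x ≠ e.1 → x ≠ e.2 → x ≠ (rep G R e).1 → x ≠ (rep G R e).2 →
      (G.Adj x e.1 ↔ G.Adj x (rep G R e).1) ∧ (G.Adj x e.2 ↔ G.Adj x (rep G R e).2) :=
    fun e he x h1 h2 h3 h4 => (hG.tw he).2 x (mem_univ _) h1 h2 h3 h4
  let S1 := (RP G R EX).filter (fun p => p.1 ∈ A ∧ p.2 ∉ A)
  let S2 := (RP G R EX).filter (fun p => p.1 ∉ A ∧ p.2 ∈ A)
  let T2 := S2.image Prod.snd
  set m := K + K * K with hm
  have hsp := split_card hG (A := A)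
  have hm' : rk G R A + rk G R A * rk G R A ≤ m := by
    have := Nat.mul_le_mul hK hK
    omega
  have hS1 : S1.card ≤ m := by
    refine (card_le_card ?_).trans (hsp.trans hm')
    intro p hp
    obtain ⟨h1, h2, h3⟩ := mem_filter.1 hp
    exact mem_filter.2 ⟨h1, fun h => h3 (h.1 h2)⟩
  have hS2 : S2.card ≤ m := by
    refine (card_le_card ?_).trans (hsp.trans hm')
    intro p hp
    obtain ⟨h1, h2, h3⟩ := mem_filter.1 hp
    exact mem_filter.2 ⟨h1, fun h => h2 (h.2 h3)⟩
  have hT2 : T2.card ≤ m := card_image_le.trans hS2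
  have memS1 : ∀ p, p ∈ S1 ↔ p ∈ RP G R EX ∧ p.1 ∈ A ∧ p.2 ∉ A := fun p => mem_filter
  have memS2 : ∀ p, p ∈ S2 ↔ p ∈ RP G R EX ∧ p.1 ∉ A ∧ p.2 ∈ A := fun p => mem_filter
  have memT2 : ∀ v, v ∈ T2 ↔ ∃ p ∈ S2, p.2 = v := fun v => mem_image
  -- the home of a removed vertex
  let hm : V → V := fun v => if v = (ex v).1 then (rep G R (ex v)).1 else (rep G R (ex v)).2
  -- labels
  let L : Finset ((V ⊕ ((V × V) × Bool)) ⊕ (Finset V × Finset V)) :=
    (T2.disjSum (S1 ×ˢ univ)).disjSum ((A.image (onb G R A)) ×ˢ T2.powerset)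
  have hL : L.card ≤ m * 3 + K * 2 ^ m := by
    rw [card_disjSum, card_disjSum, card_product, card_product, card_powerset, Finset.card_univ,
      Fintype.card_bool]
    have e1 : (A.image (onb G R A)).card * 2 ^ T2.card ≤ K * 2 ^ m :=
      Nat.mul_le_mul hK (Nat.pow_le_pow_right (by norm_num) hT2)
    omega
  let lab : V → (V ⊕ ((V × V) × Bool)) ⊕ (Finset V × Finset V) := fun x =>
    if x ∈ R then
      (if x ∈ T2 then Sum.inl (Sum.inl x) else
        Sum.inr (onb G R A x, T2.filter (fun y => G.Adj x y)))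
    else
      (if rep G R (ex x) ∈ S1 then Sum.inl (Sum.inr (rep G R (ex x), decide (x = (ex x).1))) else
        Sum.inr (onb G R A (hm x), T2.filter (fun y => G.Adj (hm x) y)))
  -- the adjacency determined by a label
  let φ : Finset V × Finset V → V → Prop := fun rs z =>
    if z ∈ R then z ∈ rs.1 else
      (if z = (ex z).1 then (rep G R (ex z)).1 ∈ rs.1 else
        (if (rep G R (ex z)).2 ∈ A then (rep G R (ex z)).2 ∈ rs.2 else (rep G R (ex z)).2 ∈ rs.1))
  have g1 : ∀ x ∈ A, x ∉ T2 → ∀ z ∉ AS,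
      (G.Adj x z ↔ φ (onb G R A x, T2.filter (fun y => G.Adj x y)) z) := by
    intro x hx hxT z hz
    have hxR := hA hx
    by_cases hzR : z ∈ R
    · simp only [φ, hzR, if_true, mem_onb, true_and]
      have hzA : z ∉ A := fun h => hz ((memAS z).2 (Or.inl h))
      tauto
    · have he := hex1 z hzR
      have hρ1 : (rep G R (ex z)).1 ∉ A := fun h => hz ((inAS z hzR).2 h)
      have hout := hG.out he
      have hrR := repR _ he
      have x1 : x ≠ (ex z).1 := fun h => hout.1 (h ▸ hxR)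
      have x2 : x ≠ (ex z).2 := fun h => hout.2 (h ▸ hxR)
      have x3 : x ≠ (rep G R (ex z)).1 := fun h => hρ1 (h ▸ hx)
      have x4 : x ≠ (rep G R (ex z)).2 := by
        intro h
        apply hxT
        rw [memT2]
        exact ⟨rep G R (ex z), (memS2 _).2 ⟨mem_RP.2 ⟨_, he, rfl⟩, hρ1, h ▸ hx⟩, h.symm⟩
      obtain ⟨k1, k2⟩ := ka _ he x x1 x2 x3 x4
      by_cases hz1 : z = (ex z).1
      · have h0 : G.Adj x z ↔ G.Adj x (rep G R (ex z)).1 := by
          rw [← k1]; exact Iff.of_eq (congrArg _ hz1)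
        rw [h0]
        simp only [φ]
        rw [if_neg hzR, if_pos hz1, mem_onb]
        tauto
      · have hz2 : z = (ex z).2 := (hex2 z hzR).resolve_left hz1
        have h0 : G.Adj x z ↔ G.Adj x (rep G R (ex z)).2 := by
          rw [← k2]; exact Iff.of_eq (congrArg _ hz2)
        rw [h0]
        simp only [φ]
        rw [if_neg hzR, if_neg hz1]
        by_cases hρ2 : (rep G R (ex z)).2 ∈ A
        · rw [if_pos hρ2, mem_filter]
          have : (rep G R (ex z)).2 ∈ T2 :=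
            (memT2 _).2 ⟨rep G R (ex z), (memS2 _).2 ⟨mem_RP.2 ⟨_, he, rfl⟩, hρ1, hρ2⟩, rfl⟩
          tauto
        · rw [if_neg hρ2, mem_onb]
          tauto
  have g2 : ∀ x ∈ AS, x ∉ R → rep G R (ex x) ∉ S1 → ∀ z ∉ AS,
      (G.Adj x z ↔ φ (onb G R A (hm x), T2.filter (fun y => G.Adj (hm x) y)) z) := by
    intro x hx hxR hxS z hz
    have he := hex1 x hxR
    have hρ1 : (rep G R (ex x)).1 ∈ A := (inAS x hxR).1 hx
    have hρ2 : (rep G R (ex x)).2 ∈ A := by
      by_contra h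
      exact hxS ((memS1 _).2 ⟨mem_RP.2 ⟨_, he, rfl⟩, hρ1, h⟩)
    have z1 : z ≠ (ex x).1 := by
      rintro rfl
      exact hz ((memAS _).2 (Or.inr ⟨ex x, he, hρ1, Or.inl rfl⟩))
    have z2 : z ≠ (ex x).2 := by
      rintro rfl
      exact hz ((memAS _).2 (Or.inr ⟨ex x, he, hρ1, Or.inr rfl⟩))
    have z3 : z ≠ (rep G R (ex x)).1 := by
      rintro rfl
      exact hz ((memAS _).2 (Or.inl hρ1))
    have z4 : z ≠ (rep G R (ex x)).2 := by
      rintro rfl
      exact hz ((memAS _).2 (Or.inl hρ2))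
    obtain ⟨k1, k2⟩ := ka _ he z z1 z2 z3 z4
    have notT : ∀ w, (w = (rep G R (ex x)).1 ∨ w = (rep G R (ex x)).2) → w ∉ T2 := by
      intro w hw hwT
      obtain ⟨p, hp, hpw⟩ := (memT2 w).1 hwT
      obtain ⟨hp1, hp2, hp3⟩ := (memS2 p).1 hp
      obtain ⟨e', he', rfl⟩ := mem_RP.1 hp1
      have := hG.rep_unique he he' (sh_of hw (Or.inr hpw.symm))
      rw [← this] at hp2
      exact hp2 hρ1
    have hmA : hm x ∈ A ∧ hm x ∉ T2 ∧ (G.Adj x z ↔ G.Adj (hm x) z) := by
      simp only [hm]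
      by_cases hx1 : x = (ex x).1
      · rw [if_pos hx1]
        refine ⟨hρ1, notT _ (Or.inl rfl), ?_⟩
        rw [G.adj_comm, G.adj_comm (rep G R (ex x)).1, ← k1]
        exact Iff.of_eq (congrArg _ hx1)
      · rw [if_neg hx1]
        have hx2 : x = (ex x).2 := (hex2 x hxR).resolve_left hx1
        refine ⟨hρ2, notT _ (Or.inr rfl), ?_⟩
        rw [G.adj_comm, G.adj_comm (rep G R (ex x)).2, ← k2]
        exact Iff.of_eq (congrArg _ hx2)
    rw [hmA.2.2]
    exact g1 (hm x) hmA.1 hmA.2.1 z hz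
  refine le_trans (rk_le_of_label L lab ?_ ?_) hL
  · intro x hx
    by_cases hxR : x ∈ R
    · have hxA : x ∈ A := by
        rcases (memAS x).1 hx with h | ⟨e, he, -, h⟩
        · exact h
        · exfalso
          rcases h with rfl | rfl
          · exact (hG.out he).1 hxR
          · exact (hG.out he).2 hxR
      by_cases hxT : x ∈ T2
      · simp only [lab, hxR, hxT, if_true]
        rw [inl_mem_disjSum, inl_mem_disjSum]; exact hxT
      · simp only [lab, hxR, hxT, if_true, if_false]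
        rw [inr_mem_disjSum, mem_product]
        exact ⟨mem_image_of_mem _ hxA, mem_powerset.2 (filter_subset _ _)⟩
    · have he := hex1 x hxR
      have hρ1 : (rep G R (ex x)).1 ∈ A := (inAS x hxR).1 hx
      by_cases hxS : rep G R (ex x) ∈ S1
      · simp only [lab, hxR, hxS, if_true, if_false]
        rw [inl_mem_disjSum, inr_mem_disjSum, mem_product]
        exact ⟨hxS, mem_univ _⟩
      · simp only [lab, hxR, hxS, if_false]
        rw [inr_mem_disjSum, mem_product]
        refine ⟨mem_image_of_mem _ ?_, mem_powerset.2 (filter_subset _ _)⟩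
        simp only [hm]
        by_cases hx1 : x = (ex x).1
        · rw [if_pos hx1]; exact hρ1
        · rw [if_neg hx1]
          by_contra h
          exact hxS ((memS1 _).2 ⟨mem_RP.2 ⟨_, he, rfl⟩, hρ1, h⟩)
  · -- equal labels give equal rows
    have inA : ∀ x ∈ AS, x ∈ R → x ∈ A := by
      intro x hx hxR
      rcases (memAS x).1 hx with h | ⟨e, he, -, h⟩
      · exact h
      · exfalso
        rcases h with rfl | rfl
        · exact (hG.out he).1 hxR
        · exact (hG.out he).2 hxR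
    have gen : ∀ x ∈ AS, ∀ rs, lab x = Sum.inr rs → ∀ z ∉ AS, (G.Adj x z ↔ φ rs z) := by
      intro x hx rs hrs z hz
      by_cases hxR : x ∈ R
      · by_cases hxT : x ∈ T2
        · simp only [lab, hxR, hxT, if_true, reduceCtorEq] at hrs
        · simp only [lab, hxR, hxT, if_true, if_false, Sum.inr.injEq] at hrs
          rw [← hrs]
          exact g1 x (inA x hx hxR) hxT z hz
      · by_cases hxS : rep G R (ex x) ∈ S1
        · simp only [lab, hxR, hxS, if_true, if_false, reduceCtorEq] at hrs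
        · simp only [lab, hxR, hxS, if_false, Sum.inr.injEq] at hrs
          rw [← hrs]
          exact g2 x hx hxR hxS z hz
    have main : ∀ x ∈ AS, ∀ y ∈ AS, lab x = lab y → ∀ z ∉ AS, (G.Adj x z ↔ G.Adj y z) := by
      intro x hx y hy hxy z hz
      cases hl : lab x with
      | inr rs =>
        rw [gen x hx rs hl z hz, gen y hy rs (hxy ▸ hl) z hz]
      | inl s =>
        have hl' : lab y = Sum.inl s := hxy ▸ hl
        -- both are special
        have spec : ∀ w, lab w = Sum.inl s → (w ∈ R ∧ s = Sum.inl w) ∨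
            (w ∉ R ∧ s = Sum.inr (rep G R (ex w), decide (w = (ex w).1))) := by
          intro w hw
          by_cases hwR : w ∈ R
          · by_cases hwT : w ∈ T2
            · simp only [lab, hwR, hwT, if_true, Sum.inl.injEq] at hw
              exact Or.inl ⟨hwR, hw.symm⟩
            · simp only [lab, hwR, hwT, if_true, if_false, reduceCtorEq] at hw
          · by_cases hwS : rep G R (ex w) ∈ S1
            · simp only [lab, hwR, hwS, if_true, if_false, Sum.inl.injEq] at hw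
              exact Or.inr ⟨hwR, hw.symm⟩
            · simp only [lab, hwR, hwS, if_false, reduceCtorEq] at hw
        rcases spec x hl with ⟨hxR, e1⟩ | ⟨hxR, e1⟩ <;> rcases spec y hl' with ⟨hyR, e2⟩ | ⟨hyR, e2⟩
        · rw [e1] at e2
          rw [Sum.inl.inj e2]
        · rw [e1] at e2; exact absurd e2 (by simp)
        · rw [e1] at e2; exact absurd e2 (by simp)
        · rw [e1] at e2
          obtain ⟨e3, e4⟩ := Prod.mk.inj (Sum.inr.inj e2)
          rw [decide_eq_decide] at e4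
          have hx1 := hex1 x hxR
          have hy1 := hex1 y hyR
          have hxρ := (inAS x hxR).1 hx
          have hyρ := (inAS y hyR).1 hy
          have zne : ∀ e ∈ EX, (rep G R e).1 ∈ A → z ≠ e.1 ∧ z ≠ e.2 := by
            intro e he h
            constructor
            · rintro rfl; exact hz ((memAS _).2 (Or.inr ⟨e, he, h, Or.inl rfl⟩))
            · rintro rfl; exact hz ((memAS _).2 (Or.inr ⟨e, he, h, Or.inr rfl⟩))
          have hU : U G z (ex x) (ex y) := by
            rcases hG.tw_of_rep hx1 hy1 e3 with h | h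
            · rw [h]; exact U.refl _ _
            · exact h.2 z (mem_univ _) (zne _ hx1 hxρ).1 (zne _ hx1 hxρ).2 (zne _ hy1 hyρ).1
                (zne _ hy1 hyρ).2
          rw [G.adj_comm x z, G.adj_comm y z]
          by_cases hxx : x = (ex x).1
          · have hyy := e4.1 hxx
            have a1 : G.Adj z x ↔ G.Adj z (ex x).1 := Iff.of_eq (congrArg _ hxx)
            have a2 : G.Adj z y ↔ G.Adj z (ex y).1 := Iff.of_eq (congrArg _ hyy)
            rw [a1, a2]; exact hU.1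
          · have hyy : ¬ y = (ex y).1 := fun h => hxx (e4.2 h)
            have a1 : G.Adj z x ↔ G.Adj z (ex x).2 :=
              Iff.of_eq (congrArg _ ((hex2 x hxR).resolve_left hxx))
            have a2 : G.Adj z y ↔ G.Adj z (ex y).2 :=
              Iff.of_eq (congrArg _ ((hex2 y hyR).resolve_left hyy))
            rw [a1, a2]; exact hU.2
    intro x hx y hy hxy
    ext z
    rw [mem_onb, mem_onb]
    by_cases hz : z ∈ AS
    · simp [hz]
    · rw [main x hx y hy hxy z hz]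

end

/-- prime `(8, 6)`-graphs -/
theorem prime_eight : ∃ K : ℕ, ∀ (V : Type) [Fintype V] (G : SimpleGraph V),
    Prm G → QG G 8 → (univ : Finset V).Nonempty → TR G K univ univ := by
  obtain ⟨K, hK⟩ := tr_reduction
  refine ⟨(K + K * K) * 3 + K * 2 ^ (K + K * K) + 5, ?_⟩
  intro V _ G hP hQ hn
  obtain ⟨R, EX, hG, hKT⟩ := exists_good hP
  have hR : R.Nonempty := by
    by_contra h
    rw [not_nonempty_iff_eq_empty] at h
    obtain ⟨v, -⟩ := hn
    have : v ∈ R.biUnion (blk G R EX) := by rw [blk_union hG]; exact mem_univ _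
    rw [h] at this
    simp at this
  have h1 := hK V G R EX hQ hR hG hKT
  have h2 := h1.blow (G' := G) (K' := (K + K * K) * 3 + K * 2 ^ (K + K * K) + 5) (R' := univ)
    (β := blk G R EX) (fun x hx y hy hne => blk_disjoint hG hx hy hne)
    (fun x _ => (tr_block hG x).mono (by omega))
    (fun B hB hr => (rk_blow hG hB hr).trans (by omega))
  rwa [blk_union hG] at h2

end Pool.Agent.H19
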