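import Pool.Agent.H19.CW.Grow

/-! Growth of generated sets in prime `(q, q - 2)`-graphs, part 2. -/

namespace Pool.Agent.H19

open Finset Classical

variable {V : Type} {G : SimpleGraph V}

lemma typ_det1 {p1 p2 p3 p4 q1 q2 q3 q4 : Prop} (h : Typ p1 p2 p3 p4) (h' : Typ q1 q2 q3 q4)
    (h2 : p2 ↔ q2) (h3 : p3 ↔ q3) (h4 : p4 ↔ q4) : p1 ↔ q1 := by
  unfold Typ at *
  rcases h with ⟨a, b, c, d⟩ | ⟨a, b, c, d⟩ | ⟨a, b, c, d⟩ <;>
    rcases h' with ⟨a', b', c', d'⟩ | ⟨a', b', c', d'⟩ | ⟨a', b', c', d'⟩ <;> simp_all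

lemma typ_det2 {p1 p2 p3 p4 q1 q2 q3 q4 : Prop} (h : Typ p1 p2 p3 p4) (h' : Typ q1 q2 q3 q4)
    (h1 : p1 ↔ q1) (h3 : p3 ↔ q3) (h4 : p4 ↔ q4) : p2 ↔ q2 := by
  unfold Typ at *
  rcases h with ⟨a, b, c, d⟩ | ⟨a, b, c, d⟩ | ⟨a, b, c, d⟩ <;>
    rcases h' with ⟨a', b', c', d'⟩ | ⟨a', b', c', d'⟩ | ⟨a', b', c', d'⟩ <;> simp_all

lemma Typ.symm {p1 p2 p3 p4 : Prop} (h : Typ p1 p2 p3 p4) : Typ p4 p3 p2 p1 := by
  unfold Typ at *
  rcases h with ⟨a, b, c, d⟩ | ⟨a, b, c, d⟩ | ⟨a, b, c, d⟩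
  · exact Or.inl ⟨d, c, b, a⟩
  · exact Or.inr (Or.inl ⟨d, c, b, a⟩)
  · exact Or.inr (Or.inr ⟨d, c, b, a⟩)

lemma pair_det {A A' X Y B B' X' Y' P1 P2 : Prop}
    (key : (A ∧ A' ∧ X ∧ Y) ∨ (¬ A ∧ ¬ A' ∧ ¬ X ∧ ¬ Y) ∨
      (A ∧ ¬ A' ∧ ((P1 ∧ X ∧ ¬ Y) ∨ (P2 ∧ ¬ X ∧ Y))))
    (key' : (B ∧ B' ∧ X' ∧ Y') ∨ (¬ B ∧ ¬ B' ∧ ¬ X' ∧ ¬ Y') ∨
      (B ∧ ¬ B' ∧ ((P1 ∧ X' ∧ ¬ Y') ∨ (P2 ∧ ¬ X' ∧ Y'))))
    (r1 : A ↔ B) (r2 : A' ↔ B') (ex : ¬ (P1 ∧ P2)) : (X ↔ X') ∧ (Y ↔ Y') := by
  rcases key with ⟨a, b, c, d⟩ | ⟨a, b, c, d⟩ | ⟨a, b, ⟨c, d, e⟩ | ⟨c, d, e⟩⟩ <;>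
    rcases key' with ⟨a', b', c', d'⟩ | ⟨a', b', c', d'⟩ | ⟨a', b', ⟨c', d', e'⟩ | ⟨c', d', e'⟩⟩ <;>
    simp_all

/-- unattached vertices with nontrivial traces have the same trace -/
theorem gn_unique {T : Finset V} {p e : ℕ} (h : GN G T p e) : ∀ u ∉ T, ¬ Att G u T → Nt G u T →
    ∀ u' ∉ T, ¬ Att G u' T → Nt G u' T → ∀ t ∈ T, (G.Adj u t ↔ G.Adj u' t) := by
  induction h with
  | @base a b c d hp =>
    intro u hu hn hN u' hu' hn' hN' t ht
    have ht1 := typ_of_not_att hp hu (Subset.refl _) hn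
    have ht2 := typ_of_not_att hp hu' (Subset.refl _) hn'
    have key : ∀ u : V, Nt G u {a, b, c, d} → Typ (G.Adj u a) (G.Adj u b) (G.Adj u c) (G.Adj u d) →
        (¬ G.Adj u a ∧ G.Adj u b ∧ G.Adj u c ∧ ¬ G.Adj u d) := by
      intro u hN ht
      obtain ⟨⟨t, k1, k2⟩, s, k3, k4⟩ := hN
      simp only [mem_insert, mem_singleton] at k1 k3
      rcases ht with ⟨h1, h2, h3, h4⟩ | ⟨h1, h2, h3, h4⟩ | h
      · exfalso; rcases k1 with rfl | rfl | rfl | rfl <;> contradiction
      · exfalso; rcases k3 with rfl | rfl | rfl | rfl <;> contradiction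
      · exact h
    obtain ⟨a1, a2, a3, a4⟩ := key u hN ht1
    obtain ⟨b1, b2, b3, b4⟩ := key u' hN' ht2
    simp only [mem_insert, mem_singleton] at ht
    rcases ht with rfl | rfl | rfl | rfl
    · exact iff_of_false a1 b1
    · exact iff_of_true a2 b2
    · exact iff_of_true a3 b3
    · exact iff_of_false a4 b4
  | @att T p e v hT hv hA ih =>
    intro u hu hn hN u' hu' hn' hN'
    have sub := subset_insert v T
    have hu1 : u ∉ T := fun h => hu (sub h)
    have hu2 : u' ∉ T := fun h => hu' (sub h)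
    have hr := ih u hu1 (fun h => hn (h.mono sub)) (nt_att hA hv hu hn hN)
      u' hu2 (fun h => hn' (h.mono sub)) (nt_att hA hv hu' hn' hN')
    intro t ht
    rcases mem_insert.1 ht with rfl | ht
    · obtain ⟨Q, ⟨a, b, c, d, hp, rfl⟩, hvQ, hsub⟩ := hA
      have hS : ({a, b, c, d} : Finset V) ⊆ insert t T := by
        intro x hx
        by_cases hxv : x = t
        · rw [hxv]; exact mem_insert_self _ _
        · exact mem_insert_of_mem (hsub (mem_erase.2 ⟨hxv, hx⟩))
      have m : ∀ x, x ∈ ({a, b, c, d} : Finset V) → x ≠ t → (G.Adj u x ↔ G.Adj u' x) :=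
        fun x hx hxv => hr x (hsub (mem_erase.2 ⟨hxv, hx⟩))
      have t1 := typ_of_not_att hp (fun h => hu (hS h)) hS hn
      have t2 := typ_of_not_att hp (fun h => hu' (hS h)) hS hn'
      have n1 := hp.1.ne
      have n2 := hp.2.1.ne
      have n3 := hp.2.2.1.ne
      obtain ⟨-, -, -, -, -, -, n4, n5, n6⟩ := hp
      have ma := m a (by simp)
      have mb := m b (by simp)
      have mc := m c (by simp)
      have md := m d (by simp)
      simp only [mem_insert, mem_singleton] at hvQ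
      rcases hvQ with rfl | rfl | rfl | rfl
      · exact typ_det1 t1 t2 (mb n1.symm) (mc n4.symm) (md n5.symm)
      · exact typ_det2 t1 t2 (ma n1) (mc n2.symm) (md n6.symm)
      · exact typ_det2 t1.symm t2.symm (md n3.symm) (mb n2) (ma n4)
      · exact typ_det1 t1.symm t2.symm (mc n3) (mb n6) (ma n5)
    · exact hr t ht
  | @pair T p e x y hT hx hy hxy nx ny hNx hyx ih =>
    intro u hu hn hN u' hu' hn' hN'
    have sub : T ⊆ insert y (insert x T) := (subset_insert _ _).trans (subset_insert _ _)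
    have hu1 : u ∉ T := fun h => hu (sub h)
    have hu2 : u' ∉ T := fun h => hu' (sub h)
    obtain ⟨a, ha, a', ha', hxa, hxa', hP⟩ := pair_path hx hy hxy (gn_cr hT x hx nx hNx).1 hNx hyx
    obtain ⟨hNT, key⟩ := nt_pair ha ha' hP hu hn hN
    obtain ⟨hNT', key'⟩ := nt_pair ha ha' hP hu' hn' hN'
    have hr := ih u hu1 (fun h => hn (h.mono sub)) hNT u' hu2 (fun h => hn' (h.mono sub)) hNT'
    have r1 := hr a ha
    have r2 := hr a' ha'
    have excl : ¬ (P4 G y x a a' ∧ P4 G x a y a') := by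
      rintro ⟨⟨-, -, -, h, -⟩, -, h', -⟩
      exact h h'.symm
    have hd := pair_det key key' r1 r2 excl
    intro t ht
    rcases mem_insert.1 ht with rfl | ht
    · exact hd.2
    rcases mem_insert.1 ht with rfl | ht
    · exact hd.1
    · exact hr t ht

lemma pn_insert {T : Finset V} {v : V} (hv : v ∉ T) (h : Att G v T) :
    pn G T + 1 ≤ pn G (insert v T) := by
  obtain ⟨Q, hQ, hvQ, hsub⟩ := h
  have h1 : ps G T ⊂ ps G (insert v T) := by
    rw [Finset.ssubset_iff_of_subset]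
    · refine ⟨Q, ?_, ?_⟩
      · rw [mem_ps]
        refine ⟨?_, hQ⟩
        intro x hx
        by_cases hxv : x = v
        · rw [hxv]; exact mem_insert_self _ _
        · exact mem_insert_of_mem (hsub (mem_erase.2 ⟨hxv, hx⟩))
      · rw [mem_ps]
        exact fun h => hv (h.1 hvQ)
    · intro Q' hQ'
      rw [mem_ps] at hQ' ⊢
      exact ⟨hQ'.1.trans (subset_insert _ _), hQ'.2⟩
  exact card_lt_card h1

/-- the pair step produces many new paths -/
lemma pn_pair {T : Finset V} {x y : V} (hx : x ∉ T) (hy : y ∉ T) (hxy : x ≠ y)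
    (h : ((∀ t ∈ T, ¬ G.Adj y t) ∧ G.Adj x y) ∨ ((∀ t ∈ T, G.Adj y t) ∧ ¬ G.Adj x y)) {e : ℕ}
    (h1 : e ≤ ce G x T) (h2 : e ≤ cn G x T) : pn G T + e ≤ pn G (insert y (insert x T)) := by
  have gen : ∀ (F : Finset (V × V)), (∀ p ∈ F, p.1 ∈ T ∧ p.2 ∈ T ∧ G.Adj x p.1 ∧ ¬ G.Adj x p.2 ∧
      IsP4 G {y, x, p.1, p.2}) → pn G T + F.card ≤ pn G (insert y (insert x T)) := by
    intro F hF
    have hinj : Set.InjOn (fun p : V × V => ({y, x, p.1, p.2} : Finset V)) F := by
      rintro ⟨a, b⟩ hab ⟨c, d⟩ hcd he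
      obtain ⟨k1, k2, k3, k4, -⟩ := hF _ hab
      obtain ⟨l1, l2, l3, l4, -⟩ := hF _ hcd
      simp only at he k1 k2 k3 k4 l1 l2 l3 l4
      have e1 : a ∈ ({y, x, c, d} : Finset V) := by rw [← he]; simp
      have e2 : b ∈ ({y, x, c, d} : Finset V) := by rw [← he]; simp
      simp only [mem_insert, mem_singleton] at e1 e2
      have a1 : a = c := by
        rcases e1 with h | h | h | h
        · exact absurd (h ▸ k1) hy
        · exact absurd (h ▸ k1) hx
        · exact h
        · subst h; contradiction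
      have a2 : b = d := by
        rcases e2 with h | h | h | h
        · exact absurd (h ▸ k2) hy
        · exact absurd (h ▸ k2) hx
        · subst h; contradiction
        · exact h
      rw [a1, a2]
    have hd : Disjoint (ps G T) (F.image (fun p : V × V => ({y, x, p.1, p.2} : Finset V))) := by
      rw [Finset.disjoint_left]
      intro Q hQ hQ'
      rw [mem_ps] at hQ
      rw [mem_image] at hQ'
      obtain ⟨p, _, rfl⟩ := hQ'
      exact hx (hQ.1 (by simp))
    have hsub : ps G T ∪ (F.image (fun p : V × V => ({y, x, p.1, p.2} : Finset V))) ⊆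
        ps G (insert y (insert x T)) := by
      intro Q hQ
      rcases mem_union.1 hQ with hQ | hQ
      · rw [mem_ps] at hQ ⊢
        exact ⟨hQ.1.trans ((subset_insert _ _).trans (subset_insert _ _)), hQ.2⟩
      · rw [mem_image] at hQ
        obtain ⟨p, hp, rfl⟩ := hQ
        obtain ⟨k1, k2, k3, k4, k5⟩ := hF _ hp
        rw [mem_ps]
        refine ⟨?_, k5⟩
        intro z hz
        simp only [mem_insert, mem_singleton] at hz ⊢
        rcases hz with rfl | rfl | rfl | rfl <;> simp [k1, k2]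
    have := card_le_card hsub
    rw [card_union_of_disjoint hd, card_image_of_injOn hinj] at this
    exact this
  rcases h with ⟨k1, k2⟩ | ⟨k1, k2⟩
  · refine le_trans (Nat.add_le_add_left h1 _) (gen _ ?_)
    rintro ⟨a, a'⟩ hp
    simp only [mem_filter, mem_product] at hp
    obtain ⟨⟨ha, ha'⟩, l1, l2, l3⟩ := hp
    refine ⟨ha, ha', l1, l2, P4.isP4 ⟨k2.symm, l1, l3, k1 a ha, k1 a' ha', l2,
      fun h => hy (h ▸ ha), fun h => hy (h ▸ ha'), fun h => hx (h ▸ ha')⟩⟩
  · refine le_trans (Nat.add_le_add_left h2 _) (gen _ ?_)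
    rintro ⟨a, a'⟩ hp
    simp only [mem_filter, mem_product] at hp
    obtain ⟨⟨ha, ha'⟩, l1, l2, l3⟩ := hp
    refine ⟨ha, ha', l1, l2, ?_⟩
    have hP : P4 G x a y a' := ⟨l1, (k1 a ha).symm, k1 a' ha', k2, l2, l3, hxy,
      fun h => hx (h ▸ ha'), fun h => l2 (h ▸ l1)⟩
    have : ({y, x, a, a'} : Finset V) = {x, a, y, a'} := by
      ext z; simp only [mem_insert, mem_singleton]; tauto
    simp only
    rw [this]; exact hP.isP4

theorem gn_pn {T : Finset V} {p e : ℕ} (h : GN G T p e) : p ≤ pn G T ∧ 4 ≤ T.card ∧ 2 ≤ e ∧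
    (5 ≤ T.card → 3 ≤ e) := by
  induction h with
  | base hp =>
    refine ⟨?_, hp.card.ge, le_rfl, fun h => by rw [hp.card] at h; omega⟩
    apply card_pos.2
    exact ⟨_, mem_ps.2 ⟨Subset.refl _, hp.isP4⟩⟩
  | att _ hv h ih =>
    obtain ⟨h1, h2, h3, h4⟩ := ih
    have := pn_insert hv h
    rw [card_insert_of_notMem hv]
    refine ⟨by omega, by omega, by omega, fun _ => by omega⟩
  | pair hT hx hy hxy nx ny hN h ih =>
    obtain ⟨h1, h2, h3, h4⟩ := ih
    obtain ⟨_, k1, k2⟩ := gn_cr hT _ hx nx hN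
    have := pn_pair hx hy hxy h k1 k2
    rw [card_insert_of_notMem (by rw [mem_insert, not_or]; exact ⟨hxy.symm, hy⟩),
      card_insert_of_notMem hx]
    refine ⟨by omega, by omega, by omega, fun _ => by omega⟩

/-- modules -/
def Mod (G : SimpleGraph V) (M : Finset V) : Prop :=
  ∀ z ∉ M, ∀ x ∈ M, ∀ y ∈ M, (G.Adj z x ↔ G.Adj z y)

/-- prime graphs -/
def Prm (G : SimpleGraph V) [Fintype V] : Prop := ∀ M : Finset V, Mod G M → M.card ≤ 1 ∨ M = univ

lemma Mod.compl {M : Finset V} (h : Mod G M) : Mod Gᶜ M := by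
  intro z hz x hx y hy
  have h1 : z ≠ x := fun h => hz (h ▸ hx)
  have h2 : z ≠ y := fun h => hz (h ▸ hy)
  simp only [SimpleGraph.compl_adj, ne_eq, h1, h2, not_false_eq_true, true_and]
  rw [h z hz x hx y hy]

lemma Prm.compl [Fintype V] (h : Prm G) : Prm Gᶜ := by
  intro M hM
  apply h
  simpa using hM.compl

/-- existence of a pair -/
theorem exists_pair [Fintype V] (hpr : Prm G) {T : Finset V} {p e : ℕ} (h : GN G T p e)
    (hcl : ∀ v ∉ T, ¬ Att G v T) (hc : T.card + 2 ≤ Fintype.card V) :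
    ∃ x y, x ∉ T ∧ y ∉ T ∧ x ≠ y ∧ Nt G x T ∧
      (((∀ t ∈ T, ¬ G.Adj y t) ∧ G.Adj x y) ∨ ((∀ t ∈ T, G.Adj y t) ∧ ¬ G.Adj x y)) := by
  by_contra hcon
  push Not at hcon
  have h4 := (gn_pn h).2.1
  obtain ⟨t0, ht0⟩ : T.Nonempty := card_pos.1 (by omega)
  let M : Finset V := univ.filter (fun v => v ∉ T ∧ Nt G v T)
  have hM : ∀ v, v ∈ M ↔ v ∉ T ∧ Nt G v T := by intro v; simp [M]
  have triv : ∀ z ∉ T ∪ M, (∀ t ∈ T, ¬ G.Adj z t) ∨ (∀ t ∈ T, G.Adj z t) := by
    intro z hz
    rw [mem_union, not_or, hM] at hz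
    by_contra hh
    push Not at hh
    exact hz.2 ⟨hz.1, hh.1, hh.2⟩
  have hTM : Mod G (T ∪ M) := by
    intro z hz
    have hz' := hz
    rw [mem_union, not_or] at hz'
    have key : (∀ s ∈ T ∪ M, ¬ G.Adj z s) ∨ (∀ s ∈ T ∪ M, G.Adj z s) := by
      rcases triv z hz with h | h
      · left
        intro s hs
        rcases mem_union.1 hs with hs | hs
        · exact h s hs
        · rw [hM] at hs
          have := (hcon s z hs.1 hz'.1 (fun h => hz'.2 (by rw [hM, ← h]; exact hs)) hs.2).1 h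
          exact fun h => this h.symm
      · right
        intro s hs
        rcases mem_union.1 hs with hs | hs
        · exact h s hs
        · rw [hM] at hs
          have := (hcon s z hs.1 hz'.1 (fun h => hz'.2 (by rw [hM, ← h]; exact hs)) hs.2).2 h
          exact this.symm
    intro x hx y hy
    rcases key with h | h
    · exact iff_of_false (h x hx) (h y hy)
    · exact iff_of_true (h x hx) (h y hy)
  have hTMu : T ∪ M = univ := by
    rcases hpr _ hTM with h | h
    · have := card_le_card (subset_union_left : T ⊆ T ∪ M)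
      omega
    · exact h
  have hMM : Mod G M := by
    intro z hz x hx y hy
    have hzT : z ∈ T := by
      have : z ∈ T ∪ M := by rw [hTMu]; exact mem_univ _
      exact (mem_union.1 this).resolve_right hz
    rw [hM] at hx hy
    have := gn_unique h x hx.1 (hcl x hx.1) hx.2 y hy.1 (hcl y hy.1) hy.2 z hzT
    rw [G.adj_comm z x, G.adj_comm z y]; exact this
  have hdisj : Disjoint T M := by
    rw [Finset.disjoint_left]; intro a ha hb; rw [hM] at hb; exact hb.1 ha
  have hcard : T.card + M.card = Fintype.card V := by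
    rw [← card_union_of_disjoint hdisj, hTMu, card_univ]
  rcases hpr _ hMM with h | h
  · omega
  · have : t0 ∈ M := by rw [h]; exact mem_univ _
    rw [hM] at this
    exact this.1 ht0

/-- growth machine -/
theorem growth [Fintype V] (hpr : Prm G) {q : ℕ} (hq : 8 ≤ q) (hQ : QG G q)
    (hn : q + 1 ≤ Fintype.card V) : ∀ (k : ℕ) {T : Finset V} {p e : ℕ}, GN G T p e →
    T.card + k = q - 2 → T.card ≤ pn G T + 1 → False := by
  intro k
  induction k using Nat.strong_induction_on with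
  | _ k ih =>
    intro T p e h hk hp
    obtain ⟨-, h4, h2, h5⟩ := gn_pn h
    have hne : ∀ S : Finset V, S.card ≤ q → pn G S ≤ q - 2 := hQ
    by_cases hcl : ∀ v ∉ T, ¬ Att G v T
    · obtain ⟨x, y, hx, hy, hxy, hN, hpair⟩ := exists_pair hpr h hcl (by omega)
      have hg := GN.pair h hx hy hxy (hcl x hx) (hcl y hy) hN hpair
      obtain ⟨_, k1, k2⟩ := gn_cr h _ hx (hcl x hx) hN
      have hpp := pn_pair hx hy hxy hpair k1 k2
      have hyx : y ∉ insert x T := by rw [mem_insert, not_or]; exact ⟨hxy.symm, hy⟩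
      have hc : (insert y (insert x T)).card = T.card + 2 := by
        rw [card_insert_of_notMem hyx, card_insert_of_notMem hx]
      by_cases h1 : T.card + 2 ≤ q - 2
      · exact ih (k - 2) (by omega) hg (by rw [hc]; omega) (by rw [hc]; omega)
      · by_cases h3 : T.card + 2 = q
        · have := hne _ (by rw [hc]; omega : (insert y (insert x T)).card ≤ q)
          omega
        · -- `T.card = q - 3`
          have hTq : T.card + 3 = q := by omega
          have he3 := h5 (by omega)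
          have := hne _ (by rw [hc]; omega : (insert y (insert x T)).card ≤ q)
          omega
    · push Not at hcl
      obtain ⟨v, hv, hA⟩ := hcl
      have hg := GN.att h hv hA
      have hpi := pn_insert hv hA
      have hc : (insert v T).card = T.card + 1 := card_insert_of_notMem hv
      by_cases h1 : T.card + 1 ≤ q - 2
      · exact ih (k - 1) (by omega) hg (by rw [hc]; omega) (by rw [hc]; omega)
      · have hTq : T.card + 2 = q := by omega
        by_cases hcl2 : ∀ w ∉ insert v T, ¬ Att G w (insert v T)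
        · obtain ⟨x, y, hx, hy, hxy, hN, hpair⟩ := exists_pair hpr hg hcl2 (by omega)
          have hxT : x ∉ T := fun h => hx (mem_insert_of_mem h)
          have hyT : y ∉ T := fun h => hy (mem_insert_of_mem h)
          have nx : ¬ Att G x T := fun h => hcl2 x hx (h.mono (subset_insert _ _))
          have hNT := nt_att hA hv hx (hcl2 x hx) hN
          obtain ⟨_, k1, k2⟩ := gn_cr h _ hxT nx hNT
          have hpair' : (((∀ t ∈ T, ¬ G.Adj y t) ∧ G.Adj x y) ∨
              ((∀ t ∈ T, G.Adj y t) ∧ ¬ G.Adj x y)) := by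
            rcases hpair with ⟨h1, h2⟩ | ⟨h1, h2⟩
            · exact Or.inl ⟨fun t ht => h1 t (mem_insert_of_mem ht), h2⟩
            · exact Or.inr ⟨fun t ht => h1 t (mem_insert_of_mem ht), h2⟩
          have hpp := pn_pair hxT hyT hxy hpair' k1 k2
          have hyx : y ∉ insert x T := by rw [mem_insert, not_or]; exact ⟨hxy.symm, hyT⟩
          have hc : (insert y (insert x T)).card = T.card + 2 := by
            rw [card_insert_of_notMem hyx, card_insert_of_notMem hxT]
          have := hne _ (by rw [hc]; omega : (insert y (insert x T)).card ≤ q)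
          omega
        · push Not at hcl2
          obtain ⟨w, hw, hA2⟩ := hcl2
          have hpi2 := pn_insert hw hA2
          have hc2 : (insert w (insert v T)).card = T.card + 2 := by
            rw [card_insert_of_notMem hw, hc]
          have := hne _ (by rw [hc2]; omega : (insert w (insert v T)).card ≤ q)
          omega

end Pool.Agent.H19
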