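import Pool.Agent.H19.CW.DtT
import Pool.Agent.H19.CW.Grow2

/-! Large classes of equally attached vertices give spiders. -/

namespace Pool.Agent.H19

open Finset Classical

variable {V : Type} {G : SimpleGraph V}

/-- prediction for the adjacency of `x` to the class -/
def Fl (G : SimpleGraph V) (b c d x : V) : Prop := G.Adj x b ∧ G.Adj x c ∧ G.Adj x d

/-- linked -/
def LK (G : SimpleGraph V) (b c d x u : V) : Prop :=
  IsP4 G {x, u, b, c} ∨ IsP4 G {x, u, b, d} ∨ IsP4 G {x, u, c, d}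

lemma P4.facts {u b c d : V} (h : P4 G u b c d) : G.Adj b u ∧ ¬ G.Adj c u ∧ ¬ G.Adj d u ∧
    u ≠ b ∧ u ≠ c ∧ u ≠ d ∧ G.Adj b c ∧ G.Adj c d ∧ ¬ G.Adj b d ∧ b ≠ c ∧ c ≠ d ∧ b ≠ d := by
  obtain ⟨h1, h2, h3, h4, h5, h6, h7, h8, h9⟩ := h
  exact ⟨h1.symm, fun h => h4 h.symm, fun h => h5 h.symm, h1.ne, h7, h8, h2, h3, h6, h2.ne, h3.ne, h9⟩

lemma set_eq4 {a b c d a' b' c' d' : V}
    (h : ∀ x, (x = a ∨ x = b ∨ x = c ∨ x = d) ↔ (x = a' ∨ x = b' ∨ x = c' ∨ x = d')) :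
    ({a, b, c, d} : Finset V) = {a', b', c', d'} := by
  ext x; simp only [mem_insert, mem_singleton]; exact h x

lemma lk_or {u b c d x : V} (hu : P4 G u b c d) (hxu : x ≠ u) (hxb : x ≠ b) (hxc : x ≠ c)
    (hxd : x ≠ d) (hx : ¬ P4 G x b c d) : LK G b c d x u ∨
      (¬ G.Adj x u ∧ ¬ G.Adj x b ∧ ¬ G.Adj x c ∧ ¬ G.Adj x d) ∨
      (¬ G.Adj x u ∧ ¬ G.Adj x b ∧ ¬ G.Adj x c ∧ G.Adj x d) ∨
      (¬ G.Adj x u ∧ G.Adj x b ∧ G.Adj x c ∧ ¬ G.Adj x d) ∨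
      (G.Adj x u ∧ G.Adj x b ∧ G.Adj x c ∧ G.Adj x d) := by
  obtain ⟨h1, h2, h3, h4, h5, h6, h7, h8, h9⟩ := hu
  have s : ∀ {y z : V}, ¬ G.Adj y z → ¬ G.Adj z y := fun h h' => h h'.symm
  by_cases ku : G.Adj x u <;> by_cases kb : G.Adj x b <;> by_cases kc : G.Adj x c <;>
    by_cases kd : G.Adj x d
  · exact Or.inr (Or.inr (Or.inr (Or.inr ⟨ku, kb, kc, kd⟩)))
  · -- u-x-c-d
    refine Or.inl (Or.inr (Or.inr ?_))
    have : P4 G u x c d := ⟨ku.symm, kc, h3, h4, h5, kd, h7, h8, hxd⟩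
    rw [set_eq4 (a' := u) (b' := x) (c' := c) (d' := d) (fun z => by tauto)]
    exact this.isP4
  · -- u-x-d-c
    refine Or.inl (Or.inr (Or.inr ?_))
    have : P4 G u x d c := ⟨ku.symm, kd, h3.symm, h5, h4, kc, h8, h7, hxc⟩
    rw [set_eq4 (a' := u) (b' := x) (c' := d) (d' := c) (fun z => by tauto)]
    exact this.isP4
  · exact absurd ⟨kb, h2, h3, kc, kd, h6, hxc, hxd, h9⟩ hx
  · -- b - u - x - d
    refine Or.inl (Or.inr (Or.inl ?_))
    have : P4 G b u x d := ⟨h1.symm, ku.symm, kd, s kb, h6, h5, hxb.symm, h9, h8⟩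
    rw [set_eq4 (a' := b) (b' := u) (c' := x) (d' := d) (fun z => by tauto)]
    exact this.isP4
  · -- u-x-c-d
    refine Or.inl (Or.inr (Or.inr ?_))
    have : P4 G u x c d := ⟨ku.symm, kc, h3, h4, h5, kd, h7, h8, hxd⟩
    rw [set_eq4 (a' := u) (b' := x) (c' := c) (d' := d) (fun z => by tauto)]
    exact this.isP4
  · -- x-u-b-c
    refine Or.inl (Or.inl ?_)
    have : P4 G x u b c := ⟨ku, h1, h2, kb, kc, h4, hxb, hxc, h7⟩
    exact this.isP4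
  · refine Or.inl (Or.inl ?_)
    have : P4 G x u b c := ⟨ku, h1, h2, kb, kc, h4, hxb, hxc, h7⟩
    exact this.isP4
  · -- u-b-x-d
    refine Or.inl (Or.inr (Or.inl ?_))
    have : P4 G u b x d := ⟨h1, kb.symm, kd, s ku, h5, h6, hxu.symm, h8, h9⟩
    rw [set_eq4 (a' := u) (b' := b) (c' := x) (d' := d) (fun z => by tauto)]
    exact this.isP4
  · exact Or.inr (Or.inr (Or.inr (Or.inl ⟨ku, kb, kc, kd⟩)))
  · refine Or.inl (Or.inr (Or.inl ?_))
    have : P4 G u b x d := ⟨h1, kb.symm, kd, s ku, h5, h6, hxu.symm, h8, h9⟩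
    rw [set_eq4 (a' := u) (b' := b) (c' := x) (d' := d) (fun z => by tauto)]
    exact this.isP4
  · exact absurd ⟨kb, h2, h3, kc, kd, h6, hxc, hxd, h9⟩ hx
  · -- u-b-c-x
    refine Or.inl (Or.inl ?_)
    have : P4 G u b c x := ⟨h1, h2, kc.symm, h4, s ku, s kb, h7, hxu.symm, hxb.symm⟩
    rw [set_eq4 (a' := u) (b' := b) (c' := c) (d' := x) (fun z => by tauto)]
    exact this.isP4
  · refine Or.inl (Or.inl ?_)
    have : P4 G u b c x := ⟨h1, h2, kc.symm, h4, s ku, s kb, h7, hxu.symm, hxb.symm⟩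
    rw [set_eq4 (a' := u) (b' := b) (c' := c) (d' := x) (fun z => by tauto)]
    exact this.isP4
  · exact Or.inr (Or.inr (Or.inl ⟨ku, kb, kc, kd⟩))
  · exact Or.inr (Or.inl ⟨ku, kb, kc, kd⟩)

/-- `x` is outside the configuration -/
def Out (G : SimpleGraph V) (b c d x : V) : Prop := x ≠ b ∧ x ≠ c ∧ x ≠ d ∧ ¬ P4 G x b c d

lemma out_ne {b c d x u : V} (hx : Out G b c d x) (hu : P4 G u b c d) : x ≠ u := by
  rintro rfl; exact hx.2.2.2 hu

/-- a mismatch gives a link -/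
lemma lk_of_mis {b c d x u : V} (hx : Out G b c d x) (hu : P4 G u b c d)
    (h : ¬ (G.Adj x u ↔ Fl G b c d x)) : LK G b c d x u := by
  rcases lk_or hu (out_ne hx hu) hx.1 hx.2.1 hx.2.2.1 hx.2.2.2 with h1 | h1
  · exact h1
  · exfalso; apply h; unfold Fl; tauto

theorem three_lk (hLC : LC G) {b c d x u1 u2 u3 : V} (hx : Out G b c d x) (h1 : P4 G u1 b c d)
    (h2 : P4 G u2 b c d) (h3 : P4 G u3 b c d) (h12 : u1 ≠ u2) (h13 : u1 ≠ u3) (h23 : u2 ≠ u3)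
    (l1 : LK G b c d x u1) (l2 : LK G b c d x u2) (l3 : LK G b c d x u3) : False := by
  obtain ⟨a1, a2, a3, a4, a5, a6, bc, cd, bd, nbc, ncd, nbd⟩ := h1.facts
  obtain ⟨b1, b2, b3, b4, b5, b6, -⟩ := h2.facts
  obtain ⟨c1, c2, c3, c4, c5, c6, -⟩ := h3.facts
  have e1 := out_ne hx h1
  have e2 := out_ne hx h2
  have e3 := out_ne hx h3
  obtain ⟨x1, x2, x3, -⟩ := hx
  refine wC1 hLC (a0 := b) (a1 := c) (a2 := d) (a3 := x) (a4 := u1) (a5 := u2) (a6 := u3) ?_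
    bc cd a1 b1 c1 bd a2 b2 c2 a3 b3 c3 l1 l2 l3
  simp only [List.nodup_cons, List.mem_cons, not_or, List.not_mem_nil, not_false_eq_true,
    and_true, List.nodup_nil]
  exact ⟨⟨nbc, nbd, x1.symm, a4.symm, b4.symm, c4.symm⟩, ⟨ncd, x2.symm, a5.symm, b5.symm, c5.symm⟩,
    ⟨x3.symm, a6.symm, b6.symm, c6.symm⟩, ⟨e1, e2, e3⟩, ⟨h12, h13⟩, h23⟩

/-- good patterns -/
def Gd (G : SimpleGraph V) (b c d x : V) : Prop :=
  (¬ G.Adj x b ∧ ¬ G.Adj x c ∧ ¬ G.Adj x d) ∨ (¬ G.Adj x b ∧ ¬ G.Adj x c ∧ G.Adj x d) ∨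
    (G.Adj x b ∧ G.Adj x c ∧ ¬ G.Adj x d) ∨ (G.Adj x b ∧ G.Adj x c ∧ G.Adj x d)

lemma gd_of_not_lk {b c d x u : V} (hx : Out G b c d x) (hu : P4 G u b c d)
    (h : ¬ LK G b c d x u) : Gd G b c d x := by
  rcases lk_or hu (out_ne hx hu) hx.1 hx.2.1 hx.2.2.1 hx.2.2.2 with h1 | h1
  · exact absurd h1 h
  · unfold Gd; tauto

/-- no mismatch for the pattern `{d}` -/
lemma no_c5 (hLC : LC G) {b c d x u : V} (hx : Out G b c d x) (hu : P4 G u b c d)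
    (h1 : ¬ G.Adj x b) (h2 : ¬ G.Adj x c) (h3 : G.Adj x d) : ¬ G.Adj x u := by
  intro h
  obtain ⟨a1, a2, a3, a4, a5, a6, bc, cd, bd, nbc, ncd, nbd⟩ := hu.facts
  have e1 := out_ne hx hu
  obtain ⟨x1, x2, x3, -⟩ := hx
  refine wC0 hLC (a0 := b) (a1 := c) (a2 := d) (a3 := u) (a4 := x) ?_ bc cd a1.symm h3 h bd
    (fun h => a2 h.symm) (fun h => a3 h.symm) h1 h2
  simp only [List.nodup_cons, List.mem_cons, not_or, List.not_mem_nil, not_false_eq_true,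
    and_true, List.nodup_nil]
  exact ⟨⟨nbc, nbd, a4.symm, x1.symm⟩, ⟨ncd, a5.symm, x2.symm⟩, ⟨a6.symm, x3.symm⟩, e1.symm⟩

/-- the three relevant patterns of a mismatching vertex -/
def Pt (G : SimpleGraph V) (b c d : V) (k : Fin 3) (x : V) : Prop :=
  match k with
  | 0 => ¬ G.Adj x b ∧ ¬ G.Adj x c ∧ ¬ G.Adj x d
  | 1 => G.Adj x b ∧ G.Adj x c ∧ ¬ G.Adj x d
  | 2 => G.Adj x b ∧ G.Adj x c ∧ G.Adj x d

lemma nd7 {b c d x e v v' : V} (hx : Out G b c d x) (he : P4 G e b c d)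
    (hv : P4 G v b c d) (hv' : P4 G v' b c d) (h1 : e ≠ v) (h2 : e ≠ v') (h3 : v ≠ v') :
    [b, c, d, x, e, v, v'].Nodup := by
  obtain ⟨a1, a2, a3, a4, a5, a6, bc, cd, bd, nbc, ncd, nbd⟩ := he.facts
  obtain ⟨b1, b2, b3, b4, b5, b6, -⟩ := hv.facts
  obtain ⟨c1, c2, c3, c4, c5, c6, -⟩ := hv'.facts
  have e1 := out_ne hx he
  have e2 := out_ne hx hv
  have e3 := out_ne hx hv'
  obtain ⟨x1, x2, x3, -⟩ := hx
  simp only [List.nodup_cons, List.mem_cons, not_or, List.not_mem_nil, not_false_eq_true,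
    and_true, List.nodup_nil]
  exact ⟨⟨nbc, nbd, x1.symm, a4.symm, b4.symm, c4.symm⟩, ⟨ncd, x2.symm, a5.symm, b5.symm, c5.symm⟩,
    ⟨x3.symm, a6.symm, b6.symm, c6.symm⟩, ⟨e1, e2, e3⟩, ⟨h1, h2⟩, h3⟩

/-- the odd vertex -/
theorem odd_vertex (hLC : LC G) {b c d x e : V} (hx : Out G b c d x) (he : P4 G e b c d)
    (hg : Gd G b c d x) (hm : ¬ (G.Adj x e ↔ Fl G b c d x)) {D0 : Finset V}
    (hD : ∀ v ∈ D0, P4 G v b c d ∧ v ≠ e ∧ (G.Adj x v ↔ Fl G b c d x)) :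
    (∀ v ∈ D0, ∀ v' ∈ D0, (G.Adj e v ↔ G.Adj e v')) ∨
    ∃ s ∈ D0, (∀ v ∈ D0, v ≠ s → ∀ v' ∈ D0, v' ≠ s → (G.Adj e v ↔ G.Adj e v')) ∧
      (∀ v ∈ D0, v ≠ s → ∀ v' ∈ D0, v' ≠ s → (G.Adj s v ↔ G.Adj s v')) := by
  obtain ⟨a1, a2, a3, a4, a5, a6, bc, cd, bd, nbc, ncd, nbd⟩ := he.facts
  rcases hg with hp | hp | hp | hp
  · -- pattern empty
    obtain ⟨p1, p2, p3⟩ := hp
    have hF : ¬ Fl G b c d x := fun h => p1 h.1
    have hxe : G.Adj x e := by tauto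
    by_cases hodd : ∃ s ∈ D0, ¬ G.Adj e s
    · right
      obtain ⟨s, hs, hes⟩ := hodd
      obtain ⟨s1, s2, s3⟩ := hD s hs
      obtain ⟨b1, b2, b3, b4, b5, b6, -⟩ := s1.facts
      have hxs : ¬ G.Adj x s := by tauto
      have even : ∀ v ∈ D0, v ≠ s → G.Adj e v ∧ ¬ G.Adj s v := by
        intro v hv hvs
        obtain ⟨v1, v2, v3⟩ := hD v hv
        obtain ⟨c1, c2, c3, c4, c5, c6, -⟩ := v1.facts
        have hxv : ¬ G.Adj x v := by tauto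
        have h1 : G.Adj e v := by
          by_contra hev
          exact wC3i hLC (nd7 hx he s1 v1 s2.symm v2.symm hvs.symm) bc cd a1 b1 c1 hxe bd a2 b2 c2
            a3 b3 c3 p1 p2 p3 hes hev hxs hxv
        refine ⟨h1, fun h => ?_⟩
        exact wC4i hLC (nd7 hx he v1 s1 v2.symm s2.symm hvs) bc cd a1 c1 b1 h1 h.symm hxe bd a2 c2 b2
          a3 c3 b3 p1 p2 p3 hes hxv hxs
      refine ⟨s, hs, fun v hv hvs v' hv' hvs' => ?_, fun v hv hvs v' hv' hvs' => ?_⟩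
      · exact iff_of_true (even v hv hvs).1 (even v' hv' hvs').1
      · exact iff_of_false (even v hv hvs).2 (even v' hv' hvs').2
    · push Not at hodd
      exact Or.inl fun v hv v' hv' => iff_of_true (hodd v hv) (hodd v' hv')
  · -- pattern {d}
    exfalso
    obtain ⟨p1, p2, p3⟩ := hp
    have hF : ¬ Fl G b c d x := fun h => p1 h.1
    have := no_c5 hLC hx he p1 p2 p3
    tauto
  · -- pattern {b, c}
    obtain ⟨p1, p2, p3⟩ := hp
    have hF : ¬ Fl G b c d x := fun h => p3 h.2.2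
    have hxe : G.Adj x e := by tauto
    by_cases hodd : ∃ s ∈ D0, G.Adj e s
    · right
      obtain ⟨s, hs, hes⟩ := hodd
      obtain ⟨s1, s2, s3⟩ := hD s hs
      obtain ⟨b1, b2, b3, b4, b5, b6, -⟩ := s1.facts
      have hxs : ¬ G.Adj x s := by tauto
      have even : ∀ v ∈ D0, v ≠ s → ¬ G.Adj e v ∧ ¬ G.Adj s v := by
        intro v hv hvs
        obtain ⟨v1, v2, v3⟩ := hD v hv
        obtain ⟨c1, c2, c3, c4, c5, c6, -⟩ := v1.facts
        have hxv : ¬ G.Adj x v := by tauto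
        have h1 : ¬ G.Adj e v := by
          intro hev
          exact wC3ii hLC (nd7 hx he s1 v1 s2.symm v2.symm hvs.symm) bc cd a1 b1 c1 p1 p2 hes hev hxe
            bd a2 b2 c2 a3 b3 c3 p3 hxs hxv
        refine ⟨h1, fun h => ?_⟩
        exact wC4ii hLC (nd7 hx he v1 s1 v2.symm s2.symm hvs) bc cd a1 c1 b1 p1 p2 hes h.symm hxe
          bd a2 c2 b2 a3 c3 b3 p3 h1 hxv hxs
      refine ⟨s, hs, fun v hv hvs v' hv' hvs' => ?_, fun v hv hvs v' hv' hvs' => ?_⟩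
      · exact iff_of_false (even v hv hvs).1 (even v' hv' hvs').1
      · exact iff_of_false (even v hv hvs).2 (even v' hv' hvs').2
    · push Not at hodd
      exact Or.inl fun v hv v' hv' => iff_of_false (hodd v hv) (hodd v' hv')
  · -- full pattern
    obtain ⟨p1, p2, p3⟩ := hp
    have hF : Fl G b c d x := ⟨p1, p2, p3⟩
    have hxe : ¬ G.Adj x e := by tauto
    by_cases hodd : ∃ s ∈ D0, G.Adj e s
    · right
      obtain ⟨s, hs, hes⟩ := hodd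
      obtain ⟨s1, s2, s3⟩ := hD s hs
      obtain ⟨b1, b2, b3, b4, b5, b6, -⟩ := s1.facts
      have hxs : G.Adj x s := by tauto
      have even : ∀ v ∈ D0, v ≠ s → ¬ G.Adj e v ∧ G.Adj s v := by
        intro v hv hvs
        obtain ⟨v1, v2, v3⟩ := hD v hv
        obtain ⟨c1, c2, c3, c4, c5, c6, -⟩ := v1.facts
        have hxv : G.Adj x v := by tauto
        have h1 : ¬ G.Adj e v := by
          intro hev
          exact wC3iii hLC (nd7 hx he s1 v1 s2.symm v2.symm hvs.symm) bc cd a1 b1 c1 p1 p2 p3 hes hev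
            hxs hxv bd a2 b2 c2 a3 b3 c3 hxe
        refine ⟨h1, ?_⟩
        by_contra h
        exact wC4iii hLC (nd7 hx he v1 s1 v2.symm s2.symm hvs) bc cd a1 c1 b1 p1 p2 p3 hes
          hxv hxs bd a2 c2 b2 a3 c3 b3 h1 (fun h' => h h'.symm) hxe
      refine ⟨s, hs, fun v hv hvs v' hv' hvs' => ?_, fun v hv hvs v' hv' hvs' => ?_⟩
      · exact iff_of_false (even v hv hvs).1 (even v' hv' hvs').1
      · exact iff_of_true (even v hv hvs).2 (even v' hv' hvs').2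
    · push Not at hodd
      exact Or.inl fun v hv v' hv' => iff_of_false (hodd v hv) (hodd v' hv')

end Pool.Agent.H19
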