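import Pool.Agent.H19.CW.Grow2

/-! The local counting condition in prime `(q, q - 2)`-graphs. -/

namespace Pool.Agent.H19

open Finset Classical

variable {V : Type} {G : SimpleGraph V}

/-- a generated set is obtained from the previous one by a proper step -/
lemma Gen.last {T : Finset V} (h : Gen G T) : (∃ a b c d, P4 G a b c d ∧ T = {a, b, c, d}) ∨
    ∃ T' v, Gen G T' ∧ v ∉ T' ∧ Att G v T' ∧ T = insert v T' := by
  induction h with
  | @base a b c d h => exact Or.inl ⟨a, b, c, d, h, rfl⟩
  | @att T v hT h ih =>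
    by_cases hv : v ∈ T
    · rw [insert_eq_of_mem hv]; exact ih
    · exact Or.inr ⟨T, v, hT, hv, h, rfl⟩

theorem Gen.gn {T : Finset V} (h : Gen G T) : ∃ p e, GN G T p e ∧ p + 3 = T.card ∧ e + 2 = T.card := by
  induction h with
  | @base a b c d h => exact ⟨1, 2, GN.base h, by rw [h.card], by rw [h.card]⟩
  | @att T v hT h ih =>
    obtain ⟨p, e, h1, h2, h3⟩ := ih
    by_cases hv : v ∈ T
    · rw [insert_eq_of_mem hv]; exact ⟨p, e, h1, h2, h3⟩
    · refine ⟨p + 1, e + 1, GN.att h1 hv h, ?_, ?_⟩ <;> rw [card_insert_of_notMem hv] <;> omega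

lemma Gen.card_ge {T : Finset V} (h : Gen G T) : 4 ≤ T.card := by
  obtain ⟨p, e, h1, _⟩ := h.gn
  exact (gn_pn h1).2.1

/-- generated subsets of each size -/
theorem Gen.initial {T : Finset V} (h : Gen G T) : ∀ s, 4 ≤ s → s ≤ T.card →
    ∃ T', Gen G T' ∧ T' ⊆ T ∧ T'.card = s ∧
      ∀ u ∉ T, ¬ Att G u T → Nt G u T → Nt G u T' := by
  induction h with
  | @base a b c d h =>
    intro s h1 h2
    rw [h.card] at h2
    exact ⟨_, Gen.base h, Subset.refl _, by rw [h.card]; omega, fun _ _ _ h => h⟩
  | @att T v hT h ih =>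
    by_cases hv : v ∈ T
    · rw [insert_eq_of_mem hv]; exact ih
    · intro s h1 h2
      by_cases h3 : s = T.card + 1
      · exact ⟨_, Gen.att hT h, Subset.refl _, by rw [card_insert_of_notMem hv, h3],
          fun _ _ _ h => h⟩
      · rw [card_insert_of_notMem hv] at h2
        obtain ⟨T', k1, k2, k3, k4⟩ := ih s h1 (by omega)
        refine ⟨T', k1, k2.trans (subset_insert _ _), k3, fun u hu hn hN => ?_⟩
        exact k4 u (fun h => hu (mem_insert_of_mem h)) (fun h => hn (h.mono (subset_insert _ _)))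
          (nt_att h hv hu hn hN)

/-- pairs for a set are pairs for its subsets -/
lemma pair_restrict {T T' : Finset V} (h : T' ⊆ T) {x y : V}
    (hp : ((∀ t ∈ T, ¬ G.Adj y t) ∧ G.Adj x y) ∨ ((∀ t ∈ T, G.Adj y t) ∧ ¬ G.Adj x y)) :
    ((∀ t ∈ T', ¬ G.Adj y t) ∧ G.Adj x y) ∨ ((∀ t ∈ T', G.Adj y t) ∧ ¬ G.Adj x y) := by
  rcases hp with ⟨h1, h2⟩ | ⟨h1, h2⟩
  · exact Or.inl ⟨fun t ht => h1 t (h ht), h2⟩
  · exact Or.inr ⟨fun t ht => h1 t (h ht), h2⟩

/-- a pair for a generated set `T'` gives many paths -/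
lemma gen_pair_pn {T' : Finset V} (hg : Gen G T') {x y : V} (hx : x ∉ T') (hy : y ∉ T')
    (hxy : x ≠ y) (nx : ¬ Att G x T') (ny : ¬ Att G y T') (hN : Nt G x T')
    (hp : ((∀ t ∈ T', ¬ G.Adj y t) ∧ G.Adj x y) ∨ ((∀ t ∈ T', G.Adj y t) ∧ ¬ G.Adj x y)) :
    (insert y (insert x T')).card = T'.card + 2 ∧ 2 * T'.card ≤ pn G (insert y (insert x T')) + 5 ∧
      ∃ p e, GN G (insert y (insert x T')) p e ∧ e + 1 = T'.card ∧ p + 5 = 2 * T'.card := by
  obtain ⟨p, e, h1, h2, h3⟩ := hg.gn
  have hg2 := GN.pair h1 hx hy hxy nx ny hN hp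
  have h4 := (gn_pn hg2).1
  refine ⟨?_, by omega, _, _, hg2, by omega, by omega⟩
  rw [card_insert_of_notMem (by rw [mem_insert, not_or]; exact ⟨hxy.symm, hy⟩),
      card_insert_of_notMem hx]

/-- the local counting condition -/
theorem lc_of_prime [Fintype V] (hpr : Prm G) {q : ℕ} (hq : 8 ≤ q) (hQ : QG G q)
    (hn : q + 1 ≤ Fintype.card V) : LC G := by
  intro T hT hc
  by_contra hcon
  obtain ⟨p, e, hg, hp, he⟩ := hT.gn
  have h4 := hT.card_ge
  by_cases h1 : T.card ≤ q - 2
  · exact growth hpr hq hQ hn (q - 2 - T.card) hg (by omega) (by omega)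
  · by_cases h2 : T.card = q
    · have := hQ T (by omega)
      omega
    · have hTq : T.card + 1 = q := by omega
      by_cases hcl : ∀ v ∉ T, ¬ Att G v T
      · obtain ⟨x, y, hx, hy, hxy, hN, hpair⟩ := exists_pair hpr hg hcl (by omega)
        obtain ⟨T', k1, k2, k3, k4⟩ := hT.initial (q - 2) (by omega) (by omega)
        have hN' := k4 x hx (hcl x hx) hN
        obtain ⟨l1, l2, -⟩ := gen_pair_pn k1 (fun h => hx (k2 h)) (fun h => hy (k2 h)) hxy
          (fun h => hcl x hx (h.mono k2)) (fun h => hcl y hy (h.mono k2)) hN'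
          (pair_restrict k2 hpair)
        have := hQ (insert y (insert x T')) (by omega)
        omega
      · push Not at hcl
        obtain ⟨v, hv, hA⟩ := hcl
        have hpi := pn_insert hv hA
        have hc : (insert v T).card = T.card + 1 := card_insert_of_notMem hv
        have := hQ (insert v T) (by omega)
        omega

/-- nine vertices -/
theorem lc9_of_prime [Fintype V] (hpr : Prm G) {q : ℕ} (hq : 9 ≤ q) (hQ : QG G q)
    (hn : q + 1 ≤ Fintype.card V) {T : Finset V} (hT : Gen G T) (hc : T.card = 9) :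
    pn G T ≤ 8 := by
  by_contra hcon
  obtain ⟨p, e, hg, hp, he⟩ := hT.gn
  by_cases h1 : T.card ≤ q - 2
  · exact growth hpr (by omega) hQ hn (q - 2 - T.card) hg (by omega) (by omega)
  · by_cases h2 : T.card = q
    · have := hQ T (by omega)
      omega
    · have hTq : q = 10 := by omega
      obtain ⟨v, hv⟩ : ∃ v, v ∉ T := by
        by_contra hall
        push Not at hall
        have : T = univ := eq_univ_iff_forall.2 hall
        rw [this, card_univ] at hc
        omega
      have hc : (insert v T).card = T.card + 1 := card_insert_of_notMem hv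
      have := hQ (insert v T) (by omega)
      have := pn_mono (G := G) (subset_insert v T)
      omega

/-- large generated sets are never closed -/
theorem not_stuck [Fintype V] (hpr : Prm G) {q : ℕ} (hq : 8 ≤ q) (hQ : QG G q)
    (hn : q + 1 ≤ Fintype.card V) {T : Finset V} (hT : Gen G T) (hc : 6 ≤ T.card)
    (hcl : ∀ v ∉ T, ¬ Att G v T) : Fintype.card V ≤ T.card + 1 := by
  by_contra hcon
  obtain ⟨p, e, hg, hp, he⟩ := hT.gn
  obtain ⟨x, y, hx, hy, hxy, hN, hpair⟩ := exists_pair hpr hg hcl (by omega)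
  have sub : ∀ T', T' ⊆ T → x ∉ T' ∧ y ∉ T' ∧ ¬ Att G x T' ∧ ¬ Att G y T' := by
    intro T' h
    exact ⟨fun h' => hx (h h'), fun h' => hy (h h'), fun h' => hcl x hx (h'.mono h),
      fun h' => hcl y hy (h'.mono h)⟩
  by_cases hq9 : q = 9
  · by_cases h7 : 7 ≤ T.card
    · obtain ⟨T', k1, k2, k3, k4⟩ := hT.initial 7 (by omega) h7
      obtain ⟨s1, s2, s3, s4⟩ := sub T' k2
      obtain ⟨l1, l2, -⟩ := gen_pair_pn k1 s1 s2 hxy s3 s4 (k4 x hx (hcl x hx) hN)
        (pair_restrict k2 hpair)
      have := hQ (insert y (insert x T')) (by omega)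
      omega
    · have h6 : T.card = 6 := by omega
      obtain ⟨l1, l2, p', e', hg', -⟩ := gen_pair_pn hT hx hy hxy (hcl x hx) (hcl y hy) hN hpair
      set S := insert y (insert x T) with hS
      by_cases hcl2 : ∀ w ∉ S, ¬ Att G w S
      · obtain ⟨x', y', hx', hy', hxy', hN', hpair'⟩ := exists_pair hpr hg' hcl2 (by omega)
        -- remove the last vertex of `T`
        rcases hT.last with ⟨a, b, c, d, hP, rfl⟩ | ⟨T5, v, k1, k2, k3, k4⟩
        · rw [hP.card] at h6; omega
        · have hT5 : T5 ⊆ T := by rw [k4]; exact subset_insert _ _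
          have c5 : T5.card = 5 := by
            rw [k4, card_insert_of_notMem k2] at h6; omega
          obtain ⟨s1, s2, s3, s4⟩ := sub T5 hT5
          have hN5 : Nt G x T5 := by
            apply nt_att k3 k2 (by rw [← k4]; exact hx) (by rw [← k4]; exact hcl x hx)
            rw [← k4]; exact hN
          obtain ⟨m1, m2, p5, e5, hg5, m3, m4⟩ := gen_pair_pn k1 s1 s2 hxy s3 s4 hN5
            (pair_restrict hT5 hpair)
          set S5 := insert y (insert x T5) with hS5
          have hSS : S = insert v S5 := by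
            rw [hS, hS5, k4]
            ext z; simp only [mem_insert]; tauto
          have hvx : v ≠ x := by
            rintro rfl; exact hx (by rw [k4]; exact mem_insert_self _ _)
          have hvy : v ≠ y := by
            rintro rfl; exact hy (by rw [k4]; exact mem_insert_self _ _)
          have hvS5 : v ∉ S5 := by
            rw [hS5, mem_insert, mem_insert, not_or, not_or]; exact ⟨hvy, hvx, k2⟩
          have hT5S5 : T5 ⊆ S5 := (subset_insert _ _).trans (subset_insert _ _)
          have hS5S : S5 ⊆ S := by rw [hSS]; exact subset_insert _ _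
          have hN'' : Nt G x' S5 := by
            apply nt_att (k3.mono hT5S5) hvS5 (by rw [← hSS]; exact hx')
              (by rw [← hSS]; exact hcl2 x' hx')
            rw [← hSS]; exact hN'
          have hx5 : x' ∉ S5 := fun h => hx' (hS5S h)
          have hy5 : y' ∉ S5 := fun h => hy' (hS5S h)
          have hg9 := GN.pair hg5 hx5 hy5 hxy' (fun h => hcl2 x' hx' (h.mono hS5S))
            (fun h => hcl2 y' hy' (h.mono hS5S)) hN'' (pair_restrict hS5S hpair')
          have h9 := (gn_pn hg9).1
          have hc9 : (insert y' (insert x' S5)).card = S5.card + 2 := by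
            rw [card_insert_of_notMem (by rw [mem_insert, not_or]; exact ⟨hxy'.symm, hy5⟩),
              card_insert_of_notMem hx5]
          have := hQ (insert y' (insert x' S5)) (by omega)
          omega
      · push Not at hcl2
        obtain ⟨w, hw, hA⟩ := hcl2
        have hpi := pn_insert hw hA
        have hc : (insert w S).card = S.card + 1 := card_insert_of_notMem hw
        have := hQ (insert w S) (by omega)
        omega
  · obtain ⟨T', k1, k2, k3, k4⟩ := hT.initial 6 (by omega) hc
    obtain ⟨s1, s2, s3, s4⟩ := sub T' k2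
    obtain ⟨l1, l2, p', e', hg', -⟩ := gen_pair_pn k1 s1 s2 hxy s3 s4 (k4 x hx (hcl x hx) hN)
      (pair_restrict k2 hpair)
    by_cases hq8 : q = 8
    · have := hQ (insert y (insert x T')) (by omega)
      omega
    · exact growth hpr hq hQ hn (q - 2 - 8) hg' (by omega) (by omega)

end Pool.Agent.H19
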