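import Pool.Agent.H19.CW.Dt
import Pool.Agent.H19.CW.Grow3

/-! Large classes of equally attached vertices give spiders, continued. -/

namespace Pool.Agent.H19

open Finset Classical

variable {V : Type} {G : SimpleGraph V}

/-- greedy independent sets -/
lemma greedy {α : Type} (R : α → α → Prop) (hs : ∀ a b, R a b → R b a) : ∀ (n : ℕ) (E : Finset α),
    E.card = n → (∀ a ∈ E, (E.filter (R a)).card ≤ 2) →
    ∃ I ⊆ E, E.card ≤ 3 * I.card ∧ ∀ a ∈ I, ∀ b ∈ I, a ≠ b → ¬ R a b := by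
  intro n
  induction n using Nat.strong_induction_on with
  | _ n ih =>
    intro E hE hd
    rcases E.eq_empty_or_nonempty with rfl | ⟨a, ha⟩
    · exact ⟨∅, by simp, by simp, by simp⟩
    · let E' := E \ (insert a (E.filter (R a)))
      have hE' : E' ⊆ E := sdiff_subset
      have hc : E.card ≤ E'.card + 3 := by
        have h1 : (insert a (E.filter (R a))).card ≤ 3 :=
          (card_insert_le _ _).trans (by have := hd a ha; omega)
        have h2 := le_card_sdiff (insert a (E.filter (R a))) E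
        show E.card ≤ (E \ (insert a (E.filter (R a)))).card + 3
        omega
      have haE' : a ∉ E' := by simp [E']
      have hlt : E'.card < E.card := card_lt_card ⟨hE', fun h => haE' (h ha)⟩
      obtain ⟨I, h1, h2, h3⟩ := ih E'.card (hE ▸ hlt) E' rfl (fun b hb =>
        (card_le_card (filter_subset_filter _ hE')).trans (hd b (hE' hb)))
      refine ⟨insert a I, insert_subset ha (h1.trans hE'), ?_, ?_⟩
      · rw [card_insert_of_notMem (fun h => haE' (h1 h))]
        omega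
      · have key : ∀ b ∈ I, ¬ R a b := by
          intro b hb hR
          have := h1 hb
          simp only [E', mem_sdiff, mem_insert, mem_filter, not_or, not_and] at this
          exact this.2.2 this.1 hR
        intro u hu v hv huv
        rcases mem_insert.1 hu with hu' | hu' <;> rcases mem_insert.1 hv with hv' | hv'
        · exact absurd (hu'.trans hv'.symm) huv
        · rw [hu']; exact key v hv'
        · rw [hv']; exact fun h => key u hu' (hs _ _ h)
        · exact h3 u hu' v hv' huv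

/-- mismatch -/
def Mis (G : SimpleGraph V) (b c d x u : V) : Prop := ¬ (G.Adj x u ↔ Fl G b c d x)

lemma three_mis (hLC : LC G) {b c d x u1 u2 u3 : V} (hx : Out G b c d x) (h1 : P4 G u1 b c d)
    (h2 : P4 G u2 b c d) (h3 : P4 G u3 b c d) (h12 : u1 ≠ u2) (h13 : u1 ≠ u3) (h23 : u2 ≠ u3)
    (l1 : Mis G b c d x u1) (l2 : Mis G b c d x u2) (l3 : Mis G b c d x u3) : False :=
  three_lk hLC hx h1 h2 h3 h12 h13 h23 (lk_of_mis hx h1 l1) (lk_of_mis hx h2 l2)
    (lk_of_mis hx h3 l3)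

/-- the class -/
noncomputable def DD (G : SimpleGraph V) [Fintype V] (b c d : V) : Finset V :=
  univ.filter (fun v => P4 G v b c d)

lemma mem_DD [Fintype V] {b c d v : V} : v ∈ DD G b c d ↔ P4 G v b c d := by simp [DD]

lemma card_two_of {α : Type} {s : Finset α} (h : ∀ a ∈ s, ∀ b ∈ s, ∀ c ∈ s, a ≠ b → a ≠ c → b ≠ c → False) :
    s.card ≤ 2 := by
  by_contra hcon
  push Not at hcon
  obtain ⟨a, b, c, ha, hb, hc, hab, hac, hbc⟩ := two_lt_card_iff.1 hcon
  exact h a ha b hb c hc hab hac hbc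

lemma card_one_of {α : Type} {s : Finset α} (h : ∀ a ∈ s, ∀ b ∈ s, a = b) :
    s.card ≤ 1 := card_le_one.2 h

/-- a vertex outside is good when the class is large -/
lemma gd_of_card [Fintype V] (hLC : LC G) {b c d x : V} (hx : Out G b c d x)
    (hD : 3 ≤ (DD G b c d).card) : Gd G b c d x := by
  by_contra hcon
  have : (DD G b c d).card ≤ 2 := by
    apply card_two_of
    intro u hu v hv w hw h1 h2 h3
    rw [mem_DD] at hu hv hw
    exact three_lk hLC hx hu hv hw h1 h2 h3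
      (by by_contra h; exact hcon (gd_of_not_lk hx hu h))
      (by by_contra h; exact hcon (gd_of_not_lk hx hv h))
      (by by_contra h; exact hcon (gd_of_not_lk hx hw h))
  omega

/-- pattern of a mismatching vertex -/
lemma pt_of_mis [Fintype V] (hLC : LC G) {b c d x e : V} (hx : Out G b c d x)
    (hD : 3 ≤ (DD G b c d).card) (he : P4 G e b c d) (hm : Mis G b c d x e) :
    ∃ k, Pt G b c d k x := by
  rcases gd_of_card hLC hx hD with h | h | h | h
  · exact ⟨0, h⟩
  · exfalso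
    have := no_c5 hLC hx he h.1 h.2.1 h.2.2
    have hF : ¬ Fl G b c d x := fun h' => h.1 h'.1
    exact hm (by tauto)
  · exact ⟨1, h⟩
  · exact ⟨2, h⟩

/-- the exceptional vertices of the class -/
noncomputable def EE (G : SimpleGraph V) [Fintype V] (b c d : V) : Finset V :=
  (DD G b c d).filter (fun e => ∃ x, Out G b c d x ∧ Mis G b c d x e)

lemma dd_card [Fintype V] (hP : Prm G) (hLC : LC G) {b c d : V} (hD : 3 ≤ (DD G b c d).card) :
    (DD G b c d).card ≤ 2 * (EE G b c d).card + 1 := by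
  obtain ⟨u0, hu0⟩ : (DD G b c d).Nonempty := card_pos.1 (by omega)
  rw [mem_DD] at hu0
  obtain ⟨a1, a2, a3, a4, a5, a6, bc, cd, bd, nbc, ncd, nbd⟩ := hu0.facts
  set D0 := DD G b c d \ EE G b c d with hD0
  have memD0 : ∀ v, v ∈ D0 ↔ P4 G v b c d ∧ ∀ x, Out G b c d x → ¬ Mis G b c d x v := by
    intro v
    simp only [hD0, mem_sdiff, mem_DD, EE, mem_filter, not_and, not_exists]
    constructor
    · rintro ⟨h1, h2⟩
      exact ⟨h1, fun x hx => h2 h1 x hx⟩
    · rintro ⟨h1, h2⟩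
      exact ⟨h1, fun _ x hx => h2 x hx⟩
  -- choice of the odd vertex
  have hex : ∀ e ∈ EE G b c d, ∃ s, (∀ v ∈ D0, v ≠ s → ∀ v' ∈ D0, v' ≠ s → (G.Adj e v ↔ G.Adj e v')) ∧
      (s ∈ D0 → ∀ v ∈ D0, v ≠ s → ∀ v' ∈ D0, v' ≠ s → (G.Adj s v ↔ G.Adj s v')) := by
    intro e he
    obtain ⟨he1, x, hx, hm⟩ := mem_filter.1 he
    rw [mem_DD] at he1
    have hcond : ∀ v ∈ D0, P4 G v b c d ∧ v ≠ e ∧ (G.Adj x v ↔ Fl G b c d x) := by
      intro v hv
      obtain ⟨h1, h2⟩ := (memD0 v).1 hv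
      refine ⟨h1, ?_, ?_⟩
      · rintro rfl; exact h2 x hx hm
      · have := h2 x hx
        unfold Mis at this
        tauto
    rcases odd_vertex hLC hx he1 (gd_of_card hLC hx hD) hm hcond with h | ⟨s, hs, h1, h2⟩
    · refine ⟨e, fun v hv _ v' hv' _ => h v hv v' hv', fun hs => ?_⟩
      exact absurd rfl (hcond e hs).2.1
    · exact ⟨s, h1, fun _ => h2⟩
  choose! f hf1 hf2 using hex
  set F := (EE G b c d).image f with hF
  have hMod : Mod G (D0 \ F) := by
    intro z hz v hv v' hv'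
    rw [mem_sdiff] at hv hv'
    obtain ⟨v1, v2⟩ := (memD0 v).1 hv.1
    obtain ⟨w1, w2⟩ := (memD0 v').1 hv'.1
    have hvF : ∀ e ∈ EE G b c d, v ≠ f e := by
      rintro e he rfl; exact hv.2 (mem_image_of_mem _ he)
    have hwF : ∀ e ∈ EE G b c d, v' ≠ f e := by
      rintro e he rfl; exact hv'.2 (mem_image_of_mem _ he)
    obtain ⟨p1, p2, p3, -⟩ := v1.facts
    obtain ⟨q1, q2, q3, -⟩ := w1.facts
    by_cases zb : z = b
    · subst zb; exact iff_of_true p1 q1
    by_cases zc : z = c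
    · subst zc; exact iff_of_false p2 q2
    by_cases zd : z = d
    · subst zd; exact iff_of_false p3 q3
    by_cases zD : P4 G z b c d
    · by_cases zE : z ∈ EE G b c d
      · exact hf1 z zE v hv.1 (hvF z zE) v' hv'.1 (hwF z zE)
      · have zD0 : z ∈ D0 := mem_sdiff.2 ⟨mem_DD.2 zD, zE⟩
        have zF : z ∈ F := by
          by_contra h; exact hz (mem_sdiff.2 ⟨zD0, h⟩)
        obtain ⟨e, he, hez⟩ := mem_image.1 zF
        have := hf2 e he (hez ▸ zD0) v hv.1 (hvF e he) v' hv'.1 (hwF e he)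
        rw [hez] at this
        exact this
    · have hx : Out G b c d z := ⟨zb, zc, zd, zD⟩
      have h1 := v2 z hx
      have h2 := w2 z hx
      unfold Mis at h1 h2
      rw [not_not] at h1 h2
      rw [h1, h2]
  have h1 : (D0 \ F).card ≤ 1 := by
    rcases hP _ hMod with h | h
    · exact h
    · exfalso
      have : b ∈ D0 \ F := by rw [h]; exact mem_univ _
      have := ((memD0 b).1 (mem_sdiff.1 this).1).1.1.ne
      exact this rfl
  have h2 : F.card ≤ (EE G b c d).card := card_image_le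
  have h3 := le_card_sdiff F D0
  have h4 := le_card_sdiff (EE G b c d) (DD G b c d)
  rw [← hD0] at h4
  omega

/-- the structure of a large class -/
theorem class_pattern [Fintype V] (hP : Prm G) (hLC : LC G) {b c d : V} {r : ℕ}
    (hD : 18 * r + 4 ≤ (DD G b c d).card) :
    ∃ (k : Fin 3) (I : Finset V) (x : V → V), r ≤ I.card ∧
      (∀ e ∈ I, P4 G e b c d ∧ Out G b c d (x e) ∧ Pt G b c d k (x e) ∧ (G.Adj (x e) e ↔ k ≠ 2)) ∧
      (∀ e ∈ I, ∀ e' ∈ I, e ≠ e' → x e ≠ x e' ∧ (G.Adj (x e) e' ↔ k = 2) ∧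
        (G.Adj e e' ↔ k = 0) ∧ (G.Adj (x e) (x e') ↔ k ≠ 0)) := by
  have hD3 : 3 ≤ (DD G b c d).card := by omega
  have hE := dd_card hP hLC hD3
  have hex : ∀ e ∈ EE G b c d, ∃ x, Out G b c d x ∧ Mis G b c d x e := by
    intro e he
    exact (mem_filter.1 he).2
  have hED : ∀ e ∈ EE G b c d, P4 G e b c d := fun e he => mem_DD.1 (mem_filter.1 he).1
  choose! x hx1 hx2 using hex
  -- conflicts
  let R : V → V → Prop := fun e e' => e ≠ e' ∧ (Mis G b c d (x e) e' ∨ Mis G b c d (x e') e)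
  have hRs : ∀ a b, R a b → R b a := fun a b h => ⟨h.1.symm, h.2.symm⟩
  have hdeg : ∀ a ∈ EE G b c d, ((EE G b c d).filter (R a)).card ≤ 2 := by
    intro a ha
    have h1 : ((EE G b c d).filter (fun e' => a ≠ e' ∧ Mis G b c d (x a) e')).card ≤ 1 := by
      apply card_one_of
      intro u hu v hv
      rw [mem_filter] at hu hv
      by_contra huv
      exact three_mis hLC (hx1 a ha) (hED a ha) (hED u hu.1) (hED v hv.1) hu.2.1 hv.2.1 huv
        (hx2 a ha) hu.2.2 hv.2.2
    have h2 : ((EE G b c d).filter (fun e' => a ≠ e' ∧ Mis G b c d (x e') a)).card ≤ 1 := by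
      apply card_one_of
      intro u hu v hv
      rw [mem_filter] at hu hv
      by_contra huv
      by_cases hxx : x u = x v
      · exact three_mis hLC (hx1 u hu.1) (hED a ha) (hED u hu.1) (hED v hv.1) hu.2.1 hv.2.1 huv
          hu.2.2 (hx2 u hu.1) (hxx ▸ hx2 v hv.1)
      · obtain ⟨a1, a2, a3, a4, a5, a6, bc, cd, bd, nbc, ncd, nbd⟩ := (hED a ha).facts
        obtain ⟨b1, b2, b3, b4, b5, b6, -⟩ := (hED u hu.1).facts
        obtain ⟨c1, c2, c3, c4, c5, c6, -⟩ := (hED v hv.1).facts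
        obtain ⟨x1, x2, x3, -⟩ := hx1 u hu.1
        obtain ⟨y1, y2, y3, -⟩ := hx1 v hv.1
        have g1 := out_ne (hx1 u hu.1) (hED a ha)
        have g2 := out_ne (hx1 u hu.1) (hED u hu.1)
        have g3 := out_ne (hx1 u hu.1) (hED v hv.1)
        have g4 := out_ne (hx1 v hv.1) (hED a ha)
        have g5 := out_ne (hx1 v hv.1) (hED u hu.1)
        have g6 := out_ne (hx1 v hv.1) (hED v hv.1)
        refine wC5 hLC (a0 := b) (a1 := c) (a2 := d) (a3 := a) (a4 := u) (a5 := v) (a6 := x u)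
          (a7 := x v) ?_ bc cd a1 b1 c1 bd a2 b2 c2 a3 b3 c3
          (lk_of_mis (hx1 u hu.1) (hED a ha) hu.2.2) (lk_of_mis (hx1 u hu.1) (hED u hu.1) (hx2 u hu.1))
          (lk_of_mis (hx1 v hv.1) (hED a ha) hv.2.2) (lk_of_mis (hx1 v hv.1) (hED v hv.1) (hx2 v hv.1))
        simp only [List.nodup_cons, List.mem_cons, not_or, List.not_mem_nil, not_false_eq_true,
          and_true, List.nodup_nil]
        exact ⟨⟨nbc, nbd, a4.symm, b4.symm, c4.symm, x1.symm, y1.symm⟩,
          ⟨ncd, a5.symm, b5.symm, c5.symm, x2.symm, y2.symm⟩,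
          ⟨a6.symm, b6.symm, c6.symm, x3.symm, y3.symm⟩,
          ⟨hu.2.1, hv.2.1, g1.symm, g4.symm⟩, ⟨huv, g2.symm, g5.symm⟩, ⟨g3.symm, g6.symm⟩, hxx⟩
    have h3 : (EE G b c d).filter (R a) ⊆
        ((EE G b c d).filter (fun e' => a ≠ e' ∧ Mis G b c d (x a) e')) ∪
        ((EE G b c d).filter (fun e' => a ≠ e' ∧ Mis G b c d (x e') a)) := by
      intro e he
      obtain ⟨h1, h2, h3⟩ := mem_filter.1 he
      rw [mem_union, mem_filter, mem_filter]
      rcases h3 with h3 | h3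
      · exact Or.inl ⟨h1, h2, h3⟩
      · exact Or.inr ⟨h1, h2, h3⟩
    have := (card_le_card h3).trans (card_union_le _ _)
    omega
  obtain ⟨I0, hI1, hI2, hI3⟩ := greedy R hRs _ (EE G b c d) rfl
    (fun a ha => by convert hdeg a ha)
  -- patterns
  have hpt : ∀ e ∈ EE G b c d, ∃ k, Pt G b c d k (x e) := fun e he =>
    pt_of_mis hLC (hx1 e he) hD3 (hED e he) (hx2 e he)
  choose! k hk using hpt
  obtain ⟨k0, hk0⟩ : ∃ k0, r ≤ (I0.filter (fun e => k e = k0)).card := by
    by_contra hcon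
    push Not at hcon
    have h1 := card_eq_sum_card_fiberwise (s := I0) (t := (univ : Finset (Fin 3))) (f := k)
      (fun _ _ => mem_coe.2 (mem_univ _))
    rw [Fin.sum_univ_three] at h1
    have := hcon 0; have := hcon 1; have := hcon 2
    omega
  set I := I0.filter (fun e => k e = k0) with hI
  have hIE : ∀ e ∈ I, e ∈ EE G b c d := fun e he => hI1 (mem_filter.1 he).1
  have hIk : ∀ e ∈ I, Pt G b c d k0 (x e) := by
    intro e he
    have := hk e (hIE e he)
    rwa [(mem_filter.1 he).2] at this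
  have hFl : ∀ e ∈ I, (Fl G b c d (x e) ↔ k0 = 2) := by
    intro e he
    have h := hIk e he
    unfold Fl
    fin_cases k0 <;> simp only [Pt] at h
    · exact iff_of_false (fun h' => h.1 h'.1) (by decide)
    · exact iff_of_false (fun h' => h.2.2 h'.2.2) (by decide)
    · exact iff_of_true h (by decide)
  have h4 : ∀ e ∈ I, (G.Adj (x e) e ↔ k0 ≠ 2) := by
    intro e he
    have h1 := hx2 e (hIE e he)
    have h2 := hFl e he
    unfold Mis at h1
    tauto
  have h5 : ∀ e ∈ I, ∀ e' ∈ I, e ≠ e' → (G.Adj (x e) e' ↔ k0 = 2) := by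
    intro e he e' he' hne
    have h1 := hI3 e (mem_filter.1 he).1 e' (mem_filter.1 he').1 hne
    have h2 := hFl e he
    simp only [R, Mis, not_and, not_or] at h1
    have := (h1 hne).1
    tauto
  have hxx : ∀ e ∈ I, ∀ e' ∈ I, e ≠ e' → x e ≠ x e' := by
    intro e he e' he' hne h
    have h1 := h5 e he e' he' hne
    have h2 := h4 e' he'
    rw [h] at h1
    tauto
  refine ⟨k0, I, x, hk0, fun e he => ⟨hED e (hIE e he), hx1 e (hIE e he), hIk e he, h4 e he⟩, ?_⟩
  intro e he e' he' hne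
  refine ⟨hxx e he e' he' hne, h5 e he e' he' hne, ?_⟩
  have X := hxx e he e' he' hne
  have r1 := h5 e he e' he' hne
  have r2 := h5 e' he' e he hne.symm
  have r3 := h4 e he
  have r4 := h4 e' he'
  have P := hIk e he
  have P' := hIk e' he'
  obtain ⟨a1, a2, a3, a4, a5, a6, bc, cd, bd, nbc, ncd, nbd⟩ := (hED e (hIE e he)).facts
  obtain ⟨b1, b2, b3, b4, b5, b6, -⟩ := (hED e' (hIE e' he')).facts
  obtain ⟨x1, x2, x3, -⟩ := hx1 e (hIE e he)
  obtain ⟨y1, y2, y3, -⟩ := hx1 e' (hIE e' he')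
  have g1 := out_ne (hx1 e (hIE e he)) (hED e (hIE e he))
  have g2 := out_ne (hx1 e (hIE e he)) (hED e' (hIE e' he'))
  have g3 := out_ne (hx1 e' (hIE e' he')) (hED e (hIE e he))
  have g4 := out_ne (hx1 e' (hIE e' he')) (hED e' (hIE e' he'))
  have nd : [b, c, d, e, e', x e, x e'].Nodup := by
    simp only [List.nodup_cons, List.mem_cons, not_or, List.not_mem_nil, not_false_eq_true,
      and_true, List.nodup_nil]
    exact ⟨⟨nbc, nbd, a4.symm, b4.symm, x1.symm, y1.symm⟩,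
      ⟨ncd, a5.symm, b5.symm, x2.symm, y2.symm⟩, ⟨a6.symm, b6.symm, x3.symm, y3.symm⟩,
      ⟨hne, g1.symm, g3.symm⟩, ⟨g2.symm, g4.symm⟩, X⟩
  fin_cases k0 <;> simp only [Pt] at P P' <;> simp at r1 r2 r3 r4
  · -- pattern 0
    obtain ⟨P1, P2, P3⟩ := P
    obtain ⟨Q1, Q2, Q3⟩ := P'
    have t1 : G.Adj e e' := by
      by_contra h
      exact wC6ia hLC nd bc cd a1 b1 r3 r4 bd a2 b2 a3 b3 P1 P2 P3 Q1 Q2 Q3 r1 r2 h
    have t2 : ¬ G.Adj (x e) (x e') := by
      intro h
      exact wC6ib hLC nd bc cd a1 b1 r3 r4 h bd a2 b2 a3 b3 P1 P2 P3 Q1 Q2 Q3 r1 r2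
    exact ⟨iff_of_true t1 rfl, iff_of_false t2 (by simp)⟩
  · obtain ⟨P1, P2, P3⟩ := P
    obtain ⟨Q1, Q2, Q3⟩ := P'
    have t1 : ¬ G.Adj e e' := by
      intro h
      exact wC6iia hLC nd bc cd a1 b1 P1 P2 Q1 Q2 r3 r4 h bd a2 b2 a3 b3 P3 Q3 r1 r2
    have t2 : G.Adj (x e) (x e') := by
      by_contra h
      exact wC6iib hLC nd bc cd a1 b1 P1 P2 Q1 Q2 r3 r4 bd a2 b2 a3 b3 P3 Q3 r1 r2 h
    exact ⟨iff_of_false t1 (by decide), iff_of_true t2 (by decide)⟩
  · obtain ⟨P1, P2, P3⟩ := P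
    obtain ⟨Q1, Q2, Q3⟩ := P'
    have t1 : ¬ G.Adj e e' := by
      intro h
      exact wC6iiia hLC nd bc cd a1 b1 P1 P2 P3 Q1 Q2 Q3 r1 r2 h bd a2 b2 a3 b3 r3 r4
    have t2 : G.Adj (x e) (x e') := by
      by_contra h
      exact wC6iiib hLC nd bc cd a1 b1 P1 P2 P3 Q1 Q2 Q3 r1 r2 bd a2 b2 a3 b3 r3 r4 h
    exact ⟨iff_of_false t1 (by decide), iff_of_true t2 (by decide)⟩

end Pool.Agent.H19
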