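import Pool.Agent.H19.CW.Dt2
import Pool.Agent.H19.CW.Branch2

/-! Spiders, and the bound on classes for `q ≥ 9`. -/

namespace Pool.Agent.H19

open Finset Classical

variable {V : Type} {G : SimpleGraph V}

/-- two legs of a spider -/
def Sp2 (G : SimpleGraph V) (τ : Prop) (p p' : V × V) : Prop :=
  G.Adj p.1 p'.1 ∧ ¬ G.Adj p.2 p'.2 ∧ p.2 ≠ p'.2 ∧ p.1 ≠ p.2 ∧ p'.1 ≠ p'.2 ∧
    (G.Adj p.1 p.2 ↔ τ) ∧ (G.Adj p'.1 p'.2 ↔ τ) ∧ (G.Adj p.1 p'.2 ↔ ¬ τ) ∧ (G.Adj p'.1 p.2 ↔ ¬ τ)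

/-- spiders as sets of legs -/
def Spider (G : SimpleGraph V) (τ : Prop) (F : Finset (V × V)) : Prop :=
  ∀ p ∈ F, ∀ p' ∈ F, p ≠ p' → Sp2 G τ p p'

/-- a large class gives a large spider -/
theorem class_spider [Fintype V] (hP : Prm G) (hLC : LC G) {b c d : V} {r : ℕ}
    (hD : 18 * r + 4 ≤ (DD G b c d).card) : ∃ τ F, Spider G τ F ∧ r ≤ F.card := by
  obtain ⟨k, I, x, h1, h2, h3⟩ := class_pattern hP hLC hD
  have ne : ∀ e ∈ I, ∀ e' ∈ I, x e ≠ e' := fun e he e' he' => out_ne (h2 e he).2.1 (h2 e' he').1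
  by_cases hk : k = 0
  · subst hk
    refine ⟨True, I.image (fun e => (e, x e)), ?_, ?_⟩
    · intro p hp p' hp' hne
      obtain ⟨e, he, rfl⟩ := mem_image.1 hp
      obtain ⟨e', he', rfl⟩ := mem_image.1 hp'
      have hee : e ≠ e' := fun h => hne (by rw [h])
      obtain ⟨a1, a2, a3, a4⟩ := h3 e he e' he' hee
      obtain ⟨b1, b2, b3, b4⟩ := h3 e' he' e he hee.symm
      have c1 := (h2 e he).2.2.2
      have c2 := (h2 e' he').2.2.2
      simp only [ne_eq, not_true_eq_false, iff_false, iff_true, Fin.isValue, Fin.reduceEq,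
        not_false_eq_true] at a2 a3 a4 b2 b3 b4 c1 c2
      refine ⟨a3, a4, a1, (ne e he e he).symm, (ne e' he' e' he').symm, iff_of_true c1.symm trivial,
        iff_of_true c2.symm trivial, ?_, ?_⟩
      · exact iff_of_false (fun h => b2 h.symm) (by simp)
      · exact iff_of_false (fun h => a2 h.symm) (by simp)
    · rw [card_image_of_injective _ (fun a b h => by simpa using (Prod.ext_iff.1 h).1)]
      exact h1
  · refine ⟨(k = 1), I.image (fun e => (x e, e)), ?_, ?_⟩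
    · intro p hp p' hp' hne
      obtain ⟨e, he, rfl⟩ := mem_image.1 hp
      obtain ⟨e', he', rfl⟩ := mem_image.1 hp'
      have hee : e ≠ e' := fun h => hne (by rw [h])
      obtain ⟨a1, a2, a3, a4⟩ := h3 e he e' he' hee
      obtain ⟨b1, b2, b3, b4⟩ := h3 e' he' e he hee.symm
      have c1 := (h2 e he).2.2.2
      have c2 := (h2 e' he').2.2.2
      have k12 : k = 1 ↔ k ≠ 2 := by revert hk; fin_cases k <;> simp
      refine ⟨a4.2 hk, fun h => hk (a3.1 h), hee, ne e he e he, ne e' he' e' he', ?_, ?_, ?_, ?_⟩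
      · rw [k12]; exact c1
      · rw [k12]; exact c2
      · rw [k12, not_not]; exact a2
      · rw [k12, not_not]; exact b2
    · rw [card_image_of_injective _ (fun a b h => by simpa using (Prod.ext_iff.1 h).2)]
      exact h1

lemma gen_list {w : ℕ → V} {n : ℕ} (hw : ∀ i < n, ∀ j < n, w i = w j → i = j) {q : Qd}
    {l : List Qd} (hlt : ∀ p ∈ q :: l, p.1 < n ∧ p.2.1 < n ∧ p.2.2.1 < n ∧ p.2.2.2 < n)
    (hp : ∀ p ∈ q :: l, P4 G (w p.1) (w p.2.1) (w p.2.2.1) (w p.2.2.2)) (h2 : pw (q :: l) = true)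
    {acc : List ℕ} (hs : stps [q.1, q.2.1, q.2.2.1, q.2.2.2] l = some acc) :
    Gen G (ls w acc) ∧ (q :: l).length ≤ pn G (ls w acc) := by
  have hnd := pw_sound hw hlt h2
  have hb : ls w [q.1, q.2.1, q.2.2.1, q.2.2.2] = {w q.1, w q.2.1, w q.2.2.1, w q.2.2.2} := by
    simp [ls]
  have hg : Gen G (ls w [q.1, q.2.1, q.2.2.1, q.2.2.2]) := by
    rw [hb]; exact Gen.base (hp q List.mem_cons_self)
  obtain ⟨k1, k2, k3⟩ := stps_sound (fun p hp' => hp p (List.mem_cons_of_mem _ hp')) hg hs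
  refine ⟨k1, ?_⟩
  apply pn_ge _ hnd
  intro p hp'
  refine ⟨(hp p hp').isP4, ?_⟩
  rcases List.mem_cons.1 hp' with rfl | hp''
  · refine Subset.trans ?_ k3
    rw [hb]; exact Subset.refl _
  · exact k2 p hp''

/-- nine paths in nine vertices -/
lemma nine (h9 : ∀ T : Finset V, Gen G T → T.card = 9 → pn G T ≤ 8) (vs : List V)
    (hnd : vs.Nodup) (hlen : vs.length = 9) (z : V) {q : Qd} {l : List Qd}
    (hL : l.length = 8)
    (hp : ∀ p ∈ q :: l, P4 G (vs.getD p.1 z) (vs.getD p.2.1 z) (vs.getD p.2.2.1 z)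
      (vs.getD p.2.2.2 z))
    (hlt : ∀ p ∈ q :: l, p.1 < 9 ∧ p.2.1 < 9 ∧ p.2.2.1 < 9 ∧ p.2.2.2 < 9)
    (h2 : pw (q :: l) = true) {acc : List ℕ}
    (hs : stps [q.1, q.2.1, q.2.2.1, q.2.2.2] l = some acc) (hacc : acc.length = 9)
    (haccnd : acc.Nodup) (hacclt : ∀ i ∈ acc, i < 9) : False := by
  have hw : ∀ i < 9, ∀ j < 9, vs.getD i z = vs.getD j z → i = j := by
    intro i hi j hj h
    rw [← hlen] at hi hj
    simp only [List.getD_eq_getElem?_getD, List.getElem?_eq_getElem hi, List.getElem?_eq_getElem hj,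
      Option.getD_some] at h
    exact (List.Nodup.getElem_inj_iff hnd).1 h
  obtain ⟨h3, h4⟩ := gen_list (G := G) (w := fun i => vs.getD i z) (n := 9) hw hlt hp h2 hs
  have hc : (ls (fun i => vs.getD i z) acc).card = 9 := by
    unfold ls
    rw [List.toFinset_card_of_nodup, List.length_map, hacc]
    rw [List.nodup_map_iff_inj_on haccnd]
    intro i hi j hj h
    exact hw i (hacclt i hi) j (hacclt j hj) h
  have := h9 _ h3 hc
  simp only [List.length_cons, hL] at h4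
  omega

/-- classes are small when nine-vertex generated sets have few `P₄`s -/
theorem class_le9 [Fintype V] (hP : Prm G) (hLC : LC G)
    (h9 : ∀ T : Finset V, Gen G T → T.card = 9 → pn G T ≤ 8) (b c d : V) :
    (DD G b c d).card ≤ 57 := by
  by_contra hcon
  obtain ⟨k, I, x, h1, h2, h3⟩ := class_pattern (r := 3) hP hLC (b := b) (c := c) (d := d) (by omega)
  obtain ⟨e1, e2, e3, m1, m2, m3, n12, n13, n23⟩ := two_lt_card_iff.1 h1
  obtain ⟨p1, o1, t1, u1⟩ := h2 e1 m1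
  obtain ⟨p2, o2, t2, u2⟩ := h2 e2 m2
  obtain ⟨p3, o3, t3, u3⟩ := h2 e3 m3
  obtain ⟨w12, r12, s12, v12⟩ := h3 e1 m1 e2 m2 n12
  obtain ⟨w13, r13, s13, v13⟩ := h3 e1 m1 e3 m3 n13
  obtain ⟨w23, r23, s23, v23⟩ := h3 e2 m2 e3 m3 n23
  obtain ⟨-, r21, -, -⟩ := h3 e2 m2 e1 m1 n12.symm
  obtain ⟨-, r31, -, -⟩ := h3 e3 m3 e1 m1 n13.symm
  obtain ⟨-, r32, -, -⟩ := h3 e3 m3 e2 m2 n23.symm
  have q11 := out_ne o1 p1
  have q12 := out_ne o1 p2
  have q13 := out_ne o1 p3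
  have q21 := out_ne o2 p1
  have q22 := out_ne o2 p2
  have q23 := out_ne o2 p3
  have q31 := out_ne o3 p1
  have q32 := out_ne o3 p2
  have q33 := out_ne o3 p3
  obtain ⟨a1, a2, a3, a4, a5, a6, bc, cd, bd, nbc, ncd, nbd⟩ := p1.facts
  obtain ⟨b1, b2, b3, b4, b5, b6, -⟩ := p2.facts
  obtain ⟨c1, c2, c3, c4, c5, c6, -⟩ := p3.facts
  obtain ⟨y11, y12, y13, -⟩ := o1
  obtain ⟨y21, y22, y23, -⟩ := o2
  obtain ⟨y31, y32, y33, -⟩ := o3
  generalize x e1 = x1 at *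
  generalize x e2 = x2 at *
  generalize x e3 = x3 at *
  have nd : [b, c, d, e1, x1, e2, x2, e3, x3].Nodup := by
    simp only [List.nodup_cons, List.mem_cons, not_or, List.not_mem_nil, not_false_eq_true,
      and_true, List.nodup_nil]
    exact ⟨⟨nbc, nbd, a4.symm, y11.symm, b4.symm, y21.symm, c4.symm, y31.symm⟩,
      ⟨ncd, a5.symm, y12.symm, b5.symm, y22.symm, c5.symm, y32.symm⟩,
      ⟨a6.symm, y13.symm, b6.symm, y23.symm, c6.symm, y33.symm⟩,
      ⟨q11.symm, n12, q21.symm, n13, q31.symm⟩, ⟨q12, w12, q13, w13⟩, ⟨q22.symm, n23, q32.symm⟩,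
      ⟨q23, w23⟩, q33.symm⟩
  have sy : ∀ {y z : V}, ¬ G.Adj y z → ¬ G.Adj z y := fun h h' => h h'.symm
  fin_cases k <;> simp only [Pt] at t1 t2 t3 <;>
    simp at u1 u2 u3 r12 s12 v12 r13 s13 v13 r23 s23 v23 r21 r31 r32
  · -- pattern 0
    obtain ⟨A1, A2, A3⟩ := t1
    obtain ⟨B1, B2, B3⟩ := t2
    obtain ⟨C1, C2, C3⟩ := t3
    refine nine h9 [b, c, d, e1, x1, e2, x2, e3, x3] nd rfl b (q := (3, 0, 1, 2))
      (l := [(4, 3, 0, 1), (5, 0, 1, 2), (6, 5, 0, 1), (7, 0, 1, 2), (8, 7, 0, 1), (4, 3, 5, 6),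
        (4, 3, 7, 8), (6, 5, 7, 8)]) rfl ?_ ?_ (by decide)
      (acc := [8, 7, 6, 5, 4, 3, 0, 1, 2]) (by decide) rfl (by decide) (by decide)
    · simp only [List.forall_mem_cons, List.not_mem_nil, false_imp_iff, implies_true, and_true,
        List.getD_cons_zero, List.getD_cons_succ]
      refine ⟨p1, ?_, p2, ?_, p3, ?_, ?_, ?_, ?_⟩
      · exact ⟨u1, p1.1, bc, A1, A2, sy a2, y11, y12, a5⟩
      · exact ⟨u2, p2.1, bc, B1, B2, sy b2, y21, y22, b5⟩
      · exact ⟨u3, p3.1, bc, C1, C2, sy c2, y31, y32, c5⟩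
      · exact ⟨u1, s12, u2.symm, r12, v12, sy r21, q12, w12, q21.symm⟩
      · exact ⟨u1, s13, u3.symm, r13, v13, sy r31, q13, w13, q31.symm⟩
      · exact ⟨u2, s23, u3.symm, r23, v23, sy r32, q23, w23, q32.symm⟩
    · decide
  · obtain ⟨A1, A2, A3⟩ := t1
    obtain ⟨B1, B2, B3⟩ := t2
    obtain ⟨C1, C2, C3⟩ := t3
    refine nine h9 [b, c, d, e1, x1, e2, x2, e3, x3] nd rfl b (q := (3, 0, 1, 2))
      (l := [(3, 4, 1, 2), (5, 0, 1, 2), (5, 6, 1, 2), (7, 0, 1, 2), (7, 8, 1, 2), (3, 4, 6, 5),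
        (3, 4, 8, 7), (5, 6, 8, 7)]) rfl ?_ ?_ (by decide)
      (acc := [8, 7, 6, 5, 4, 3, 0, 1, 2]) (by decide) rfl (by decide) (by decide)
    · simp only [List.forall_mem_cons, List.not_mem_nil, false_imp_iff, implies_true, and_true,
        List.getD_cons_zero, List.getD_cons_succ]
      refine ⟨p1, ?_, p2, ?_, p3, ?_, ?_, ?_, ?_⟩
      · exact ⟨u1.symm, A2, cd, sy a2, sy a3, A3, a5, a6, y13⟩
      · exact ⟨u2.symm, B2, cd, sy b2, sy b3, B3, b5, b6, y23⟩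
      · exact ⟨u3.symm, C2, cd, sy c2, sy c3, C3, c5, c6, y33⟩
      · exact ⟨u1.symm, v12, u2, sy r21, s12, r12, q21.symm, n12, q12⟩
      · exact ⟨u1.symm, v13, u3, sy r31, s13, r13, q31.symm, n13, q13⟩
      · exact ⟨u2.symm, v23, u3, sy r32, s23, r23, q32.symm, n23, q23⟩
    · decide
  · obtain ⟨A1, A2, A3⟩ := t1
    obtain ⟨B1, B2, B3⟩ := t2
    obtain ⟨C1, C2, C3⟩ := t3
    refine nine h9 [b, c, d, e1, x1, e2, x2, e3, x3] nd rfl b (q := (3, 0, 1, 2))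
      (l := [(3, 0, 4, 2), (5, 0, 1, 2), (5, 0, 6, 2), (7, 0, 1, 2), (7, 0, 8, 2), (3, 6, 4, 5),
        (3, 8, 4, 7), (5, 8, 6, 7)]) rfl ?_ ?_ (by decide)
      (acc := [8, 7, 6, 5, 4, 3, 0, 1, 2]) (by decide) rfl (by decide) (by decide)
    · simp only [List.forall_mem_cons, List.not_mem_nil, false_imp_iff, implies_true, and_true,
        List.getD_cons_zero, List.getD_cons_succ]
      refine ⟨p1, ?_, p2, ?_, p3, ?_, ?_, ?_, ?_⟩
      · exact ⟨p1.1, A1.symm, A3, sy u1, sy a3, bd, q11.symm, a6, nbd⟩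
      · exact ⟨p2.1, B1.symm, B3, sy u2, sy b3, bd, q22.symm, b6, nbd⟩
      · exact ⟨p3.1, C1.symm, C3, sy u3, sy c3, bd, q33.symm, c6, nbd⟩
      · exact ⟨r21.symm, v12.symm, r12, sy u1, s12, u2, q11.symm, n12, q22⟩
      · exact ⟨r31.symm, v13.symm, r13, sy u1, s13, u3, q11.symm, n13, q33⟩
      · exact ⟨r32.symm, v23.symm, r23, sy u2, s23, u3, q22.symm, n23, q33⟩
    · decide

/-- all vertices completing a triple -/
noncomputable def D3 (G : SimpleGraph V) [Fintype V] (t : Finset V) : Finset V :=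
  univ.filter (fun v => v ∉ t ∧ IsP4 G (insert v t))

lemma isP4_tri {b c d v : V} (bc : G.Adj b c) (cd : G.Adj c d) (bd : ¬ G.Adj b d)
    (nbd : b ≠ d) (hv : v ∉ ({b, c, d} : Finset V)) (h : IsP4 G {v, b, c, d}) :
    P4 G v b c d ∨ P4 G v d c b := by
  simp only [mem_insert, mem_singleton, not_or] at hv
  obtain ⟨vb, vc, vd⟩ := hv
  have hvc : ¬ G.Adj v c := by
    intro hvc
    obtain ⟨-, u, hu, hne, hau⟩ := h.nb (v := c) (by simp)
    simp only [mem_insert, mem_singleton] at hu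
    rcases hu with rfl | rfl | rfl | rfl
    · exact hau hvc.symm
    · exact hau bc.symm
    · exact hne rfl
    · exact hau cd
  obtain ⟨⟨u, hu, hau⟩, -⟩ := h.nb (v := v) (by simp)
  simp only [mem_insert, mem_singleton] at hu
  by_cases kb : G.Adj v b <;> by_cases kd : G.Adj v d
  · exfalso
    obtain ⟨⟨w, hw, h5⟩, -⟩ := h.one
    simp only [mem_insert, mem_singleton] at hw
    have mv : v ∈ ({v, b, c, d} : Finset V) := by simp
    have mb : b ∈ ({v, b, c, d} : Finset V) := by simp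
    have mc : c ∈ ({v, b, c, d} : Finset V) := by simp
    have md : d ∈ ({v, b, c, d} : Finset V) := by simp
    rcases hw with rfl | rfl | rfl | rfl
    · exact nbd (h5 _ mb _ md kb kd)
    · exact vc (h5 _ mv _ mc kb.symm bc)
    · exact nbd (h5 _ mb _ md bc.symm cd)
    · exact vc (h5 _ mv _ mc kd.symm cd.symm)
  · exact Or.inl ⟨kb, bc, cd, hvc, kd, bd, vc, vd, nbd⟩
  · exact Or.inr ⟨kd, cd.symm, bc.symm, hvc, kb, fun h => bd h.symm, vc, vb, nbd.symm⟩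
  · exfalso
    rcases hu with rfl | rfl | rfl | rfl
    · exact G.loopless.irrefl _ hau
    · exact kb hau
    · exact hvc hau
    · exact kd hau

/-- bound for triples from bounds for classes -/
theorem d3_le [Fintype V] {C : ℕ} (h1 : ∀ b c d, (DD G b c d).card ≤ C)
    (h2 : ∀ b c d, (DD Gᶜ b c d).card ≤ C) (t : Finset V) : (D3 G t).card ≤ 2 * C := by
  have main : ∀ (H : SimpleGraph V), (∀ b c d, (DD H b c d).card ≤ C) →
      (∀ Q, IsP4 H Q ↔ IsP4 G Q) → ∀ u b c d, u ∈ D3 G t → P4 H u b c d →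
      insert u t = {u, b, c, d} → (D3 G t).card ≤ 2 * C := by
    intro H hH hI u b c d hu hp he
    obtain ⟨-, hut, -⟩ := mem_filter.1 hu
    have ht : t = {b, c, d} := by
      have h3 : u ∉ ({b, c, d} : Finset V) := by
        simp only [mem_insert, mem_singleton, not_or]
        exact ⟨hp.1.ne, hp.2.2.2.2.2.2.1, hp.2.2.2.2.2.2.2.1⟩
      rw [← erase_insert hut, he, erase_insert h3]
    have hsub : D3 G t ⊆ DD H b c d ∪ DD H d c b := by
      intro v hv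
      obtain ⟨-, hvt, hv4⟩ := mem_filter.1 hv
      rw [ht] at hvt hv4
      rw [mem_union, mem_DD, mem_DD]
      exact isP4_tri hp.2.1 hp.2.2.1 hp.2.2.2.2.2.1 hp.2.2.2.2.2.2.2.2 hvt ((hI _).2 hv4)
    have := (card_le_card hsub).trans (card_union_le _ _)
    have := hH b c d
    have := hH d c b
    omega
  by_cases hne : (D3 G t).Nonempty
  · obtain ⟨u, hu⟩ := hne
    obtain ⟨-, hut, hu4⟩ := mem_filter.1 hu
    rcases hu4.ends (mem_insert_self _ _) with ⟨b, c, d, hp, he⟩ | ⟨b, c, d, hp, he⟩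
    · exact main G h1 (fun _ => Iff.rfl) u b c d hu hp he
    · exact main Gᶜ h2 (fun _ => isP4_compl) u b c d hu hp he
  · rw [not_nonempty_iff_eq_empty] at hne
    rw [hne]; simp

end Pool.Agent.H19
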