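import Pool.Agent.H19.CW.Chk

/-! Certificates for classes of equally attached vertices. -/

namespace Pool.Agent.H19

open Finset Classical

variable {V : Type}

open CT

def twC1 : CT := (br 3 0 (br 3 1 (br 3 2 (br 3 4 (rq 0) (br 3 5 (rq 1) (br 3 6 (rq 2) (wi [(2,1,0,4),(2,1,0,5),(2,1,0,6),(1,0,4,3),(1,0,5,3),(1,0,6,3)])))) (br 3 4 (rq 0) (wi [(2,1,0,4),(0,1,2,3),(1,0,4,3),(0,4,3,2)]))) (br 3 2 (br 3 4 (br 3 5 (br 3 6 (wi [(2,1,0,4),(2,1,0,5),(2,1,0,6),(3,1,0,4),(3,1,0,5),(3,1,0,6)]) (wi [(2,1,0,4),(2,1,0,5),(2,1,0,6),(3,1,0,4),(3,1,0,5),(2,1,3,6)])) (br 3 6 (wi [(2,1,0,4),(2,1,0,5),(2,1,0,6),(3,1,0,4),(2,1,3,5),(3,1,0,6)]) (wi [(2,1,0,4),(2,1,0,5),(2,1,0,6),(3,1,0,4),(2,1,3,5),(2,1,3,6)]))) (br 3 5 (br 3 6 (wi [(2,1,0,4),(2,1,0,5),(2,1,0,6),(2,1,3,4),(3,1,0,5),(3,1,0,6)])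 (wi [(2,1,0,4),(2,1,0,5),(2,1,0,6),(2,1,3,4),(3,1,0,5),(2,1,3,6)])) (br 3 6 (wi [(2,1,0,4),(2,1,0,5),(2,1,0,6),(2,1,3,4),(2,1,3,5),(3,1,0,6)]) (wi [(2,1,0,4),(2,1,0,5),(2,1,0,6),(2,1,3,4),(2,1,3,5),(2,1,3,6)])))) (br 3 4 (br 3 5 (br 3 6 (wi [(2,1,0,4),(2,1,0,5),(2,1,0,6),(3,1,0,4),(3,1,0,5),(3,1,0,6)]) (wi [(2,1,0,4),(2,1,0,5),(2,1,0,6),(3,1,0,4),(3,1,0,5),(0,6,3,2)])) (br 3 6 (wi [(2,1,0,4),(2,1,0,5),(2,1,0,6),(3,1,0,4),(0,5,3,2),(3,1,0,6)]) (wi [(2,1,0,4),(2,1,0,5),(2,1,0,6),(3,1,0,4),(0,5,3,2),(0,6,3,2)]))) (br 3 5 (br 3 6 (wi [(2,1,0,4),(2,1,0,5),(2,1,0,6),(0,4,3,2),(3,1,0,5),(3,1,0,6)]) (wi [(2,1,0,4),(2,1,0,5),(2,1,0,6),(0,4,3,2),(3,1,0,5),(0,6,3,2)])) (br 3 6 (wi [(2,1,0,4),(2,1,0,5),(2,1,0,6),(0,4,3,2),(0,5,3,2),(3,1,0,6)])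 (wi [(2,1,0,4),(2,1,0,5),(2,1,0,6),(0,4,3,2),(0,5,3,2),(0,6,3,2)])))))) (br 3 1 (br 3 2 (rq 0) (br 3 4 (br 3 5 (br 3 6 (wi [(2,1,0,4),(2,1,0,5),(2,1,0,6),(2,3,0,4),(2,3,0,5),(2,3,0,6)]) (wi [(2,1,0,4),(2,1,0,5),(2,1,0,6),(2,3,0,4),(2,3,0,5),(1,2,3,6)])) (br 3 6 (wi [(2,1,0,4),(2,1,0,5),(2,1,0,6),(2,3,0,4),(1,2,3,5),(2,3,0,6)]) (wi [(2,1,0,4),(2,1,0,5),(2,1,0,6),(2,3,0,4),(1,2,3,5),(1,2,3,6)]))) (br 3 5 (br 3 6 (wi [(2,1,0,4),(2,1,0,5),(2,1,0,6),(1,2,3,4),(2,3,0,5),(2,3,0,6)]) (wi [(2,1,0,4),(2,1,0,5),(2,1,0,6),(1,2,3,4),(2,3,0,5),(1,2,3,6)])) (br 3 6 (wi [(2,1,0,4),(2,1,0,5),(2,1,0,6),(1,2,3,4),(1,2,3,5),(2,3,0,6)]) (wi [(2,1,0,4),(2,1,0,5),(2,1,0,6),(1,2,3,4),(1,2,3,5),(1,2,3,6)]))))) (br 3 2 (br 3 4 (rq 0) (br 3 5 (rq 1) (br 3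 6 (rq 2) (wi [(2,1,0,4),(2,1,0,5),(2,1,0,6),(2,1,3,4),(2,1,3,5),(2,1,3,6)])))) (br 3 4 (br 3 5 (br 3 6 (wi [(2,1,0,4),(2,1,0,5),(2,1,0,6),(2,3,0,4),(2,3,0,5),(2,3,0,6)]) (rq 2)) (rq 1)) (rq 0)))))

lemma wC1 {G : SimpleGraph V} (hLC : LC G) {a0 a1 a2 a3 a4 a5 a6 : V} (hnd : ([a0, a1, a2, a3, a4, a5, a6] : List V).Nodup)
    (h0_1 : G.Adj a0 a1) (h1_2 : G.Adj a1 a2) (h0_4 : G.Adj a0 a4) (h0_5 : G.Adj a0 a5)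
    (h0_6 : G.Adj a0 a6) (n0_2 : ¬ G.Adj a0 a2) (n1_4 : ¬ G.Adj a1 a4) (n1_5 : ¬ G.Adj a1 a5)
    (n1_6 : ¬ G.Adj a1 a6) (n2_4 : ¬ G.Adj a2 a4) (n2_5 : ¬ G.Adj a2 a5) (n2_6 : ¬ G.Adj a2 a6)
    (r0 : IsP4 G {a3, a4, a0, a1} ∨ IsP4 G {a3, a4, a0, a2} ∨ IsP4 G {a3, a4, a1, a2}) (r1 : IsP4 G {a3, a5, a0, a1} ∨ IsP4 G {a3, a5, a0, a2} ∨ IsP4 G {a3, a5, a1, a2}) (r2 : IsP4 G {a3, a6, a0, a1} ∨ IsP4 G {a3, a6, a0, a2} ∨ IsP4 G {a3, a6, a1, a2}) : False :=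
  full_sound hLC [a0, a1, a2, a3, a4, a5, a6] hnd a0 (e8 := false) (fun h => absurd h (by simp)) (fb := fun _ => false)
    (rq := [[(3, 4, 0, 1), (3, 4, 0, 2), (3, 4, 1, 2)], [(3, 5, 0, 1), (3, 5, 0, 2), (3, 5, 1, 2)], [(3, 6, 0, 1), (3, 6, 0, 2), (3, 6, 1, 2)]])
    (pos := [(0, 1), (1, 2), (0, 4), (0, 5), (0, 6)])
    (neg := [(0, 2), (1, 4), (1, 5), (1, 6), (2, 4), (2, 5), (2, 6)])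
    (t := twC1) (show full 7 false (fun _ => false) [[(3, 4, 0, 1), (3, 4, 0, 2), (3, 4, 1, 2)], [(3, 5, 0, 1), (3, 5, 0, 2), (3, 5, 1, 2)], [(3, 6, 0, 1), (3, 6, 0, 2), (3, 6, 1, 2)]] [(0, 1), (1, 2), (0, 4), (0, 5), (0, 6)] [(0, 2), (1, 4), (1, 5), (1, 6), (2, 4), (2, 5), (2, 6)] twC1 = true by decide +kernel)
    (fun q hq => absurd hq (by simp))
    (List.forall_mem_cons.2 ⟨(by rcases r0 with h | h | h; exacts [⟨(3, 4, 0, 1), by simp, h⟩, ⟨(3, 4, 0, 2), by simp, h⟩, ⟨(3, 4, 1, 2), by simp, h⟩]), (List.forall_mem_cons.2 ⟨(by rcases r1 with h | h | h; exacts [⟨(3, 5, 0, 1), by simp, h⟩, ⟨(3, 5, 0, 2), by simp, h⟩, ⟨(3, 5, 1, 2), by simp, h⟩]), (List.forall_mem_cons.2 ⟨(by rcases r2 with h | h | h; exacts [⟨(3, 6, 0, 1), by simp,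 h⟩, ⟨(3, 6, 0, 2), by simp, h⟩, ⟨(3, 6, 1, 2), by simp, h⟩]), (fun _ h => absurd h List.not_mem_nil)⟩)⟩)⟩)
    (List.forall_mem_cons.2 ⟨h0_1, (List.forall_mem_cons.2 ⟨h1_2, (List.forall_mem_cons.2 ⟨h0_4, (List.forall_mem_cons.2 ⟨h0_5, (List.forall_mem_cons.2 ⟨h0_6, (fun _ h => absurd h List.not_mem_nil)⟩)⟩)⟩)⟩)⟩)
    (List.forall_mem_cons.2 ⟨n0_2, (List.forall_mem_cons.2 ⟨n1_4, (List.forall_mem_cons.2 ⟨n1_5, (List.forall_mem_cons.2 ⟨n1_6, (List.forall_mem_cons.2 ⟨n2_4, (List.forall_mem_cons.2 ⟨n2_5, (List.forall_mem_cons.2 ⟨n2_6, (fun _ h => absurd h List.not_mem_nil)⟩)⟩)⟩)⟩)⟩)⟩)⟩)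

def twC3i : CT := (wi [(2,1,0,4),(1,0,4,3),(2,1,0,5),(2,1,0,6),(3,4,0,5),(3,4,0,6)])

lemma wC3i {G : SimpleGraph V} (hLC : LC G) {a0 a1 a2 a3 a4 a5 a6 : V} (hnd : ([a0, a1, a2, a3, a4, a5, a6] : List V).Nodup)
    (h0_1 : G.Adj a0 a1) (h1_2 : G.Adj a1 a2) (h0_4 : G.Adj a0 a4) (h0_5 : G.Adj a0 a5)
    (h0_6 : G.Adj a0 a6) (h3_4 : G.Adj a3 a4) (n0_2 : ¬ G.Adj a0 a2) (n1_4 : ¬ G.Adj a1 a4)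
    (n1_5 : ¬ G.Adj a1 a5) (n1_6 : ¬ G.Adj a1 a6) (n2_4 : ¬ G.Adj a2 a4) (n2_5 : ¬ G.Adj a2 a5)
    (n2_6 : ¬ G.Adj a2 a6) (n3_0 : ¬ G.Adj a3 a0) (n3_1 : ¬ G.Adj a3 a1) (n3_2 : ¬ G.Adj a3 a2)
    (n4_5 : ¬ G.Adj a4 a5) (n4_6 : ¬ G.Adj a4 a6) (n3_5 : ¬ G.Adj a3 a5) (n3_6 : ¬ G.Adj a3 a6) : False :=
  full_sound hLC [a0, a1, a2, a3, a4, a5, a6] hnd a0 (e8 := false) (fun h => absurd h (by simp)) (fb := fun _ => false)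
    (rq := [])
    (pos := [(0, 1), (1, 2), (0, 4), (0, 5), (0, 6), (3, 4)])
    (neg := [(0, 2), (1, 4), (1, 5), (1, 6), (2, 4), (2, 5), (2, 6), (3, 0), (3, 1), (3, 2), (4, 5), (4, 6), (3, 5), (3, 6)])
    (t := twC3i) (show full 7 false (fun _ => false) [] [(0, 1), (1, 2), (0, 4), (0, 5), (0, 6), (3, 4)] [(0, 2), (1, 4), (1, 5), (1, 6), (2, 4), (2, 5), (2, 6), (3, 0), (3, 1), (3, 2), (4, 5), (4, 6), (3, 5), (3, 6)] twC3i = true by decide +kernel)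
    (fun q hq => absurd hq (by simp))
    (fun _ h => absurd h List.not_mem_nil)
    (List.forall_mem_cons.2 ⟨h0_1, (List.forall_mem_cons.2 ⟨h1_2, (List.forall_mem_cons.2 ⟨h0_4, (List.forall_mem_cons.2 ⟨h0_5, (List.forall_mem_cons.2 ⟨h0_6, (List.forall_mem_cons.2 ⟨h3_4, (fun _ h => absurd h List.not_mem_nil)⟩)⟩)⟩)⟩)⟩)⟩)
    (List.forall_mem_cons.2 ⟨n0_2, (List.forall_mem_cons.2 ⟨n1_4, (List.forall_mem_cons.2 ⟨n1_5, (List.forall_mem_cons.2 ⟨n1_6, (List.forall_mem_cons.2 ⟨n2_4, (List.forall_mem_cons.2 ⟨n2_5, (List.forall_mem_cons.2 ⟨n2_6, (List.forall_mem_cons.2 ⟨n3_0, (List.forall_mem_cons.2 ⟨n3_1, (List.forall_mem_cons.2 ⟨n3_2, (List.forall_mem_cons.2 ⟨n4_5, (List.forall_mem_cons.2 ⟨n4_6, (List.forall_mem_cons.2 ⟨n3_5, (List.forall_mem_cons.2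 ⟨n3_6, (fun _ h => absurd h List.not_mem_nil)⟩)⟩)⟩)⟩)⟩)⟩)⟩)⟩)⟩)⟩)⟩)⟩)⟩)⟩)

def twC4i : CT := (wi [(2,1,0,4),(1,0,4,3),(2,1,0,5),(2,1,0,6),(3,4,0,6),(3,4,5,6)])

lemma wC4i {G : SimpleGraph V} (hLC : LC G) {a0 a1 a2 a3 a4 a5 a6 : V} (hnd : ([a0, a1, a2, a3, a4, a5, a6] : List V).Nodup)
    (h0_1 : G.Adj a0 a1) (h1_2 : G.Adj a1 a2) (h0_4 : G.Adj a0 a4) (h0_5 : G.Adj a0 a5)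
    (h0_6 : G.Adj a0 a6) (h4_5 : G.Adj a4 a5) (h5_6 : G.Adj a5 a6) (h3_4 : G.Adj a3 a4)
    (n0_2 : ¬ G.Adj a0 a2) (n1_4 : ¬ G.Adj a1 a4) (n1_5 : ¬ G.Adj a1 a5) (n1_6 : ¬ G.Adj a1 a6)
    (n2_4 : ¬ G.Adj a2 a4) (n2_5 : ¬ G.Adj a2 a5) (n2_6 : ¬ G.Adj a2 a6) (n3_0 : ¬ G.Adj a3 a0)
    (n3_1 : ¬ G.Adj a3 a1) (n3_2 : ¬ G.Adj a3 a2) (n4_6 : ¬ G.Adj a4 a6) (n3_5 : ¬ G.Adj a3 a5)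
    (n3_6 : ¬ G.Adj a3 a6) : False :=
  full_sound hLC [a0, a1, a2, a3, a4, a5, a6] hnd a0 (e8 := false) (fun h => absurd h (by simp)) (fb := fun _ => false)
    (rq := [])
    (pos := [(0, 1), (1, 2), (0, 4), (0, 5), (0, 6), (4, 5), (5, 6), (3, 4)])
    (neg := [(0, 2), (1, 4), (1, 5), (1, 6), (2, 4), (2, 5), (2, 6), (3, 0), (3, 1), (3, 2), (4, 6), (3, 5), (3, 6)])
    (t := twC4i) (show full 7 false (fun _ => false) [] [(0, 1), (1, 2), (0, 4), (0, 5), (0, 6), (4, 5), (5, 6), (3, 4)] [(0, 2), (1, 4), (1, 5), (1, 6), (2, 4), (2, 5), (2, 6), (3, 0), (3, 1), (3, 2), (4, 6), (3, 5), (3, 6)] twC4i = true by decide +kernel)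
    (fun q hq => absurd hq (by simp))
    (fun _ h => absurd h List.not_mem_nil)
    (List.forall_mem_cons.2 ⟨h0_1, (List.forall_mem_cons.2 ⟨h1_2, (List.forall_mem_cons.2 ⟨h0_4, (List.forall_mem_cons.2 ⟨h0_5, (List.forall_mem_cons.2 ⟨h0_6, (List.forall_mem_cons.2 ⟨h4_5, (List.forall_mem_cons.2 ⟨h5_6, (List.forall_mem_cons.2 ⟨h3_4, (fun _ h => absurd h List.not_mem_nil)⟩)⟩)⟩)⟩)⟩)⟩)⟩)⟩)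
    (List.forall_mem_cons.2 ⟨n0_2, (List.forall_mem_cons.2 ⟨n1_4, (List.forall_mem_cons.2 ⟨n1_5, (List.forall_mem_cons.2 ⟨n1_6, (List.forall_mem_cons.2 ⟨n2_4, (List.forall_mem_cons.2 ⟨n2_5, (List.forall_mem_cons.2 ⟨n2_6, (List.forall_mem_cons.2 ⟨n3_0, (List.forall_mem_cons.2 ⟨n3_1, (List.forall_mem_cons.2 ⟨n3_2, (List.forall_mem_cons.2 ⟨n4_6, (List.forall_mem_cons.2 ⟨n3_5, (List.forall_mem_cons.2 ⟨n3_6, (fun _ h => absurd h List.not_mem_nil)⟩)⟩)⟩)⟩)⟩)⟩)⟩)⟩)⟩)⟩)⟩)⟩)⟩)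

def twC3ii : CT := (wi [(2,1,0,4),(2,1,3,4),(2,1,0,5),(2,1,0,6),(1,3,4,5),(1,3,4,6)])

lemma wC3ii {G : SimpleGraph V} (hLC : LC G) {a0 a1 a2 a3 a4 a5 a6 : V} (hnd : ([a0, a1, a2, a3, a4, a5, a6] : List V).Nodup)
    (h0_1 : G.Adj a0 a1) (h1_2 : G.Adj a1 a2) (h0_4 : G.Adj a0 a4) (h0_5 : G.Adj a0 a5)
    (h0_6 : G.Adj a0 a6) (h3_0 : G.Adj a3 a0) (h3_1 : G.Adj a3 a1) (h4_5 : G.Adj a4 a5)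
    (h4_6 : G.Adj a4 a6) (h3_4 : G.Adj a3 a4) (n0_2 : ¬ G.Adj a0 a2) (n1_4 : ¬ G.Adj a1 a4)
    (n1_5 : ¬ G.Adj a1 a5) (n1_6 : ¬ G.Adj a1 a6) (n2_4 : ¬ G.Adj a2 a4) (n2_5 : ¬ G.Adj a2 a5)
    (n2_6 : ¬ G.Adj a2 a6) (n3_2 : ¬ G.Adj a3 a2) (n3_5 : ¬ G.Adj a3 a5) (n3_6 : ¬ G.Adj a3 a6) : False :=
  full_sound hLC [a0, a1, a2, a3, a4, a5, a6] hnd a0 (e8 := false) (fun h => absurd h (by simp)) (fb := fun _ => false)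
    (rq := [])
    (pos := [(0, 1), (1, 2), (0, 4), (0, 5), (0, 6), (3, 0), (3, 1), (4, 5), (4, 6), (3, 4)])
    (neg := [(0, 2), (1, 4), (1, 5), (1, 6), (2, 4), (2, 5), (2, 6), (3, 2), (3, 5), (3, 6)])
    (t := twC3ii) (show full 7 false (fun _ => false) [] [(0, 1), (1, 2), (0, 4), (0, 5), (0, 6), (3, 0), (3, 1), (4, 5), (4, 6), (3, 4)] [(0, 2), (1, 4), (1, 5), (1, 6), (2, 4), (2, 5), (2, 6), (3, 2), (3, 5), (3, 6)] twC3ii = true by decide +kernel)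
    (fun q hq => absurd hq (by simp))
    (fun _ h => absurd h List.not_mem_nil)
    (List.forall_mem_cons.2 ⟨h0_1, (List.forall_mem_cons.2 ⟨h1_2, (List.forall_mem_cons.2 ⟨h0_4, (List.forall_mem_cons.2 ⟨h0_5, (List.forall_mem_cons.2 ⟨h0_6, (List.forall_mem_cons.2 ⟨h3_0, (List.forall_mem_cons.2 ⟨h3_1, (List.forall_mem_cons.2 ⟨h4_5, (List.forall_mem_cons.2 ⟨h4_6, (List.forall_mem_cons.2 ⟨h3_4, (fun _ h => absurd h List.not_mem_nil)⟩)⟩)⟩)⟩)⟩)⟩)⟩)⟩)⟩)⟩)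
    (List.forall_mem_cons.2 ⟨n0_2, (List.forall_mem_cons.2 ⟨n1_4, (List.forall_mem_cons.2 ⟨n1_5, (List.forall_mem_cons.2 ⟨n1_6, (List.forall_mem_cons.2 ⟨n2_4, (List.forall_mem_cons.2 ⟨n2_5, (List.forall_mem_cons.2 ⟨n2_6, (List.forall_mem_cons.2 ⟨n3_2, (List.forall_mem_cons.2 ⟨n3_5, (List.forall_mem_cons.2 ⟨n3_6, (fun _ h => absurd h List.not_mem_nil)⟩)⟩)⟩)⟩)⟩)⟩)⟩)⟩)⟩)⟩)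

def twC4ii : CT := (wi [(2,1,0,4),(2,1,3,4),(2,1,0,5),(2,1,0,6),(1,3,4,6),(3,4,6,5)])

lemma wC4ii {G : SimpleGraph V} (hLC : LC G) {a0 a1 a2 a3 a4 a5 a6 : V} (hnd : ([a0, a1, a2, a3, a4, a5, a6] : List V).Nodup)
    (h0_1 : G.Adj a0 a1) (h1_2 : G.Adj a1 a2) (h0_4 : G.Adj a0 a4) (h0_5 : G.Adj a0 a5)
    (h0_6 : G.Adj a0 a6) (h3_0 : G.Adj a3 a0) (h3_1 : G.Adj a3 a1) (h4_6 : G.Adj a4 a6)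
    (h5_6 : G.Adj a5 a6) (h3_4 : G.Adj a3 a4) (n0_2 : ¬ G.Adj a0 a2) (n1_4 : ¬ G.Adj a1 a4)
    (n1_5 : ¬ G.Adj a1 a5) (n1_6 : ¬ G.Adj a1 a6) (n2_4 : ¬ G.Adj a2 a4) (n2_5 : ¬ G.Adj a2 a5)
    (n2_6 : ¬ G.Adj a2 a6) (n3_2 : ¬ G.Adj a3 a2) (n4_5 : ¬ G.Adj a4 a5) (n3_5 : ¬ G.Adj a3 a5)
    (n3_6 : ¬ G.Adj a3 a6) : False :=
  full_sound hLC [a0, a1, a2, a3, a4, a5, a6] hnd a0 (e8 := false) (fun h => absurd h (by simp)) (fb := fun _ => false)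
    (rq := [])
    (pos := [(0, 1), (1, 2), (0, 4), (0, 5), (0, 6), (3, 0), (3, 1), (4, 6), (5, 6), (3, 4)])
    (neg := [(0, 2), (1, 4), (1, 5), (1, 6), (2, 4), (2, 5), (2, 6), (3, 2), (4, 5), (3, 5), (3, 6)])
    (t := twC4ii) (show full 7 false (fun _ => false) [] [(0, 1), (1, 2), (0, 4), (0, 5), (0, 6), (3, 0), (3, 1), (4, 6), (5, 6), (3, 4)] [(0, 2), (1, 4), (1, 5), (1, 6), (2, 4), (2, 5), (2, 6), (3, 2), (4, 5), (3, 5), (3, 6)] twC4ii = true by decide +kernel)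
    (fun q hq => absurd hq (by simp))
    (fun _ h => absurd h List.not_mem_nil)
    (List.forall_mem_cons.2 ⟨h0_1, (List.forall_mem_cons.2 ⟨h1_2, (List.forall_mem_cons.2 ⟨h0_4, (List.forall_mem_cons.2 ⟨h0_5, (List.forall_mem_cons.2 ⟨h0_6, (List.forall_mem_cons.2 ⟨h3_0, (List.forall_mem_cons.2 ⟨h3_1, (List.forall_mem_cons.2 ⟨h4_6, (List.forall_mem_cons.2 ⟨h5_6, (List.forall_mem_cons.2 ⟨h3_4, (fun _ h => absurd h List.not_mem_nil)⟩)⟩)⟩)⟩)⟩)⟩)⟩)⟩)⟩)⟩)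
    (List.forall_mem_cons.2 ⟨n0_2, (List.forall_mem_cons.2 ⟨n1_4, (List.forall_mem_cons.2 ⟨n1_5, (List.forall_mem_cons.2 ⟨n1_6, (List.forall_mem_cons.2 ⟨n2_4, (List.forall_mem_cons.2 ⟨n2_5, (List.forall_mem_cons.2 ⟨n2_6, (List.forall_mem_cons.2 ⟨n3_2, (List.forall_mem_cons.2 ⟨n4_5, (List.forall_mem_cons.2 ⟨n3_5, (List.forall_mem_cons.2 ⟨n3_6, (fun _ h => absurd h List.not_mem_nil)⟩)⟩)⟩)⟩)⟩)⟩)⟩)⟩)⟩)⟩)⟩)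

def twC3iii : CT := (wi [(2,1,0,4),(2,3,0,4),(2,1,0,5),(1,3,5,4),(2,3,5,4)])

lemma wC3iii {G : SimpleGraph V} (hLC : LC G) {a0 a1 a2 a3 a4 a5 a6 : V} (hnd : ([a0, a1, a2, a3, a4, a5, a6] : List V).Nodup)
    (h0_1 : G.Adj a0 a1) (h1_2 : G.Adj a1 a2) (h0_4 : G.Adj a0 a4) (h0_5 : G.Adj a0 a5)
    (h0_6 : G.Adj a0 a6) (h3_0 : G.Adj a3 a0) (h3_1 : G.Adj a3 a1) (h3_2 : G.Adj a3 a2)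
    (h4_5 : G.Adj a4 a5) (h4_6 : G.Adj a4 a6) (h3_5 : G.Adj a3 a5) (h3_6 : G.Adj a3 a6)
    (n0_2 : ¬ G.Adj a0 a2) (n1_4 : ¬ G.Adj a1 a4) (n1_5 : ¬ G.Adj a1 a5) (n1_6 : ¬ G.Adj a1 a6)
    (n2_4 : ¬ G.Adj a2 a4) (n2_5 : ¬ G.Adj a2 a5) (n2_6 : ¬ G.Adj a2 a6) (n3_4 : ¬ G.Adj a3 a4) : False :=
  full_sound hLC [a0, a1, a2, a3, a4, a5, a6] hnd a0 (e8 := false) (fun h => absurd h (by simp)) (fb := fun _ => false)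
    (rq := [])
    (pos := [(0, 1), (1, 2), (0, 4), (0, 5), (0, 6), (3, 0), (3, 1), (3, 2), (4, 5), (4, 6), (3, 5), (3, 6)])
    (neg := [(0, 2), (1, 4), (1, 5), (1, 6), (2, 4), (2, 5), (2, 6), (3, 4)])
    (t := twC3iii) (show full 7 false (fun _ => false) [] [(0, 1), (1, 2), (0, 4), (0, 5), (0, 6), (3, 0), (3, 1), (3, 2), (4, 5), (4, 6), (3, 5), (3, 6)] [(0, 2), (1, 4), (1, 5), (1, 6), (2, 4), (2, 5), (2, 6), (3, 4)] twC3iii = true by decide +kernel)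
    (fun q hq => absurd hq (by simp))
    (fun _ h => absurd h List.not_mem_nil)
    (List.forall_mem_cons.2 ⟨h0_1, (List.forall_mem_cons.2 ⟨h1_2, (List.forall_mem_cons.2 ⟨h0_4, (List.forall_mem_cons.2 ⟨h0_5, (List.forall_mem_cons.2 ⟨h0_6, (List.forall_mem_cons.2 ⟨h3_0, (List.forall_mem_cons.2 ⟨h3_1, (List.forall_mem_cons.2 ⟨h3_2, (List.forall_mem_cons.2 ⟨h4_5, (List.forall_mem_cons.2 ⟨h4_6, (List.forall_mem_cons.2 ⟨h3_5, (List.forall_mem_cons.2 ⟨h3_6, (fun _ h => absurd h List.not_mem_nil)⟩)⟩)⟩)⟩)⟩)⟩)⟩)⟩)⟩)⟩)⟩)⟩)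
    (List.forall_mem_cons.2 ⟨n0_2, (List.forall_mem_cons.2 ⟨n1_4, (List.forall_mem_cons.2 ⟨n1_5, (List.forall_mem_cons.2 ⟨n1_6, (List.forall_mem_cons.2 ⟨n2_4, (List.forall_mem_cons.2 ⟨n2_5, (List.forall_mem_cons.2 ⟨n2_6, (List.forall_mem_cons.2 ⟨n3_4, (fun _ h => absurd h List.not_mem_nil)⟩)⟩)⟩)⟩)⟩)⟩)⟩)⟩)

def twC4iii : CT := (wi [(2,1,0,4),(2,3,0,4),(2,1,0,6),(1,3,6,4),(2,3,6,4)])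

lemma wC4iii {G : SimpleGraph V} (hLC : LC G) {a0 a1 a2 a3 a4 a5 a6 : V} (hnd : ([a0, a1, a2, a3, a4, a5, a6] : List V).Nodup)
    (h0_1 : G.Adj a0 a1) (h1_2 : G.Adj a1 a2) (h0_4 : G.Adj a0 a4) (h0_5 : G.Adj a0 a5)
    (h0_6 : G.Adj a0 a6) (h3_0 : G.Adj a3 a0) (h3_1 : G.Adj a3 a1) (h3_2 : G.Adj a3 a2)
    (h4_6 : G.Adj a4 a6) (h3_5 : G.Adj a3 a5) (h3_6 : G.Adj a3 a6) (n0_2 : ¬ G.Adj a0 a2)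
    (n1_4 : ¬ G.Adj a1 a4) (n1_5 : ¬ G.Adj a1 a5) (n1_6 : ¬ G.Adj a1 a6) (n2_4 : ¬ G.Adj a2 a4)
    (n2_5 : ¬ G.Adj a2 a5) (n2_6 : ¬ G.Adj a2 a6) (n4_5 : ¬ G.Adj a4 a5) (n5_6 : ¬ G.Adj a5 a6)
    (n3_4 : ¬ G.Adj a3 a4) : False :=
  full_sound hLC [a0, a1, a2, a3, a4, a5, a6] hnd a0 (e8 := false) (fun h => absurd h (by simp)) (fb := fun _ => false)
    (rq := [])
    (pos := [(0, 1), (1, 2), (0, 4), (0, 5), (0, 6), (3, 0), (3, 1), (3, 2), (4, 6), (3, 5), (3, 6)])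
    (neg := [(0, 2), (1, 4), (1, 5), (1, 6), (2, 4), (2, 5), (2, 6), (4, 5), (5, 6), (3, 4)])
    (t := twC4iii) (show full 7 false (fun _ => false) [] [(0, 1), (1, 2), (0, 4), (0, 5), (0, 6), (3, 0), (3, 1), (3, 2), (4, 6), (3, 5), (3, 6)] [(0, 2), (1, 4), (1, 5), (1, 6), (2, 4), (2, 5), (2, 6), (4, 5), (5, 6), (3, 4)] twC4iii = true by decide +kernel)
    (fun q hq => absurd hq (by simp))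
    (fun _ h => absurd h List.not_mem_nil)
    (List.forall_mem_cons.2 ⟨h0_1, (List.forall_mem_cons.2 ⟨h1_2, (List.forall_mem_cons.2 ⟨h0_4, (List.forall_mem_cons.2 ⟨h0_5, (List.forall_mem_cons.2 ⟨h0_6, (List.forall_mem_cons.2 ⟨h3_0, (List.forall_mem_cons.2 ⟨h3_1, (List.forall_mem_cons.2 ⟨h3_2, (List.forall_mem_cons.2 ⟨h4_6, (List.forall_mem_cons.2 ⟨h3_5, (List.forall_mem_cons.2 ⟨h3_6, (fun _ h => absurd h List.not_mem_nil)⟩)⟩)⟩)⟩)⟩)⟩)⟩)⟩)⟩)⟩)⟩)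
    (List.forall_mem_cons.2 ⟨n0_2, (List.forall_mem_cons.2 ⟨n1_4, (List.forall_mem_cons.2 ⟨n1_5, (List.forall_mem_cons.2 ⟨n1_6, (List.forall_mem_cons.2 ⟨n2_4, (List.forall_mem_cons.2 ⟨n2_5, (List.forall_mem_cons.2 ⟨n2_6, (List.forall_mem_cons.2 ⟨n4_5, (List.forall_mem_cons.2 ⟨n5_6, (List.forall_mem_cons.2 ⟨n3_4, (fun _ h => absurd h List.not_mem_nil)⟩)⟩)⟩)⟩)⟩)⟩)⟩)⟩)⟩)⟩)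

def twC5_1 : CT := (br 6 3 (br 6 4 (br 7 0 (br 7 1 (br 7 2 (br 7 3 (rq 2) (br 7 5 (rq 3) (wi [(2,1,0,3),(2,1,0,4),(2,1,0,5),(3,0,1,6),(1,0,3,7),(4,0,1,6),(1,0,5,7)]))) (br 7 3 (rq 2) (wi [(2,1,0,3),(2,1,0,4),(3,0,1,6),(0,1,2,7),(4,0,1,6),(1,0,3,7)]))) (br 7 2 (br 7 3 (br 7 5 (wi [(2,1,0,3),(2,1,0,4),(2,1,0,5),(3,0,1,6),(3,0,1,7),(4,0,1,6),(5,0,1,7)]) (wi [(2,1,0,3),(2,1,0,4),(2,1,0,5),(3,0,1,6),(3,0,1,7),(4,0,1,6),(2,1,7,5)])) (br 7 5 (wi [(2,1,0,3),(2,1,0,4),(2,1,0,5),(3,0,1,6),(2,1,7,3),(4,0,1,6),(5,0,1,7)]) (wi [(2,1,0,3),(2,1,0,4),(2,1,0,5),(3,0,1,6),(2,1,7,3),(4,0,1,6),(2,1,7,5)]))) (br 7 3 (br 7 5 (wi [(2,1,0,3),(2,1,0,4),(2,1,0,5),(3,0,1,6),(3,0,1,7),(4,0,1,6),(5,0,1,7)]) (wi [(2,1,0,3),(2,1,0,4),(2,1,0,5),(3,0,1,6),(3,0,1,7),(4,0,1,6),(0,5,7,2)]))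 (br 7 5 (wi [(2,1,0,3),(2,1,0,4),(2,1,0,5),(3,0,1,6),(0,3,7,2),(4,0,1,6),(5,0,1,7)]) (wi [(2,1,0,3),(2,1,0,4),(2,1,0,5),(3,0,1,6),(0,3,7,2),(4,0,1,6),(0,5,7,2)]))))) (br 7 1 (br 7 2 (rq 2) (br 7 3 (br 7 5 (wi [(2,1,0,3),(2,1,0,4),(2,1,0,5),(3,0,1,6),(2,7,0,3),(4,0,1,6),(2,7,0,5)]) (wi [(2,1,0,3),(2,1,0,4),(2,1,0,5),(3,0,1,6),(2,7,0,3),(4,0,1,6),(1,2,7,5)])) (br 7 5 (wi [(2,1,0,3),(2,1,0,4),(2,1,0,5),(3,0,1,6),(1,2,7,3),(4,0,1,6),(2,7,0,5)]) (wi [(2,1,0,3),(2,1,0,4),(2,1,0,5),(3,0,1,6),(1,2,7,3),(4,0,1,6),(1,2,7,5)])))) (br 7 2 (br 7 3 (rq 2) (br 7 5 (rq 3) (wi [(2,1,0,3),(2,1,0,4),(2,1,0,5),(3,0,1,6),(2,1,7,3),(4,0,1,6),(2,1,7,5)]))) (br 7 3 (br 7 5 (wi [(2,1,0,3),(2,1,0,4),(2,1,0,5),(3,0,1,6),(2,7,0,3),(4,0,1,6),(2,7,0,5)]) (rq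 3)) (rq 2))))) (br 7 0 (br 7 1 (br 7 2 (br 7 3 (rq 2) (br 7 5 (rq 3) (wi [(2,1,0,3),(2,1,0,4),(2,1,0,5),(3,0,1,6),(1,0,3,7),(2,1,6,4),(1,0,5,7)]))) (br 7 3 (rq 2) (wi [(2,1,0,3),(2,1,0,4),(3,0,1,6),(0,1,2,7),(2,1,6,4),(1,0,3,7)]))) (br 7 2 (br 7 3 (br 7 5 (wi [(2,1,0,3),(2,1,0,4),(2,1,0,5),(3,0,1,6),(3,0,1,7),(2,1,6,4),(5,0,1,7)]) (wi [(2,1,0,3),(2,1,0,4),(2,1,0,5),(3,0,1,6),(3,0,1,7),(2,1,6,4),(2,1,7,5)])) (br 7 5 (wi [(2,1,0,3),(2,1,0,4),(2,1,0,5),(3,0,1,6),(2,1,7,3),(2,1,6,4),(5,0,1,7)]) (wi [(2,1,0,3),(2,1,0,4),(2,1,0,5),(3,0,1,6),(2,1,7,3),(2,1,6,4),(2,1,7,5)]))) (br 7 3 (br 7 5 (wi [(2,1,0,3),(2,1,0,4),(2,1,0,5),(3,0,1,6),(3,0,1,7),(2,1,6,4),(5,0,1,7)]) (wi [(2,1,0,3),(2,1,0,4),(2,1,0,5),(3,0,1,6),(3,0,1,7),(2,1,6,4),(0,5,7,2)]))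 (br 7 5 (wi [(2,1,0,3),(2,1,0,4),(2,1,0,5),(3,0,1,6),(0,3,7,2),(2,1,6,4),(5,0,1,7)]) (wi [(2,1,0,3),(2,1,0,4),(2,1,0,5),(3,0,1,6),(0,3,7,2),(2,1,6,4),(0,5,7,2)]))))) (br 7 1 (br 7 2 (rq 2) (br 7 3 (br 7 5 (wi [(2,1,0,3),(2,1,0,4),(2,1,0,5),(3,0,1,6),(2,7,0,3),(2,1,6,4),(2,7,0,5)]) (wi [(2,1,0,3),(2,1,0,4),(2,1,0,5),(3,0,1,6),(2,7,0,3),(2,1,6,4),(1,2,7,5)])) (br 7 5 (wi [(2,1,0,3),(2,1,0,4),(2,1,0,5),(3,0,1,6),(1,2,7,3),(2,1,6,4),(2,7,0,5)]) (wi [(2,1,0,3),(2,1,0,4),(2,1,0,5),(3,0,1,6),(1,2,7,3),(2,1,6,4),(1,2,7,5)])))) (br 7 2 (br 7 3 (rq 2) (br 7 5 (rq 3) (wi [(2,1,0,3),(2,1,0,4),(2,1,0,5),(3,0,1,6),(2,1,7,3),(2,1,6,4),(2,1,7,5)]))) (br 7 3 (br 7 5 (wi [(2,1,0,3),(2,1,0,4),(2,1,0,5),(3,0,1,6),(2,7,0,3),(2,1,6,4),(2,7,0,5)]) (rq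 3)) (rq 2)))))) (br 6 4 (br 7 0 (br 7 1 (br 7 2 (br 7 3 (rq 2) (br 7 5 (rq 3) (wi [(2,1,0,3),(2,1,0,4),(2,1,0,5),(2,1,6,3),(1,0,3,7),(4,0,1,6),(1,0,5,7)]))) (br 7 3 (rq 2) (wi [(2,1,0,3),(2,1,0,4),(2,1,6,3),(0,1,2,7),(4,0,1,6),(1,0,3,7)]))) (br 7 2 (br 7 3 (br 7 5 (wi [(2,1,0,3),(2,1,0,4),(2,1,0,5),(2,1,6,3),(3,0,1,7),(4,0,1,6),(5,0,1,7)]) (wi [(2,1,0,3),(2,1,0,4),(2,1,0,5),(2,1,6,3),(3,0,1,7),(4,0,1,6),(2,1,7,5)])) (br 7 5 (wi [(2,1,0,3),(2,1,0,4),(2,1,0,5),(2,1,6,3),(2,1,7,3),(4,0,1,6),(5,0,1,7)]) (wi [(2,1,0,3),(2,1,0,4),(2,1,0,5),(2,1,6,3),(2,1,7,3),(4,0,1,6),(2,1,7,5)]))) (br 7 3 (br 7 5 (wi [(2,1,0,3),(2,1,0,4),(2,1,0,5),(2,1,6,3),(3,0,1,7),(4,0,1,6),(5,0,1,7)]) (wi [(2,1,0,3),(2,1,0,4),(2,1,0,5),(2,1,6,3),(3,0,1,7),(4,0,1,6),(0,5,7,2)]))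 (br 7 5 (wi [(2,1,0,3),(2,1,0,4),(2,1,0,5),(2,1,6,3),(0,3,7,2),(4,0,1,6),(5,0,1,7)]) (wi [(2,1,0,3),(2,1,0,4),(2,1,0,5),(2,1,6,3),(0,3,7,2),(4,0,1,6),(0,5,7,2)]))))) (br 7 1 (br 7 2 (rq 2) (br 7 3 (br 7 5 (wi [(2,1,0,3),(2,1,0,4),(2,1,0,5),(2,1,6,3),(2,7,0,3),(4,0,1,6),(2,7,0,5)]) (wi [(2,1,0,3),(2,1,0,4),(2,1,0,5),(2,1,6,3),(2,7,0,3),(4,0,1,6),(1,2,7,5)])) (br 7 5 (wi [(2,1,0,3),(2,1,0,4),(2,1,0,5),(2,1,6,3),(1,2,7,3),(4,0,1,6),(2,7,0,5)]) (wi [(2,1,0,3),(2,1,0,4),(2,1,0,5),(2,1,6,3),(1,2,7,3),(4,0,1,6),(1,2,7,5)])))) (br 7 2 (br 7 3 (rq 2) (br 7 5 (rq 3) (wi [(2,1,0,3),(2,1,0,4),(2,1,0,5),(2,1,6,3),(2,1,7,3),(4,0,1,6),(2,1,7,5)]))) (br 7 3 (br 7 5 (wi [(2,1,0,3),(2,1,0,4),(2,1,0,5),(2,1,6,3),(2,7,0,3),(4,0,1,6),(2,7,0,5)]) (rq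 3)) (rq 2))))) (br 7 0 (br 7 1 (br 7 2 (br 7 3 (rq 2) (br 7 5 (rq 3) (wi [(2,1,0,3),(2,1,0,4),(2,1,0,5),(2,1,6,3),(1,0,3,7),(2,1,6,4),(1,0,5,7)]))) (br 7 3 (rq 2) (wi [(2,1,0,3),(2,1,0,4),(2,1,6,3),(0,1,2,7),(2,1,6,4),(1,0,3,7)]))) (br 7 2 (br 7 3 (br 7 5 (wi [(2,1,0,3),(2,1,0,4),(2,1,0,5),(2,1,6,3),(3,0,1,7),(2,1,6,4),(5,0,1,7)]) (wi [(2,1,0,3),(2,1,0,4),(2,1,0,5),(2,1,6,3),(3,0,1,7),(2,1,6,4),(2,1,7,5)])) (br 7 5 (wi [(2,1,0,3),(2,1,0,4),(2,1,0,5),(2,1,6,3),(2,1,7,3),(2,1,6,4),(5,0,1,7)]) (wi [(2,1,0,3),(2,1,0,4),(2,1,0,5),(2,1,6,3),(2,1,7,3),(2,1,6,4),(2,1,7,5)]))) (br 7 3 (br 7 5 (wi [(2,1,0,3),(2,1,0,4),(2,1,0,5),(2,1,6,3),(3,0,1,7),(2,1,6,4),(5,0,1,7)]) (wi [(2,1,0,3),(2,1,0,4),(2,1,0,5),(2,1,6,3),(3,0,1,7),(2,1,6,4),(0,5,7,2)]))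 (br 7 5 (wi [(2,1,0,3),(2,1,0,4),(2,1,0,5),(2,1,6,3),(0,3,7,2),(2,1,6,4),(5,0,1,7)]) (wi [(2,1,0,3),(2,1,0,4),(2,1,0,5),(2,1,6,3),(0,3,7,2),(2,1,6,4),(0,5,7,2)]))))) (br 7 1 (br 7 2 (rq 2) (br 7 3 (br 7 5 (wi [(2,1,0,3),(2,1,0,4),(2,1,0,5),(2,1,6,3),(2,7,0,3),(2,1,6,4),(2,7,0,5)]) (wi [(2,1,0,3),(2,1,0,4),(2,1,0,5),(2,1,6,3),(2,7,0,3),(2,1,6,4),(1,2,7,5)])) (br 7 5 (wi [(2,1,0,3),(2,1,0,4),(2,1,0,5),(2,1,6,3),(1,2,7,3),(2,1,6,4),(2,7,0,5)]) (wi [(2,1,0,3),(2,1,0,4),(2,1,0,5),(2,1,6,3),(1,2,7,3),(2,1,6,4),(1,2,7,5)])))) (br 7 2 (br 7 3 (rq 2) (br 7 5 (rq 3) (wi [(2,1,0,3),(2,1,0,4),(2,1,0,5),(2,1,6,3),(2,1,7,3),(2,1,6,4),(2,1,7,5)]))) (br 7 3 (br 7 5 (wi [(2,1,0,3),(2,1,0,4),(2,1,0,5),(2,1,6,3),(2,7,0,3),(2,1,6,4),(2,7,0,5)]) (rq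 3)) (rq 2)))))))

def twC5_2 : CT := (br 6 3 (br 6 4 (br 7 0 (br 7 1 (br 7 2 (br 7 3 (rq 2) (br 7 5 (rq 3) (wi [(2,1,0,3),(2,1,0,4),(2,1,0,5),(3,0,1,6),(1,0,3,7),(4,0,1,6),(1,0,5,7)]))) (br 7 3 (rq 2) (wi [(2,1,0,3),(2,1,0,4),(3,0,1,6),(0,1,2,7),(4,0,1,6),(1,0,3,7)]))) (br 7 2 (br 7 3 (br 7 5 (wi [(2,1,0,3),(2,1,0,4),(2,1,0,5),(3,0,1,6),(3,0,1,7),(4,0,1,6),(5,0,1,7)]) (wi [(2,1,0,3),(2,1,0,4),(2,1,0,5),(3,0,1,6),(3,0,1,7),(4,0,1,6),(2,1,7,5)])) (br 7 5 (wi [(2,1,0,3),(2,1,0,4),(2,1,0,5),(3,0,1,6),(2,1,7,3),(4,0,1,6),(5,0,1,7)]) (wi [(2,1,0,3),(2,1,0,4),(2,1,0,5),(3,0,1,6),(2,1,7,3),(4,0,1,6),(2,1,7,5)]))) (br 7 3 (br 7 5 (wi [(2,1,0,3),(2,1,0,4),(2,1,0,5),(3,0,1,6),(3,0,1,7),(4,0,1,6),(5,0,1,7)]) (wi [(2,1,0,3),(2,1,0,4),(2,1,0,5),(3,0,1,6),(3,0,1,7),(4,0,1,6),(0,5,7,2)]))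 (br 7 5 (wi [(2,1,0,3),(2,1,0,4),(2,1,0,5),(3,0,1,6),(0,3,7,2),(4,0,1,6),(5,0,1,7)]) (wi [(2,1,0,3),(2,1,0,4),(2,1,0,5),(3,0,1,6),(0,3,7,2),(4,0,1,6),(0,5,7,2)]))))) (br 7 1 (br 7 2 (rq 2) (br 7 3 (br 7 5 (wi [(2,1,0,3),(2,1,0,4),(2,1,0,5),(3,0,1,6),(2,7,0,3),(4,0,1,6),(2,7,0,5)]) (wi [(2,1,0,3),(2,1,0,4),(2,1,0,5),(3,0,1,6),(2,7,0,3),(4,0,1,6),(1,2,7,5)])) (br 7 5 (wi [(2,1,0,3),(2,1,0,4),(2,1,0,5),(3,0,1,6),(1,2,7,3),(4,0,1,6),(2,7,0,5)]) (wi [(2,1,0,3),(2,1,0,4),(2,1,0,5),(3,0,1,6),(1,2,7,3),(4,0,1,6),(1,2,7,5)])))) (br 7 2 (br 7 3 (rq 2) (br 7 5 (rq 3) (wi [(2,1,0,3),(2,1,0,4),(2,1,0,5),(3,0,1,6),(2,1,7,3),(4,0,1,6),(2,1,7,5)]))) (br 7 3 (br 7 5 (wi [(2,1,0,3),(2,1,0,4),(2,1,0,5),(3,0,1,6),(2,7,0,3),(4,0,1,6),(2,7,0,5)]) (rq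 3)) (rq 2))))) (br 7 0 (br 7 1 (br 7 2 (br 7 3 (rq 2) (br 7 5 (rq 3) (wi [(2,1,0,3),(2,1,0,4),(2,1,0,5),(3,0,1,6),(1,0,3,7),(0,4,6,2),(1,0,5,7)]))) (br 7 3 (rq 2) (wi [(2,1,0,3),(2,1,0,4),(3,0,1,6),(0,1,2,7),(0,4,6,2),(1,0,3,7)]))) (br 7 2 (br 7 3 (br 7 5 (wi [(2,1,0,3),(2,1,0,4),(2,1,0,5),(3,0,1,6),(3,0,1,7),(0,4,6,2),(5,0,1,7)]) (wi [(2,1,0,3),(2,1,0,4),(2,1,0,5),(3,0,1,6),(3,0,1,7),(0,4,6,2),(2,1,7,5)])) (br 7 5 (wi [(2,1,0,3),(2,1,0,4),(2,1,0,5),(3,0,1,6),(2,1,7,3),(0,4,6,2),(5,0,1,7)]) (wi [(2,1,0,3),(2,1,0,4),(2,1,0,5),(3,0,1,6),(2,1,7,3),(0,4,6,2),(2,1,7,5)]))) (br 7 3 (br 7 5 (wi [(2,1,0,3),(2,1,0,4),(2,1,0,5),(3,0,1,6),(3,0,1,7),(0,4,6,2),(5,0,1,7)]) (wi [(2,1,0,3),(2,1,0,4),(2,1,0,5),(3,0,1,6),(3,0,1,7),(0,4,6,2),(0,5,7,2)]))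 (br 7 5 (wi [(2,1,0,3),(2,1,0,4),(2,1,0,5),(3,0,1,6),(0,3,7,2),(0,4,6,2),(5,0,1,7)]) (wi [(2,1,0,3),(2,1,0,4),(2,1,0,5),(3,0,1,6),(0,3,7,2),(0,4,6,2),(0,5,7,2)]))))) (br 7 1 (br 7 2 (rq 2) (br 7 3 (br 7 5 (wi [(2,1,0,3),(2,1,0,4),(2,1,0,5),(3,0,1,6),(2,7,0,3),(0,4,6,2),(2,7,0,5)]) (wi [(2,1,0,3),(2,1,0,4),(2,1,0,5),(3,0,1,6),(2,7,0,3),(0,4,6,2),(1,2,7,5)])) (br 7 5 (wi [(2,1,0,3),(2,1,0,4),(2,1,0,5),(3,0,1,6),(1,2,7,3),(0,4,6,2),(2,7,0,5)]) (wi [(2,1,0,3),(2,1,0,4),(2,1,0,5),(3,0,1,6),(1,2,7,3),(0,4,6,2),(1,2,7,5)])))) (br 7 2 (br 7 3 (rq 2) (br 7 5 (rq 3) (wi [(2,1,0,3),(2,1,0,4),(2,1,0,5),(3,0,1,6),(2,1,7,3),(0,4,6,2),(2,1,7,5)]))) (br 7 3 (br 7 5 (wi [(2,1,0,3),(2,1,0,4),(2,1,0,5),(3,0,1,6),(2,7,0,3),(0,4,6,2),(2,7,0,5)]) (rq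 3)) (rq 2)))))) (br 6 4 (br 7 0 (br 7 1 (br 7 2 (br 7 3 (rq 2) (br 7 5 (rq 3) (wi [(2,1,0,3),(2,1,0,4),(2,1,0,5),(0,3,6,2),(1,0,3,7),(4,0,1,6),(1,0,5,7)]))) (br 7 3 (rq 2) (wi [(2,1,0,3),(2,1,0,4),(0,3,6,2),(0,1,2,7),(4,0,1,6),(1,0,3,7)]))) (br 7 2 (br 7 3 (br 7 5 (wi [(2,1,0,3),(2,1,0,4),(2,1,0,5),(0,3,6,2),(3,0,1,7),(4,0,1,6),(5,0,1,7)]) (wi [(2,1,0,3),(2,1,0,4),(2,1,0,5),(0,3,6,2),(3,0,1,7),(4,0,1,6),(2,1,7,5)])) (br 7 5 (wi [(2,1,0,3),(2,1,0,4),(2,1,0,5),(0,3,6,2),(2,1,7,3),(4,0,1,6),(5,0,1,7)]) (wi [(2,1,0,3),(2,1,0,4),(2,1,0,5),(0,3,6,2),(2,1,7,3),(4,0,1,6),(2,1,7,5)]))) (br 7 3 (br 7 5 (wi [(2,1,0,3),(2,1,0,4),(2,1,0,5),(0,3,6,2),(3,0,1,7),(4,0,1,6),(5,0,1,7)]) (wi [(2,1,0,3),(2,1,0,4),(2,1,0,5),(0,3,6,2),(3,0,1,7),(4,0,1,6),(0,5,7,2)]))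 (br 7 5 (wi [(2,1,0,3),(2,1,0,4),(2,1,0,5),(0,3,6,2),(0,3,7,2),(4,0,1,6),(5,0,1,7)]) (wi [(2,1,0,3),(2,1,0,4),(2,1,0,5),(0,3,6,2),(0,3,7,2),(4,0,1,6),(0,5,7,2)]))))) (br 7 1 (br 7 2 (rq 2) (br 7 3 (br 7 5 (wi [(2,1,0,3),(2,1,0,4),(2,1,0,5),(0,3,6,2),(2,7,0,3),(4,0,1,6),(2,7,0,5)]) (wi [(2,1,0,3),(2,1,0,4),(2,1,0,5),(0,3,6,2),(2,7,0,3),(4,0,1,6),(1,2,7,5)])) (br 7 5 (wi [(2,1,0,3),(2,1,0,4),(2,1,0,5),(0,3,6,2),(1,2,7,3),(4,0,1,6),(2,7,0,5)]) (wi [(2,1,0,3),(2,1,0,4),(2,1,0,5),(0,3,6,2),(1,2,7,3),(4,0,1,6),(1,2,7,5)])))) (br 7 2 (br 7 3 (rq 2) (br 7 5 (rq 3) (wi [(2,1,0,3),(2,1,0,4),(2,1,0,5),(0,3,6,2),(2,1,7,3),(4,0,1,6),(2,1,7,5)]))) (br 7 3 (br 7 5 (wi [(2,1,0,3),(2,1,0,4),(2,1,0,5),(0,3,6,2),(2,7,0,3),(4,0,1,6),(2,7,0,5)]) (rq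 3)) (rq 2))))) (br 7 0 (br 7 1 (br 7 2 (br 7 3 (rq 2) (br 7 5 (rq 3) (wi [(2,1,0,3),(2,1,0,4),(2,1,0,5),(0,3,6,2),(1,0,3,7),(0,4,6,2),(1,0,5,7)]))) (br 7 3 (rq 2) (wi [(2,1,0,3),(2,1,0,4),(0,3,6,2),(0,1,2,7),(0,4,6,2),(1,0,3,7)]))) (br 7 2 (br 7 3 (br 7 5 (wi [(2,1,0,3),(2,1,0,4),(2,1,0,5),(0,3,6,2),(3,0,1,7),(0,4,6,2),(5,0,1,7)]) (wi [(2,1,0,3),(2,1,0,4),(2,1,0,5),(0,3,6,2),(3,0,1,7),(0,4,6,2),(2,1,7,5)])) (br 7 5 (wi [(2,1,0,3),(2,1,0,4),(2,1,0,5),(0,3,6,2),(2,1,7,3),(0,4,6,2),(5,0,1,7)]) (wi [(2,1,0,3),(2,1,0,4),(2,1,0,5),(0,3,6,2),(2,1,7,3),(0,4,6,2),(2,1,7,5)]))) (br 7 3 (br 7 5 (wi [(2,1,0,3),(2,1,0,4),(2,1,0,5),(0,3,6,2),(3,0,1,7),(0,4,6,2),(5,0,1,7)]) (wi [(2,1,0,3),(2,1,0,4),(2,1,0,5),(0,3,6,2),(3,0,1,7),(0,4,6,2),(0,5,7,2)]))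 (br 7 5 (wi [(2,1,0,3),(2,1,0,4),(2,1,0,5),(0,3,6,2),(0,3,7,2),(0,4,6,2),(5,0,1,7)]) (wi [(2,1,0,3),(2,1,0,4),(2,1,0,5),(0,3,6,2),(0,3,7,2),(0,4,6,2),(0,5,7,2)]))))) (br 7 1 (br 7 2 (rq 2) (br 7 3 (br 7 5 (wi [(2,1,0,3),(2,1,0,4),(2,1,0,5),(0,3,6,2),(2,7,0,3),(0,4,6,2),(2,7,0,5)]) (wi [(2,1,0,3),(2,1,0,4),(2,1,0,5),(0,3,6,2),(2,7,0,3),(0,4,6,2),(1,2,7,5)])) (br 7 5 (wi [(2,1,0,3),(2,1,0,4),(2,1,0,5),(0,3,6,2),(1,2,7,3),(0,4,6,2),(2,7,0,5)]) (wi [(2,1,0,3),(2,1,0,4),(2,1,0,5),(0,3,6,2),(1,2,7,3),(0,4,6,2),(1,2,7,5)])))) (br 7 2 (br 7 3 (rq 2) (br 7 5 (rq 3) (wi [(2,1,0,3),(2,1,0,4),(2,1,0,5),(0,3,6,2),(2,1,7,3),(0,4,6,2),(2,1,7,5)]))) (br 7 3 (br 7 5 (wi [(2,1,0,3),(2,1,0,4),(2,1,0,5),(0,3,6,2),(2,7,0,3),(0,4,6,2),(2,7,0,5)]) (rq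 3)) (rq 2)))))))

def twC5_3 : CT := (br 6 3 (br 6 4 (br 7 0 (br 7 1 (br 7 2 (br 7 3 (rq 2) (br 7 5 (rq 3) (wi [(2,1,0,3),(2,1,0,4),(2,1,0,5),(2,6,0,3),(1,0,3,7),(2,6,0,4),(1,0,5,7)]))) (br 7 3 (rq 2) (wi [(2,1,0,3),(2,1,0,4),(2,6,0,3),(0,1,2,7),(2,6,0,4),(1,0,3,7)]))) (br 7 2 (br 7 3 (br 7 5 (wi [(2,1,0,3),(2,1,0,4),(2,1,0,5),(2,6,0,3),(3,0,1,7),(2,6,0,4),(5,0,1,7)]) (wi [(2,1,0,3),(2,1,0,4),(2,1,0,5),(2,6,0,3),(3,0,1,7),(2,6,0,4),(2,1,7,5)])) (br 7 5 (wi [(2,1,0,3),(2,1,0,4),(2,1,0,5),(2,6,0,3),(2,1,7,3),(2,6,0,4),(5,0,1,7)]) (wi [(2,1,0,3),(2,1,0,4),(2,1,0,5),(2,6,0,3),(2,1,7,3),(2,6,0,4),(2,1,7,5)]))) (br 7 3 (br 7 5 (wi [(2,1,0,3),(2,1,0,4),(2,1,0,5),(2,6,0,3),(3,0,1,7),(2,6,0,4),(5,0,1,7)]) (wi [(2,1,0,3),(2,1,0,4),(2,1,0,5),(2,6,0,3),(3,0,1,7),(2,6,0,4),(0,5,7,2)]))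 (br 7 5 (wi [(2,1,0,3),(2,1,0,4),(2,1,0,5),(2,6,0,3),(0,3,7,2),(2,6,0,4),(5,0,1,7)]) (wi [(2,1,0,3),(2,1,0,4),(2,1,0,5),(2,6,0,3),(0,3,7,2),(2,6,0,4),(0,5,7,2)]))))) (br 7 1 (br 7 2 (rq 2) (br 7 3 (br 7 5 (wi [(2,1,0,3),(2,1,0,4),(2,1,0,5),(2,6,0,3),(2,7,0,3),(2,6,0,4),(2,7,0,5)]) (wi [(2,1,0,3),(2,1,0,4),(2,1,0,5),(2,6,0,3),(2,7,0,3),(2,6,0,4),(1,2,7,5)])) (br 7 5 (wi [(2,1,0,3),(2,1,0,4),(2,1,0,5),(2,6,0,3),(1,2,7,3),(2,6,0,4),(2,7,0,5)]) (wi [(2,1,0,3),(2,1,0,4),(2,1,0,5),(2,6,0,3),(1,2,7,3),(2,6,0,4),(1,2,7,5)])))) (br 7 2 (br 7 3 (rq 2) (br 7 5 (rq 3) (wi [(2,1,0,3),(2,1,0,4),(2,1,0,5),(2,6,0,3),(2,1,7,3),(2,6,0,4),(2,1,7,5)]))) (br 7 3 (br 7 5 (wi [(2,1,0,3),(2,1,0,4),(2,1,0,5),(2,6,0,3),(2,7,0,3),(2,6,0,4),(2,7,0,5)]) (rq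 3)) (rq 2))))) (br 7 0 (br 7 1 (br 7 2 (br 7 3 (rq 2) (br 7 5 (rq 3) (wi [(2,1,0,3),(2,1,0,4),(2,1,0,5),(2,6,0,3),(1,0,3,7),(1,2,6,4),(1,0,5,7)]))) (br 7 3 (rq 2) (wi [(2,1,0,3),(2,1,0,4),(2,6,0,3),(0,1,2,7),(1,2,6,4),(1,0,3,7)]))) (br 7 2 (br 7 3 (br 7 5 (wi [(2,1,0,3),(2,1,0,4),(2,1,0,5),(2,6,0,3),(3,0,1,7),(1,2,6,4),(5,0,1,7)]) (wi [(2,1,0,3),(2,1,0,4),(2,1,0,5),(2,6,0,3),(3,0,1,7),(1,2,6,4),(2,1,7,5)])) (br 7 5 (wi [(2,1,0,3),(2,1,0,4),(2,1,0,5),(2,6,0,3),(2,1,7,3),(1,2,6,4),(5,0,1,7)]) (wi [(2,1,0,3),(2,1,0,4),(2,1,0,5),(2,6,0,3),(2,1,7,3),(1,2,6,4),(2,1,7,5)]))) (br 7 3 (br 7 5 (wi [(2,1,0,3),(2,1,0,4),(2,1,0,5),(2,6,0,3),(3,0,1,7),(1,2,6,4),(5,0,1,7)]) (wi [(2,1,0,3),(2,1,0,4),(2,1,0,5),(2,6,0,3),(3,0,1,7),(1,2,6,4),(0,5,7,2)]))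 (br 7 5 (wi [(2,1,0,3),(2,1,0,4),(2,1,0,5),(2,6,0,3),(0,3,7,2),(1,2,6,4),(5,0,1,7)]) (wi [(2,1,0,3),(2,1,0,4),(2,1,0,5),(2,6,0,3),(0,3,7,2),(1,2,6,4),(0,5,7,2)]))))) (br 7 1 (br 7 2 (rq 2) (br 7 3 (br 7 5 (wi [(2,1,0,3),(2,1,0,4),(2,1,0,5),(2,6,0,3),(2,7,0,3),(1,2,6,4),(2,7,0,5)]) (wi [(2,1,0,3),(2,1,0,4),(2,1,0,5),(2,6,0,3),(2,7,0,3),(1,2,6,4),(1,2,7,5)])) (br 7 5 (wi [(2,1,0,3),(2,1,0,4),(2,1,0,5),(2,6,0,3),(1,2,7,3),(1,2,6,4),(2,7,0,5)]) (wi [(2,1,0,3),(2,1,0,4),(2,1,0,5),(2,6,0,3),(1,2,7,3),(1,2,6,4),(1,2,7,5)])))) (br 7 2 (br 7 3 (rq 2) (br 7 5 (rq 3) (wi [(2,1,0,3),(2,1,0,4),(2,1,0,5),(2,6,0,3),(2,1,7,3),(1,2,6,4),(2,1,7,5)]))) (br 7 3 (br 7 5 (wi [(2,1,0,3),(2,1,0,4),(2,1,0,5),(2,6,0,3),(2,7,0,3),(1,2,6,4),(2,7,0,5)]) (rq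 3)) (rq 2)))))) (br 6 4 (br 7 0 (br 7 1 (br 7 2 (br 7 3 (rq 2) (br 7 5 (rq 3) (wi [(2,1,0,3),(2,1,0,4),(2,1,0,5),(1,2,6,3),(1,0,3,7),(2,6,0,4),(1,0,5,7)]))) (br 7 3 (rq 2) (wi [(2,1,0,3),(2,1,0,4),(1,2,6,3),(0,1,2,7),(2,6,0,4),(1,0,3,7)]))) (br 7 2 (br 7 3 (br 7 5 (wi [(2,1,0,3),(2,1,0,4),(2,1,0,5),(1,2,6,3),(3,0,1,7),(2,6,0,4),(5,0,1,7)]) (wi [(2,1,0,3),(2,1,0,4),(2,1,0,5),(1,2,6,3),(3,0,1,7),(2,6,0,4),(2,1,7,5)])) (br 7 5 (wi [(2,1,0,3),(2,1,0,4),(2,1,0,5),(1,2,6,3),(2,1,7,3),(2,6,0,4),(5,0,1,7)]) (wi [(2,1,0,3),(2,1,0,4),(2,1,0,5),(1,2,6,3),(2,1,7,3),(2,6,0,4),(2,1,7,5)]))) (br 7 3 (br 7 5 (wi [(2,1,0,3),(2,1,0,4),(2,1,0,5),(1,2,6,3),(3,0,1,7),(2,6,0,4),(5,0,1,7)]) (wi [(2,1,0,3),(2,1,0,4),(2,1,0,5),(1,2,6,3),(3,0,1,7),(2,6,0,4),(0,5,7,2)]))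 (br 7 5 (wi [(2,1,0,3),(2,1,0,4),(2,1,0,5),(1,2,6,3),(0,3,7,2),(2,6,0,4),(5,0,1,7)]) (wi [(2,1,0,3),(2,1,0,4),(2,1,0,5),(1,2,6,3),(0,3,7,2),(2,6,0,4),(0,5,7,2)]))))) (br 7 1 (br 7 2 (rq 2) (br 7 3 (br 7 5 (wi [(2,1,0,3),(2,1,0,4),(2,1,0,5),(1,2,6,3),(2,7,0,3),(2,6,0,4),(2,7,0,5)]) (wi [(2,1,0,3),(2,1,0,4),(2,1,0,5),(1,2,6,3),(2,7,0,3),(2,6,0,4),(1,2,7,5)])) (br 7 5 (wi [(2,1,0,3),(2,1,0,4),(2,1,0,5),(1,2,6,3),(1,2,7,3),(2,6,0,4),(2,7,0,5)]) (wi [(2,1,0,3),(2,1,0,4),(2,1,0,5),(1,2,6,3),(1,2,7,3),(2,6,0,4),(1,2,7,5)])))) (br 7 2 (br 7 3 (rq 2) (br 7 5 (rq 3) (wi [(2,1,0,3),(2,1,0,4),(2,1,0,5),(1,2,6,3),(2,1,7,3),(2,6,0,4),(2,1,7,5)]))) (br 7 3 (br 7 5 (wi [(2,1,0,3),(2,1,0,4),(2,1,0,5),(1,2,6,3),(2,7,0,3),(2,6,0,4),(2,7,0,5)]) (rq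 3)) (rq 2))))) (br 7 0 (br 7 1 (br 7 2 (br 7 3 (rq 2) (br 7 5 (rq 3) (wi [(2,1,0,3),(2,1,0,4),(2,1,0,5),(1,2,6,3),(1,0,3,7),(1,2,6,4),(1,0,5,7)]))) (br 7 3 (rq 2) (wi [(2,1,0,3),(2,1,0,4),(1,2,6,3),(0,1,2,7),(1,2,6,4),(1,0,3,7)]))) (br 7 2 (br 7 3 (br 7 5 (wi [(2,1,0,3),(2,1,0,4),(2,1,0,5),(1,2,6,3),(3,0,1,7),(1,2,6,4),(5,0,1,7)]) (wi [(2,1,0,3),(2,1,0,4),(2,1,0,5),(1,2,6,3),(3,0,1,7),(1,2,6,4),(2,1,7,5)])) (br 7 5 (wi [(2,1,0,3),(2,1,0,4),(2,1,0,5),(1,2,6,3),(2,1,7,3),(1,2,6,4),(5,0,1,7)]) (wi [(2,1,0,3),(2,1,0,4),(2,1,0,5),(1,2,6,3),(2,1,7,3),(1,2,6,4),(2,1,7,5)]))) (br 7 3 (br 7 5 (wi [(2,1,0,3),(2,1,0,4),(2,1,0,5),(1,2,6,3),(3,0,1,7),(1,2,6,4),(5,0,1,7)]) (wi [(2,1,0,3),(2,1,0,4),(2,1,0,5),(1,2,6,3),(3,0,1,7),(1,2,6,4),(0,5,7,2)]))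 (br 7 5 (wi [(2,1,0,3),(2,1,0,4),(2,1,0,5),(1,2,6,3),(0,3,7,2),(1,2,6,4),(5,0,1,7)]) (wi [(2,1,0,3),(2,1,0,4),(2,1,0,5),(1,2,6,3),(0,3,7,2),(1,2,6,4),(0,5,7,2)]))))) (br 7 1 (br 7 2 (rq 2) (br 7 3 (br 7 5 (wi [(2,1,0,3),(2,1,0,4),(2,1,0,5),(1,2,6,3),(2,7,0,3),(1,2,6,4),(2,7,0,5)]) (wi [(2,1,0,3),(2,1,0,4),(2,1,0,5),(1,2,6,3),(2,7,0,3),(1,2,6,4),(1,2,7,5)])) (br 7 5 (wi [(2,1,0,3),(2,1,0,4),(2,1,0,5),(1,2,6,3),(1,2,7,3),(1,2,6,4),(2,7,0,5)]) (wi [(2,1,0,3),(2,1,0,4),(2,1,0,5),(1,2,6,3),(1,2,7,3),(1,2,6,4),(1,2,7,5)])))) (br 7 2 (br 7 3 (rq 2) (br 7 5 (rq 3) (wi [(2,1,0,3),(2,1,0,4),(2,1,0,5),(1,2,6,3),(2,1,7,3),(1,2,6,4),(2,1,7,5)]))) (br 7 3 (br 7 5 (wi [(2,1,0,3),(2,1,0,4),(2,1,0,5),(1,2,6,3),(2,7,0,3),(1,2,6,4),(2,7,0,5)]) (rq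 3)) (rq 2)))))))

def twC5_4 : CT := (br 6 0 (br 6 1 (br 6 2 (br 6 3 (rq 0) (br 6 4 (rq 1) (br 7 0 (br 7 1 (br 7 2 (br 7 3 (rq 2) (br 7 5 (rq 3) (wi [(2,1,0,3),(2,1,0,4),(2,1,0,5),(1,0,3,6),(1,0,3,7),(1,0,4,6),(1,0,5,7)]))) (br 7 3 (rq 2) (wi [(2,1,0,3),(2,1,0,4),(1,0,3,6),(0,1,2,7),(1,0,4,6),(1,0,3,7)]))) (br 7 2 (br 7 3 (br 7 5 (wi [(2,1,0,3),(2,1,0,4),(2,1,0,5),(1,0,3,6),(3,0,1,7),(1,0,4,6),(5,0,1,7)]) (wi [(2,1,0,3),(2,1,0,4),(2,1,0,5),(1,0,3,6),(3,0,1,7),(1,0,4,6),(2,1,7,5)])) (br 7 5 (wi [(2,1,0,3),(2,1,0,4),(2,1,0,5),(1,0,3,6),(2,1,7,3),(1,0,4,6),(5,0,1,7)]) (wi [(2,1,0,3),(2,1,0,4),(2,1,0,5),(1,0,3,6),(2,1,7,3),(1,0,4,6),(2,1,7,5)]))) (br 7 3 (br 7 5 (wi [(2,1,0,3),(2,1,0,4),(2,1,0,5),(1,0,3,6),(3,0,1,7),(1,0,4,6),(5,0,1,7)])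 (wi [(2,1,0,3),(2,1,0,4),(2,1,0,5),(1,0,3,6),(3,0,1,7),(1,0,4,6),(0,5,7,2)])) (br 7 5 (wi [(2,1,0,3),(2,1,0,4),(2,1,0,5),(1,0,3,6),(0,3,7,2),(1,0,4,6),(5,0,1,7)]) (wi [(2,1,0,3),(2,1,0,4),(2,1,0,5),(1,0,3,6),(0,3,7,2),(1,0,4,6),(0,5,7,2)]))))) (br 7 1 (br 7 2 (rq 2) (br 7 3 (br 7 5 (wi [(2,1,0,3),(2,1,0,4),(2,1,0,5),(1,0,3,6),(2,7,0,3),(1,0,4,6),(2,7,0,5)]) (wi [(2,1,0,3),(2,1,0,4),(2,1,0,5),(1,0,3,6),(2,7,0,3),(1,0,4,6),(1,2,7,5)])) (br 7 5 (wi [(2,1,0,3),(2,1,0,4),(2,1,0,5),(1,0,3,6),(1,2,7,3),(1,0,4,6),(2,7,0,5)]) (wi [(2,1,0,3),(2,1,0,4),(2,1,0,5),(1,0,3,6),(1,2,7,3),(1,0,4,6),(1,2,7,5)])))) (br 7 2 (br 7 3 (rq 2) (br 7 5 (rq 3) (wi [(2,1,0,3),(2,1,0,4),(2,1,0,5),(1,0,3,6),(2,1,7,3),(1,0,4,6),(2,1,7,5)]))) (br 7 3 (br 7 5 (wi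 [(2,1,0,3),(2,1,0,4),(2,1,0,5),(1,0,3,6),(2,7,0,3),(1,0,4,6),(2,7,0,5)]) (rq 3)) (rq 2))))))) (br 6 3 (rq 0) (wi [(2,1,0,3),(0,1,2,6),(1,0,3,6),(0,3,6,2)]))) (br 6 2 twC5_1 twC5_2)) (br 6 1 (br 6 2 (rq 0) twC5_3) (br 6 2 (br 6 3 (rq 0) (br 6 4 (rq 1) (br 7 0 (br 7 1 (br 7 2 (br 7 3 (rq 2) (br 7 5 (rq 3) (wi [(2,1,0,3),(2,1,0,4),(2,1,0,5),(2,1,6,3),(1,0,3,7),(2,1,6,4),(1,0,5,7)]))) (br 7 3 (rq 2) (wi [(2,1,0,3),(2,1,0,4),(2,1,6,3),(0,1,2,7),(2,1,6,4),(1,0,3,7)]))) (br 7 2 (br 7 3 (br 7 5 (wi [(2,1,0,3),(2,1,0,4),(2,1,0,5),(2,1,6,3),(3,0,1,7),(2,1,6,4),(5,0,1,7)]) (wi [(2,1,0,3),(2,1,0,4),(2,1,0,5),(2,1,6,3),(3,0,1,7),(2,1,6,4),(2,1,7,5)])) (br 7 5 (wi [(2,1,0,3),(2,1,0,4),(2,1,0,5),(2,1,6,3),(2,1,7,3),(2,1,6,4),(5,0,1,7)]) (wi [(2,1,0,3),(2,1,0,4),(2,1,0,5),(2,1,6,3),(2,1,7,3),(2,1,6,4),(2,1,7,5)])))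 (br 7 3 (br 7 5 (wi [(2,1,0,3),(2,1,0,4),(2,1,0,5),(2,1,6,3),(3,0,1,7),(2,1,6,4),(5,0,1,7)]) (wi [(2,1,0,3),(2,1,0,4),(2,1,0,5),(2,1,6,3),(3,0,1,7),(2,1,6,4),(0,5,7,2)])) (br 7 5 (wi [(2,1,0,3),(2,1,0,4),(2,1,0,5),(2,1,6,3),(0,3,7,2),(2,1,6,4),(5,0,1,7)]) (wi [(2,1,0,3),(2,1,0,4),(2,1,0,5),(2,1,6,3),(0,3,7,2),(2,1,6,4),(0,5,7,2)]))))) (br 7 1 (br 7 2 (rq 2) (br 7 3 (br 7 5 (wi [(2,1,0,3),(2,1,0,4),(2,1,0,5),(2,1,6,3),(2,7,0,3),(2,1,6,4),(2,7,0,5)]) (wi [(2,1,0,3),(2,1,0,4),(2,1,0,5),(2,1,6,3),(2,7,0,3),(2,1,6,4),(1,2,7,5)])) (br 7 5 (wi [(2,1,0,3),(2,1,0,4),(2,1,0,5),(2,1,6,3),(1,2,7,3),(2,1,6,4),(2,7,0,5)]) (wi [(2,1,0,3),(2,1,0,4),(2,1,0,5),(2,1,6,3),(1,2,7,3),(2,1,6,4),(1,2,7,5)])))) (br 7 2 (br 7 3 (rq 2) (br 7 5 (rq 3) (wi [(2,1,0,3),(2,1,0,4),(2,1,0,5),(2,1,6,3),(2,1,7,3),(2,1,6,4),(2,1,7,5)])))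 (br 7 3 (br 7 5 (wi [(2,1,0,3),(2,1,0,4),(2,1,0,5),(2,1,6,3),(2,7,0,3),(2,1,6,4),(2,7,0,5)]) (rq 3)) (rq 2))))))) (br 6 3 (br 6 4 (br 7 0 (br 7 1 (br 7 2 (br 7 3 (rq 2) (br 7 5 (rq 3) (wi [(2,1,0,3),(2,1,0,4),(2,1,0,5),(2,6,0,3),(1,0,3,7),(2,6,0,4),(1,0,5,7)]))) (br 7 3 (rq 2) (wi [(2,1,0,3),(2,1,0,4),(2,6,0,3),(0,1,2,7),(2,6,0,4),(1,0,3,7)]))) (br 7 2 (br 7 3 (br 7 5 (wi [(2,1,0,3),(2,1,0,4),(2,1,0,5),(2,6,0,3),(3,0,1,7),(2,6,0,4),(5,0,1,7)]) (wi [(2,1,0,3),(2,1,0,4),(2,1,0,5),(2,6,0,3),(3,0,1,7),(2,6,0,4),(2,1,7,5)])) (br 7 5 (wi [(2,1,0,3),(2,1,0,4),(2,1,0,5),(2,6,0,3),(2,1,7,3),(2,6,0,4),(5,0,1,7)]) (wi [(2,1,0,3),(2,1,0,4),(2,1,0,5),(2,6,0,3),(2,1,7,3),(2,6,0,4),(2,1,7,5)]))) (br 7 3 (br 7 5 (wi [(2,1,0,3),(2,1,0,4),(2,1,0,5),(2,6,0,3),(3,0,1,7),(2,6,0,4),(5,0,1,7)])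 (wi [(2,1,0,3),(2,1,0,4),(2,1,0,5),(2,6,0,3),(3,0,1,7),(2,6,0,4),(0,5,7,2)])) (br 7 5 (wi [(2,1,0,3),(2,1,0,4),(2,1,0,5),(2,6,0,3),(0,3,7,2),(2,6,0,4),(5,0,1,7)]) (wi [(2,1,0,3),(2,1,0,4),(2,1,0,5),(2,6,0,3),(0,3,7,2),(2,6,0,4),(0,5,7,2)]))))) (br 7 1 (br 7 2 (rq 2) (br 7 3 (br 7 5 (wi [(2,1,0,3),(2,1,0,4),(2,1,0,5),(2,6,0,3),(2,7,0,3),(2,6,0,4),(2,7,0,5)]) (wi [(2,1,0,3),(2,1,0,4),(2,1,0,5),(2,6,0,3),(2,7,0,3),(2,6,0,4),(1,2,7,5)])) (br 7 5 (wi [(2,1,0,3),(2,1,0,4),(2,1,0,5),(2,6,0,3),(1,2,7,3),(2,6,0,4),(2,7,0,5)]) (wi [(2,1,0,3),(2,1,0,4),(2,1,0,5),(2,6,0,3),(1,2,7,3),(2,6,0,4),(1,2,7,5)])))) (br 7 2 (br 7 3 (rq 2) (br 7 5 (rq 3) (wi [(2,1,0,3),(2,1,0,4),(2,1,0,5),(2,6,0,3),(2,1,7,3),(2,6,0,4),(2,1,7,5)]))) (br 7 3 (br 7 5 (wi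 [(2,1,0,3),(2,1,0,4),(2,1,0,5),(2,6,0,3),(2,7,0,3),(2,6,0,4),(2,7,0,5)]) (rq 3)) (rq 2))))) (rq 1)) (rq 0)))))

def twC5 : CT := twC5_4

lemma wC5 {G : SimpleGraph V} (hLC : LC G) {a0 a1 a2 a3 a4 a5 a6 a7 : V} (hnd : ([a0, a1, a2, a3, a4, a5, a6, a7] : List V).Nodup)
    (h0_1 : G.Adj a0 a1) (h1_2 : G.Adj a1 a2) (h0_3 : G.Adj a0 a3) (h0_4 : G.Adj a0 a4)
    (h0_5 : G.Adj a0 a5) (n0_2 : ¬ G.Adj a0 a2) (n1_3 : ¬ G.Adj a1 a3) (n1_4 : ¬ G.Adj a1 a4)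
    (n1_5 : ¬ G.Adj a1 a5) (n2_3 : ¬ G.Adj a2 a3) (n2_4 : ¬ G.Adj a2 a4) (n2_5 : ¬ G.Adj a2 a5)
    (r0 : IsP4 G {a6, a3, a0, a1} ∨ IsP4 G {a6, a3, a0, a2} ∨ IsP4 G {a6, a3, a1, a2}) (r1 : IsP4 G {a6, a4, a0, a1} ∨ IsP4 G {a6, a4, a0, a2} ∨ IsP4 G {a6, a4, a1, a2}) (r2 : IsP4 G {a7, a3, a0, a1} ∨ IsP4 G {a7, a3, a0, a2} ∨ IsP4 G {a7, a3, a1, a2}) (r3 : IsP4 G {a7, a5, a0, a1} ∨ IsP4 G {a7, a5, a0, a2} ∨ IsP4 G {a7, a5, a1, a2}) : False :=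
  full_sound hLC [a0, a1, a2, a3, a4, a5, a6, a7] hnd a0 (e8 := false) (fun h => absurd h (by simp)) (fb := fun _ => false)
    (rq := [[(6, 3, 0, 1), (6, 3, 0, 2), (6, 3, 1, 2)], [(6, 4, 0, 1), (6, 4, 0, 2), (6, 4, 1, 2)], [(7, 3, 0, 1), (7, 3, 0, 2), (7, 3, 1, 2)], [(7, 5, 0, 1), (7, 5, 0, 2), (7, 5, 1, 2)]])
    (pos := [(0, 1), (1, 2), (0, 3), (0, 4), (0, 5)])
    (neg := [(0, 2), (1, 3), (1, 4), (1, 5), (2, 3), (2, 4), (2, 5)])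
    (t := twC5) (show full 8 false (fun _ => false) [[(6, 3, 0, 1), (6, 3, 0, 2), (6, 3, 1, 2)], [(6, 4, 0, 1), (6, 4, 0, 2), (6, 4, 1, 2)], [(7, 3, 0, 1), (7, 3, 0, 2), (7, 3, 1, 2)], [(7, 5, 0, 1), (7, 5, 0, 2), (7, 5, 1, 2)]] [(0, 1), (1, 2), (0, 3), (0, 4), (0, 5)] [(0, 2), (1, 3), (1, 4), (1, 5), (2, 3), (2, 4), (2, 5)] twC5 = true by decide +kernel)
    (fun q hq => absurd hq (by simp))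
    (List.forall_mem_cons.2 ⟨(by rcases r0 with h | h | h; exacts [⟨(6, 3, 0, 1), by simp, h⟩, ⟨(6, 3, 0, 2), by simp, h⟩, ⟨(6, 3, 1, 2), by simp, h⟩]), (List.forall_mem_cons.2 ⟨(by rcases r1 with h | h | h; exacts [⟨(6, 4, 0, 1), by simp, h⟩, ⟨(6, 4, 0, 2), by simp, h⟩, ⟨(6, 4, 1, 2), by simp, h⟩]), (List.forall_mem_cons.2 ⟨(by rcases r2 with h | h | h; exacts [⟨(7, 3, 0, 1), by simp, h⟩, ⟨(7, 3, 0, 2), by simp, h⟩, ⟨(7, 3, 1, 2), by simp, h⟩]), (List.forall_mem_cons.2 ⟨(by rcases r3 with h | h | h; exacts [⟨(7, 5, 0, 1), by simp, h⟩, ⟨(7, 5, 0, 2), by simp, h⟩, ⟨(7, 5, 1, 2), by simp, h⟩]), (fun _ h => absurd h List.not_mem_nil)⟩)⟩)⟩)⟩)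
    (List.forall_mem_cons.2 ⟨h0_1, (List.forall_mem_cons.2 ⟨h1_2, (List.forall_mem_cons.2 ⟨h0_3, (List.forall_mem_cons.2 ⟨h0_4, (List.forall_mem_cons.2 ⟨h0_5, (fun _ h => absurd h List.not_mem_nil)⟩)⟩)⟩)⟩)⟩)
    (List.forall_mem_cons.2 ⟨n0_2, (List.forall_mem_cons.2 ⟨n1_3, (List.forall_mem_cons.2 ⟨n1_4, (List.forall_mem_cons.2 ⟨n1_5, (List.forall_mem_cons.2 ⟨n2_3, (List.forall_mem_cons.2 ⟨n2_4, (List.forall_mem_cons.2 ⟨n2_5, (fun _ h => absurd h List.not_mem_nil)⟩)⟩)⟩)⟩)⟩)⟩)⟩)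

def twC6ia : CT := (wi [(2,1,0,3),(2,1,0,4),(1,0,3,5),(1,0,4,6),(4,0,3,5),(3,0,4,6)])

lemma wC6ia {G : SimpleGraph V} (hLC : LC G) {a0 a1 a2 a3 a4 a5 a6 : V} (hnd : ([a0, a1, a2, a3, a4, a5, a6] : List V).Nodup)
    (h0_1 : G.Adj a0 a1) (h1_2 : G.Adj a1 a2) (h0_3 : G.Adj a0 a3) (h0_4 : G.Adj a0 a4)
    (h5_3 : G.Adj a5 a3) (h6_4 : G.Adj a6 a4) (n0_2 : ¬ G.Adj a0 a2) (n1_3 : ¬ G.Adj a1 a3)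
    (n1_4 : ¬ G.Adj a1 a4) (n2_3 : ¬ G.Adj a2 a3) (n2_4 : ¬ G.Adj a2 a4) (n5_0 : ¬ G.Adj a5 a0)
    (n5_1 : ¬ G.Adj a5 a1) (n5_2 : ¬ G.Adj a5 a2) (n6_0 : ¬ G.Adj a6 a0) (n6_1 : ¬ G.Adj a6 a1)
    (n6_2 : ¬ G.Adj a6 a2) (n5_4 : ¬ G.Adj a5 a4) (n6_3 : ¬ G.Adj a6 a3) (n3_4 : ¬ G.Adj a3 a4) : False :=
  full_sound hLC [a0, a1, a2, a3, a4, a5, a6] hnd a0 (e8 := false) (fun h => absurd h (by simp)) (fb := fun _ => false)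
    (rq := [])
    (pos := [(0, 1), (1, 2), (0, 3), (0, 4), (5, 3), (6, 4)])
    (neg := [(0, 2), (1, 3), (1, 4), (2, 3), (2, 4), (5, 0), (5, 1), (5, 2), (6, 0), (6, 1), (6, 2), (5, 4), (6, 3), (3, 4)])
    (t := twC6ia) (show full 7 false (fun _ => false) [] [(0, 1), (1, 2), (0, 3), (0, 4), (5, 3), (6, 4)] [(0, 2), (1, 3), (1, 4), (2, 3), (2, 4), (5, 0), (5, 1), (5, 2), (6, 0), (6, 1), (6, 2), (5, 4), (6, 3), (3, 4)] twC6ia = true by decide +kernel)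
    (fun q hq => absurd hq (by simp))
    (fun _ h => absurd h List.not_mem_nil)
    (List.forall_mem_cons.2 ⟨h0_1, (List.forall_mem_cons.2 ⟨h1_2, (List.forall_mem_cons.2 ⟨h0_3, (List.forall_mem_cons.2 ⟨h0_4, (List.forall_mem_cons.2 ⟨h5_3, (List.forall_mem_cons.2 ⟨h6_4, (fun _ h => absurd h List.not_mem_nil)⟩)⟩)⟩)⟩)⟩)⟩)
    (List.forall_mem_cons.2 ⟨n0_2, (List.forall_mem_cons.2 ⟨n1_3, (List.forall_mem_cons.2 ⟨n1_4, (List.forall_mem_cons.2 ⟨n2_3, (List.forall_mem_cons.2 ⟨n2_4, (List.forall_mem_cons.2 ⟨n5_0, (List.forall_mem_cons.2 ⟨n5_1, (List.forall_mem_cons.2 ⟨n5_2, (List.forall_mem_cons.2 ⟨n6_0, (List.forall_mem_cons.2 ⟨n6_1, (List.forall_mem_cons.2 ⟨n6_2, (List.forall_mem_cons.2 ⟨n5_4, (List.forall_mem_cons.2 ⟨n6_3, (List.forall_mem_cons.2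 ⟨n3_4, (fun _ h => absurd h List.not_mem_nil)⟩)⟩)⟩)⟩)⟩)⟩)⟩)⟩)⟩)⟩)⟩)⟩)⟩)⟩)

def twC6ib : CT := (wi [(2,1,0,3),(2,1,0,4),(1,0,3,5),(1,0,4,6),(0,3,5,6),(0,4,6,5)])

lemma wC6ib {G : SimpleGraph V} (hLC : LC G) {a0 a1 a2 a3 a4 a5 a6 : V} (hnd : ([a0, a1, a2, a3, a4, a5, a6] : List V).Nodup)
    (h0_1 : G.Adj a0 a1) (h1_2 : G.Adj a1 a2) (h0_3 : G.Adj a0 a3) (h0_4 : G.Adj a0 a4)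
    (h5_3 : G.Adj a5 a3) (h6_4 : G.Adj a6 a4) (h5_6 : G.Adj a5 a6) (n0_2 : ¬ G.Adj a0 a2)
    (n1_3 : ¬ G.Adj a1 a3) (n1_4 : ¬ G.Adj a1 a4) (n2_3 : ¬ G.Adj a2 a3) (n2_4 : ¬ G.Adj a2 a4)
    (n5_0 : ¬ G.Adj a5 a0) (n5_1 : ¬ G.Adj a5 a1) (n5_2 : ¬ G.Adj a5 a2) (n6_0 : ¬ G.Adj a6 a0)
    (n6_1 : ¬ G.Adj a6 a1) (n6_2 : ¬ G.Adj a6 a2) (n5_4 : ¬ G.Adj a5 a4) (n6_3 : ¬ G.Adj a6 a3) : False :=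
  full_sound hLC [a0, a1, a2, a3, a4, a5, a6] hnd a0 (e8 := false) (fun h => absurd h (by simp)) (fb := fun _ => false)
    (rq := [])
    (pos := [(0, 1), (1, 2), (0, 3), (0, 4), (5, 3), (6, 4), (5, 6)])
    (neg := [(0, 2), (1, 3), (1, 4), (2, 3), (2, 4), (5, 0), (5, 1), (5, 2), (6, 0), (6, 1), (6, 2), (5, 4), (6, 3)])
    (t := twC6ib) (show full 7 false (fun _ => false) [] [(0, 1), (1, 2), (0, 3), (0, 4), (5, 3), (6, 4), (5, 6)] [(0, 2), (1, 3), (1, 4), (2, 3), (2, 4), (5, 0), (5, 1), (5, 2), (6, 0), (6, 1), (6, 2), (5, 4), (6, 3)] twC6ib = true by decide +kernel)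
    (fun q hq => absurd hq (by simp))
    (fun _ h => absurd h List.not_mem_nil)
    (List.forall_mem_cons.2 ⟨h0_1, (List.forall_mem_cons.2 ⟨h1_2, (List.forall_mem_cons.2 ⟨h0_3, (List.forall_mem_cons.2 ⟨h0_4, (List.forall_mem_cons.2 ⟨h5_3, (List.forall_mem_cons.2 ⟨h6_4, (List.forall_mem_cons.2 ⟨h5_6, (fun _ h => absurd h List.not_mem_nil)⟩)⟩)⟩)⟩)⟩)⟩)⟩)
    (List.forall_mem_cons.2 ⟨n0_2, (List.forall_mem_cons.2 ⟨n1_3, (List.forall_mem_cons.2 ⟨n1_4, (List.forall_mem_cons.2 ⟨n2_3, (List.forall_mem_cons.2 ⟨n2_4, (List.forall_mem_cons.2 ⟨n5_0, (List.forall_mem_cons.2 ⟨n5_1, (List.forall_mem_cons.2 ⟨n5_2, (List.forall_mem_cons.2 ⟨n6_0, (List.forall_mem_cons.2 ⟨n6_1, (List.forall_mem_cons.2 ⟨n6_2, (List.forall_mem_cons.2 ⟨n5_4, (List.forall_mem_cons.2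 ⟨n6_3, (fun _ h => absurd h List.not_mem_nil)⟩)⟩)⟩)⟩)⟩)⟩)⟩)⟩)⟩)⟩)⟩)⟩)⟩)

def twC6iia : CT := (wi [(2,1,0,3),(2,1,0,4),(2,1,5,3),(2,1,6,4),(1,5,3,4),(1,6,4,3)])

lemma wC6iia {G : SimpleGraph V} (hLC : LC G) {a0 a1 a2 a3 a4 a5 a6 : V} (hnd : ([a0, a1, a2, a3, a4, a5, a6] : List V).Nodup)
    (h0_1 : G.Adj a0 a1) (h1_2 : G.Adj a1 a2) (h0_3 : G.Adj a0 a3) (h0_4 : G.Adj a0 a4)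
    (h5_0 : G.Adj a5 a0) (h5_1 : G.Adj a5 a1) (h6_0 : G.Adj a6 a0) (h6_1 : G.Adj a6 a1)
    (h5_3 : G.Adj a5 a3) (h6_4 : G.Adj a6 a4) (h3_4 : G.Adj a3 a4) (n0_2 : ¬ G.Adj a0 a2)
    (n1_3 : ¬ G.Adj a1 a3) (n1_4 : ¬ G.Adj a1 a4) (n2_3 : ¬ G.Adj a2 a3) (n2_4 : ¬ G.Adj a2 a4)
    (n5_2 : ¬ G.Adj a5 a2) (n6_2 : ¬ G.Adj a6 a2) (n5_4 : ¬ G.Adj a5 a4) (n6_3 : ¬ G.Adj a6 a3) : False :=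
  full_sound hLC [a0, a1, a2, a3, a4, a5, a6] hnd a0 (e8 := false) (fun h => absurd h (by simp)) (fb := fun _ => false)
    (rq := [])
    (pos := [(0, 1), (1, 2), (0, 3), (0, 4), (5, 0), (5, 1), (6, 0), (6, 1), (5, 3), (6, 4), (3, 4)])
    (neg := [(0, 2), (1, 3), (1, 4), (2, 3), (2, 4), (5, 2), (6, 2), (5, 4), (6, 3)])
    (t := twC6iia) (show full 7 false (fun _ => false) [] [(0, 1), (1, 2), (0, 3), (0, 4), (5, 0), (5, 1), (6, 0), (6, 1), (5, 3), (6, 4), (3, 4)] [(0, 2), (1, 3), (1, 4), (2, 3), (2, 4), (5, 2), (6, 2), (5, 4), (6, 3)] twC6iia = true by decide +kernel)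
    (fun q hq => absurd hq (by simp))
    (fun _ h => absurd h List.not_mem_nil)
    (List.forall_mem_cons.2 ⟨h0_1, (List.forall_mem_cons.2 ⟨h1_2, (List.forall_mem_cons.2 ⟨h0_3, (List.forall_mem_cons.2 ⟨h0_4, (List.forall_mem_cons.2 ⟨h5_0, (List.forall_mem_cons.2 ⟨h5_1, (List.forall_mem_cons.2 ⟨h6_0, (List.forall_mem_cons.2 ⟨h6_1, (List.forall_mem_cons.2 ⟨h5_3, (List.forall_mem_cons.2 ⟨h6_4, (List.forall_mem_cons.2 ⟨h3_4, (fun _ h => absurd h List.not_mem_nil)⟩)⟩)⟩)⟩)⟩)⟩)⟩)⟩)⟩)⟩)⟩)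
    (List.forall_mem_cons.2 ⟨n0_2, (List.forall_mem_cons.2 ⟨n1_3, (List.forall_mem_cons.2 ⟨n1_4, (List.forall_mem_cons.2 ⟨n2_3, (List.forall_mem_cons.2 ⟨n2_4, (List.forall_mem_cons.2 ⟨n5_2, (List.forall_mem_cons.2 ⟨n6_2, (List.forall_mem_cons.2 ⟨n5_4, (List.forall_mem_cons.2 ⟨n6_3, (fun _ h => absurd h List.not_mem_nil)⟩)⟩)⟩)⟩)⟩)⟩)⟩)⟩)⟩)

def twC6iib : CT := (wi [(2,1,0,3),(2,1,0,4),(2,1,5,3),(2,1,6,4),(3,5,1,6),(4,6,1,5)])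

lemma wC6iib {G : SimpleGraph V} (hLC : LC G) {a0 a1 a2 a3 a4 a5 a6 : V} (hnd : ([a0, a1, a2, a3, a4, a5, a6] : List V).Nodup)
    (h0_1 : G.Adj a0 a1) (h1_2 : G.Adj a1 a2) (h0_3 : G.Adj a0 a3) (h0_4 : G.Adj a0 a4)
    (h5_0 : G.Adj a5 a0) (h5_1 : G.Adj a5 a1) (h6_0 : G.Adj a6 a0) (h6_1 : G.Adj a6 a1)
    (h5_3 : G.Adj a5 a3) (h6_4 : G.Adj a6 a4) (n0_2 : ¬ G.Adj a0 a2) (n1_3 : ¬ G.Adj a1 a3)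
    (n1_4 : ¬ G.Adj a1 a4) (n2_3 : ¬ G.Adj a2 a3) (n2_4 : ¬ G.Adj a2 a4) (n5_2 : ¬ G.Adj a5 a2)
    (n6_2 : ¬ G.Adj a6 a2) (n5_4 : ¬ G.Adj a5 a4) (n6_3 : ¬ G.Adj a6 a3) (n5_6 : ¬ G.Adj a5 a6) : False :=
  full_sound hLC [a0, a1, a2, a3, a4, a5, a6] hnd a0 (e8 := false) (fun h => absurd h (by simp)) (fb := fun _ => false)
    (rq := [])
    (pos := [(0, 1), (1, 2), (0, 3), (0, 4), (5, 0), (5, 1), (6, 0), (6, 1), (5, 3), (6, 4)])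
    (neg := [(0, 2), (1, 3), (1, 4), (2, 3), (2, 4), (5, 2), (6, 2), (5, 4), (6, 3), (5, 6)])
    (t := twC6iib) (show full 7 false (fun _ => false) [] [(0, 1), (1, 2), (0, 3), (0, 4), (5, 0), (5, 1), (6, 0), (6, 1), (5, 3), (6, 4)] [(0, 2), (1, 3), (1, 4), (2, 3), (2, 4), (5, 2), (6, 2), (5, 4), (6, 3), (5, 6)] twC6iib = true by decide +kernel)
    (fun q hq => absurd hq (by simp))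
    (fun _ h => absurd h List.not_mem_nil)
    (List.forall_mem_cons.2 ⟨h0_1, (List.forall_mem_cons.2 ⟨h1_2, (List.forall_mem_cons.2 ⟨h0_3, (List.forall_mem_cons.2 ⟨h0_4, (List.forall_mem_cons.2 ⟨h5_0, (List.forall_mem_cons.2 ⟨h5_1, (List.forall_mem_cons.2 ⟨h6_0, (List.forall_mem_cons.2 ⟨h6_1, (List.forall_mem_cons.2 ⟨h5_3, (List.forall_mem_cons.2 ⟨h6_4, (fun _ h => absurd h List.not_mem_nil)⟩)⟩)⟩)⟩)⟩)⟩)⟩)⟩)⟩)⟩)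
    (List.forall_mem_cons.2 ⟨n0_2, (List.forall_mem_cons.2 ⟨n1_3, (List.forall_mem_cons.2 ⟨n1_4, (List.forall_mem_cons.2 ⟨n2_3, (List.forall_mem_cons.2 ⟨n2_4, (List.forall_mem_cons.2 ⟨n5_2, (List.forall_mem_cons.2 ⟨n6_2, (List.forall_mem_cons.2 ⟨n5_4, (List.forall_mem_cons.2 ⟨n6_3, (List.forall_mem_cons.2 ⟨n5_6, (fun _ h => absurd h List.not_mem_nil)⟩)⟩)⟩)⟩)⟩)⟩)⟩)⟩)⟩)⟩)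

def twC6iiia : CT := (wi [(2,1,0,3),(2,1,0,4),(2,5,0,3),(1,5,4,3),(2,5,4,3)])

lemma wC6iiia {G : SimpleGraph V} (hLC : LC G) {a0 a1 a2 a3 a4 a5 a6 : V} (hnd : ([a0, a1, a2, a3, a4, a5, a6] : List V).Nodup)
    (h0_1 : G.Adj a0 a1) (h1_2 : G.Adj a1 a2) (h0_3 : G.Adj a0 a3) (h0_4 : G.Adj a0 a4)
    (h5_0 : G.Adj a5 a0) (h5_1 : G.Adj a5 a1) (h5_2 : G.Adj a5 a2) (h6_0 : G.Adj a6 a0)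
    (h6_1 : G.Adj a6 a1) (h6_2 : G.Adj a6 a2) (h5_4 : G.Adj a5 a4) (h6_3 : G.Adj a6 a3)
    (h3_4 : G.Adj a3 a4) (n0_2 : ¬ G.Adj a0 a2) (n1_3 : ¬ G.Adj a1 a3) (n1_4 : ¬ G.Adj a1 a4)
    (n2_3 : ¬ G.Adj a2 a3) (n2_4 : ¬ G.Adj a2 a4) (n5_3 : ¬ G.Adj a5 a3) (n6_4 : ¬ G.Adj a6 a4) : False :=
  full_sound hLC [a0, a1, a2, a3, a4, a5, a6] hnd a0 (e8 := false) (fun h => absurd h (by simp)) (fb := fun _ => false)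
    (rq := [])
    (pos := [(0, 1), (1, 2), (0, 3), (0, 4), (5, 0), (5, 1), (5, 2), (6, 0), (6, 1), (6, 2), (5, 4), (6, 3), (3, 4)])
    (neg := [(0, 2), (1, 3), (1, 4), (2, 3), (2, 4), (5, 3), (6, 4)])
    (t := twC6iiia) (show full 7 false (fun _ => false) [] [(0, 1), (1, 2), (0, 3), (0, 4), (5, 0), (5, 1), (5, 2), (6, 0), (6, 1), (6, 2), (5, 4), (6, 3), (3, 4)] [(0, 2), (1, 3), (1, 4), (2, 3), (2, 4), (5, 3), (6, 4)] twC6iiia = true by decide +kernel)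
    (fun q hq => absurd hq (by simp))
    (fun _ h => absurd h List.not_mem_nil)
    (List.forall_mem_cons.2 ⟨h0_1, (List.forall_mem_cons.2 ⟨h1_2, (List.forall_mem_cons.2 ⟨h0_3, (List.forall_mem_cons.2 ⟨h0_4, (List.forall_mem_cons.2 ⟨h5_0, (List.forall_mem_cons.2 ⟨h5_1, (List.forall_mem_cons.2 ⟨h5_2, (List.forall_mem_cons.2 ⟨h6_0, (List.forall_mem_cons.2 ⟨h6_1, (List.forall_mem_cons.2 ⟨h6_2, (List.forall_mem_cons.2 ⟨h5_4, (List.forall_mem_cons.2 ⟨h6_3, (List.forall_mem_cons.2 ⟨h3_4, (fun _ h => absurd h List.not_mem_nil)⟩)⟩)⟩)⟩)⟩)⟩)⟩)⟩)⟩)⟩)⟩)⟩)⟩)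
    (List.forall_mem_cons.2 ⟨n0_2, (List.forall_mem_cons.2 ⟨n1_3, (List.forall_mem_cons.2 ⟨n1_4, (List.forall_mem_cons.2 ⟨n2_3, (List.forall_mem_cons.2 ⟨n2_4, (List.forall_mem_cons.2 ⟨n5_3, (List.forall_mem_cons.2 ⟨n6_4, (fun _ h => absurd h List.not_mem_nil)⟩)⟩)⟩)⟩)⟩)⟩)⟩)

def twC6iiib : CT := (wi [(2,1,0,3),(2,1,0,4),(2,5,0,3),(2,6,0,4),(3,6,1,5),(3,6,2,5)])

lemma wC6iiib {G : SimpleGraph V} (hLC : LC G) {a0 a1 a2 a3 a4 a5 a6 : V} (hnd : ([a0, a1, a2, a3, a4, a5, a6] : List V).Nodup)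
    (h0_1 : G.Adj a0 a1) (h1_2 : G.Adj a1 a2) (h0_3 : G.Adj a0 a3) (h0_4 : G.Adj a0 a4)
    (h5_0 : G.Adj a5 a0) (h5_1 : G.Adj a5 a1) (h5_2 : G.Adj a5 a2) (h6_0 : G.Adj a6 a0)
    (h6_1 : G.Adj a6 a1) (h6_2 : G.Adj a6 a2) (h5_4 : G.Adj a5 a4) (h6_3 : G.Adj a6 a3)
    (n0_2 : ¬ G.Adj a0 a2) (n1_3 : ¬ G.Adj a1 a3) (n1_4 : ¬ G.Adj a1 a4) (n2_3 : ¬ G.Adj a2 a3)
    (n2_4 : ¬ G.Adj a2 a4) (n5_3 : ¬ G.Adj a5 a3) (n6_4 : ¬ G.Adj a6 a4) (n5_6 : ¬ G.Adj a5 a6) : False :=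
  full_sound hLC [a0, a1, a2, a3, a4, a5, a6] hnd a0 (e8 := false) (fun h => absurd h (by simp)) (fb := fun _ => false)
    (rq := [])
    (pos := [(0, 1), (1, 2), (0, 3), (0, 4), (5, 0), (5, 1), (5, 2), (6, 0), (6, 1), (6, 2), (5, 4), (6, 3)])
    (neg := [(0, 2), (1, 3), (1, 4), (2, 3), (2, 4), (5, 3), (6, 4), (5, 6)])
    (t := twC6iiib) (show full 7 false (fun _ => false) [] [(0, 1), (1, 2), (0, 3), (0, 4), (5, 0), (5, 1), (5, 2), (6, 0), (6, 1), (6, 2), (5, 4), (6, 3)] [(0, 2), (1, 3), (1, 4), (2, 3), (2, 4), (5, 3), (6, 4), (5, 6)] twC6iiib = true by decide +kernel)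
    (fun q hq => absurd hq (by simp))
    (fun _ h => absurd h List.not_mem_nil)
    (List.forall_mem_cons.2 ⟨h0_1, (List.forall_mem_cons.2 ⟨h1_2, (List.forall_mem_cons.2 ⟨h0_3, (List.forall_mem_cons.2 ⟨h0_4, (List.forall_mem_cons.2 ⟨h5_0, (List.forall_mem_cons.2 ⟨h5_1, (List.forall_mem_cons.2 ⟨h5_2, (List.forall_mem_cons.2 ⟨h6_0, (List.forall_mem_cons.2 ⟨h6_1, (List.forall_mem_cons.2 ⟨h6_2, (List.forall_mem_cons.2 ⟨h5_4, (List.forall_mem_cons.2 ⟨h6_3, (fun _ h => absurd h List.not_mem_nil)⟩)⟩)⟩)⟩)⟩)⟩)⟩)⟩)⟩)⟩)⟩)⟩)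
    (List.forall_mem_cons.2 ⟨n0_2, (List.forall_mem_cons.2 ⟨n1_3, (List.forall_mem_cons.2 ⟨n1_4, (List.forall_mem_cons.2 ⟨n2_3, (List.forall_mem_cons.2 ⟨n2_4, (List.forall_mem_cons.2 ⟨n5_3, (List.forall_mem_cons.2 ⟨n6_4, (List.forall_mem_cons.2 ⟨n5_6, (fun _ h => absurd h List.not_mem_nil)⟩)⟩)⟩)⟩)⟩)⟩)⟩)⟩)

def twC0 : CT := (wi [(2,1,0,3),(0,1,2,4),(1,0,3,4),(0,3,4,2)])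

lemma wC0 {G : SimpleGraph V} (hLC : LC G) {a0 a1 a2 a3 a4 : V} (hnd : ([a0, a1, a2, a3, a4] : List V).Nodup)
    (h0_1 : G.Adj a0 a1) (h1_2 : G.Adj a1 a2) (h3_0 : G.Adj a3 a0) (h4_2 : G.Adj a4 a2)
    (h4_3 : G.Adj a4 a3) (n0_2 : ¬ G.Adj a0 a2) (n3_1 : ¬ G.Adj a3 a1) (n3_2 : ¬ G.Adj a3 a2)
    (n4_0 : ¬ G.Adj a4 a0) (n4_1 : ¬ G.Adj a4 a1) : False :=
  full_sound hLC [a0, a1, a2, a3, a4] hnd a0 (e8 := false) (fun h => absurd h (by simp)) (fb := fun _ => false)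
    (rq := [])
    (pos := [(0, 1), (1, 2), (3, 0), (4, 2), (4, 3)])
    (neg := [(0, 2), (3, 1), (3, 2), (4, 0), (4, 1)])
    (t := twC0) (show full 5 false (fun _ => false) [] [(0, 1), (1, 2), (3, 0), (4, 2), (4, 3)] [(0, 2), (3, 1), (3, 2), (4, 0), (4, 1)] twC0 = true by decide +kernel)
    (fun q hq => absurd hq (by simp))
    (fun _ h => absurd h List.not_mem_nil)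
    (List.forall_mem_cons.2 ⟨h0_1, (List.forall_mem_cons.2 ⟨h1_2, (List.forall_mem_cons.2 ⟨h3_0, (List.forall_mem_cons.2 ⟨h4_2, (List.forall_mem_cons.2 ⟨h4_3, (fun _ h => absurd h List.not_mem_nil)⟩)⟩)⟩)⟩)⟩)
    (List.forall_mem_cons.2 ⟨n0_2, (List.forall_mem_cons.2 ⟨n3_1, (List.forall_mem_cons.2 ⟨n3_2, (List.forall_mem_cons.2 ⟨n4_0, (List.forall_mem_cons.2 ⟨n4_1, (fun _ h => absurd h List.not_mem_nil)⟩)⟩)⟩)⟩)⟩)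

end Pool.Agent.H19
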