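import Pool.Agent.H19.CW.Core

/-! Translation to the terms of the problem. -/

namespace Pool.Agent.H19

open Finset Classical

lemma P4.iso {V : Type} {G : SimpleGraph V} {a b c d : V} (h : P4 G a b c d) :
    Nonempty (G.induce ((({a, b, c, d} : Finset V)) : Set V) ≃g SimpleGraph.pathGraph 4) := by
  obtain ⟨n1, n2, n3, n4, n5, n6⟩ := h.nes
  obtain ⟨h1, h2, h3, h4, h5, h6, -, -, -⟩ := h
  let f : Fin 4 → V := ![a, b, c, d]
  have hf : ∀ i, f i ∈ (({a, b, c, d} : Finset V) : Set V) := by
    intro i; fin_cases i <;> simp [f]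
  let g : Fin 4 → ((({a, b, c, d} : Finset V)) : Set V) := fun i => ⟨f i, hf i⟩
  have hg : Function.Bijective g := by
    constructor
    · intro i j hij
      have hij : f i = f j := congrArg Subtype.val hij
      fin_cases i <;> fin_cases j <;> simp [f] at hij ⊢ <;>
        first
          | exact n1 hij
          | exact n2 hij
          | exact n3 hij
          | exact n4 hij
          | exact n5 hij
          | exact n6 hij
          | exact n1 hij.symm
          | exact n2 hij.symm
          | exact n3 hij.symm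
          | exact n4 hij.symm
          | exact n5 hij.symm
          | exact n6 hij.symm
    · rintro ⟨x, hx⟩
      have hx' : x = a ∨ x = b ∨ x = c ∨ x = d := by simpa using hx
      rcases hx' with rfl | rfl | rfl | rfl
      · exact ⟨0, rfl⟩
      · exact ⟨1, rfl⟩
      · exact ⟨2, rfl⟩
      · exact ⟨3, rfl⟩
  refine ⟨(RelIso.mk (Equiv.ofBijective g hg) ?_ : SimpleGraph.pathGraph 4 ≃g _).symm⟩
  intro i j
  have sy : ∀ {y z : V}, ¬ G.Adj y z → ¬ G.Adj z y := fun h h' => h h'.symm
  show G.Adj (f i) (f j) ↔ _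
  rw [SimpleGraph.pathGraph_adj]
  fin_cases i <;> fin_cases j <;> simp [f] <;>
    first
      | exact h1
      | exact h2
      | exact h3
      | exact h4
      | exact h5
      | exact h6
      | exact h1.symm
      | exact h2.symm
      | exact h3.symm
      | exact sy h4
      | exact sy h5
      | exact sy h6

lemma qg_of_ncard {V : Type} {G : SimpleGraph V} {q : ℕ}
    (h : ∀ S : Finset V, S.card ≤ q →
        {A : Finset V | A ⊆ S ∧ A.card = 4 ∧
            Nonempty (G.induce (A : Set V) ≃g SimpleGraph.pathGraph 4)}.ncard ≤ q - 2) :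
    QG G q := by
  intro S hS
  refine le_trans ?_ (h S hS)
  unfold pn
  rw [← Set.ncard_coe_finset]
  apply Set.ncard_le_ncard
  · intro Q hQ
    rw [mem_coe, mem_ps] at hQ
    refine ⟨hQ.1, hQ.2.card, ?_⟩
    obtain ⟨a, b, c, d, hp, rfl⟩ := hQ.2
    exact hp.iso
  · apply Set.Finite.subset (S.powerset).finite_toSet
    intro A hA
    rw [mem_coe, mem_powerset]
    exact hA.1

/-- all properties closed under the operations hold for built graphs -/
lemma built_closed {k : ℕ} (P : ∀ W : Type, SimpleGraph W → (W → Fin k) → Prop)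
    (h1 : ∀ i : Fin k, P Unit ⊥ (fun _ => i))
    (h2 : ∀ (W₁ W₂ : Type) (G₁ : SimpleGraph W₁) (G₂ : SimpleGraph W₂)
            (l₁ : W₁ → Fin k) (l₂ : W₂ → Fin k),
            P W₁ G₁ l₁ → P W₂ G₂ l₂ →
            P (W₁ ⊕ W₂)
              (G₁.map Function.Embedding.inl ⊔ G₂.map Function.Embedding.inr)
              (Sum.elim l₁ l₂))
    (h4 : ∀ (W : Type) (H : SimpleGraph W) (l' : W → Fin k) (i j : Fin k),
            P W H l' → P W H (fun x => if l' x = i then j else l' x))
    (h5 : ∀ (W : Type) (H : SimpleGraph W) (l' : W → Fin k) (i j : Fin k), i ≠ j →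
            P W H l' →
            P W (H ⊔ SimpleGraph.fromRel (fun x y => l' x = i ∧ l' y = j)) l')
    {W : Type} {H : SimpleGraph W} {l : W → Fin k} (h : Pool.Agent.H175R2.CwBuilt k W H l) :
    P W H l := by
  induction h with
  | single i => exact h1 i
  | union V W G H l m _ _ ih1 ih2 =>
    have : G ⊕g H = G.map Function.Embedding.inl ⊔ H.map Function.Embedding.inr := by
      ext x y
      rcases x with x | x <;> rcases y with y | y <;>
        simp [SimpleGraph.map_adj]
    rw [this]
    exact h2 _ _ _ _ _ _ ih1 ih2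
  | join V G l i j hij _ ih => exact h5 _ _ _ _ _ hij ih
  | relabel V G l i j _ ih => exact h4 _ _ _ _ _ ih

theorem frozen_of_tr {q K : ℕ} (h : ∀ (V : Type) [Fintype V] (G : SimpleGraph V), QG G q →
    (univ : Finset V).Nonempty → TR G K univ univ) :
    ∃ k : ℕ, ∀ (V : Type) [Fintype V] (G : SimpleGraph V),
      (∀ S : Finset V, S.card ≤ q →
        {A : Finset V | A ⊆ S ∧ A.card = 4 ∧
            Nonempty (G.induce (A : Set V) ≃g SimpleGraph.pathGraph 4)}.ncard ≤ q - 2) →
      ∃ l : V → Fin k, ∀ P : ∀ W : Type, SimpleGraph W → (W → Fin k) → Prop,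
        P PEmpty ⊥ PEmpty.elim →
        (∀ i : Fin k, P Unit ⊥ (fun _ => i)) →
        (∀ (W₁ W₂ : Type) (G₁ : SimpleGraph W₁) (G₂ : SimpleGraph W₂)
            (l₁ : W₁ → Fin k) (l₂ : W₂ → Fin k),
            P W₁ G₁ l₁ → P W₂ G₂ l₂ →
            P (W₁ ⊕ W₂)
              (G₁.map Function.Embedding.inl ⊔ G₂.map Function.Embedding.inr)
              (Sum.elim l₁ l₂)) →
        (∀ (W W' : Type) (H : SimpleGraph W) (l' : W → Fin k) (e : W ≃ W'),
            P W H l' → P W' (H.map e.toEmbedding) (l' ∘ e.symm)) →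
        (∀ (W : Type) (H : SimpleGraph W) (l' : W → Fin k) (i j : Fin k),
            P W H l' → P W H (fun x => if l' x = i then j else l' x)) →
        (∀ (W : Type) (H : SimpleGraph W) (l' : W → Fin k) (i j : Fin k), i ≠ j →
            P W H l' →
            P W (H ⊔ SimpleGraph.fromRel (fun x y => l' x = i ∧ l' y = j)) l') →
        P V G l := by
  refine ⟨3 * (K + 1), ?_⟩
  intro V _ G hG
  have hQ := qg_of_ncard hG
  by_cases hne : (univ : Finset V).Nonempty
  · obtain ⟨W, G', l, hb, ⟨e⟩⟩ := Pool.Agent.H175R2.cwLE_of_dt (h V G hQ hne).dt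
    refine ⟨l ∘ e, ?_⟩
    intro P _ h1 h2 h3 h4 h5
    have hP := built_closed P h1 h2 h4 h5 hb
    have := h3 W V G' l e.symm.toEquiv hP
    have hG' : G'.map e.symm.toEquiv.toEmbedding = G := by
      ext x y
      rw [SimpleGraph.map_adj]
      constructor
      · rintro ⟨u, v, huv, rfl, rfl⟩
        have : G.Adj (e.symm u) (e.symm v) ↔ G'.Adj u v := e.symm.map_adj_iff
        exact this.2 huv
      · intro hxy
        refine ⟨e x, e y, e.map_adj_iff.2 hxy, ?_, ?_⟩
        · exact e.symm_apply_apply x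
        · exact e.symm_apply_apply y
    rw [hG'] at this
    exact this
  · have hE : IsEmpty V := by
      rw [not_nonempty_iff_eq_empty, univ_eq_empty_iff] at hne
      exact hne
    refine ⟨fun x => hE.elim x, ?_⟩
    intro P h0 _ _ h3 _ _
    have := h3 PEmpty V ⊥ PEmpty.elim (Equiv.equivOfIsEmpty PEmpty V) h0
    have e1 : (⊥ : SimpleGraph PEmpty).map (Equiv.equivOfIsEmpty PEmpty V).toEmbedding = G := by
      ext x y
      exact hE.elim x
    have e2 : (PEmpty.elim ∘ (Equiv.equivOfIsEmpty PEmpty V).symm : V → Fin (3 * (K + 1))) =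
        fun x => hE.elim x := by
      ext x
      exact hE.elim x
    rw [e1, e2] at this
    exact this

end Pool.Agent.H19
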