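import Pool.Agent.H19.CW.Basic

/-! Growth of generated sets in prime `(q, q - 2)`-graphs. -/

namespace Pool.Agent.H19

open Finset Classical

variable {V : Type} {G : SimpleGraph V}

/-- `u` has a neighbour and a non-neighbour in `T` -/
def Nt (G : SimpleGraph V) (u : V) (T : Finset V) : Prop :=
  (∃ t ∈ T, G.Adj u t) ∧ (∃ t ∈ T, ¬ G.Adj u t)

lemma Nt.mono {u : V} {T T' : Finset V} (h : Nt G u T) (hT : T ⊆ T') : Nt G u T' := by
  obtain ⟨⟨t, h1, h2⟩, s, h3, h4⟩ := h
  exact ⟨⟨t, hT h1, h2⟩, s, hT h3, h4⟩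

/-- crossing edges -/
noncomputable def ce (G : SimpleGraph V) (u : V) (T : Finset V) : ℕ :=
  ((T ×ˢ T).filter (fun p => G.Adj u p.1 ∧ ¬ G.Adj u p.2 ∧ G.Adj p.1 p.2)).card

/-- crossing non-edges -/
noncomputable def cn (G : SimpleGraph V) (u : V) (T : Finset V) : ℕ :=
  ((T ×ˢ T).filter (fun p => G.Adj u p.1 ∧ ¬ G.Adj u p.2 ∧ ¬ G.Adj p.1 p.2)).card

/-- every vertex of `T` is in a crossing edge and in a crossing non-edge -/
def CR (G : SimpleGraph V) (u : V) (T : Finset V) : Prop :=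
  ∀ t ∈ T, (∃ t' ∈ T, (G.Adj u t ↔ ¬ G.Adj u t') ∧ G.Adj t t') ∧
    (∃ t' ∈ T, (G.Adj u t ↔ ¬ G.Adj u t') ∧ ¬ G.Adj t t')

lemma ce_insert {u v : V} {T : Finset V} (hv : v ∉ T)
    (h : ∃ t ∈ T, (G.Adj u v ↔ ¬ G.Adj u t) ∧ G.Adj v t) : ce G u T + 1 ≤ ce G u (insert v T) := by
  obtain ⟨t, ht, h1, h2⟩ := h
  unfold ce
  by_cases hu : G.Adj u v
  · have : ((T ×ˢ T).filter (fun p => G.Adj u p.1 ∧ ¬ G.Adj u p.2 ∧ G.Adj p.1 p.2)) ⊂
        ((insert v T ×ˢ insert v T).filter (fun p => G.Adj u p.1 ∧ ¬ G.Adj u p.2 ∧ G.Adj p.1 p.2)) := by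
      rw [Finset.ssubset_iff_of_subset]
      · refine ⟨(v, t), ?_, ?_⟩
        · simp only [mem_filter, mem_product, mem_insert_self, true_and]
          exact ⟨mem_insert_of_mem ht, hu, h1.1 hu, h2⟩
        · simp [hv]
      · exact filter_subset_filter _ (product_subset_product (subset_insert _ _) (subset_insert _ _))
    exact card_lt_card this
  · have : ((T ×ˢ T).filter (fun p => G.Adj u p.1 ∧ ¬ G.Adj u p.2 ∧ G.Adj p.1 p.2)) ⊂
        ((insert v T ×ˢ insert v T).filter (fun p => G.Adj u p.1 ∧ ¬ G.Adj u p.2 ∧ G.Adj p.1 p.2)) := by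
      rw [Finset.ssubset_iff_of_subset]
      · refine ⟨(t, v), ?_, ?_⟩
        · simp only [mem_filter, mem_product, mem_insert_self, and_true]
          refine ⟨mem_insert_of_mem ht, ?_, hu, h2.symm⟩
          by_contra hut
          exact hu (h1.2 hut)
        · simp [hv]
      · exact filter_subset_filter _ (product_subset_product (subset_insert _ _) (subset_insert _ _))
    exact card_lt_card this

lemma ce_mono {u : V} {T T' : Finset V} (h : T ⊆ T') : ce G u T ≤ ce G u T' :=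
  card_le_card (filter_subset_filter _ (product_subset_product h h))

lemma cn_eq {u : V} {T : Finset V} (hu : u ∉ T) : ce Gᶜ u T = cn G u T := by
  unfold ce cn
  apply card_bij (fun p _ => (p.2, p.1))
  · rintro ⟨a, b⟩ h
    simp only [mem_filter, mem_product, SimpleGraph.compl_adj, not_and, not_not] at h ⊢
    obtain ⟨⟨ha, hb⟩, ⟨h1, h2⟩, h3, h4, h5⟩ := h
    exact ⟨⟨hb, ha⟩, h3 (fun h => hu (h ▸ hb)), h2, fun h => h5 h.symm⟩
  · rintro ⟨a, b⟩ _ ⟨c, d⟩ _ h
    simp only [Prod.mk.injEq] at h ⊢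
    tauto
  · rintro ⟨a, b⟩ h
    simp only [mem_filter, mem_product] at h
    obtain ⟨⟨ha, hb⟩, h1, h2, h3⟩ := h
    refine ⟨(b, a), ?_, rfl⟩
    simp only [mem_filter, mem_product, SimpleGraph.compl_adj, not_and, not_not]
    exact ⟨⟨hb, ha⟩, ⟨fun h => hu (h ▸ hb), h2⟩, fun _ => h1,
      fun h => h2 (h ▸ h1), fun h => h3 h.symm⟩

lemma CR.compl {u : V} {T : Finset V} (hu : u ∉ T) (h : CR G u T) : CR Gᶜ u T := by
  intro t ht
  have hne : ∀ s ∈ T, u ≠ s := fun s hs h => hu (h ▸ hs)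
  have key : ∀ s ∈ T, (G.Adj u t ↔ ¬ G.Adj u s) → (Gᶜ.Adj u t ↔ ¬ Gᶜ.Adj u s) := by
    intro s hs h1
    simp only [SimpleGraph.compl_adj, ne_eq, hne t ht, hne s hs, not_false_eq_true, true_and]
    tauto
  obtain ⟨⟨a, ha, h1, h2⟩, b, hb, h3, h4⟩ := h t ht
  refine ⟨⟨b, hb, key b hb h3, ?_⟩, a, ha, key a ha h1, ?_⟩
  · rw [SimpleGraph.compl_adj]
    refine ⟨?_, h4⟩
    rintro rfl; tauto
  · rw [SimpleGraph.compl_adj]
    exact fun h => h.2 h2

/-- generated sets with counters, pair steps allowed -/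
inductive GN (G : SimpleGraph V) : Finset V → ℕ → ℕ → Prop
  | base {a b c d : V} (h : P4 G a b c d) : GN G {a, b, c, d} 1 2
  | att {T : Finset V} {p e : ℕ} {v : V} (hT : GN G T p e) (hv : v ∉ T) (h : Att G v T) :
      GN G (insert v T) (p + 1) (e + 1)
  | pair {T : Finset V} {p e : ℕ} {x y : V} (hT : GN G T p e) (hx : x ∉ T) (hy : y ∉ T)
      (hxy : x ≠ y) (nx : ¬ Att G x T) (ny : ¬ Att G y T) (hN : Nt G x T)
      (h : ((∀ t ∈ T, ¬ G.Adj y t) ∧ G.Adj x y) ∨ ((∀ t ∈ T, G.Adj y t) ∧ ¬ G.Adj x y)) :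
      GN G (insert y (insert x T)) (p + e) (e + 1)

lemma GN.compl {T : Finset V} {p e : ℕ} (h : GN G T p e) : GN Gᶜ T p e := by
  induction h with
  | @base a b c d h =>
    have : ({a, b, c, d} : Finset V) = {b, d, a, c} := by
      ext x; simp only [mem_insert, mem_singleton]; tauto
    rw [this]
    exact GN.base h.compl
  | att _ hv h ih => exact GN.att ih hv (att_compl.2 h)
  | @pair T p e x y _ hx hy hxy nx ny hN h ih =>
    have hnx : ∀ t ∈ T, x ≠ t := fun t ht h => hx (h ▸ ht)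
    have hny : ∀ t ∈ T, y ≠ t := fun t ht h => hy (h ▸ ht)
    refine GN.pair ih hx hy hxy (fun h => nx (att_compl.1 h)) (fun h => ny (att_compl.1 h)) ?_ ?_
    · obtain ⟨⟨t, h1, h2⟩, s, h3, h4⟩ := hN
      exact ⟨⟨s, h3, by rw [SimpleGraph.compl_adj]; exact ⟨hnx s h3, h4⟩⟩,
        t, h1, by rw [SimpleGraph.compl_adj]; exact fun h => h.2 h2⟩
    · simp only [SimpleGraph.compl_adj]
      rcases h with ⟨h1, h2⟩ | ⟨h1, h2⟩
      · exact Or.inr ⟨fun t ht => ⟨hny t ht, h1 t ht⟩, fun h => h.2 h2⟩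
      · exact Or.inl ⟨fun t ht h => h.2 (h1 t ht), hxy, h2⟩

/-- a vertex adjacent to all of `Q` but one is attached -/
lemma typ_all_but {u e : V} {T Q : Finset V} (hu : u ∉ T) (hn : ¬ Att G u T) (hQ : IsP4 G Q)
    (hQT : Q ⊆ T) (he : e ∈ Q) (h1 : ¬ G.Adj u e) (h2 : ∀ x ∈ Q, x ≠ e → G.Adj u x) : False := by
  obtain ⟨a, b, c, d, hp, rfl⟩ := hQ
  have ht := typ_of_not_att hp (fun h => hu (hQT h)) hQT hn
  have n1 := hp.1.ne
  have n2 := hp.2.1.ne
  have n3 := hp.2.2.1.ne
  obtain ⟨-, -, -, -, -, -, n4, n5, n6⟩ := hp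
  have ha := h2 a (by simp)
  have hb := h2 b (by simp)
  have hc := h2 c (by simp)
  have hd := h2 d (by simp)
  simp only [mem_insert, mem_singleton] at he
  unfold Typ at ht
  rcases he with rfl | rfl | rfl | rfl
  · have := hb n1.symm; have := hd n5.symm; tauto
  · have := ha n1; have := hd n6.symm; tauto
  · have := ha n4; have := hd n3.symm; tauto
  · have := ha n5; have := hb n6; tauto

/-- uniformity lemma -/
lemma unif {u : V} {T : Finset V} (hu : u ∉ T) (hn : ¬ Att G u T) {a b c d : V}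
    (hp : P4 G a b c d) (hT : {a, b, c, d} ⊆ T) (hall : ∀ x ∈ ({a, b, c, d} : Finset V), G.Adj u x)
    {e : V} (he : e ∈ T) (hue : ¬ G.Adj u e) :
    (∀ x ∈ ({a, b, c, d} : Finset V), G.Adj e x) ∨ (∀ x ∈ ({a, b, c, d} : Finset V), ¬ G.Adj e x) := by
  have heQ : e ∉ ({a, b, c, d} : Finset V) := fun h => hue (hall e h)
  have hne : ¬ Att G e {a, b, c, d} := by
    rintro ⟨Q, hQ, heQ', hsub⟩
    have hQT : Q ⊆ T := by
      intro x hx
      by_cases hxe : x = e
      · rw [hxe]; exact he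
      · exact hT (hsub (mem_erase.2 ⟨hxe, hx⟩))
    exact typ_all_but hu hn hQ hQT heQ' hue (fun x hx hxe => hall x (hsub (mem_erase.2 ⟨hxe, hx⟩)))
  have ht := typ_of_not_att hp heQ (Subset.refl _) hne
  rcases ht with ⟨h1, h2, h3, h4⟩ | ⟨h1, h2, h3, h4⟩ | ⟨h1, h2, h3, h4⟩
  · right
    intro x hx
    simp only [mem_insert, mem_singleton] at hx
    rcases hx with rfl | rfl | rfl | rfl <;> assumption
  · left
    intro x hx
    simp only [mem_insert, mem_singleton] at hx
    rcases hx with rfl | rfl | rfl | rfl <;> assumption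
  · exfalso
    apply hn
    -- e - b - u - d
    have hb := hall b (by simp)
    have hd := hall d (by simp)
    have hp' : P4 G e b u d := ⟨h2, hb.symm, hd, fun h => hue h.symm, h4, hp.2.2.2.2.2.1,
      fun h => hu (h ▸ he), fun h => h4 (by rw [h] at hue; exact absurd hd hue),
      hp.2.2.2.2.2.2.2.2⟩
    exact hp'.att3 he (hT (by simp)) (hT (by simp))

lemma unif_compl {u : V} {T : Finset V} (hu : u ∉ T) (hn : ¬ Att G u T) {a b c d : V}
    (hp : P4 G a b c d) (hT : {a, b, c, d} ⊆ T) (hall : ∀ x ∈ ({a, b, c, d} : Finset V), ¬ G.Adj u x)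
    {e : V} (he : e ∈ T) (hue : G.Adj u e) :
    (∀ x ∈ ({a, b, c, d} : Finset V), G.Adj e x) ∨ (∀ x ∈ ({a, b, c, d} : Finset V), ¬ G.Adj e x) := by
  have hs : ({b, d, a, c} : Finset V) = {a, b, c, d} := by
    ext x; simp only [mem_insert, mem_singleton]; tauto
  have hne : ∀ x ∈ ({a, b, c, d} : Finset V), e ≠ x := by
    intro x hx h; subst h; exact hall _ hx hue
  have hnu : ∀ x ∈ ({a, b, c, d} : Finset V), u ≠ x := fun x hx h => hu (h ▸ hT hx)
  rcases unif (G := Gᶜ) hu (fun h => hn (att_compl.1 h)) hp.compl (by rw [hs]; exact hT)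
    (by rw [hs]; intro x hx; rw [SimpleGraph.compl_adj]; exact ⟨hnu x hx, hall x hx⟩) he
    (by rw [SimpleGraph.compl_adj]; exact fun h => h.2 hue) with h | h
  · right
    rw [hs] at h
    intro x hx
    exact (h x hx).2
  · left
    rw [hs] at h
    intro x hx
    have := h x hx
    rw [SimpleGraph.compl_adj, not_and, not_not] at this
    exact this (hne x hx)

/-- new vertices inherit crossing edges -/
lemma cr_step {u : V} {T S : Finset V} {a b c d : V} (hu : u ∉ S) (hn : ¬ Att G u S)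
    (hp : P4 G a b c d) (hS : {a, b, c, d} ⊆ S) (hTS : T ⊆ S) (hcr : CR G u T)
    {z : V} (hz : z ∈ ({a, b, c, d} : Finset V)) (hzT : z ∈ T) :
    ∀ v ∈ ({a, b, c, d} : Finset V), (∃ t' ∈ S, (G.Adj u v ↔ ¬ G.Adj u t') ∧ G.Adj v t') ∧
      (∃ t' ∈ S, (G.Adj u v ↔ ¬ G.Adj u t') ∧ ¬ G.Adj v t') := by
  have ht := typ_of_not_att hp (fun h => hu (hS h)) hS hn
  have hmem : ∀ x ∈ ({a, b, c, d} : Finset V), x ∈ S := fun x hx => hS hx
  intro v hv
  obtain ⟨⟨t, ht1, ht2, ht3⟩, s, hs1, hs2, hs3⟩ := hcr z hzT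
  rcases ht with ⟨h1, h2, h3, h4⟩ | ⟨h1, h2, h3, h4⟩ | ⟨h1, h2, h3, h4⟩
  · have hall : ∀ x ∈ ({a, b, c, d} : Finset V), ¬ G.Adj u x := by
      intro x hx
      simp only [mem_insert, mem_singleton] at hx
      rcases hx with rfl | rfl | rfl | rfl <;> assumption
    have hz' := hall z hz
    have hv' := hall v hv
    have hut : G.Adj u t := by by_contra h; exact hz' (ht2.2 h)
    have hus : G.Adj u s := by by_contra h; exact hz' (hs2.2 h)
    refine ⟨⟨t, hTS ht1, by tauto, ?_⟩, s, hTS hs1, by tauto, ?_⟩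
    · rcases unif_compl hu hn hp hS hall (hTS ht1) hut with h | h
      · exact (h v hv).symm
      · exact absurd ht3.symm (h z hz)
    · rcases unif_compl hu hn hp hS hall (hTS hs1) hus with h | h
      · exact absurd (h z hz).symm hs3
      · exact fun h' => h v hv h'.symm
  · have hall : ∀ x ∈ ({a, b, c, d} : Finset V), G.Adj u x := by
      intro x hx
      simp only [mem_insert, mem_singleton] at hx
      rcases hx with rfl | rfl | rfl | rfl <;> assumption
    have hz' := hall z hz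
    have hv' := hall v hv
    have hut := ht2.1 hz'
    have hus := hs2.1 hz'
    refine ⟨⟨t, hTS ht1, by tauto, ?_⟩, s, hTS hs1, by tauto, ?_⟩
    · rcases unif hu hn hp hS hall (hTS ht1) hut with h | h
      · exact (h v hv).symm
      · exact absurd ht3.symm (h z hz)
    · rcases unif hu hn hp hS hall (hTS hs1) hus with h | h
      · exact absurd (h z hz).symm hs3
      · exact fun h' => h v hv h'.symm
  · obtain ⟨k1, k2, k3, k4, k5, k6, k7, k8, k9⟩ := hp
    simp only [mem_insert, mem_singleton] at hv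
    rcases hv with rfl | rfl | rfl | rfl
    · exact ⟨⟨b, hS (by simp), by tauto, k1⟩, c, hS (by simp), by tauto, k4⟩
    · exact ⟨⟨a, hS (by simp), by tauto, k1.symm⟩, d, hS (by simp), by tauto, k6⟩
    · exact ⟨⟨d, hS (by simp), by tauto, k3⟩, a, hS (by simp), by tauto, fun h => k4 h.symm⟩
    · exact ⟨⟨c, hS (by simp), by tauto, k3.symm⟩, b, hS (by simp), by tauto, fun h => k6 h.symm⟩

/-- nontrivial traces restrict to nontrivial traces -/
lemma nt_att {u v : V} {T : Finset V} (hv : Att G v T) (hvT : v ∉ T) (hu : u ∉ insert v T)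
    (hn : ¬ Att G u (insert v T)) (hN : Nt G u (insert v T)) : Nt G u T := by
  obtain ⟨Q, ⟨a, b, c, d, hp, rfl⟩, hvQ, hsub⟩ := hv
  have hS : ({a, b, c, d} : Finset V) ⊆ insert v T := by
    intro x hx
    by_cases hxv : x = v
    · rw [hxv]; exact mem_insert_self _ _
    · exact mem_insert_of_mem (hsub (mem_erase.2 ⟨hxv, hx⟩))
  have ht := typ_of_not_att hp (fun h => hu (hS h)) hS hn
  have n1 := hp.1.ne
  have n2 := hp.2.1.ne
  have n3 := hp.2.2.1.ne
  obtain ⟨-, -, -, -, -, -, n4, n5, n6⟩ := hp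
  have m : ∀ x, x ∈ ({a, b, c, d} : Finset V) → x ≠ v → x ∈ T :=
    fun x hx hxv => hsub (mem_erase.2 ⟨hxv, hx⟩)
  obtain ⟨⟨t, ht1, ht2⟩, s, hs1, hs2⟩ := hN
  rw [mem_insert] at ht1 hs1
  have ma := m a (by simp)
  have mb := m b (by simp)
  have mc := m c (by simp)
  have md := m d (by simp)
  simp only [mem_insert, mem_singleton] at hvQ
  refine ⟨?_, ?_⟩
  · rcases ht1 with rfl | ht1
    · -- `v` is adjacent to `u`
      rcases ht with ⟨h1, h2, h3, h4⟩ | ⟨h1, h2, h3, h4⟩ | ⟨h1, h2, h3, h4⟩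
      · exfalso; rcases hvQ with rfl | rfl | rfl | rfl <;> contradiction
      · by_cases hb : b = t
        · exact ⟨c, mc (by rw [← hb]; exact n2.symm), h3⟩
        · exact ⟨b, mb hb, h2⟩
      · by_cases hb : b = t
        · exact ⟨c, mc (by rw [← hb]; exact n2.symm), h3⟩
        · exact ⟨b, mb hb, h2⟩
    · exact ⟨t, ht1, ht2⟩
  · rcases hs1 with rfl | hs1
    · rcases ht with ⟨h1, h2, h3, h4⟩ | ⟨h1, h2, h3, h4⟩ | ⟨h1, h2, h3, h4⟩
      · by_cases hb : a = s
        · exact ⟨d, md (by rw [← hb]; exact n5.symm), h4⟩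
        · exact ⟨a, ma hb, h1⟩
      · exfalso; rcases hvQ with rfl | rfl | rfl | rfl <;> contradiction
      · by_cases hb : a = s
        · exact ⟨d, md (by rw [← hb]; exact n5.symm), h4⟩
        · exact ⟨a, ma hb, h1⟩
    · exact ⟨s, hs1, hs2⟩

/-- the path formed by a pair -/
lemma pair_path {T : Finset V} {x y : V} (hx : x ∉ T) (hy : y ∉ T)
    (hxy : x ≠ y) (hcr : CR G x T) (hN : Nt G x T)
    (h : ((∀ t ∈ T, ¬ G.Adj y t) ∧ G.Adj x y) ∨ ((∀ t ∈ T, G.Adj y t) ∧ ¬ G.Adj x y)) :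
    ∃ a ∈ T, ∃ a' ∈ T, G.Adj x a ∧ ¬ G.Adj x a' ∧ (P4 G y x a a' ∨ P4 G x a y a') := by
  obtain ⟨⟨t, ht, hxt⟩, -⟩ := hN
  obtain ⟨⟨a', ha', h1, h2⟩, a'', ha'', h3, h4⟩ := hcr t ht
  have e1 : ¬ G.Adj x a' := h1.1 hxt
  have e2 : ¬ G.Adj x a'' := h3.1 hxt
  rcases h with ⟨k1, k2⟩ | ⟨k1, k2⟩
  · refine ⟨t, ht, a', ha', hxt, e1, Or.inl ⟨k2.symm, hxt, h2, k1 t ht, k1 a' ha', e1,
      fun h => hy (h ▸ ht), fun h => hy (h ▸ ha'), fun h => hx (h ▸ ha')⟩⟩
  · refine ⟨t, ht, a'', ha'', hxt, e2, Or.inr ⟨hxt, (k1 t ht).symm, k1 a'' ha'', k2, e2, h4,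
      hxy, fun h => hx (h ▸ ha''), ?_⟩⟩
    rintro rfl; exact e2 hxt

lemma nt_pair {T : Finset V} {u x y a a' : V} (ha : a ∈ T) (ha' : a' ∈ T)
    (hP : P4 G y x a a' ∨ P4 G x a y a') (hu : u ∉ insert y (insert x T))
    (hn : ¬ Att G u (insert y (insert x T))) (hN : Nt G u (insert y (insert x T))) :
    Nt G u T ∧ ((G.Adj u a ∧ G.Adj u a' ∧ G.Adj u x ∧ G.Adj u y) ∨
      (¬ G.Adj u a ∧ ¬ G.Adj u a' ∧ ¬ G.Adj u x ∧ ¬ G.Adj u y) ∨
      (G.Adj u a ∧ ¬ G.Adj u a' ∧ ((P4 G y x a a' ∧ G.Adj u x ∧ ¬ G.Adj u y) ∨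
        (P4 G x a y a' ∧ ¬ G.Adj u x ∧ G.Adj u y)))) := by
  have key : ((G.Adj u a ∧ G.Adj u a' ∧ G.Adj u x ∧ G.Adj u y) ∨
      (¬ G.Adj u a ∧ ¬ G.Adj u a' ∧ ¬ G.Adj u x ∧ ¬ G.Adj u y) ∨
      (G.Adj u a ∧ ¬ G.Adj u a' ∧ ((P4 G y x a a' ∧ G.Adj u x ∧ ¬ G.Adj u y) ∨
        (P4 G x a y a' ∧ ¬ G.Adj u x ∧ G.Adj u y)))) := by
    rcases hP with hP | hP
    · have hS : ({y, x, a, a'} : Finset V) ⊆ insert y (insert x T) := by
        intro z hz
        simp only [mem_insert, mem_singleton] at hz ⊢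
        rcases hz with rfl | rfl | rfl | rfl <;> simp [ha, ha']
      have ht := typ_of_not_att hP (fun h => hu (hS h)) hS hn
      unfold Typ at ht
      tauto
    · have hS : ({x, a, y, a'} : Finset V) ⊆ insert y (insert x T) := by
        intro z hz
        simp only [mem_insert, mem_singleton] at hz ⊢
        rcases hz with rfl | rfl | rfl | rfl <;> simp [ha, ha']
      have ht := typ_of_not_att hP (fun h => hu (hS h)) hS hn
      unfold Typ at ht
      tauto
  refine ⟨?_, key⟩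
  obtain ⟨⟨t, ht1, ht2⟩, s, hs1, hs2⟩ := hN
  simp only [mem_insert] at ht1 hs1
  rcases key with ⟨k1, k2, k3, k4⟩ | ⟨k1, k2, k3, k4⟩ | ⟨k1, k2, -⟩
  · refine ⟨⟨a, ha, k1⟩, ?_⟩
    rcases hs1 with rfl | rfl | hs1
    · exact absurd k4 hs2
    · exact absurd k3 hs2
    · exact ⟨s, hs1, hs2⟩
  · refine ⟨?_, ⟨a, ha, k1⟩⟩
    rcases ht1 with rfl | rfl | ht1
    · exact absurd ht2 k4
    · exact absurd ht2 k3
    · exact ⟨t, ht1, ht2⟩
  · exact ⟨⟨a, ha, k1⟩, a', ha', k2⟩

lemma cn_insert {u v : V} {T : Finset V} (hu : u ∉ insert v T) (hv : v ∉ T)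
    (h : ∃ t ∈ T, (G.Adj u v ↔ ¬ G.Adj u t) ∧ ¬ G.Adj v t) : cn G u T + 1 ≤ cn G u (insert v T) := by
  have huT : u ∉ T := fun h => hu (mem_insert_of_mem h)
  have huv : u ≠ v := fun h => hu (h ▸ mem_insert_self _ _)
  rw [← cn_eq hu, ← cn_eq huT]
  apply ce_insert hv
  obtain ⟨t, ht, h1, h2⟩ := h
  refine ⟨t, ht, ?_, ?_⟩
  · have hut : u ≠ t := fun h => huT (h ▸ ht)
    simp only [SimpleGraph.compl_adj, ne_eq, huv, hut, not_false_eq_true, true_and]
    tauto
  · rw [SimpleGraph.compl_adj]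
    exact ⟨fun h => hv (h ▸ ht), h2⟩

lemma cn_mono {u : V} {T T' : Finset V} (h : T ⊆ T') : cn G u T ≤ cn G u T' :=
  card_le_card (filter_subset_filter _ (product_subset_product h h))

theorem gn_cr {T : Finset V} {p e : ℕ} (h : GN G T p e) : ∀ u ∉ T, ¬ Att G u T → Nt G u T →
    CR G u T ∧ e ≤ ce G u T ∧ e ≤ cn G u T := by
  induction h with
  | @base a b c d hp =>
    intro u hu hn hN
    have ht := typ_of_not_att hp hu (Subset.refl _) hn
    obtain ⟨⟨t, ht1, ht2⟩, s, hs1, hs2⟩ := hN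
    obtain ⟨k1, k2, k3, k4, k5, k6, k7, k8, k9⟩ := id hp
    have n1 := k1.ne
    have n2 := k2.ne
    have n3 := k3.ne
    rcases ht with ⟨h1, h2, h3, h4⟩ | ⟨h1, h2, h3, h4⟩ | ⟨h1, h2, h3, h4⟩
    · exfalso
      simp only [mem_insert, mem_singleton] at ht1
      rcases ht1 with rfl | rfl | rfl | rfl <;> contradiction
    · exfalso
      simp only [mem_insert, mem_singleton] at hs1
      rcases hs1 with rfl | rfl | rfl | rfl <;> contradiction
    · refine ⟨?_, ?_, ?_⟩
      · intro v hv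
        simp only [mem_insert, mem_singleton] at hv
        rcases hv with rfl | rfl | rfl | rfl
        · exact ⟨⟨b, by simp, by tauto, k1⟩, c, by simp, by tauto, k4⟩
        · exact ⟨⟨a, by simp, by tauto, k1.symm⟩, d, by simp, by tauto, k6⟩
        · exact ⟨⟨d, by simp, by tauto, k3⟩, a, by simp, by tauto, fun h => k4 h.symm⟩
        · exact ⟨⟨c, by simp, by tauto, k3.symm⟩, b, by simp, by tauto, fun h => k6 h.symm⟩
      · have : ({(b, a), (c, d)} : Finset (V × V)) ⊆ ((({a, b, c, d} : Finset V) ×ˢ {a, b, c, d}).filter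
            (fun p => G.Adj u p.1 ∧ ¬ G.Adj u p.2 ∧ G.Adj p.1 p.2)) := by
          intro x hx
          simp only [mem_insert, mem_singleton] at hx
          rcases hx with rfl | rfl
          · simp [h2, h1, k1.symm]
          · simp [h3, h4, k3]
        refine le_trans ?_ (card_le_card this)
        rw [card_pair]
        intro h; simp only [Prod.mk.injEq] at h; exact n2 h.1
      · have : ({(b, d), (c, a)} : Finset (V × V)) ⊆ ((({a, b, c, d} : Finset V) ×ˢ {a, b, c, d}).filter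
            (fun p => G.Adj u p.1 ∧ ¬ G.Adj u p.2 ∧ ¬ G.Adj p.1 p.2)) := by
          intro x hx
          simp only [mem_insert, mem_singleton] at hx
          rcases hx with rfl | rfl
          · simp [h2, h4, k6]
          · simp only [mem_filter, mem_product, mem_insert, mem_singleton]
            exact ⟨by simp, h3, h1, fun h => k4 h.symm⟩
        refine le_trans ?_ (card_le_card this)
        rw [card_pair]
        intro h; simp only [Prod.mk.injEq] at h; exact n2 h.1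
  | @att T p e v hT hv hA ih =>
    intro u hu hn hN
    have huT : u ∉ T := fun h => hu (mem_insert_of_mem h)
    have hnT : ¬ Att G u T := fun h => hn (h.mono (subset_insert _ _))
    have hNT := nt_att hA hv hu hn hN
    obtain ⟨hcr, h1, h2⟩ := ih u huT hnT hNT
    obtain ⟨Q, ⟨a, b, c, d, hp, rfl⟩, hvQ, hsub⟩ := hA
    have hS : ({a, b, c, d} : Finset V) ⊆ insert v T := by
      intro x hx
      by_cases hxv : x = v
      · rw [hxv]; exact mem_insert_self _ _
      · exact mem_insert_of_mem (hsub (mem_erase.2 ⟨hxv, hx⟩))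
    obtain ⟨z, hz⟩ : (({a, b, c, d} : Finset V).erase v).Nonempty := by
      rw [← card_pos, card_erase_of_mem hvQ, hp.card]; norm_num
    have hv2 := cr_step hu hn hp hS (subset_insert v T) hcr (mem_of_mem_erase hz) (hsub hz) v hvQ
    have hself : ∀ t ∈ insert v T, (G.Adj u v ↔ ¬ G.Adj u t) → t ∈ T := by
      intro t ht h
      rcases mem_insert.1 ht with rfl | ht
      · tauto
      · exact ht
    obtain ⟨⟨t, ht, ht1, ht2⟩, s, hs, hs1, hs2⟩ := hv2
    refine ⟨?_, ?_, ?_⟩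
    · intro z hz
      rcases mem_insert.1 hz with rfl | hz
      · exact ⟨⟨t, ht, ht1, ht2⟩, s, hs, hs1, hs2⟩
      · obtain ⟨⟨t, ht, ht1, ht2⟩, s, hs, hs1, hs2⟩ := hcr z hz
        exact ⟨⟨t, mem_insert_of_mem ht, ht1, ht2⟩, s, mem_insert_of_mem hs, hs1, hs2⟩
    · have := ce_insert (G := G) (u := u) hv ⟨t, hself t ht ht1, ht1, ht2⟩
      omega
    · have := cn_insert (G := G) hu hv ⟨s, hself s hs hs1, hs1, hs2⟩
      omega
  | @pair T p e x y hT hx hy hxy nx ny hNx hyx ih =>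
    intro u hu hn hN
    have huT : u ∉ T := fun h => hu (mem_insert_of_mem (mem_insert_of_mem h))
    have hTS : T ⊆ insert y (insert x T) := (subset_insert _ _).trans (subset_insert _ _)
    have hnT : ¬ Att G u T := fun h => hn (h.mono hTS)
    obtain ⟨a, ha, a', ha', hxa, hxa', hP⟩ := pair_path hx hy hxy (ih x hx nx hNx).1 hNx hyx
    obtain ⟨hNT, key⟩ := nt_pair ha ha' hP hu hn hN
    obtain ⟨hcr, h1, h2⟩ := ih u huT hnT hNT
    -- both new vertices
    have hboth : ∀ v, v = x ∨ v = y → (∃ t' ∈ insert y (insert x T), (G.Adj u v ↔ ¬ G.Adj u t') ∧ G.Adj v t') ∧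
      (∃ t' ∈ insert y (insert x T), (G.Adj u v ↔ ¬ G.Adj u t') ∧ ¬ G.Adj v t') := by
      intro v hv
      rcases hP with hP | hP
      · have hS : ({y, x, a, a'} : Finset V) ⊆ insert y (insert x T) := by
          intro z hz
          simp only [mem_insert, mem_singleton] at hz ⊢
          rcases hz with rfl | rfl | rfl | rfl <;> simp [ha, ha']
        exact cr_step hu hn hP hS hTS hcr (z := a) (by simp) ha v (by
          rcases hv with rfl | rfl <;> simp)
      · have hS : ({x, a, y, a'} : Finset V) ⊆ insert y (insert x T) := by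
          intro z hz
          simp only [mem_insert, mem_singleton] at hz ⊢
          rcases hz with rfl | rfl | rfl | rfl <;> simp [ha, ha']
        exact cr_step hu hn hP hS hTS hcr (z := a) (by simp) ha v (by
          rcases hv with rfl | rfl <;> simp)
    have hCR : CR G u (insert y (insert x T)) := by
      intro z hz
      rcases mem_insert.1 hz with rfl | hz
      · exact hboth _ (Or.inr rfl)
      rcases mem_insert.1 hz with rfl | hz
      · exact hboth _ (Or.inl rfl)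
      · obtain ⟨⟨t, ht, ht1, ht2⟩, s, hs, hs1, hs2⟩ := hcr z hz
        exact ⟨⟨t, hTS ht, ht1, ht2⟩, s, hTS hs, hs1, hs2⟩
    -- one more crossing pair
    have huxT : u ∉ insert x T := fun h => hu (mem_insert_of_mem h)
    have hyT' : y ∉ insert x T := by
      rw [mem_insert, not_or]; exact ⟨hxy.symm, hy⟩
    refine ⟨hCR, ?_, ?_⟩
    · -- a crossing edge at `x` or `y`
      obtain ⟨t, ht, ht1, ht2⟩ := (hboth x (Or.inl rfl)).1
      rcases mem_insert.1 ht with rfl | ht
      · have := ce_insert (G := G) (u := u) hyT' ⟨x, mem_insert_self _ _, by tauto, ht2.symm⟩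
        have := ce_mono (G := G) (u := u) (subset_insert x T)
        omega
      · have htT : t ∈ T := by
          rcases mem_insert.1 ht with rfl | ht
          · exact absurd ht2 (G.loopless.irrefl _)
          · exact ht
        have := ce_insert (G := G) (u := u) hx ⟨t, htT, ht1, ht2⟩
        have := ce_mono (G := G) (u := u) (subset_insert y (insert x T))
        omega
    · obtain ⟨t, ht, ht1, ht2⟩ := (hboth x (Or.inl rfl)).2
      rcases mem_insert.1 ht with rfl | ht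
      · have := cn_insert (G := G) hu hyT' ⟨x, mem_insert_self _ _, by tauto, fun h => ht2 h.symm⟩
        have := cn_mono (G := G) (u := u) (subset_insert x T)
        omega
      · have htT : t ∈ T := by
          rcases mem_insert.1 ht with rfl | ht
          · tauto
          · exact ht
        have := cn_insert (G := G) huxT hx ⟨t, htT, ht1, ht2⟩
        have := cn_mono (G := G) (u := u) (subset_insert y (insert x T))
        omega

end Pool.Agent.H19
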