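import Pool.Agent.H19.CW.Dt3

/-! Layers. -/

namespace Pool.Agent.H19

open Finset Classical

variable {V : Type} {G : SimpleGraph V}

lemma typ_Q {a b c d v : V} (h : P4 G a b c d) (hv : v ∉ ({a, b, c, d} : Finset V))
    (hn : ¬ Att G v {a, b, c, d}) :
    Typ (G.Adj v a) (G.Adj v b) (G.Adj v c) (G.Adj v d) :=
  typ_of_not_att h hv (Subset.refl _) hn

lemma P4.nes {a b c d : V} (h : P4 G a b c d) : a ≠ b ∧ a ≠ c ∧ a ≠ d ∧ b ≠ c ∧ b ≠ d ∧ c ≠ d :=
  ⟨h.1.ne, h.2.2.2.2.2.2.1, h.2.2.2.2.2.2.2.1, h.2.1.ne, h.2.2.2.2.2.2.2.2, h.2.2.1.ne⟩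

lemma er1 {a b c d : V} (h1 : a ≠ b) (h2 : a ≠ c) (h3 : a ≠ d) :
    ({a, b, c, d} : Finset V).erase a = {b, c, d} := by
  apply erase_insert
  simp only [mem_insert, mem_singleton, not_or]
  exact ⟨h1, h2, h3⟩

/-- rotate a path set so that a given vertex is first -/
lemma er2 {a b c d : V} (h1 : a ≠ b) (h2 : b ≠ c) (h3 : b ≠ d) :
    ({a, b, c, d} : Finset V).erase b = {a, c, d} := by
  rw [insert_comm]; exact er1 h1.symm h2 h3

lemma er3 {a b c d : V} (h1 : a ≠ c) (h2 : b ≠ c) (h3 : c ≠ d) :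
    ({a, b, c, d} : Finset V).erase c = {a, b, d} := by
  rw [insert_comm b c, insert_comm a c]; exact er1 h1.symm h2.symm h3

lemma er4 {a b c d : V} (h1 : a ≠ d) (h2 : b ≠ d) (h3 : c ≠ d) :
    ({a, b, c, d} : Finset V).erase d = {a, b, c} := by
  rw [pair_comm c d, insert_comm b d, insert_comm a d]; exact er1 h1.symm h2.symm h3.symm

lemma mem3 {a b c : V} {P : V → Prop} (h : ∀ t ∈ ({a, b, c} : Finset V), P t) : P a ∧ P b ∧ P c :=
  ⟨h a (by simp), h b (by simp), h c (by simp)⟩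

/-- unattached vertices agreeing on three vertices of a path agree on the fourth -/
lemma agree_on' {Q : Finset V} {m x : V} {p : V → Prop} (hQ : IsP4 G Q) (hm : m ∈ Q) (hx : x ∉ Q)
    (n : ¬ Att G x Q) (h : ∀ t ∈ Q.erase m, (G.Adj x t ↔ p t))
    (h' : ∀ a b c d, P4 G a b c d → Q = {a, b, c, d} → Typ (p a) (p b) (p c) (p d)) :
    (G.Adj x m ↔ p m) := by
  obtain ⟨a, b, c, d, hp, rfl⟩ := hQ
  have t1 := typ_Q hp hx n
  have t2 := h' a b c d hp rfl
  obtain ⟨n1, n2, n3, n4, n5, n6⟩ := hp.nes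
  simp only [mem_insert, mem_singleton] at hm
  rcases hm with rfl | rfl | rfl | rfl
  · rw [er1 n1 n2 n3] at h
    obtain ⟨k1, k2, k3⟩ := mem3 h
    exact typ_det1 t1 t2 k1 k2 k3
  · rw [er2 n1 n4 n5] at h
    obtain ⟨k1, k2, k3⟩ := mem3 h
    exact typ_det2 t1 t2 k1 k2 k3
  · rw [er3 n2 n4 n6] at h
    obtain ⟨k1, k2, k3⟩ := mem3 h
    exact typ_det2 t1.symm t2.symm k3 k2 k1
  · rw [er4 n3 n5 n6] at h
    obtain ⟨k1, k2, k3⟩ := mem3 h
    exact typ_det1 t1.symm t2.symm k3 k2 k1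

lemma agree_on {Q : Finset V} {m x x' : V} (hQ : IsP4 G Q) (hm : m ∈ Q) (hx : x ∉ Q) (hx' : x' ∉ Q)
    (n : ¬ Att G x Q) (n' : ¬ Att G x' Q) (h : ∀ t ∈ Q.erase m, (G.Adj x t ↔ G.Adj x' t)) :
    (G.Adj x m ↔ G.Adj x' m) := by
  refine agree_on' (p := fun t => G.Adj x' t) hQ hm hx n h ?_
  rintro a b c d hp rfl
  exact typ_Q hp hx' n'

lemma none_on {Q : Finset V} {m x : V} (hQ : IsP4 G Q) (hm : m ∈ Q) (hx : x ∉ Q)
    (n : ¬ Att G x Q) (h : ∀ t ∈ Q.erase m, ¬ G.Adj x t) : ¬ G.Adj x m := by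
  have := agree_on' (p := fun _ => False) hQ hm hx n (fun t ht => iff_of_false (h t ht) id)
    (fun _ _ _ _ _ _ => Or.inl ⟨id, id, id, id⟩)
  exact this.1

lemma all_on {Q : Finset V} {m x : V} (hQ : IsP4 G Q) (hm : m ∈ Q) (hx : x ∉ Q)
    (n : ¬ Att G x Q) (h : ∀ t ∈ Q.erase m, G.Adj x t) : G.Adj x m := by
  have := agree_on' (p := fun _ => True) hQ hm hx n (fun t ht => iff_of_true (h t ht) trivial)
    (fun _ _ _ _ _ _ => Or.inr (Or.inl ⟨trivial, trivial, trivial, trivial⟩))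
  exact this.2 trivial

/-- exchanging a vertex of a path by a vertex with the same neighbours in it -/
lemma isP4_swap {Q : Finset V} {v v' : V} (hQ : IsP4 G Q) (hv : v ∈ Q) (hv' : v' ∉ Q)
    (h : ∀ t ∈ Q.erase v, (G.Adj v t ↔ G.Adj v' t)) : IsP4 G (insert v' (Q.erase v)) := by
  obtain ⟨a, b, c, d, hp, rfl⟩ := hQ
  simp only [mem_insert, mem_singleton, not_or] at hv'
  obtain ⟨w1, w2, w3, w4⟩ := hv'
  obtain ⟨n1, n2, n3, n4, n5, n6⟩ := hp.nes
  obtain ⟨h1, h2, h3, h4, h5, h6, -, -, -⟩ := hp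
  simp only [mem_insert, mem_singleton] at hv
  rcases hv with rfl | rfl | rfl | rfl
  · rw [er1 n1 n2 n3] at h ⊢
    obtain ⟨hb, hc, hd⟩ := mem3 h
    exact ⟨v', b, c, d, ⟨hb.1 h1, h2, h3, fun k => h4 (hc.2 k), fun k => h5 (hd.2 k), h6, w3, w4, n5⟩, rfl⟩
  · rw [er2 n1 n4 n5] at h ⊢
    obtain ⟨ha, hc, hd⟩ := mem3 h
    refine ⟨a, v', c, d, ⟨(ha.1 h1.symm).symm, hc.1 h2, h3, h4, h5, fun k => h6 (hd.2 k), n2, n3, w4⟩, ?_⟩
    rw [insert_comm]
  · rw [er3 n2 n4 n6] at h ⊢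
    obtain ⟨ha, hb, hd⟩ := mem3 h
    refine ⟨a, b, v', d, ⟨h1, (hb.1 h2.symm).symm, hd.1 h3, fun k => h4 (ha.2 k.symm).symm, h5, h6,
      Ne.symm w1, n3, n5⟩, ?_⟩
    rw [insert_comm v' a, insert_comm v' b]
  · rw [er4 n3 n5 n6] at h ⊢
    obtain ⟨ha, hb, hc⟩ := mem3 h
    refine ⟨a, b, c, v', ⟨h1, h2, (hc.1 h3.symm).symm, h4, fun k => h5 (ha.2 k.symm).symm,
      fun k => h6 (hb.2 k.symm).symm, n2, Ne.symm w1, Ne.symm w2⟩, ?_⟩
    rw [insert_comm v' a, insert_comm v' b, pair_comm v' c]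

lemma Gen.union {T S : Finset V} (hT : Gen G T) (hS : ∀ v ∈ S, Att G v T) : Gen G (T ∪ S) := by
  induction S using Finset.induction_on with
  | empty => simpa using hT
  | insert a s ha ih =>
    rw [union_insert]
    refine Gen.att (ih fun v hv => hS v (mem_insert_of_mem hv)) ?_
    exact (hS a (mem_insert_self _ _)).mono subset_union_left

/-- the layers -/
noncomputable def LT (G : SimpleGraph V) [Fintype V] (T0 : Finset V) : ℕ → Finset V
  | 0 => T0
  | k + 1 => LT G T0 k ∪ univ.filter (fun v => Att G v (LT G T0 k))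

section

variable [Fintype V] {T0 : Finset V}

lemma lt_succ {k : ℕ} {v : V} : v ∈ LT G T0 (k + 1) ↔ v ∈ LT G T0 k ∨ Att G v (LT G T0 k) := by
  simp [LT]

lemma lt_step (k : ℕ) : LT G T0 k ⊆ LT G T0 (k + 1) := fun _ h => lt_succ.2 (Or.inl h)

lemma lt_mono {i j : ℕ} (h : i ≤ j) : LT G T0 i ⊆ LT G T0 j := by
  induction j, h using Nat.le_induction with
  | base => exact Subset.refl _
  | succ k _ ih => exact ih.trans (lt_step k)

lemma lt_not_att {k : ℕ} {v : V} (h : v ∉ LT G T0 (k + 1)) : ¬ Att G v (LT G T0 k) :=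
  fun h' => h (lt_succ.2 (Or.inr h'))

lemma lt_gen (h : Gen G T0) : ∀ k, Gen G (LT G T0 k) := by
  intro k
  induction k with
  | zero => exact h
  | succ k ih => exact ih.union (fun v hv => (mem_filter.1 hv).2)

/-- a vertex not attached to a layer set and trivial on a smaller one is trivial on it -/
lemma nt_down {i : ℕ} {v : V} : ∀ {j : ℕ}, i ≤ j → v ∉ LT G T0 j → ¬ Att G v (LT G T0 j) →
    Nt G v (LT G T0 j) → Nt G v (LT G T0 i) := by
  intro j h
  induction j, h using Nat.le_induction with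
  | base => exact fun _ _ h => h
  | succ k _ ih =>
    intro hv hn hN
    refine ih (fun h => hv (lt_step k h)) (fun h => hn (h.mono (lt_step k))) ?_
    by_contra hcon
    have key : ∀ m, m ∈ LT G T0 (k + 1) → m ∉ LT G T0 k → ∃ Q, IsP4 G Q ∧ m ∈ Q ∧
        Q.erase m ⊆ LT G T0 k ∧ v ∉ Q ∧ ¬ Att G v Q := by
      intro m hm hmk
      obtain ⟨Q, h1, h2, h3⟩ := (lt_succ.1 hm).resolve_left hmk
      have hQ : Q ⊆ LT G T0 (k + 1) := by
        intro x hx
        by_cases hxm : x = m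
        · rw [hxm]; exact hm
        · exact lt_step k (h3 (mem_erase.2 ⟨hxm, hx⟩))
      exact ⟨Q, h1, h2, h3, fun h => hv (hQ h), fun h => hn (h.mono hQ)⟩
    unfold Nt at hcon
    rw [not_and_or] at hcon
    rcases hcon with h | h
    · push Not at h
      obtain ⟨⟨t, ht, hvt⟩, -⟩ := hN
      by_cases htk : t ∈ LT G T0 k
      · exact h t htk hvt
      · obtain ⟨Q, h1, h2, h3, h4, h5⟩ := key t ht htk
        exact none_on h1 h2 h4 h5 (fun s hs => h s (h3 hs)) hvt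
    · push Not at h
      obtain ⟨-, t, ht, hvt⟩ := hN
      by_cases htk : t ∈ LT G T0 k
      · exact hvt (h t htk)
      · obtain ⟨Q, h1, h2, h3, h4, h5⟩ := key t ht htk
        exact hvt (all_on h1 h2 h4 h5 (fun s hs => h s (h3 hs)))

/-- level sets -/
noncomputable def Lv (G : SimpleGraph V) [Fintype V] (T0 : Finset V) (k : ℕ) : Finset V :=
  LT G T0 (k + 1) \ LT G T0 k

lemma mem_Lv {k : ℕ} {v : V} : v ∈ Lv G T0 k ↔ v ∈ LT G T0 (k + 1) ∧ v ∉ LT G T0 k := mem_sdiff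

/-- choice of paths; the level `Lv k` is the one added to `LT k` -/
theorem exists_choice (N : ℕ) : ∃ (Qf : V → Finset V) (par : V → V),
    (∀ k < N, ∀ v ∈ Lv G T0 k, IsP4 G (Qf v) ∧ v ∈ Qf v ∧ (Qf v).erase v ⊆ LT G T0 k) ∧
    (∀ k, k + 1 < N → ∀ v ∈ Lv G T0 (k + 1),
      (par v ∈ Lv G T0 k ∧ (Qf v).erase v ⊆ Qf (par v)) ∨
      (∀ m ∈ Lv G T0 k, ¬ Att G v (Qf m))) := by
  induction N with
  | zero => exact ⟨fun _ => ∅, id, by omega, by omega⟩
  | succ N ih =>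
    obtain ⟨Qf, par, h1, h2⟩ := ih
    have hex : ∀ v ∈ Lv G T0 N, ∃ Q m, IsP4 G Q ∧ v ∈ Q ∧ Q.erase v ⊆ LT G T0 N ∧
        (∀ k, k + 1 = N → (m ∈ Lv G T0 k ∧ Q.erase v ⊆ Qf m) ∨ (∀ m ∈ Lv G T0 k, ¬ Att G v (Qf m))) := by
      intro v hv
      obtain ⟨hv1, hv2⟩ := mem_Lv.1 hv
      obtain ⟨Q, q1, q2, q3⟩ := (lt_succ.1 hv1).resolve_left hv2
      by_cases hc : ∃ k, k + 1 = N ∧ ∃ m ∈ Lv G T0 k, Att G v (Qf m)
      · obtain ⟨k, hk, m, hm, Q', r1, r2, r3⟩ := hc
        have hsub : Qf m ⊆ LT G T0 N := by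
          intro x hx
          have := (h1 k (by omega) m hm).2.2
          by_cases hxm : x = m
          · rw [hxm, ← hk]; exact (mem_Lv.1 hm).1
          · exact lt_mono (by omega : k ≤ N) (this (mem_erase.2 ⟨hxm, hx⟩))
        refine ⟨Q', m, r1, r2, r3.trans hsub, fun k' hk' => Or.inl ?_⟩
        have : k' = k := by omega
        subst this
        exact ⟨hm, r3⟩
      · refine ⟨Q, v, q1, q2, q3, fun k' hk' => Or.inr ?_⟩
        push Not at hc
        exact hc k' hk'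
    choose! gQ gm hg1 hg2 hg3 hg4 using hex
    have hdisj : ∀ k, k < N → ∀ v ∈ Lv G T0 k, v ∉ Lv G T0 N := by
      intro k hk v hv hv'
      exact (mem_Lv.1 hv').2 (lt_mono (by omega : k + 1 ≤ N) (mem_Lv.1 hv).1)
    refine ⟨fun v => if v ∈ Lv G T0 N then gQ v else Qf v,
      fun v => if v ∈ Lv G T0 N then gm v else par v, ?_, ?_⟩
    · intro k hk v hv
      by_cases hkN : k = N
      · subst hkN
        simp only [hv, if_true]
        exact ⟨hg1 v hv, hg2 v hv, hg3 v hv⟩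
      · have hvN := hdisj k (by omega) v hv
        simp only [hvN, if_false]
        exact h1 k (by omega) v hv
    · intro k hk v hv
      by_cases hkN : k + 1 = N
      · subst hkN
        simp only [hv, if_true]
        rcases hg4 v hv k rfl with ⟨h3, h4⟩ | h3
        · left
          have := hdisj k (by omega) _ h3
          simp only [this, if_false]
          exact ⟨h3, h4⟩
        · right
          intro m hm
          have := hdisj k (by omega) _ hm
          simp only [this, if_false]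
          exact h3 m hm
      · have hvN := hdisj (k + 1) (by omega) v hv
        simp only [hvN, if_false]
        rcases h2 k (by omega) v hv with ⟨h3, h4⟩ | h3
        · left
          have := hdisj k (by omega) _ h3
          simp only [this, if_false]
          exact ⟨h3, h4⟩
        · right
          intro m hm
          have := hdisj k (by omega) _ hm
          simp only [this, if_false]
          exact h3 m hm

end

end Pool.Agent.H19
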