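import Pool.Agent.H19.CW.Layer

/-! Layers are small. -/

namespace Pool.Agent.H19

open Finset Classical

variable {V : Type} {G : SimpleGraph V} [Fintype V] {T0 : Finset V}

lemma lt_const {k : ℕ} (h : LT G T0 k = LT G T0 (k + 1)) : LT G T0 (k + 1) = LT G T0 (k + 2) := by
  show LT G T0 (k + 1) = LT G T0 (k + 1) ∪ univ.filter (fun v => Att G v (LT G T0 (k + 1)))
  rw [← h]
  exact h

lemma lt_card : ∀ {k : ℕ}, LT G T0 k ≠ LT G T0 (k + 1) → k ≤ (LT G T0 k).card := by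
  intro k
  induction k with
  | zero => intro _; omega
  | succ k ih =>
    intro h
    have h1 : LT G T0 k ≠ LT G T0 (k + 1) := fun h' => h (lt_const h')
    have h2 : (LT G T0 k).card < (LT G T0 (k + 1)).card :=
      card_lt_card ⟨lt_step k, fun h' => h1 (subset_antisymm (lt_step k) h')⟩
    have := ih h1
    omega

lemma lv_lt {k : ℕ} {v : V} (h : v ∈ Lv G T0 k) : k ≤ Fintype.card V := by
  refine (lt_card (G := G) (T0 := T0) ?_).trans (card_le_univ _)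
  intro he
  rw [mem_Lv, he] at h
  exact h.2 h.1

lemma lv_att {k : ℕ} {v : V} (h : v ∈ Lv G T0 k) : Att G v (LT G T0 k) := by
  obtain ⟨h1, h2⟩ := mem_Lv.1 h
  exact (lt_succ.1 h1).resolve_left h2

/-- the choice of paths and parents -/
def Cho (G : SimpleGraph V) (T0 : Finset V) (Qf : V → Finset V) (par : V → V) : Prop :=
  (∀ k, ∀ v ∈ Lv G T0 k, IsP4 G (Qf v) ∧ v ∈ Qf v ∧ (Qf v).erase v ⊆ LT G T0 k) ∧
    (∀ k, ∀ v ∈ Lv G T0 (k + 1),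
      (par v ∈ Lv G T0 k ∧ (Qf v).erase v ⊆ Qf (par v)) ∨
      (∀ m ∈ Lv G T0 k, ¬ Att G v (Qf m)))

lemma exists_cho : ∃ Qf par, Cho G T0 Qf par := by
  obtain ⟨Qf, par, h1, h2⟩ := exists_choice (G := G) (T0 := T0) (Fintype.card V + 1)
  exact ⟨Qf, par, fun k v hv => h1 k (by have := lv_lt hv; omega) v hv,
    fun k v hv => h2 k (by have := lv_lt hv; omega) v hv⟩

variable {Qf : V → Finset V} {par : V → V}

lemma Cho.sub (hc : Cho G T0 Qf par) {k : ℕ} {v : V} (hv : v ∈ Lv G T0 k) :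
    Qf v ⊆ LT G T0 (k + 1) := by
  intro x hx
  by_cases hxv : x = v
  · rw [hxv]; exact (mem_Lv.1 hv).1
  · exact lt_step k ((hc.1 k v hv).2.2 (mem_erase.2 ⟨hxv, hx⟩))

def OrpP (G : SimpleGraph V) (T0 : Finset V) (Qf : V → Finset V) (v : V) : Prop :=
  ∃ k, v ∈ Lv G T0 (k + 1) ∧ ∀ m ∈ Lv G T0 k, ¬ Att G v (Qf m)

/-- orphans -/
noncomputable def Orp (G : SimpleGraph V) (T0 : Finset V) (Qf : V → Finset V) : Finset V :=
  univ.filter (fun v => OrpP G T0 Qf v)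

lemma mem_Orp {v : V} : v ∈ Orp G T0 Qf ↔
    ∃ k, v ∈ Lv G T0 (k + 1) ∧ ∀ m ∈ Lv G T0 k, ¬ Att G v (Qf m) := by simp [Orp, OrpP]

lemma lv_unique {i j : ℕ} {v : V} (h1 : v ∈ Lv G T0 i) (h2 : v ∈ Lv G T0 j) : i = j := by
  by_contra hne
  rcases Nat.lt_or_gt_of_ne hne with h | h
  · exact (mem_Lv.1 h2).2 (lt_mono (by omega : i + 1 ≤ j) (mem_Lv.1 h1).1)
  · exact (mem_Lv.1 h1).2 (lt_mono (by omega : j + 1 ≤ i) (mem_Lv.1 h2).1)

lemma Cho.nonorp (hc : Cho G T0 Qf par) {k : ℕ} {v : V} (hv : v ∈ Lv G T0 (k + 1))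
    (ho : v ∉ Orp G T0 Qf) : par v ∈ Lv G T0 k ∧ (Qf v).erase v ⊆ Qf (par v) := by
  rcases hc.2 k v hv with h | h
  · exact h
  · exact absurd (mem_Orp.2 ⟨k, hv, h⟩) ho

lemma orph_nt (hc : Cho G T0 Qf par) {k : ℕ} {v : V} (hv : v ∈ Lv G T0 (k + 1))
    (ho : ∀ m ∈ Lv G T0 k, ¬ Att G v (Qf m)) : Nt G v (LT G T0 k) := by
  by_contra hcon
  obtain ⟨Q, q1, q2, q3⟩ := lv_att hv
  have hv2 := (mem_Lv.1 hv).2
  obtain ⟨⟨u, hu1, hu2⟩, w, hw1, hw2, hw3⟩ := q1.nb q2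
  have huT : u ∈ LT G T0 (k + 1) := q3 (mem_erase.2 ⟨hu2.ne.symm, hu1⟩)
  have hwT : w ∈ LT G T0 (k + 1) := q3 (mem_erase.2 ⟨hw2, hw1⟩)
  unfold Nt at hcon
  rw [not_and_or] at hcon
  rcases hcon with h | h
  · push Not at h
    by_cases hk : u ∈ LT G T0 k
    · exact h u hk hu2
    · have hL : u ∈ Lv G T0 k := mem_Lv.2 ⟨huT, hk⟩
      obtain ⟨r1, r2, r3⟩ := hc.1 k u hL
      exact none_on r1 r2 (fun h' => hv2 (hc.sub hL h')) (ho u hL) (fun t ht => h t (r3 ht)) hu2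
  · push Not at h
    by_cases hk : w ∈ LT G T0 k
    · exact hw3 (h w hk)
    · have hL : w ∈ Lv G T0 k := mem_Lv.2 ⟨hwT, hk⟩
      obtain ⟨r1, r2, r3⟩ := hc.1 k w hL
      exact hw3 (all_on r1 r2 (fun h' => hv2 (hc.sub hL h')) (ho w hL) (fun t ht => h t (r3 ht)))

lemma trace_eq (hg : Gen G T0) (hc : Cho G T0 Qf par) {k : ℕ} {v v' : V}
    (hv : v ∉ LT G T0 (k + 1)) (hv' : v' ∉ LT G T0 (k + 1))
    (ho : ∀ m ∈ Lv G T0 k, ¬ Att G v (Qf m)) (ho' : ∀ m ∈ Lv G T0 k, ¬ Att G v' (Qf m))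
    (hN : Nt G v (LT G T0 k)) (hN' : Nt G v' (LT G T0 k)) :
    ∀ t ∈ LT G T0 (k + 1), (G.Adj v t ↔ G.Adj v' t) := by
  obtain ⟨p, e, hgn, -, -⟩ := (lt_gen hg k).gn
  have h0 := gn_unique hgn v (fun h => hv (lt_step k h)) (lt_not_att hv) hN v'
    (fun h => hv' (lt_step k h)) (lt_not_att hv') hN'
  intro t ht
  by_cases hk : t ∈ LT G T0 k
  · exact h0 t hk
  · have hL : t ∈ Lv G T0 k := mem_Lv.2 ⟨ht, hk⟩
    obtain ⟨r1, r2, r3⟩ := hc.1 k t hL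
    exact agree_on r1 r2 (fun h' => hv (hc.sub hL h')) (fun h' => hv' (hc.sub hL h')) (ho t hL)
      (ho' t hL) (fun s hs => h0 s (r3 hs))

lemma swap_att {S : Finset V} {v v' : V} (hv : v ∉ S) (hv' : v' ∉ S)
    (h : ∀ t ∈ S, (G.Adj v t ↔ G.Adj v' t)) {Q : Finset V} (q1 : IsP4 G Q) (q2 : v ∈ Q)
    (q3 : Q.erase v ⊆ S) (hvv : v ≠ v') : v' ∈ D3 G (Q.erase v) ∧ Att G v' S := by
  have hv'Q : v' ∉ Q := fun h' => hv' (q3 (mem_erase.2 ⟨hvv.symm, h'⟩))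
  have h4 := isP4_swap q1 q2 hv'Q (fun t ht => h t (q3 ht))
  have h5 : v' ∉ Q.erase v := fun h' => hv'Q (mem_of_mem_erase h')
  refine ⟨mem_filter.2 ⟨mem_univ _, h5, h4⟩, _, h4, mem_insert_self _ _, ?_⟩
  rw [erase_insert h5]
  exact q3

lemma orph_level (hg : Gen G T0) (hc : Cho G T0 Qf par) {k k' : ℕ} {v v' : V}
    (hv : v ∈ Lv G T0 (k + 1)) (ho : ∀ m ∈ Lv G T0 k, ¬ Att G v (Qf m))
    (hv' : v' ∈ Lv G T0 (k' + 1)) (ho' : ∀ m ∈ Lv G T0 k', ¬ Att G v' (Qf m)) : ¬ k < k' := by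
  intro hkk
  have n1 := (mem_Lv.1 hv).2
  have n2 := (mem_Lv.1 hv').2
  have m1 : v' ∉ LT G T0 k' := fun h => n2 (lt_step k' h)
  have m2 : v' ∉ LT G T0 (k + 1) := fun h => m1 (lt_mono (by omega) h)
  have a1 : ¬ Att G v' (LT G T0 k') := lt_not_att n2
  have hN := nt_down (i := k) (by omega : k ≤ k') m1 a1 (orph_nt hc hv' ho')
  have htr := trace_eq hg hc n1 m2 ho (fun m hm h => a1 ((h.mono (hc.sub hm)).mono
    (lt_mono (by omega : k + 1 ≤ k')))) (orph_nt hc hv ho) hN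
  obtain ⟨Q, q1, q2, q3⟩ := lv_att hv
  have hne : v ≠ v' := by
    rintro rfl
    have := lv_unique hv hv'
    omega
  exact a1 ((swap_att n1 m2 htr q1 q2 q3 hne).2.mono (lt_mono (by omega : k + 1 ≤ k')))

theorem orp_card {C : ℕ} (hC : ∀ t, (D3 G t).card ≤ C) (hg : Gen G T0) (hc : Cho G T0 Qf par) :
    (Orp G T0 Qf).card ≤ C := by
  rcases (Orp G T0 Qf).eq_empty_or_nonempty with h | ⟨v, hv⟩
  · rw [h]; simp
  · obtain ⟨k, hvk, ho⟩ := mem_Orp.1 hv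
    obtain ⟨Q, q1, q2, q3⟩ := lv_att hvk
    refine (card_le_card ?_).trans (hC (Q.erase v))
    intro v' hv'
    obtain ⟨k', hvk', ho'⟩ := mem_Orp.1 hv'
    have h1 := orph_level hg hc hvk ho hvk' ho'
    have h2 := orph_level hg hc hvk' ho' hvk ho
    have : k' = k := by omega
    subst this
    by_cases hne : v = v'
    · subst hne
      refine mem_filter.2 ⟨mem_univ _, notMem_erase _ _, ?_⟩
      rw [insert_erase q2]; exact q1
    · exact (swap_att (mem_Lv.1 hvk).2 (mem_Lv.1 hvk').2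
        (trace_eq hg hc (mem_Lv.1 hvk).2 (mem_Lv.1 hvk').2 ho ho' (orph_nt hc hvk ho)
          (orph_nt hc hvk' ho')) q1 q2 q3 hne).1

def ChdP (G : SimpleGraph V) (Qf : V → Finset V) (m v : V) : Prop :=
  IsP4 G (Qf v) ∧ v ∈ Qf v ∧ (Qf v).erase v ⊆ Qf m

/-- children of `m` -/
noncomputable def Chd (G : SimpleGraph V) (Qf : V → Finset V) (m : V) : Finset V :=
  univ.filter (fun v => ChdP G Qf m v)

lemma mem_Chd {m v : V} : v ∈ Chd G Qf m ↔ ChdP G Qf m v := by simp [Chd]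

lemma chd_card {m : V} {C : ℕ} (hC : ∀ t, (D3 G t).card ≤ C) (hQ : (Qf m).card = 4) :
    (Chd G Qf m).card ≤ 4 * C := by
  have hsub : Chd G Qf m ⊆ (powersetCard 3 (Qf m)).biUnion (D3 G) := by
    intro v hv
    obtain ⟨h1, h2, h3⟩ := mem_Chd.1 hv
    rw [mem_biUnion]
    refine ⟨(Qf v).erase v, mem_powersetCard.2 ⟨h3, by rw [card_erase_of_mem h2, h1.card]⟩, ?_⟩
    refine mem_filter.2 ⟨mem_univ _, notMem_erase _ _, ?_⟩
    rw [insert_erase h2]; exact h1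
  refine (card_le_card hsub).trans ((card_biUnion_le_card_mul _ _ C (fun t _ => hC t)).trans ?_)
  rw [card_powersetCard, hQ]
  exact le_of_eq rfl

lemma chds_card {C : ℕ} (hC : ∀ t, (D3 G t).card ≤ C) (S : Finset V)
    (hS : ∀ m ∈ S, (Qf m).card = 4) : (S.biUnion (Chd G Qf)).card ≤ 4 * C * S.card := by
  rw [mul_comm]
  exact card_biUnion_le_card_mul _ _ _ (fun m hm => chd_card hC (hS m hm))

def SrvP (G : SimpleGraph V) (T0 : Finset V) (Qf : V → Finset V) (par : V → V)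
    (j : ℕ) (v : V) : Prop :=
  ∃ v2 ∈ Lv G T0 (j + 1), v2 ∉ Orp G T0 Qf ∧ par v2 = v ∧
    ∃ v3 ∈ Lv G T0 (j + 2), v3 ∉ Orp G T0 Qf ∧ par v3 = v2

/-- survivors -/
noncomputable def Srv (G : SimpleGraph V) (T0 : Finset V) (Qf : V → Finset V) (par : V → V)
    (j : ℕ) : Finset V :=
  (Lv G T0 j).filter (fun v => SrvP G T0 Qf par j v)

lemma mem_Srv {j : ℕ} {v : V} : v ∈ Srv G T0 Qf par j ↔ v ∈ Lv G T0 j ∧ SrvP G T0 Qf par j v := by
  simp [Srv]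

lemma Cho.card4 (hc : Cho G T0 Qf par) {k : ℕ} {v : V} (hv : v ∈ Lv G T0 k) : (Qf v).card = 4 :=
  (hc.1 k v hv).1.card

lemma Cho.mem_chd (hc : Cho G T0 Qf par) {k : ℕ} {v : V} (hv : v ∈ Lv G T0 (k + 1))
    (ho : v ∉ Orp G T0 Qf) : v ∈ Chd G Qf (par v) := by
  obtain ⟨h1, h2, h3⟩ := hc.1 _ v hv
  exact mem_Chd.2 ⟨h1, h2, (hc.nonorp hv ho).2⟩

/-- the parent lies in the path -/
lemma Cho.mem_par (hc : Cho G T0 Qf par) {k : ℕ} {v : V} (hv : v ∈ Lv G T0 (k + 1))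
    (ho : v ∉ Orp G T0 Qf) : par v ∈ Qf v := by
  obtain ⟨h1, h2, h3⟩ := hc.1 _ v hv
  obtain ⟨h4, h5⟩ := hc.nonorp hv ho
  by_contra hcon
  apply lt_not_att (mem_Lv.1 hv).2
  refine ⟨Qf v, h1, h2, fun x hx => (hc.1 k _ h4).2.2 (mem_erase.2 ⟨?_, h5 hx⟩)⟩
  rintro rfl
  exact hcon (mem_of_mem_erase hx)

lemma srv_inj (hLC : LC G) (hc : Cho G T0 Qf par) {i : ℕ} {m x y : V}
    (hm : m ∈ Lv G T0 (i + 1)) (hmo : m ∉ Orp G T0 Qf)
    (hx : x ∈ Srv G T0 Qf par (i + 2)) (hxo : x ∉ Orp G T0 Qf) (px : par x = m)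
    (hy : y ∈ Srv G T0 Qf par (i + 2)) (hyo : y ∉ Orp G T0 Qf) (py : par y = m) : x = y := by
  by_contra hne
  obtain ⟨hx1, x2, hx2, ox2, px2, x3, hx3, ox3, px3⟩ := mem_Srv.1 hx
  obtain ⟨hy1, y2, hy2, oy2, py2, y3, hy3, oy3, py3⟩ := mem_Srv.1 hy
  have nat : ∀ {k : ℕ} {v : V}, v ∈ Lv G T0 (k + 1) → ¬ Att G v (LT G T0 k) :=
    fun hv => lt_not_att (mem_Lv.1 hv).2
  have hu := (hc.nonorp hm hmo).1
  have fx := hc.nonorp hx1 hxo
  have fy := hc.nonorp hy1 hyo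
  have fx2 := hc.nonorp hx2 ox2
  have fy2 := hc.nonorp hy2 oy2
  have fx3 := hc.nonorp hx3 ox3
  have fy3 := hc.nonorp hy3 oy3
  have mx := hc.mem_par hx1 hxo
  have my := hc.mem_par hy1 hyo
  have mx2 := hc.mem_par hx2 ox2
  have my2 := hc.mem_par hy2 oy2
  have mx3 := hc.mem_par hx3 ox3
  have my3 := hc.mem_par hy3 oy3
  rw [px] at fx mx
  rw [py] at fy my
  rw [px2] at fx2 mx2
  rw [py2] at fy2 my2
  rw [px3] at fx3 mx3
  rw [py3] at fy3 my3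
  refine no_branch hLC (S0 := LT G T0 i) (S1 := LT G T0 (i + 1)) (S2 := LT G T0 (i + 2))
    (S3 := LT G T0 (i + 3)) (S4 := LT G T0 (i + 4)) (lt_step _) (lt_step _) (lt_step _) (lt_step _)
    (u := par m) (m := m) (x1 := x) (y1 := y) (x2 := x2) (y2 := y2) (x3 := x3) (y3 := y3)
    (mem_Lv.1 hu).1 (mem_Lv.1 hm).1 (mem_Lv.1 hm).2 (mem_Lv.1 hx1).1 (mem_Lv.1 hx1).2
    (mem_Lv.1 hy1).1 (mem_Lv.1 hy1).2 (mem_Lv.1 hx2).1 (mem_Lv.1 hx2).2 (mem_Lv.1 hy2).1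
    (mem_Lv.1 hy2).2 (mem_Lv.1 hx3).2 (mem_Lv.1 hy3).2 hne ?_ ?_ (nat hm) (nat hx1) (nat hy1)
    (nat hx2) (nat hy2) (nat hx3) (nat hy3) (Qu := Qf (par m)) (Qm := Qf m) (Qx1 := Qf x)
    (Qy1 := Qf y) (Qx2 := Qf x2) (Qy2 := Qf y2) (Qx3 := Qf x3) (Qy3 := Qf y3)
    (hc.1 _ _ hu).1 (hc.1 _ _ hu).2.1 (hc.1 _ _ hu).2.2 (hc.1 _ _ hm).1 (hc.1 _ _ hx1).1
    (hc.1 _ _ hy1).1 (hc.1 _ _ hx2).1 (hc.1 _ _ hy2).1 (hc.1 _ _ hx3).1 (hc.1 _ _ hy3).1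
    (hc.1 _ _ hm).2.1 (hc.mem_par hm hmo) (hc.nonorp hm hmo).2
    (hc.1 _ _ hx1).2.1 mx fx.2 (hc.1 _ _ hy1).2.1 my fy.2
    (hc.1 _ _ hx2).2.1 mx2 fx2.2 (hc.1 _ _ hy2).2.1 my2 fy2.2
    (hc.1 _ _ hx3).2.1 mx3 fx3.2 (hc.1 _ _ hy3).2.1 my3 fy3.2
  · rintro rfl
    exact hne (px2.symm.trans py2)
  · rintro rfl
    apply hne
    rw [← px2, ← py2, ← px3, ← py3]

lemma srv_step {C : ℕ} (hC : ∀ t, (D3 G t).card ≤ C) (hLC : LC G) (hc : Cho G T0 Qf par) (i : ℕ) :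
    (Srv G T0 Qf par (i + 2)).card ≤ (Srv G T0 Qf par (i + 1)).card +
      4 * C * (Orp G T0 Qf ∩ Lv G T0 (i + 1)).card + (Orp G T0 Qf ∩ Lv G T0 (i + 2)).card := by
  let A := (Srv G T0 Qf par (i + 2)).filter (fun v => v ∉ Orp G T0 Qf ∧ par v ∉ Orp G T0 Qf)
  have h1 : Srv G T0 Qf par (i + 2) ⊆ A ∪ (Orp G T0 Qf ∩ Lv G T0 (i + 1)).biUnion (Chd G Qf) ∪
      (Orp G T0 Qf ∩ Lv G T0 (i + 2)) := by
    intro v hv
    have hv1 := (mem_Srv.1 hv).1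
    by_cases ho : v ∈ Orp G T0 Qf
    · exact mem_union_right _ (mem_inter.2 ⟨ho, hv1⟩)
    · by_cases hp : par v ∈ Orp G T0 Qf
      · refine mem_union_left _ (mem_union_right _ (mem_biUnion.2 ⟨par v, mem_inter.2
          ⟨hp, (hc.nonorp hv1 ho).1⟩, hc.mem_chd hv1 ho⟩))
      · exact mem_union_left _ (mem_union_left _ (mem_filter.2 ⟨hv, ho, hp⟩))
  have h2 : A.card ≤ (Srv G T0 Qf par (i + 1)).card := by
    apply card_le_card_of_injOn par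
    · intro v hv
      obtain ⟨hv, ho, hp⟩ := mem_filter.1 (mem_coe.1 hv)
      obtain ⟨hv1, v2, hv2, o2, p2, -⟩ := mem_Srv.1 hv
      exact mem_Srv.2 ⟨(hc.nonorp hv1 ho).1, v, hv1, ho, rfl, v2, hv2, o2, p2⟩
    · intro x hx y hy hxy
      obtain ⟨hx, ox, hpx⟩ := mem_filter.1 (mem_coe.1 hx)
      obtain ⟨hy, oy, hpy⟩ := mem_filter.1 (mem_coe.1 hy)
      exact srv_inj hLC hc (hc.nonorp (mem_Srv.1 hx).1 ox).1 hpx hx ox rfl hy oy hxy.symm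
  have h3 := chds_card (Qf := Qf) hC (Orp G T0 Qf ∩ Lv G T0 (i + 1))
    (fun m hm => hc.card4 (mem_inter.1 hm).2)
  have h4 := (card_le_card h1).trans ((card_union_le _ _).trans
    (Nat.add_le_add_right (card_union_le _ _) _))
  omega

lemma srv_card {C : ℕ} (hC : ∀ t, (D3 G t).card ≤ C) (hLC : LC G) (hc : Cho G T0 Qf par) :
    ∀ i, (Srv G T0 Qf par (i + 1)).card + 4 * C * (Orp G T0 Qf ∩ Lv G T0 (i + 1)).card ≤
      (Lv G T0 1).card + (4 * C + 1) * (Orp G T0 Qf ∩ LT G T0 (i + 2)).card := by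
  intro i
  induction i with
  | zero =>
    have h1 : (Srv G T0 Qf par 1).card ≤ (Lv G T0 1).card := card_le_card (filter_subset _ _)
    have h2 : (Orp G T0 Qf ∩ Lv G T0 1).card ≤ (Orp G T0 Qf ∩ LT G T0 2).card :=
      card_le_card (inter_subset_inter_left (fun v hv => (mem_Lv.1 hv).1))
    have h3 : 4 * C * (Orp G T0 Qf ∩ Lv G T0 1).card ≤ 4 * C * (Orp G T0 Qf ∩ LT G T0 2).card :=
      Nat.mul_le_mul_left _ h2
    show (Srv G T0 Qf par 1).card + 4 * C * (Orp G T0 Qf ∩ Lv G T0 1).card ≤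
      (Lv G T0 1).card + (4 * C + 1) * (Orp G T0 Qf ∩ LT G T0 2).card
    rw [add_mul]
    omega
  | succ i ih =>
    have h1 := srv_step hC hLC hc i
    have h2 : (Orp G T0 Qf ∩ LT G T0 (i + 2)).card + (Orp G T0 Qf ∩ Lv G T0 (i + 2)).card ≤
        (Orp G T0 Qf ∩ LT G T0 (i + 3)).card := by
      rw [← card_union_of_disjoint]
      · apply card_le_card
        intro v hv
        rcases mem_union.1 hv with hv | hv
        · exact mem_inter.2 ⟨(mem_inter.1 hv).1, lt_step _ (mem_inter.1 hv).2⟩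
        · exact mem_inter.2 ⟨(mem_inter.1 hv).1, (mem_Lv.1 (mem_inter.1 hv).2).1⟩
      · rw [disjoint_left]
        intro v h3 h4
        exact (mem_Lv.1 (mem_inter.1 h4).2).2 (mem_inter.1 h3).2
    have h3 := Nat.mul_le_mul_left (4 * C + 1) h2
    rw [mul_add] at h3
    have h4 : (4 * C + 1) * (Orp G T0 Qf ∩ Lv G T0 (i + 2)).card =
      4 * C * (Orp G T0 Qf ∩ Lv G T0 (i + 2)).card + (Orp G T0 Qf ∩ Lv G T0 (i + 2)).card := by
      rw [add_mul, one_mul]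
    show (Srv G T0 Qf par (i + 2)).card + 4 * C * (Orp G T0 Qf ∩ Lv G T0 (i + 2)).card ≤
      (Lv G T0 1).card + (4 * C + 1) * (Orp G T0 Qf ∩ LT G T0 (i + 3)).card
    omega

lemma lv0_card {C : ℕ} (hC : ∀ t, (D3 G t).card ≤ C) (hc : Cho G T0 Qf par) (h0 : T0.card ≤ 5) :
    (Lv G T0 0).card ≤ 32 * C := by
  have hsub : Lv G T0 0 ⊆ T0.powerset.biUnion (D3 G) := by
    intro v hv
    obtain ⟨h1, h2, h3⟩ := hc.1 0 v hv
    rw [mem_biUnion]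
    refine ⟨(Qf v).erase v, mem_powerset.2 h3, ?_⟩
    refine mem_filter.2 ⟨mem_univ _, notMem_erase _ _, ?_⟩
    rw [insert_erase h2]; exact h1
  refine (card_le_card hsub).trans ((card_biUnion_le_card_mul _ _ C (fun t _ => hC t)).trans ?_)
  rw [card_powerset]
  apply Nat.mul_le_mul_right
  calc 2 ^ T0.card ≤ 2 ^ 5 := Nat.pow_le_pow_right (by norm_num) h0
    _ = 32 := by norm_num

lemma lv_succ_card {C : ℕ} (hC : ∀ t, (D3 G t).card ≤ C) (hg : Gen G T0) (hc : Cho G T0 Qf par)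
    (k : ℕ) : (Lv G T0 (k + 1)).card ≤ C + 4 * C * (Lv G T0 k).card := by
  have hsub : Lv G T0 (k + 1) ⊆ Orp G T0 Qf ∪ (Lv G T0 k).biUnion (Chd G Qf) := by
    intro v hv
    by_cases ho : v ∈ Orp G T0 Qf
    · exact mem_union_left _ ho
    · exact mem_union_right _ (mem_biUnion.2 ⟨par v, (hc.nonorp hv ho).1, hc.mem_chd hv ho⟩)
  have h1 := (card_le_card hsub).trans (card_union_le _ _)
  have h2 := orp_card hC hg hc
  have h3 := chds_card (Qf := Qf) hC (Lv G T0 k) (fun m hm => hc.card4 hm)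
  omega

lemma lv_far_card {C : ℕ} (hC : ∀ t, (D3 G t).card ≤ C) (hg : Gen G T0) (hc : Cho G T0 Qf par)
    (i : ℕ) : (Lv G T0 (i + 3)).card ≤ C + 4 * C * C +
      4 * C * (4 * C * (Srv G T0 Qf par (i + 1)).card) := by
  have h0 : ∀ m ∈ Orp G T0 Qf, (Qf m).card = 4 := by
    intro m hm
    obtain ⟨k, hk, -⟩ := mem_Orp.1 hm
    exact hc.card4 hk
  set B := (Srv G T0 Qf par (i + 1)).biUnion (Chd G Qf) with hB
  have hsub : Lv G T0 (i + 3) ⊆ Orp G T0 Qf ∪ (Orp G T0 Qf).biUnion (Chd G Qf) ∪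
      (B ∩ Lv G T0 (i + 2)).biUnion (Chd G Qf) := by
    intro v hv
    by_cases ho : v ∈ Orp G T0 Qf
    · exact mem_union_left _ (mem_union_left _ ho)
    · have hp1 := (hc.nonorp hv ho).1
      by_cases hp : par v ∈ Orp G T0 Qf
      · exact mem_union_left _ (mem_union_right _ (mem_biUnion.2 ⟨par v, hp, hc.mem_chd hv ho⟩))
      · have hp2 := (hc.nonorp hp1 hp).1
        refine mem_union_right _ (mem_biUnion.2 ⟨par v, mem_inter.2 ⟨mem_biUnion.2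
          ⟨par (par v), mem_Srv.2 ⟨hp2, par v, hp1, hp, rfl, v, hv, ho, rfl⟩,
            hc.mem_chd hp1 hp⟩, hp1⟩, hc.mem_chd hv ho⟩)
  have h1 := (card_le_card hsub).trans ((card_union_le _ _).trans
    (Nat.add_le_add_right (card_union_le _ _) _))
  have h2 := orp_card hC hg hc
  have h3 := chds_card (Qf := Qf) hC (Orp G T0 Qf) h0
  have h4 := chds_card (Qf := Qf) hC (Srv G T0 Qf par (i + 1)) (fun m hm => hc.card4 (mem_Srv.1 hm).1)
  have h5 := chds_card (Qf := Qf) hC (B ∩ Lv G T0 (i + 2)) (fun m hm => hc.card4 (mem_inter.1 hm).2)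
  have h6 : (B ∩ Lv G T0 (i + 2)).card ≤ B.card := card_le_card inter_subset_left
  have h7 : 4 * C * (Orp G T0 Qf).card ≤ 4 * C * C := Nat.mul_le_mul_left _ h2
  have h8 : 4 * C * (B ∩ Lv G T0 (i + 2)).card ≤ 4 * C * (4 * C * (Srv G T0 Qf par (i + 1)).card) :=
    Nat.mul_le_mul_left _ (h6.trans h4)
  omega

/-- bounded layers -/
theorem exists_W (C : ℕ) : ∃ W : ℕ, ∀ (V : Type) [Fintype V] (G : SimpleGraph V) (T0 : Finset V),
    (∀ t, (D3 G t).card ≤ C) → LC G → Gen G T0 → T0.card ≤ 5 → ∀ k, (Lv G T0 k).card ≤ W := by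
  let w1 := 32 * C
  let w2 := C + 4 * C * w1
  let w3 := C + 4 * C * w2
  let s := w2 + (4 * C + 1) * C
  let w4 := C + 4 * C * C + 4 * C * (4 * C * s)
  refine ⟨w1 + w2 + w3 + w4, ?_⟩
  intro V _ G T0 hC hLC hg h0 k
  obtain ⟨Qf, par, hc⟩ := exists_cho (G := G) (T0 := T0)
  have a0 : (Lv G T0 0).card ≤ w1 := lv0_card hC hc h0
  have a1 : (Lv G T0 1).card ≤ w2 := (lv_succ_card hC hg hc 0).trans
    (Nat.add_le_add_left (Nat.mul_le_mul_left _ a0) _)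
  have a2 : (Lv G T0 2).card ≤ w3 := (lv_succ_card hC hg hc 1).trans
    (Nat.add_le_add_left (Nat.mul_le_mul_left _ a1) _)
  rcases k with _ | _ | _ | i
  · omega
  · show (Lv G T0 1).card ≤ _
    omega
  · show (Lv G T0 2).card ≤ _
    omega
  · have h1 := lv_far_card hC hg hc i
    have h2 := srv_card hC hLC hc i
    have h3 : (Orp G T0 Qf ∩ LT G T0 (i + 2)).card ≤ C :=
      (card_le_card inter_subset_left).trans (orp_card hC hg hc)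
    have h4 : (4 * C + 1) * (Orp G T0 Qf ∩ LT G T0 (i + 2)).card ≤ (4 * C + 1) * C :=
      Nat.mul_le_mul_left _ h3
    have h5 : (Srv G T0 Qf par (i + 1)).card ≤ s := by
      show _ ≤ w2 + (4 * C + 1) * C
      omega
    have h6 : 4 * C * (4 * C * (Srv G T0 Qf par (i + 1)).card) ≤ 4 * C * (4 * C * s) :=
      Nat.mul_le_mul_left _ (Nat.mul_le_mul_left _ h5)
    show (Lv G T0 (i + 3)).card ≤ _
    have : (Lv G T0 (i + 3)).card ≤ w4 := h1.trans (Nat.add_le_add_left h6 _)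
    omega

end Pool.Agent.H19
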