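import Pool.Graph.R_seed8.H175R2.Cw
import Pool.Agent.H19.CW.Basic
import Pool.Agent.H19.CW.Grow2

/-! Decomposition trees of bounded width. -/

namespace Pool.Agent.H19

open Finset Classical

variable {V V' : Type}

/-- outside neighbourhood of `x` -/
noncomputable def onb (G : SimpleGraph V) (R A : Finset V) (x : V) : Finset V :=
  (R \ A).filter (fun y => G.Adj x y)

/-- number of outside neighbourhoods of elements of `A` in `R` -/
noncomputable def rk (G : SimpleGraph V) (R A : Finset V) : ℕ := (A.image (onb G R A)).card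

lemma mem_onb {G : SimpleGraph V} {R A : Finset V} {x y : V} :
    y ∈ onb G R A x ↔ (y ∈ R ∧ y ∉ A) ∧ G.Adj x y := by
  simp [onb]

/-- trees of sets with few outside types -/
inductive TR (G : SimpleGraph V) (K : ℕ) (R : Finset V) : Finset V → Prop
  | leaf (x : V) : TR G K R {x}
  | node {A B : Finset V} (hd : Disjoint A B) (hA : TR G K R A) (hB : TR G K R B)
      (h : rk G R (A ∪ B) ≤ K) : TR G K R (A ∪ B)

lemma rk_le_of_label {α : Type} {G : SimpleGraph V} {R A : Finset V} (F : Finset α) (l : V → α)
    (h1 : ∀ x ∈ A, l x ∈ F)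
    (h2 : ∀ x ∈ A, ∀ y ∈ A, l x = l y → onb G R A x = onb G R A y) : rk G R A ≤ F.card := by
  unfold rk
  apply Finset.card_le_card_of_surjOn (s := F)
    (f := fun a => if h : ∃ x ∈ A, l x = a then onb G R A h.choose else ∅)
  intro s hs
  rw [mem_coe, mem_image] at hs
  obtain ⟨x, hx, rfl⟩ := hs
  refine ⟨l x, h1 x hx, ?_⟩
  have h : ∃ y ∈ A, l y = l x := ⟨x, hx, rfl⟩
  simp only [h, dif_pos]
  exact h2 _ h.choose_spec.1 _ hx h.choose_spec.2

lemma rk_le_card {G : SimpleGraph V} {R A : Finset V} : rk G R A ≤ A.card := card_image_le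

lemma rk_le_rk {G : SimpleGraph V} {G' : SimpleGraph V'} {R A : Finset V} {R' A' : Finset V'}
    (f : V → V') (h1 : ∀ x ∈ A, f x ∈ A')
    (h2 : ∀ x ∈ A, ∀ y ∈ A, onb G' R' A' (f x) = onb G' R' A' (f y) →
      onb G R A x = onb G R A y) : rk G R A ≤ rk G' R' A' :=
  rk_le_of_label _ (fun x => onb G' R' A' (f x)) (fun x hx => mem_image_of_mem _ (h1 x hx)) h2

lemma TR.mono {G : SimpleGraph V} {K K' : ℕ} {R A : Finset V} (h : TR G K R A) (hK : K ≤ K') :
    TR G K' R A := by
  induction h with
  | leaf x => exact TR.leaf x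
  | node hd _ _ h iA iB => exact TR.node hd iA iB (h.trans hK)

lemma TR.add {G : SimpleGraph V} {K : ℕ} {R A : Finset V} (h : TR G K R A) {v : V}
    (hr : rk G R (insert v A) ≤ K) : TR G K R (insert v A) := by
  by_cases hv : v ∈ A
  · rw [insert_eq_of_mem hv]; exact h
  · have : insert v A = A ∪ {v} := by rw [union_comm, ← insert_eq]
    rw [this] at hr ⊢
    exact TR.node (disjoint_singleton_right.2 hv) h (TR.leaf v) hr

lemma TR.grow {G : SimpleGraph V} {K : ℕ} {R A : Finset V} (h : TR G K R A) (B : Finset V)
    (hr : ∀ A', A ⊆ A' → A' ⊆ A ∪ B → rk G R A' ≤ K) : TR G K R (A ∪ B) := by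
  induction B using Finset.induction_on with
  | empty => simpa using h
  | insert b s hb ih =>
    rw [union_insert]
    refine (ih fun A' h1 h2 => hr A' h1 (h2.trans (union_subset_union_right (subset_insert _ _)))).add ?_
    refine hr _ (subset_union_left.trans (subset_insert _ _)) ?_
    rw [union_insert]

lemma TR.grow' {G : SimpleGraph V} {K : ℕ} {R A B : Finset V} (h : TR G K R A) (hAB : A ⊆ B)
    (hr : ∀ A', A ⊆ A' → A' ⊆ B → rk G R A' ≤ K) : TR G K R B := by
  have := h.grow B (by rw [union_eq_right.2 hAB]; exact hr)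
  rwa [union_eq_right.2 hAB] at this

/-- replacing vertices by blocks -/
lemma TR.blow {G : SimpleGraph V} {G' : SimpleGraph V'} {K K' : ℕ} {R A : Finset V}
    {R' : Finset V'} {β : V → Finset V'} (h : TR G K R A)
    (hd : ∀ x ∈ A, ∀ y ∈ A, x ≠ y → Disjoint (β x) (β y))
    (hleaf : ∀ x ∈ A, TR G' K' R' (β x))
    (hrk : ∀ B ⊆ A, rk G R B ≤ K → rk G' R' (B.biUnion β) ≤ K') : TR G' K' R' (A.biUnion β) := by
  induction h with
  | leaf x => rw [singleton_biUnion]; exact hleaf x (mem_singleton_self x)
  | @node A B hdAB _ _ h iA iB =>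
    have hU : (A ∪ B).biUnion β = A.biUnion β ∪ B.biUnion β := by
      ext z; simp only [mem_biUnion, mem_union]
      constructor
      · rintro ⟨x, hx | hx, hz⟩
        · exact Or.inl ⟨x, hx, hz⟩
        · exact Or.inr ⟨x, hx, hz⟩
      · rintro (⟨x, hx, hz⟩ | ⟨x, hx, hz⟩)
        · exact ⟨x, Or.inl hx, hz⟩
        · exact ⟨x, Or.inr hx, hz⟩
    rw [hU]
    refine TR.node ?_
      (iA (fun x hx y hy => hd x (mem_union_left _ hx) y (mem_union_left _ hy))
        (fun x hx => hleaf x (mem_union_left _ hx))
        (fun C hC => hrk C (hC.trans subset_union_left)))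
      (iB (fun x hx y hy => hd x (mem_union_right _ hx) y (mem_union_right _ hy))
        (fun x hx => hleaf x (mem_union_right _ hx))
        (fun C hC => hrk C (hC.trans subset_union_right))) ?_
    · rw [disjoint_biUnion_left]
      intro x hx
      rw [disjoint_biUnion_right]
      intro y hy
      refine hd x (mem_union_left _ hx) y (mem_union_right _ hy) ?_
      rintro rfl
      exact (disjoint_left.1 hdAB) hx hy
    · rw [← hU]; exact hrk _ (Subset.refl _) h

lemma TR.transfer {G G' : SimpleGraph V} {K K' : ℕ} {R R' A : Finset V} (h : TR G K R A)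
    (hrk : ∀ B ⊆ A, rk G R B ≤ K → rk G' R' B ≤ K') : TR G' K' R' A := by
  have := h.blow (G' := G') (K' := K') (R' := R') (β := fun x => {x})
    (fun x _ y _ hxy => disjoint_singleton.2 hxy) (fun x _ => TR.leaf x)
    (fun B hB hr => by rw [biUnion_singleton_eq_self]; exact hrk B hB hr)
  rwa [biUnion_singleton_eq_self] at this

lemma TR.dt {G : SimpleGraph V} {K : ℕ} {R A : Finset V} (h : TR G K R A) :
    Pool.Agent.H175R2.DT G K R A := by
  induction h with
  | leaf x => exact Pool.Agent.H175R2.DT.leaf x
  | @node A B hd _ _ h iA iB =>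
    refine Pool.Agent.H175R2.DT.node hd iA iB (le_trans ?_ h)
    unfold Pool.Agent.H175R2.nt rk
    exact card_le_card (erase_subset _ _)

/-- relative primality -/
def PrmOn (G : SimpleGraph V) (R : Finset V) : Prop :=
  ∀ M ⊆ R, (∀ z ∈ R, z ∉ M → ∀ x ∈ M, ∀ y ∈ M, (G.Adj z x ↔ G.Adj z y)) → M.card ≤ 1 ∨ M = R

/-- substitution -/
theorem tr_of_prime {G : SimpleGraph V} {K : ℕ}
    (hp : ∀ R : Finset V, R.Nonempty → PrmOn G R → TR G K R R) : ∀ (n : ℕ) (R : Finset V),
    R.card = n → R.Nonempty → TR G K R R := by
  intro n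
  induction n using Nat.strong_induction_on with
  | _ n ih =>
    intro R hn hne
    by_cases hP : PrmOn G R
    · exact hp R hne hP
    · unfold PrmOn at hP
      push Not at hP
      obtain ⟨M, hMR, hMod, hM1, hM2⟩ := hP
      obtain ⟨m, hm⟩ : M.Nonempty := card_pos.1 (by omega)
      have hlt : M.card < R.card := card_lt_card ⟨hMR, fun h => hM2 (subset_antisymm hMR h)⟩
      set R1 := insert m (R \ M) with hR1
      have hR1R : R1 ⊆ R := insert_subset (hMR hm) sdiff_subset
      have hmRM : m ∉ R \ M := fun h => (mem_sdiff.1 h).2 hm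
      have hc1 : R1.card < R.card := by
        rw [hR1, card_insert_of_notMem hmRM, card_sdiff_of_subset hMR]; omega
      have t1 := ih R1.card (hn ▸ hc1) R1 rfl ⟨m, mem_insert_self _ _⟩
      have t2 := ih M.card (hn ▸ hlt) M rfl ⟨m, hm⟩
      have memR1 : ∀ x ∈ R1, x ≠ m → x ∈ R ∧ x ∉ M := by
        intro x hx hxm
        rw [hR1, mem_insert] at hx
        exact mem_sdiff.1 (hx.resolve_left hxm)
      let β : V → Finset V := fun x => if x = m then M else {x}
      have hβm : β m = M := by simp [β]
      have hβ : ∀ x, x ≠ m → β x = {x} := fun x hx => by simp [β, hx]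
      have hall : R1.biUnion β = R := by
        ext z
        rw [mem_biUnion]
        constructor
        · rintro ⟨x, hx, hz⟩
          by_cases hxm : x = m
          · rw [hxm, hβm] at hz; exact hMR hz
          · rw [hβ x hxm, mem_singleton] at hz
            rw [hz]; exact hR1R hx
        · intro hz
          by_cases hzM : z ∈ M
          · exact ⟨m, mem_insert_self _ _, by rw [hβm]; exact hzM⟩
          · have hzm : z ≠ m := fun h => hzM (h ▸ hm)
            exact ⟨z, mem_insert_of_mem (mem_sdiff.2 ⟨hz, hzM⟩), by rw [hβ z hzm]; simp⟩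
      have key := t1.blow (G' := G) (K' := K) (R' := R) (β := β) ?_ ?_ ?_
      · rwa [hall] at key
      · intro x hx y hy hxy
        by_cases hxm : x = m
        · have hym : y ≠ m := fun h => hxy (hxm.trans h.symm)
          rw [hxm, hβm, hβ y hym, disjoint_singleton_right]
          exact (memR1 y hy hym).2
        · by_cases hym : y = m
          · rw [hym, hβm, hβ x hxm, disjoint_singleton_left]
            exact (memR1 x hx hxm).2
          · rw [hβ x hxm, hβ y hym, disjoint_singleton]
            exact hxy
      · intro x hx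
        by_cases hxm : x = m
        · rw [hxm, hβm]
          refine t2.transfer (fun B hB hr => le_trans ?_ hr)
          refine rk_le_rk id (fun x hx => hx) ?_
          intro u hu v hv huv
          ext z
          rw [mem_onb, mem_onb]
          by_cases hzM : z ∈ M
          · have := congrArg (fun s => z ∈ s) huv
            simp only [id, mem_onb, hzM, true_and, eq_iff_iff] at this
            tauto
          · by_cases hzR : z ∈ R
            · have := hMod z hzR hzM u (hB hu) v (hB hv)
              rw [G.adj_comm u z, G.adj_comm v z]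
              tauto
            · tauto
        · rw [hβ x hxm]; exact TR.leaf x
      · intro B hB hr
        refine le_trans ?_ hr
        refine rk_le_rk (fun x => if x ∈ M then m else x) ?_ ?_
        · intro x hx
          rw [mem_biUnion] at hx
          obtain ⟨y, hy, hxy⟩ := hx
          by_cases hym : y = m
          · rw [hym, hβm] at hxy
            simp only [hxy, if_true]
            rw [← hym]; exact hy
          · rw [hβ y hym, mem_singleton] at hxy
            have := (memR1 y (hB hy) hym).2
            rw [hxy]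
            simp only [this, if_false]
            exact hy
        · have mem : ∀ x, x ∈ B.biUnion β ↔ (x ∈ M ∧ m ∈ B) ∨ (x ∉ M ∧ x ∈ B) := by
            intro x
            rw [mem_biUnion]
            constructor
            · rintro ⟨y, hy, hxy⟩
              by_cases hym : y = m
              · rw [hym, hβm] at hxy
                exact Or.inl ⟨hxy, hym ▸ hy⟩
              · rw [hβ y hym, mem_singleton] at hxy
                rw [hxy]
                exact Or.inr ⟨(memR1 y (hB hy) hym).2, hy⟩
            · rintro (⟨h1, h2⟩ | ⟨h1, h2⟩)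
              · exact ⟨m, h2, by rw [hβm]; exact h1⟩
              · exact ⟨x, h2, by rw [hβ x (fun h => h1 (h ▸ hm))]; simp⟩
          intro u hu v hv huv
          have adj : ∀ w ∈ B.biUnion β, ∀ z ∈ R, z ∉ B.biUnion β →
              (G.Adj w z ↔ (if z ∈ M then m else z) ∈
                onb G R1 B (if w ∈ M then m else w)) := by
            intro w hw z hz hzB
            rw [mem_onb]
            rw [mem] at hw hzB
            push Not at hzB
            by_cases hzM : z ∈ M
            · have hmB := hzB.1 hzM
              have hwM : w ∉ M := fun h => by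
                rcases hw with ⟨h1, h2⟩ | ⟨h1, h2⟩
                · exact hmB h2
                · exact h1 h
              have hwB : w ∈ B := by
                rcases hw with ⟨h1, h2⟩ | ⟨h1, h2⟩
                · exact absurd h1 hwM
                · exact h2
              simp only [hzM, if_true, hwM, if_false]
              have := hMod w (hR1R (hB hwB)) hwM z hzM m hm
              rw [this]
              have : m ∈ R1 := mem_insert_self _ _
              tauto
            · have hzB' : z ∉ B := hzB.2 hzM
              have hzR1 : z ∈ R1 := mem_insert_of_mem (mem_sdiff.2 ⟨hz, hzM⟩)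
              simp only [hzM, if_false]
              by_cases hwM : w ∈ M
              · simp only [hwM, if_true]
                have := hMod z hz hzM w hwM m hm
                rw [G.adj_comm w z, this, G.adj_comm z m]
                tauto
              · simp only [hwM, if_false]
                tauto
          ext z
          rw [mem_onb, mem_onb]
          by_cases hz : z ∈ R ∧ z ∉ B.biUnion β
          · rw [adj u hu z hz.1 hz.2, adj v hv z hz.1 hz.2, huv]
          · tauto

/-- induced subgraphs as types -/
def sg (G : SimpleGraph V) (R : Finset V) : SimpleGraph {x // x ∈ R} := G.comap Subtype.val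

lemma sg_adj {G : SimpleGraph V} {R : Finset V} {x y : {x // x ∈ R}} :
    (sg G R).Adj x y ↔ G.Adj x.1 y.1 := Iff.rfl

/-- trees of induced subgraphs given as types -/
lemma tr_subtype {G : SimpleGraph V} {K : ℕ} {R : Finset V}
    (h : TR (sg G R) K (univ : Finset {x // x ∈ R}) univ) : TR G K R R := by
  have h1 : (univ : Finset {x // x ∈ R}).biUnion (fun x => ({x.1} : Finset V)) = R := by
    ext z
    rw [mem_biUnion]
    constructor
    · rintro ⟨x, -, hz⟩
      rw [mem_singleton] at hz
      rw [hz]; exact x.2
    · intro hz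
      exact ⟨⟨z, hz⟩, mem_univ _, by simp⟩
  have := h.blow (G' := G) (K' := K) (R' := R) (β := fun x => ({x.1} : Finset V))
    (fun x _ y _ hxy => disjoint_singleton.2 (fun h => hxy (Subtype.ext h)))
    (fun x _ => TR.leaf _) ?_
  · rwa [h1] at this
  · intro B _ hr
    refine le_trans ?_ hr
    have hmem : ∀ x : V, x ∈ B.biUnion (fun x => ({x.1} : Finset V)) ↔
        ∃ hx : x ∈ R, (⟨x, hx⟩ : {x // x ∈ R}) ∈ B := by
      intro x
      rw [mem_biUnion]
      constructor
      · rintro ⟨y, hy, hxy⟩
        rw [mem_singleton] at hxy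
        subst hxy
        exact ⟨y.2, hy⟩
      · rintro ⟨hx, hxB⟩
        exact ⟨_, hxB, by simp⟩
    by_cases hne : R.Nonempty
    · obtain ⟨r0, hr0⟩ := hne
      refine rk_le_rk (fun x => if hx : x ∈ R then (⟨x, hx⟩ : {x // x ∈ R}) else ⟨r0, hr0⟩) ?_ ?_
      · intro x hx
        obtain ⟨hx1, hx2⟩ := (hmem x).1 hx
        simp only [hx1, dif_pos]
        exact hx2
      · intro u hu v hv huv
        obtain ⟨hu1, hu2⟩ := (hmem u).1 hu
        obtain ⟨hv1, hv2⟩ := (hmem v).1 hv
        simp only [hu1, hv1, dif_pos] at huv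
        ext z
        rw [mem_onb, mem_onb]
        by_cases hz : z ∈ R
        · have := congrArg (fun s => (⟨z, hz⟩ : {x // x ∈ R}) ∈ s) huv
          simp only [mem_onb, mem_univ, true_and, sg_adj, eq_iff_iff] at this
          have hzB := hmem z
          constructor
          · rintro ⟨⟨h1, h2⟩, h3⟩
            exact ⟨⟨h1, h2⟩, (this.1 ⟨fun h => h2 (hzB.2 ⟨hz, h⟩), h3⟩).2⟩
          · rintro ⟨⟨h1, h2⟩, h3⟩
            exact ⟨⟨h1, h2⟩, (this.2 ⟨fun h => h2 (hzB.2 ⟨hz, h⟩), h3⟩).2⟩
        · tauto
    · rw [not_nonempty_iff_eq_empty] at hne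
      have : B.biUnion (fun x => ({x.1} : Finset V)) = ∅ := by
        ext x
        rw [hmem]
        simp [hne]
      rw [this]
      simp [rk]

/-- any set has a tree of width its size -/
lemma tr_card {G : SimpleGraph V} {K : ℕ} {R : Finset V} (hR : R.Nonempty) (h : R.card ≤ K) :
    TR G K R R := by
  obtain ⟨x, hx⟩ := hR
  exact (TR.leaf x).grow' (singleton_subset_iff.2 hx) (fun A' _ h2 =>
    rk_le_card.trans ((card_le_card h2).trans h))

lemma prm_subtype {G : SimpleGraph V} {R : Finset V} (h : PrmOn G R) :
    Prm (sg G R) := by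
  intro M hM
  have hmem : ∀ x : V, x ∈ M.map (Function.Embedding.subtype _) ↔
      ∃ hx : x ∈ R, (⟨x, hx⟩ : {x // x ∈ R}) ∈ M := by
    intro x
    rw [mem_map]
    constructor
    · rintro ⟨y, hy, rfl⟩
      exact ⟨y.2, hy⟩
    · rintro ⟨hx, hxM⟩
      exact ⟨_, hxM, rfl⟩
  have k1 : M.map (Function.Embedding.subtype _) ⊆ R := by
    intro x hx
    exact ((hmem x).1 hx).1
  have k2 : ∀ z ∈ R, z ∉ M.map (Function.Embedding.subtype _) →
      ∀ x ∈ M.map (Function.Embedding.subtype _), ∀ y ∈ M.map (Function.Embedding.subtype _),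
      (G.Adj z x ↔ G.Adj z y) := by
    intro z hz hzM x hx y hy
    obtain ⟨hx1, hx2⟩ := (hmem x).1 hx
    obtain ⟨hy1, hy2⟩ := (hmem y).1 hy
    have := hM ⟨z, hz⟩ (fun h => hzM ((hmem z).2 ⟨hz, h⟩)) _ hx2 _ hy2
    exact this
  rcases h (M.map (Function.Embedding.subtype _)) k1 k2 with h1 | h1
  · rw [card_map] at h1; exact Or.inl h1
  · right
    rw [eq_univ_iff_forall]
    rintro ⟨x, hx⟩
    have : x ∈ M.map (Function.Embedding.subtype _) := by rw [h1]; exact hx
    exact ((hmem x).1 this).2

end Pool.Agent.H19
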