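import Pool.Agent.H19.CW.Layer2
import Pool.Agent.H19.CW.Tree

/-! Trees from layers. -/

namespace Pool.Agent.H19

open Finset Classical

variable {V : Type} {G : SimpleGraph V}

lemma no_twins [Fintype V] (hP : Prm G) (h3 : 3 ≤ Fintype.card V) {t m : V} (htm : t ≠ m)
    (h : ∀ z, z ≠ t → z ≠ m → (G.Adj z t ↔ G.Adj z m)) : False := by
  have hM : Mod G {t, m} := by
    intro z hz x hx y hy
    simp only [mem_insert, mem_singleton, not_or] at hz hx hy
    have := h z hz.1 hz.2
    rcases hx with rfl | rfl <;> rcases hy with rfl | rfl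
    · exact Iff.rfl
    · exact this
    · exact this.symm
    · exact Iff.rfl
  rcases hP _ hM with h1 | h1
  · rw [card_pair htm] at h1; omega
  · have := congrArg Finset.card h1
    rw [card_pair htm, card_univ] at this
    omega

lemma no_whole [Fintype V] (hP : Prm G) {T0 : Finset V} (h2 : 2 ≤ T0.card)
    (h6 : T0.card < Fintype.card V)
    (h : ∀ z ∉ T0, (∀ x ∈ T0, ¬ G.Adj z x) ∨ (∀ x ∈ T0, G.Adj z x)) : False := by
  have hM : Mod G T0 := by
    intro z hz x hx y hy
    rcases h z hz with h | h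
    · exact iff_of_false (h x hx) (h y hy)
    · exact iff_of_true (h x hx) (h y hy)
  rcases hP _ hM with h1 | h1
  · omega
  · rw [h1, card_univ] at h6; omega

/-- the first set is not closed -/
theorem not_closed5 [Fintype V] (hP : Prm G) (h6 : 6 ≤ Fintype.card V) {a b c d m : V}
    (hp : P4 G a b c d) (hm : m ∉ ({a, b, c, d} : Finset V))
    (hT : ¬ Typ (G.Adj m a) (G.Adj m b) (G.Adj m c) (G.Adj m d)) :
    ∃ v ∉ (insert m {a, b, c, d} : Finset V), Att G v (insert m {a, b, c, d}) := by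
  by_contra hcon
  push Not at hcon
  set T0 : Finset V := insert m {a, b, c, d} with hT0
  have mm : m ∈ T0 := by simp [hT0]
  have ma : a ∈ T0 := by simp [hT0]
  have mb : b ∈ T0 := by simp [hT0]
  have mc : c ∈ T0 := by simp [hT0]
  have md : d ∈ T0 := by simp [hT0]
  have hc5 : T0.card = 5 := by rw [hT0, card_insert_of_notMem hm, hp.card]
  have ty : ∀ {a' b' c' d' : V}, P4 G a' b' c' d' → a' ∈ T0 → b' ∈ T0 → c' ∈ T0 → d' ∈ T0 →
      ∀ v ∉ T0, Typ (G.Adj v a') (G.Adj v b') (G.Adj v c') (G.Adj v d') := by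
    intro a' b' c' d' hp' h1 h2 h3 h4 v hv
    have hs : ({a', b', c', d'} : Finset V) ⊆ T0 := by
      intro x hx
      simp only [mem_insert, mem_singleton] at hx
      rcases hx with rfl | rfl | rfl | rfl <;> assumption
    exact typ_of_not_att hp' (fun h => hv (hs h)) hs (hcon v hv)
  have ty0 := ty hp ma mb mc md
  simp only [mem_insert, mem_singleton, not_or] at hm
  obtain ⟨na, nb, nc, nd⟩ := hm
  obtain ⟨n1, n2, n3, n4, n5, n6⟩ := hp.nes
  obtain ⟨h1, h2, h3, h4, h5, h6', -, -, -⟩ := hp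
  have cs : ∀ z, z ∉ T0 ∨ z = m ∨ z = a ∨ z = b ∨ z = c ∨ z = d := by
    intro z
    by_cases hz : z ∈ T0
    · right
      simpa [hT0] using hz
    · exact Or.inl hz
  have sy : ∀ {y z : V}, ¬ G.Adj y z → ¬ G.Adj z y := fun h h' => h h'.symm
  by_cases q1 : G.Adj m b ∧ ¬ G.Adj m c ∧ ¬ G.Adj m d
  · -- twin of `a`
    obtain ⟨k1, k2, k3⟩ := q1
    have hp' : P4 G m b c d := ⟨k1, h2, h3, k2, k3, h6', nc, nd, n5⟩
    refine no_twins hP (by omega) (Ne.symm na) (fun z hz1 hz2 => ?_)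
    rcases cs z with hz | rfl | rfl | rfl | rfl | rfl
    · exact typ_det1 (ty0 z hz) (ty hp' mm mb mc md z hz) Iff.rfl Iff.rfl Iff.rfl
    · exact absurd rfl hz2
    · exact absurd rfl hz1
    · exact iff_of_true h1.symm k1.symm
    · exact iff_of_false (sy h4) (sy k2)
    · exact iff_of_false (sy h5) (sy k3)
  by_cases q2 : G.Adj m a ∧ G.Adj m c ∧ ¬ G.Adj m d
  · -- twin of `b`
    obtain ⟨k1, k2, k3⟩ := q2
    have hp' : P4 G a m c d := ⟨k1.symm, k2, h3, h4, h5, k3, n2, n3, nd⟩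
    refine no_twins hP (by omega) (Ne.symm nb) (fun z hz1 hz2 => ?_)
    rcases cs z with hz | rfl | rfl | rfl | rfl | rfl
    · exact typ_det2 (ty0 z hz) (ty hp' ma mm mc md z hz) Iff.rfl Iff.rfl Iff.rfl
    · exact absurd rfl hz2
    · exact iff_of_true h1 k1.symm
    · exact absurd rfl hz1
    · exact iff_of_true h2.symm k2.symm
    · exact iff_of_false (sy h6') (sy k3)
  by_cases q3 : G.Adj m d ∧ G.Adj m b ∧ ¬ G.Adj m a
  · -- twin of `c`
    obtain ⟨k1, k2, k3⟩ := q3
    have hp' : P4 G a b m d := ⟨h1, k2.symm, k1, sy k3, h5, h6', Ne.symm na, n3, n5⟩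
    refine no_twins hP (by omega) (Ne.symm nc) (fun z hz1 hz2 => ?_)
    rcases cs z with hz | rfl | rfl | rfl | rfl | rfl
    · exact typ_det2 (ty0 z hz).symm (ty hp' ma mb mm md z hz).symm Iff.rfl Iff.rfl Iff.rfl
    · exact absurd rfl hz2
    · exact iff_of_false h4 (sy k3)
    · exact iff_of_true h2 k2.symm
    · exact absurd rfl hz1
    · exact iff_of_true h3.symm k1.symm
  by_cases q4 : G.Adj m c ∧ ¬ G.Adj m b ∧ ¬ G.Adj m a
  · -- twin of `d`
    obtain ⟨k1, k2, k3⟩ := q4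
    have hp' : P4 G a b c m := ⟨h1, h2, k1.symm, h4, sy k3, sy k2, n2, Ne.symm na, Ne.symm nb⟩
    refine no_twins hP (by omega) (Ne.symm nd) (fun z hz1 hz2 => ?_)
    rcases cs z with hz | rfl | rfl | rfl | rfl | rfl
    · exact typ_det1 (ty0 z hz).symm (ty hp' ma mb mc mm z hz).symm Iff.rfl Iff.rfl Iff.rfl
    · exact absurd rfl hz2
    · exact iff_of_false h5 (sy k3)
    · exact iff_of_false h6' (sy k2)
    · exact iff_of_true h3 k1.symm
    · exact absurd rfl hz1
  -- remaining cases: the five vertices form a module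
  have fin : (∀ z ∉ T0, (¬ G.Adj z m ∧ ¬ G.Adj z a ∧ ¬ G.Adj z b ∧ ¬ G.Adj z c ∧ ¬ G.Adj z d) ∨
      (G.Adj z m ∧ G.Adj z a ∧ G.Adj z b ∧ G.Adj z c ∧ G.Adj z d)) → False := by
    intro hz
    refine no_whole hP (T0 := T0) (by omega) (by omega) (fun z hz' => ?_)
    rcases hz z hz' with ⟨e1, e2, e3, e4, e5⟩ | ⟨e1, e2, e3, e4, e5⟩
    · left
      intro x hx
      rcases cs x with h | rfl | rfl | rfl | rfl | rfl
      · exact absurd hx h
      all_goals assumption
    · right
      intro x hx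
      rcases cs x with h | rfl | rfl | rfl | rfl | rfl
      · exact absurd hx h
      all_goals assumption
  by_cases ka : G.Adj m a <;> by_cases kb : G.Adj m b <;> by_cases kc : G.Adj m c <;>
    by_cases kd : G.Adj m d
  · exact hT (Or.inr (Or.inl ⟨ka, kb, kc, kd⟩))
  · exact q2 ⟨ka, kc, kd⟩
  · -- a b d : a - m - d - c
    have hp' : P4 G a m d c := ⟨ka.symm, kd, h3.symm, h5, h4, kc, n3, n2, nc⟩
    apply fin
    intro z hz
    have t1 := ty0 z hz
    have t2 := ty hp' ma mm md mc z hz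
    rcases t1 with ⟨e1, e2, e3, e4⟩ | ⟨e1, e2, e3, e4⟩ | ⟨e1, e2, e3, e4⟩ <;>
      rcases t2 with ⟨f1, f2, f3, f4⟩ | ⟨f1, f2, f3, f4⟩ | ⟨f1, f2, f3, f4⟩ <;>
      first
        | exact absurd f1 e1
        | exact absurd e1 f1
        | exact absurd f3 e4
        | exact absurd e4 f3
        | exact absurd f4 e3
        | exact absurd e3 f4
        | exact Or.inl ⟨f2, e1, e2, e3, e4⟩
        | exact Or.inr ⟨f2, e1, e2, e3, e4⟩
  · exact q1 ⟨kb, kc, kd⟩
  · -- a c d : d - m - a - b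
    have hp' : P4 G d m a b := ⟨kd.symm, ka, h1, sy h5, sy h6', kb, n3.symm, n5.symm, nb⟩
    apply fin
    intro z hz
    have t1 := ty0 z hz
    have t2 := ty hp' md mm ma mb z hz
    rcases t1 with ⟨e1, e2, e3, e4⟩ | ⟨e1, e2, e3, e4⟩ | ⟨e1, e2, e3, e4⟩ <;>
      rcases t2 with ⟨f1, f2, f3, f4⟩ | ⟨f1, f2, f3, f4⟩ | ⟨f1, f2, f3, f4⟩ <;>
      first
        | exact absurd f1 e4
        | exact absurd e4 f1
        | exact absurd f3 e1
        | exact absurd e1 f3
        | exact absurd f4 e2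
        | exact absurd e2 f4
        | exact Or.inl ⟨f2, e1, e2, e3, e4⟩
        | exact Or.inr ⟨f2, e1, e2, e3, e4⟩
  · exact q2 ⟨ka, kc, kd⟩
  · -- a d : b - c - d - m
    have hp' : P4 G b c d m := ⟨h2, h3, kd.symm, h6', sy kb, sy kc, n5, Ne.symm nb, Ne.symm nc⟩
    apply fin
    intro z hz
    have t1 := ty0 z hz
    have t2 := ty hp' mb mc md mm z hz
    rcases t1 with ⟨e1, e2, e3, e4⟩ | ⟨e1, e2, e3, e4⟩ | ⟨e1, e2, e3, e4⟩ <;>
      rcases t2 with ⟨f1, f2, f3, f4⟩ | ⟨f1, f2, f3, f4⟩ | ⟨f1, f2, f3, f4⟩ <;>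
      first
        | exact absurd f1 e2
        | exact absurd e2 f1
        | exact absurd f2 e3
        | exact absurd e3 f2
        | exact absurd f3 e4
        | exact absurd e4 f3
        | exact Or.inl ⟨f4, e1, e2, e3, e4⟩
        | exact Or.inr ⟨f4, e1, e2, e3, e4⟩
  · -- a : m - a - b - c
    have hp' : P4 G m a b c := ⟨ka, h1, h2, kb, kc, h4, nb, nc, n2⟩
    apply fin
    intro z hz
    have t1 := ty0 z hz
    have t2 := ty hp' mm ma mb mc z hz
    rcases t1 with ⟨e1, e2, e3, e4⟩ | ⟨e1, e2, e3, e4⟩ | ⟨e1, e2, e3, e4⟩ <;>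
      rcases t2 with ⟨f1, f2, f3, f4⟩ | ⟨f1, f2, f3, f4⟩ | ⟨f1, f2, f3, f4⟩ <;>
      first
        | exact absurd f2 e1
        | exact absurd e1 f2
        | exact absurd f3 e2
        | exact absurd e2 f3
        | exact absurd f4 e3
        | exact absurd e3 f4
        | exact Or.inl ⟨f1, e1, e2, e3, e4⟩
        | exact Or.inr ⟨f1, e1, e2, e3, e4⟩
  · exact q3 ⟨kd, kb, ka⟩
  · exact hT (Or.inr (Or.inr ⟨ka, kb, kc, kd⟩))
  · exact q3 ⟨kd, kb, ka⟩
  · exact q1 ⟨kb, kc, kd⟩
  · exact q4 ⟨kc, kb, ka⟩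
  · exact q4 ⟨kc, kb, ka⟩
  · -- d : b - c - d - m
    have hp' : P4 G b c d m := ⟨h2, h3, kd.symm, h6', sy kb, sy kc, n5, Ne.symm nb, Ne.symm nc⟩
    apply fin
    intro z hz
    have t1 := ty0 z hz
    have t2 := ty hp' mb mc md mm z hz
    rcases t1 with ⟨e1, e2, e3, e4⟩ | ⟨e1, e2, e3, e4⟩ | ⟨e1, e2, e3, e4⟩ <;>
      rcases t2 with ⟨f1, f2, f3, f4⟩ | ⟨f1, f2, f3, f4⟩ | ⟨f1, f2, f3, f4⟩ <;>
      first
        | exact absurd f1 e2
        | exact absurd e2 f1
        | exact absurd f2 e3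
        | exact absurd e3 f2
        | exact absurd f3 e4
        | exact absurd e4 f3
        | exact Or.inl ⟨f4, e1, e2, e3, e4⟩
        | exact Or.inr ⟨f4, e1, e2, e3, e4⟩
  · exact hT (Or.inl ⟨ka, kb, kc, kd⟩)

/-- rows of sets between two layers -/
theorem rk_layer [Fintype V] {T0 : Finset V} (hg : Gen G T0) {W : ℕ}
    (hW : ∀ k, (Lv G T0 k).card ≤ W) {k : ℕ} {A : Finset V} (h1 : LT G T0 k ⊆ A)
    (h2 : A ⊆ LT G T0 (k + 1)) : rk G univ A ≤ W + 2 ^ W * 2 := by
  -- the unique nontrivial trace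
  obtain ⟨P, hP⟩ : ∃ P : Finset V, ∀ z ∉ LT G T0 (k + 1), (∀ x ∈ LT G T0 k, ¬ G.Adj z x) ∨
      (∀ x ∈ LT G T0 k, G.Adj z x) ∨ (∀ x ∈ LT G T0 k, (G.Adj z x ↔ x ∈ P)) := by
    by_cases hex : ∃ z0 ∉ LT G T0 (k + 1), Nt G z0 (LT G T0 k)
    · obtain ⟨z0, hz0, hN0⟩ := hex
      refine ⟨univ.filter (fun x => G.Adj z0 x), fun z hz => ?_⟩
      by_cases hN : Nt G z (LT G T0 k)
      · right; right
        obtain ⟨p, e, hgn, -, -⟩ := (lt_gen hg k).gn
        have h0 := gn_unique hgn z (fun h => hz (lt_step k h)) (lt_not_att hz) hN z0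
          (fun h => hz0 (lt_step k h)) (lt_not_att hz0) hN0
        intro x hx
        rw [h0 x hx]; simp
      · unfold Nt at hN
        rw [not_and_or] at hN
        push Not at hN
        rcases hN with h | h
        · exact Or.inl h
        · exact Or.inr (Or.inl h)
    · push Not at hex
      refine ⟨∅, fun z hz => ?_⟩
      have hN := hex z hz
      unfold Nt at hN
      rw [not_and_or] at hN
      push Not at hN
      rcases hN with h | h
      · exact Or.inl h
      · exact Or.inr (Or.inl h)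
  let F : Finset (V ⊕ (Finset V × Bool)) :=
    (A \ LT G T0 k).disjSum ((Lv G T0 k \ A).powerset ×ˢ univ)
  have hF : F.card ≤ W + 2 ^ W * 2 := by
    rw [card_disjSum, card_product, card_powerset, Finset.card_univ, Fintype.card_bool]
    have e1 : (A \ LT G T0 k).card ≤ W :=
      (card_le_card (sdiff_subset_sdiff h2 (Subset.refl _))).trans (hW k)
    have e2 : (Lv G T0 k \ A).card ≤ W := (card_le_card sdiff_subset).trans (hW k)
    have e3 : 2 ^ (Lv G T0 k \ A).card ≤ 2 ^ W := Nat.pow_le_pow_right (by norm_num) e2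
    have e4 := Nat.mul_le_mul_right 2 e3
    omega
  refine le_trans (rk_le_of_label F (fun x => if x ∈ LT G T0 k then
    Sum.inr ((Lv G T0 k \ A).filter (fun y => G.Adj x y), decide (x ∈ P)) else Sum.inl x) ?_ ?_) hF
  · intro x hx
    by_cases hxk : x ∈ LT G T0 k
    · simp only [hxk, if_true]
      rw [inr_mem_disjSum, mem_product]
      exact ⟨mem_powerset.2 (filter_subset _ _), mem_univ _⟩
    · simp only [hxk, if_false]
      rw [inl_mem_disjSum, mem_sdiff]
      exact ⟨hx, hxk⟩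
  · intro x hx y hy hxy
    by_cases hxk : x ∈ LT G T0 k <;> by_cases hyk : y ∈ LT G T0 k <;>
      simp only [hxk, hyk, if_true, if_false, reduceCtorEq, Sum.inr.injEq, Sum.inl.injEq,
        Prod.mk.injEq] at hxy
    · obtain ⟨e1, e2⟩ := hxy
      have e2 : (x ∈ P ↔ y ∈ P) := by simpa using e2
      ext z
      rw [mem_onb, mem_onb]
      by_cases hz : z ∈ A
      · simp [hz]
      · by_cases hzk : z ∈ LT G T0 (k + 1)
        · have hzL : z ∈ Lv G T0 k \ A := mem_sdiff.2 ⟨mem_Lv.2 ⟨hzk, fun h => hz (h1 h)⟩, hz⟩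
          have := congrArg (fun s => z ∈ s) e1
          simp only [mem_filter, hzL, true_and, eq_iff_iff] at this
          rw [this]
        · rw [G.adj_comm x z, G.adj_comm y z]
          rcases hP z hzk with h | h | h
          · have := h x hxk; have := h y hyk; tauto
          · have := h x hxk; have := h y hyk; tauto
          · rw [h x hxk, h y hyk, e2]
    · rw [hxy]

lemma rk_univ [Fintype V] : rk G univ univ ≤ 1 := by
  refine rk_le_of_label ({()} : Finset Unit) (fun _ => ()) (fun _ _ => by simp) ?_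
  intro x _ y _ _
  ext z
  rw [mem_onb, mem_onb]
  simp

/-- the tree of a graph with a path with an attached vertex -/
theorem tr_att (C : ℕ) : ∃ K : ℕ, ∀ (q : ℕ) (V : Type) [Fintype V] (G : SimpleGraph V), 8 ≤ q →
    Prm G → QG G q → q + 1 ≤ Fintype.card V → (∀ t, (D3 G t).card ≤ C) →
    ∀ a b c d m : V, P4 G a b c d → m ∉ ({a, b, c, d} : Finset V) →
      ¬ Typ (G.Adj m a) (G.Adj m b) (G.Adj m c) (G.Adj m d) → TR G K univ univ := by
  obtain ⟨W, hW⟩ := exists_W C
  refine ⟨W + 2 ^ W * 2 + 5, ?_⟩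
  intro q V _ G hq hP hQ hn hC a b c d m hp hm hT
  have hLC := lc_of_prime hP hq hQ hn
  set T0 : Finset V := insert m {a, b, c, d} with hT0
  have hatt : Att G m {a, b, c, d} := by
    by_contra h
    exact hT (typ_of_not_att hp hm (Subset.refl _) h)
  have hg : Gen G T0 := Gen.att (Gen.base hp) hatt
  have hc5 : T0.card = 5 := by rw [hT0, card_insert_of_notMem hm, hp.card]
  have hW' := hW V G T0 hC hLC hg (by omega)
  have hrow : ∀ k A, LT G T0 k ⊆ A → A ⊆ LT G T0 (k + 1) → rk G univ A ≤ W + 2 ^ W * 2 + 5 :=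
    fun k A h1 h2 => (rk_layer hg hW' h1 h2).trans (by omega)
  have htr : ∀ k, TR G (W + 2 ^ W * 2 + 5) univ (LT G T0 k) := by
    intro k
    induction k with
    | zero =>
      show TR G _ univ T0
      refine (TR.leaf m).grow' (singleton_subset_iff.2 (mem_insert_self _ _)) (fun A' _ h2 => ?_)
      exact rk_le_card.trans ((card_le_card h2).trans (by omega))
    | succ k ih => exact ih.grow' (lt_step k) (fun A' h1 h2 => hrow k A' h1 h2)
  -- the last layer
  set k := Fintype.card V + 1 with hk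
  have hstop : ∀ v ∉ LT G T0 k, ¬ Att G v (LT G T0 k) := by
    intro v hv hatt
    have : v ∈ Lv G T0 k := mem_Lv.2 ⟨lt_succ.2 (Or.inr hatt), hv⟩
    have := lv_lt this
    omega
  obtain ⟨v, hv, hva⟩ := not_closed5 hP (by omega) hp hm hT
  have h6 : 6 ≤ (LT G T0 k).card := by
    have h1 : insert v T0 ⊆ LT G T0 k := by
      refine insert_subset ?_ (lt_mono (i := 0) (by omega))
      exact lt_mono (i := 1) (by omega) (lt_succ.2 (Or.inr hva))
    have h2 := card_le_card h1
    rw [card_insert_of_notMem hv, hc5] at h2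
    exact h2
  have hbig := not_stuck hP hq hQ hn (lt_gen hg k) h6 hstop
  refine (htr k).grow' (subset_univ _) (fun A' h1 _ => ?_)
  by_cases he : A' = LT G T0 k
  · rw [he]; exact hrow k _ (Subset.refl _) (lt_step k)
  · have hlt : (LT G T0 k).card < A'.card :=
      card_lt_card ⟨h1, fun h => he (subset_antisymm h h1)⟩
    have : A' = univ := by
      apply eq_univ_of_card
      have := card_le_univ A'
      omega
    rw [this]
    exact rk_univ.trans (by omega)

end Pool.Agent.H19
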