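import Pool.Agent.H19.CW.Clu3
import Pool.Agent.H19.CW.Fin

/-! The theorem for all `q ≥ 8`. -/

namespace Pool.Agent.H19

open Finset Classical

theorem tree_bound (q : ℕ) (hq : 8 ≤ q) : ∃ K : ℕ, ∀ (V : Type) [Fintype V] (G : SimpleGraph V),
    QG G q → (univ : Finset V).Nonempty → TR G K univ univ := by
  rcases Nat.eq_or_lt_of_le hq with h | h
  · subst h
    obtain ⟨K, hK⟩ := prime_eight
    exact ⟨K, all_of_prime hK⟩
  · obtain ⟨K, hK⟩ := prime_nine q h
    exact ⟨K, all_of_prime hK⟩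

end Pool.Agent.H19
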