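import Pool.Agent.H19.CW.Layer3

/-! Prime graphs without attached vertices are spiders. -/

namespace Pool.Agent.H19

open Finset Classical

variable {V : Type} {G : SimpleGraph V}

lemma Sp2.symm {τ : Prop} {p p' : V × V} (h : Sp2 G τ p p') : Sp2 G τ p' p := by
  obtain ⟨h1, h2, h3, h4, h5, h6, h7, h8, h9⟩ := h
  exact ⟨h1.symm, fun h => h2 h.symm, h3.symm, h5, h4, h7, h6, h9, h8⟩

lemma Sp2.ne12 {τ : Prop} {p p' : V × V} (h : Sp2 G τ p p') : p.1 ≠ p'.2 := by
  obtain ⟨h1, h2, h3, h4, h5, h6, h7, h8, h9⟩ := h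
  intro he
  by_cases hτ : τ
  · have := h6.2 hτ
    rw [he] at this
    exact h2 this.symm
  · have := h8.2 hτ
    rw [he] at this
    exact G.loopless.irrefl _ this

lemma Sp2.compl {τ : Prop} {p p' : V × V} (h : Sp2 G τ p p') : Sp2 Gᶜ (¬ τ) p.swap p'.swap := by
  have n1 := h.ne12
  have n2 := h.symm.ne12
  obtain ⟨h1, h2, h3, h4, h5, h6, h7, h8, h9⟩ := h
  simp only [Sp2, SimpleGraph.compl_adj, Prod.fst_swap, Prod.snd_swap, ne_eq]
  refine ⟨⟨h3, h2⟩, fun h => h.2 h1, h1.ne, fun h => h4 h.symm, fun h => h5 h.symm, ?_, ?_, ?_, ?_⟩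
  · rw [G.adj_comm, h6]; exact ⟨fun h => h.2, fun h => ⟨fun h' => h4 h'.symm, h⟩⟩
  · rw [G.adj_comm, h7]; exact ⟨fun h => h.2, fun h => ⟨fun h' => h5 h'.symm, h⟩⟩
  · rw [G.adj_comm, h9]; exact ⟨fun h => h.2, fun h => ⟨fun h' => n2 h'.symm, h⟩⟩
  · rw [G.adj_comm, h8]; exact ⟨fun h => h.2, fun h => ⟨fun h' => n1 h'.symm, h⟩⟩

lemma Spider.compl {τ : Prop} {F : Finset (V × V)} (h : Spider G τ F) :
    Spider Gᶜ (¬ τ) (F.image Prod.swap) := by
  intro p hp p' hp' hne
  obtain ⟨q, hq, rfl⟩ := mem_image.1 hp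
  obtain ⟨q', hq', rfl⟩ := mem_image.1 hp'
  exact (h q hq q' hq' (fun h => hne (by rw [h]))).compl

lemma card_swap (F : Finset (V × V)) : (F.image Prod.swap).card = F.card :=
  card_image_of_injective _ Prod.swap_injective

/-- all traces on paths are typical -/
def Tyc (G : SimpleGraph V) : Prop := ∀ a b c d m, P4 G a b c d → m ∉ ({a, b, c, d} : Finset V) →
  Typ (G.Adj m a) (G.Adj m b) (G.Adj m c) (G.Adj m d)

lemma Tyc.compl (h : Tyc G) : Tyc Gᶜ := by
  intro a b c d m hp hm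
  have hp' : P4 G b d a c := by simpa using hp.compl
  have hm' : m ∉ ({b, d, a, c} : Finset V) := by
    intro h'
    apply hm
    simp only [mem_insert, mem_singleton] at h' ⊢
    tauto
  have := h b d a c m hp' hm'
  simp only [mem_insert, mem_singleton, not_or] at hm
  obtain ⟨m1, m2, m3, m4⟩ := hm
  simp only [SimpleGraph.compl_adj]
  rcases this with ⟨h1, h2, h3, h4⟩ | ⟨h1, h2, h3, h4⟩ | ⟨h1, h2, h3, h4⟩
  · exact Or.inr (Or.inl ⟨⟨m1, h3⟩, ⟨m2, h1⟩, ⟨m3, h4⟩, ⟨m4, h2⟩⟩)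
  · exact Or.inl ⟨fun h => h.2 h3, fun h => h.2 h1, fun h => h.2 h4, fun h => h.2 h2⟩
  · exact Or.inr (Or.inr ⟨fun h => h.2 h3, ⟨m2, h1⟩, ⟨m3, h4⟩, fun h => h.2 h2⟩)

/-- maximal spiders -/
def MaxSp (G : SimpleGraph V) (F : Finset (V × V)) : Prop :=
  ∀ (τ' : Prop) (F' : Finset (V × V)), Spider G τ' F' → F'.card ≤ F.card

lemma MaxSp.compl {F : Finset (V × V)} (h : MaxSp G F) : MaxSp Gᶜ (F.image Prod.swap) := by
  intro τ' F' hF'
  have := h (¬ τ') (F'.image Prod.swap) (by simpa using hF'.compl)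
  rwa [card_swap] at this ⊢

/-- legs are nondegenerate -/
lemma Spider.leg {τ : Prop} {F : Finset (V × V)} (h : Spider G τ F) (h2 : 2 ≤ F.card) {p : V × V}
    (hp : p ∈ F) : ∃ p' ∈ F, p ≠ p' ∧ Sp2 G τ p p' := by
  obtain ⟨p', hp', hne⟩ := exists_mem_ne (by omega : 1 < F.card) p
  exact ⟨p', hp', hne.symm, h p hp p' hp' hne.symm⟩

lemma sp_one' {τ : Prop} {F : Finset (V × V)} (hS : Tyc G) (hF : Spider G τ F) (h2 : 2 ≤ F.card)
    (hmax : MaxSp G F) (hτ : τ ∨ 3 ≤ F.card) {z r : V}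
    (hz : ∀ p ∈ F, ¬ G.Adj z p.1 ∧ ¬ G.Adj z p.2 ∧ z ≠ p.1 ∧ z ≠ p.2)
    (hr : ∀ p ∈ F, G.Adj r p.1 ∧ ¬ G.Adj r p.2 ∧ r ≠ p.1 ∧ r ≠ p.2) : ¬ G.Adj z r := by
  intro hzr
  by_cases ht : τ
  · have hnew : (r, z) ∉ F := fun h => (hr _ h).2.2.1 rfl
    have hsp : Spider G τ (insert (r, z) F) := by
      have key : ∀ p ∈ F, Sp2 G τ p (r, z) := by
        intro p hp
        obtain ⟨z1, z2, z3, z4⟩ := hz p hp
        obtain ⟨r1, r2, r3, r4⟩ := hr p hp
        obtain ⟨p', hp', hne, hsp⟩ := hF.leg h2 hp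
        obtain ⟨h1, h2, h3, h4, h5, h6, h7, h8, h9⟩ := hsp
        exact ⟨r1.symm, fun h => z2 h.symm, z4.symm, h4, hzr.ne.symm, h6, iff_of_true hzr.symm ht,
          iff_of_false (fun h => z1 h.symm) (not_not_intro ht),
          iff_of_false r2 (not_not_intro ht)⟩
      intro p hp p' hp' hne
      rcases mem_insert.1 hp with rfl | hp1 <;> rcases mem_insert.1 hp' with rfl | hp1'
      · exact absurd rfl hne
      · exact (key p' hp1').symm
      · exact key p hp1
      · exact hF p hp1 p' hp1' hne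
    have := hmax τ _ hsp
    rw [card_insert_of_notMem hnew] at this
    omega
  · have h3 : 3 ≤ F.card := by tauto
    obtain ⟨p1, p2, p3, m1, m2, m3, n12, n13, n23⟩ := two_lt_card_iff.1 h3
    have s12 := hF p1 m1 p2 m2 n12
    have s13 := hF p1 m1 p3 m3 n13
    have s23 := hF p2 m2 p3 m3 n23
    obtain ⟨z11, z12, z13, z14⟩ := hz p1 m1
    obtain ⟨z21, z22, z23, z24⟩ := hz p2 m2
    obtain ⟨z31, z32, z33, z34⟩ := hz p3 m3
    obtain ⟨r11, r12, r13, r14⟩ := hr p1 m1
    obtain ⟨r21, r22, r23, r24⟩ := hr p2 m2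
    obtain ⟨r31, r32, r33, r34⟩ := hr p3 m3
    have e1 : G.Adj p1.1 p2.2 := s12.2.2.2.2.2.2.2.1.2 ht
    have e2 : G.Adj p3.1 p2.2 := s23.symm.2.2.2.2.2.2.2.1.2 ht
    have hp : P4 G p2.2 p1.1 r z := ⟨e1.symm, r11.symm, hzr.symm, fun h => r22 h.symm,
      fun h => z22 h.symm, fun h => z11 h.symm, r24.symm, z24.symm, z13.symm⟩
    have hT := hS _ _ _ _ p3.1 hp (by
      simp only [mem_insert, mem_singleton, not_or]
      exact ⟨s23.symm.ne12, s13.1.ne.symm, r33.symm, z33.symm⟩)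
    rcases hT with ⟨t1, t2, t3, t4⟩ | ⟨t1, t2, t3, t4⟩ | ⟨t1, t2, t3, t4⟩
    · exact t1 e2
    · exact z31 t4.symm
    · exact t1 e2

lemma sp_one {τ : Prop} {F : Finset (V × V)} (hS : Tyc G) (hF : Spider G τ F) (h2 : 2 ≤ F.card)
    (hmax : MaxSp G F) {z r : V}
    (hz : ∀ p ∈ F, ¬ G.Adj z p.1 ∧ ¬ G.Adj z p.2 ∧ z ≠ p.1 ∧ z ≠ p.2)
    (hr : ∀ p ∈ F, G.Adj r p.1 ∧ ¬ G.Adj r p.2 ∧ r ≠ p.1 ∧ r ≠ p.2) : ¬ G.Adj z r := by
  by_cases hτ : τ ∨ 3 ≤ F.card
  · exact sp_one' hS hF h2 hmax hτ hz hr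
  · push Not at hτ
    obtain ⟨ht, hc⟩ := hτ
    obtain ⟨p, p', hne, rfl⟩ := card_eq_two.1 (by omega : F.card = 2)
    have hsp := hF p (by simp) p' (by simp) hne
    have k1 := hsp.ne12
    have k2 := hsp.symm.ne12
    obtain ⟨h1, h2, h3, h4, h5, h6, h7, h8, h9⟩ := hsp
    have hc2 : ({(p.1, p'.2), (p'.1, p.2)} : Finset (V × V)).card = 2 := by
      rw [card_pair]
      intro h
      exact h1.ne (Prod.ext_iff.1 h).1
    have hq : Sp2 G True (p.1, p'.2) (p'.1, p.2) :=
      ⟨h1, fun h => h2 h.symm, h3.symm, k1, k2, iff_of_true (h8.2 ht) trivial,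
        iff_of_true (h9.2 ht) trivial, by simpa using (not_congr h6).2 ht,
        by simpa using (not_congr h7).2 ht⟩
    refine sp_one' (τ := True) (F := {(p.1, p'.2), (p'.1, p.2)}) hS ?_ (by omega) ?_ (Or.inl trivial)
      (z := z) (r := r) ?_ ?_
    · intro a ha b hb hab
      simp only [mem_insert, mem_singleton] at ha hb
      rcases ha with rfl | rfl <;> rcases hb with rfl | rfl
      · exact absurd rfl hab
      · exact hq
      · exact hq.symm
      · exact absurd rfl hab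
    · intro τ' F' hF'
      have := hmax τ' F' hF'
      rw [hc2]
      rw [card_pair hne] at this
      exact this
    · intro a ha
      have z1 := hz p (by simp)
      have z2 := hz p' (by simp)
      simp only [mem_insert, mem_singleton] at ha
      rcases ha with rfl | rfl
      · exact ⟨z1.1, z2.2.1, z1.2.2.1, z2.2.2.2⟩
      · exact ⟨z2.1, z1.2.1, z2.2.2.1, z1.2.2.2⟩
    · intro a ha
      have z1 := hr p (by simp)
      have z2 := hr p' (by simp)
      simp only [mem_insert, mem_singleton] at ha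
      rcases ha with rfl | rfl
      · exact ⟨z1.1, z2.2.1, z1.2.2.1, z2.2.2.2⟩
      · exact ⟨z2.1, z1.2.1, z2.2.2.1, z1.2.2.2⟩

lemma sp_two {τ : Prop} {F : Finset (V × V)} (hS : Tyc G) (hF : Spider G τ F) (h2 : 2 ≤ F.card)
    (hmax : MaxSp G F) {z r : V} (hne : z ≠ r)
    (hz : ∀ p ∈ F, G.Adj z p.1 ∧ G.Adj z p.2 ∧ z ≠ p.1 ∧ z ≠ p.2)
    (hr : ∀ p ∈ F, G.Adj r p.1 ∧ ¬ G.Adj r p.2 ∧ r ≠ p.1 ∧ r ≠ p.2) : G.Adj z r := by
  have := sp_one (G := Gᶜ) (F := F.image Prod.swap) (z := z) (r := r) hS.compl hF.compl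
    (by rw [card_swap]; exact h2) hmax.compl ?_ ?_
  · rw [SimpleGraph.compl_adj, not_and, not_not] at this
    exact this hne
  · intro p hp
    obtain ⟨q, hq, rfl⟩ := mem_image.1 hp
    obtain ⟨z1, z2, z3, z4⟩ := hz q hq
    simp only [SimpleGraph.compl_adj, Prod.fst_swap, Prod.snd_swap]
    exact ⟨fun h => h.2 z2, fun h => h.2 z1, z4, z3⟩
  · intro p hp
    obtain ⟨q, hq, rfl⟩ := mem_image.1 hp
    obtain ⟨z1, z2, z3, z4⟩ := hr q hq
    simp only [SimpleGraph.compl_adj, Prod.fst_swap, Prod.snd_swap]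
    exact ⟨⟨z4, z2⟩, fun h => h.2 z1, z4, z3⟩

/-- types of outside vertices on two legs -/
lemma sp_type2 {τ : Prop} (hS : Tyc G) {p p' : V × V} (h : Sp2 G τ p p') {v : V}
    (h1 : v ≠ p.1) (h2 : v ≠ p.2) (h3 : v ≠ p'.1) (h4 : v ≠ p'.2) :
    (¬ G.Adj v p.1 ∧ ¬ G.Adj v p.2 ∧ ¬ G.Adj v p'.1 ∧ ¬ G.Adj v p'.2) ∨
    (G.Adj v p.1 ∧ G.Adj v p.2 ∧ G.Adj v p'.1 ∧ G.Adj v p'.2) ∨
    (G.Adj v p.1 ∧ ¬ G.Adj v p.2 ∧ G.Adj v p'.1 ∧ ¬ G.Adj v p'.2) := by
  have n1 := h.ne12
  have n2 := h.symm.ne12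
  obtain ⟨k1, k2, k3, k4, k5, k6, k7, k8, k9⟩ := h
  by_cases ht : τ
  · have hp : P4 G p.2 p.1 p'.1 p'.2 := ⟨(k6.2 ht).symm, k1, k7.2 ht,
      fun h => (k9.1 h.symm) ht, k2, fun h => (k8.1 h) ht, n2.symm, k3, n1⟩
    have := hS _ _ _ _ v hp (by
      simp only [mem_insert, mem_singleton, not_or]; exact ⟨h2, h1, h3, h4⟩)
    rcases this with ⟨a, b, c, d⟩ | ⟨a, b, c, d⟩ | ⟨a, b, c, d⟩
    · exact Or.inl ⟨b, a, c, d⟩
    · exact Or.inr (Or.inl ⟨b, a, c, d⟩)
    · exact Or.inr (Or.inr ⟨b, a, c, d⟩)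
  · have hp : P4 G p'.2 p.1 p'.1 p.2 := ⟨(k8.2 ht).symm, k1, k9.2 ht,
      fun h => ht (k7.1 h.symm), fun h => k2 h.symm, fun h => ht (k6.1 h), k5.symm, k3.symm, k4⟩
    have := hS _ _ _ _ v hp (by
      simp only [mem_insert, mem_singleton, not_or]; exact ⟨h4, h1, h3, h2⟩)
    rcases this with ⟨a, b, c, d⟩ | ⟨a, b, c, d⟩ | ⟨a, b, c, d⟩
    · exact Or.inl ⟨b, d, c, a⟩
    · exact Or.inr (Or.inl ⟨b, d, c, a⟩)
    · exact Or.inr (Or.inr ⟨b, d, c, a⟩)

/-- vertices of a set of legs -/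
noncomputable def lv (F : Finset (V × V)) : Finset V := F.biUnion (fun p => {p.1, p.2})

lemma mem_lv {F : Finset (V × V)} {v : V} : v ∈ lv F ↔ ∃ p ∈ F, v = p.1 ∨ v = p.2 := by
  simp [lv]

/-- types of outside vertices -/
lemma sp_type {τ : Prop} {F : Finset (V × V)} (hS : Tyc G) (hF : Spider G τ F) (h2 : 2 ≤ F.card)
    {v : V} (hv : v ∉ lv F) :
    (∀ p ∈ F, ¬ G.Adj v p.1 ∧ ¬ G.Adj v p.2) ∨ (∀ p ∈ F, G.Adj v p.1 ∧ G.Adj v p.2) ∨
    (∀ p ∈ F, G.Adj v p.1 ∧ ¬ G.Adj v p.2) := by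
  have hne : ∀ p ∈ F, v ≠ p.1 ∧ v ≠ p.2 := by
    intro p hp
    rw [mem_lv] at hv
    push Not at hv
    exact hv p hp
  obtain ⟨p0, hp0⟩ : F.Nonempty := card_pos.1 (by omega)
  obtain ⟨p1, hp1, hn1, hs1⟩ := hF.leg h2 hp0
  have key : ∀ p ∈ F, p ≠ p0 → _ := fun p hp hpp =>
    sp_type2 hS (hF p0 hp0 p hp (Ne.symm hpp)) (hne p0 hp0).1 (hne p0 hp0).2 (hne p hp).1 (hne p hp).2
  rcases key p1 hp1 hn1.symm with ⟨a, b, -, -⟩ | ⟨a, b, -, -⟩ | ⟨a, b, -, -⟩
  · left
    intro p hp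
    by_cases hpp : p = p0
    · rw [hpp]; exact ⟨a, b⟩
    · rcases key p hp hpp with ⟨a', b', c', d'⟩ | ⟨a', b', c', d'⟩ | ⟨a', b', c', d'⟩
      · exact ⟨c', d'⟩
      · exact absurd a' a
      · exact absurd a' a
  · right; left
    intro p hp
    by_cases hpp : p = p0
    · rw [hpp]; exact ⟨a, b⟩
    · rcases key p hp hpp with ⟨a', b', c', d'⟩ | ⟨a', b', c', d'⟩ | ⟨a', b', c', d'⟩
      · exact absurd a a'
      · exact ⟨c', d'⟩
      · exact absurd b b'
  · right; right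
    intro p hp
    by_cases hpp : p = p0
    · rw [hpp]; exact ⟨a, b⟩
    · rcases key p hp hpp with ⟨a', b', c', d'⟩ | ⟨a', b', c', d'⟩ | ⟨a', b', c', d'⟩
      · exact absurd a a'
      · exact absurd b' b
      · exact ⟨c', d'⟩

lemma rk_spider [Fintype V] {τ : Prop} {F : Finset (V × V)} (hF : Spider G τ F)
    (hV : ∀ v, v ∈ lv F ∨ (∀ p ∈ F, G.Adj v p.1 ∧ ¬ G.Adj v p.2)) {F' : Finset (V × V)}
    {E : Finset V} (hF' : F' ⊆ F) (hE : E.card ≤ 3) : rk G univ (lv F' ∪ E) ≤ 5 := by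
  let L : Finset (V ⊕ Bool) := E.disjSum univ
  have hL : L.card ≤ 5 := by
    rw [card_disjSum, Finset.card_univ, Fintype.card_bool]; omega
  refine le_trans (rk_le_of_label L (fun x => if x ∈ E then Sum.inl x else
    Sum.inr (decide (∃ p ∈ F', x = p.1))) ?_ ?_) hL
  · intro x hx
    by_cases hxE : x ∈ E
    · simp only [hxE, if_true]; rw [inl_mem_disjSum]; exact hxE
    · simp only [hxE, if_false]; rw [inr_mem_disjSum]; exact mem_univ _
  · intro x hx y hy hxy
    by_cases hxE : x ∈ E <;> by_cases hyE : y ∈ E <;>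
      simp only [hxE, hyE, if_true, if_false, reduceCtorEq, Sum.inr.injEq, Sum.inl.injEq] at hxy
    · rw [hxy]
    · have hxy : ((∃ p ∈ F', x = p.1) ↔ (∃ p ∈ F', y = p.1)) := by simpa using hxy
      have hx' := mem_lv.1 ((mem_union.1 hx).resolve_right hxE)
      have hy' := mem_lv.1 ((mem_union.1 hy).resolve_right hyE)
      have main : ∀ z ∉ lv F' ∪ E, (G.Adj x z ↔ G.Adj y z) := by
        intro z hz
        rw [mem_union, not_or] at hz
        have hzF : ∀ p ∈ F', z ≠ p.1 ∧ z ≠ p.2 := by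
          intro p hp
          have := hz.1
          rw [mem_lv] at this
          push Not at this
          exact this p hp
        by_cases hc : ∃ p ∈ F', x = p.1
        · obtain ⟨p, hp, rfl⟩ := hc
          obtain ⟨p', hp', rfl⟩ := hxy.1 ⟨p, hp, rfl⟩
          rcases hV z with h | h
          · obtain ⟨p'', hp'', h'⟩ := mem_lv.1 h
            have n : p'' ∉ F' := by
              intro hn
              rcases h' with h' | h'
              · exact (hzF p'' hn).1 h'
              · exact (hzF p'' hn).2 h'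
            have s1 := hF p (hF' hp) p'' hp'' (fun h => n (h ▸ hp))
            have s2 := hF p' (hF' hp') p'' hp'' (fun h => n (h ▸ hp'))
            rcases h' with rfl | rfl
            · exact iff_of_true s1.1 s2.1
            · rw [s1.2.2.2.2.2.2.2.1, s2.2.2.2.2.2.2.2.1]
          · exact iff_of_true (h p (hF' hp)).1.symm (h p' (hF' hp')).1.symm
        · have hc' : ¬ ∃ p ∈ F', y = p.1 := fun h => hc (hxy.2 h)
          obtain ⟨p, hp, hx1⟩ := hx'
          obtain ⟨p', hp', hy1⟩ := hy'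
          have hx2 := hx1.resolve_left (fun h => hc ⟨p, hp, h⟩)
          have hy2 := hy1.resolve_left (fun h => hc' ⟨p', hp', h⟩)
          rw [hx2, hy2]
          rcases hV z with h | h
          · obtain ⟨p'', hp'', h'⟩ := mem_lv.1 h
            have n : p'' ∉ F' := by
              intro hn
              rcases h' with h' | h'
              · exact (hzF p'' hn).1 h'
              · exact (hzF p'' hn).2 h'
            have s1 := hF p (hF' hp) p'' hp'' (fun h => n (h ▸ hp))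
            have s2 := hF p' (hF' hp') p'' hp'' (fun h => n (h ▸ hp'))
            rcases h' with rfl | rfl
            · rw [G.adj_comm, s1.2.2.2.2.2.2.2.2, G.adj_comm, s2.2.2.2.2.2.2.2.2]
            · exact iff_of_false s1.2.1 s2.2.1
          · exact iff_of_false (fun h' => (h p (hF' hp)).2 h'.symm)
              (fun h' => (h p' (hF' hp')).2 h'.symm)
      ext z
      rw [mem_onb, mem_onb]
      by_cases hz : z ∈ lv F' ∪ E
      · simp [hz]
      · rw [main z hz]

/-- the tree of a spider -/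
theorem tr_spider [Fintype V] {τ : Prop} {F : Finset (V × V)} (hF : Spider G τ F)
    (hne : F.Nonempty)
    (hV : ∀ v, v ∈ lv F ∨ (∀ p ∈ F, G.Adj v p.1 ∧ ¬ G.Adj v p.2))
    (hR : (univ \ lv F).card ≤ 1) : TR G 5 univ univ := by
  obtain ⟨p0, hp0⟩ := hne
  have step : ∀ F' : Finset (V × V), F' ⊆ F → TR G 5 univ (lv F' ∪ {p0.1}) := by
    intro F'
    induction F' using Finset.induction_on with
    | empty => intro _; simpa [lv] using TR.leaf (G := G) (K := 5) (R := univ) p0.1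
    | insert p s hps ih =>
      intro hsub
      have hs : s ⊆ F := fun x hx => hsub (mem_insert_of_mem hx)
      have h1 := ih hs
      have h2 : TR G 5 univ (insert p.1 (lv s ∪ {p0.1})) := by
        refine h1.add ?_
        have : insert p.1 (lv s ∪ {p0.1}) = lv s ∪ {p.1, p0.1} := by
          ext z; simp only [mem_insert, mem_union, mem_singleton]; tauto
        rw [this]
        exact rk_spider hF hV hs (card_le_two.trans (by norm_num))
      have h3 : TR G 5 univ (insert p.2 (insert p.1 (lv s ∪ {p0.1}))) := by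
        refine h2.add ?_
        have : insert p.2 (insert p.1 (lv s ∪ {p0.1})) = lv s ∪ {p.2, p.1, p0.1} := by
          ext z; simp only [mem_insert, mem_union, mem_singleton]; tauto
        rw [this]
        exact rk_spider hF hV hs card_le_three
      have : lv (insert p s) ∪ {p0.1} = insert p.2 (insert p.1 (lv s ∪ {p0.1})) := by
        ext z
        simp only [lv, biUnion_insert, mem_insert, mem_union, mem_singleton]; tauto
      rw [this]
      exact h3
  have h1 := step F (Subset.refl _)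
  have h2 : lv F ∪ {p0.1} = lv F := by
    rw [union_eq_left, singleton_subset_iff, mem_lv]
    exact ⟨p0, hp0, Or.inl rfl⟩
  rw [h2] at h1
  refine h1.grow' (subset_univ _) (fun A' k1 _ => ?_)
  by_cases he : A' = lv F
  · rw [he]
    have := rk_spider (E := ∅) hF hV (Subset.refl F) (by simp)
    simpa using this
  · have hlt : (lv F).card < A'.card := card_lt_card ⟨k1, fun h => he (subset_antisymm h k1)⟩
    have : A' = univ := by
      apply eq_univ_of_card
      have := card_le_univ A'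
      have h3 : (univ \ lv F).card = Fintype.card V - (lv F).card := by
        rw [card_sdiff_of_subset (subset_univ _), card_univ]
      omega
    rw [this]
    exact rk_univ.trans (by norm_num)

lemma p4free_card [Fintype V] (hP : Prm G) (h : ∀ a b c d, ¬ P4 G a b c d) :
    Fintype.card V ≤ 2 := by
  by_contra hcon
  obtain ⟨A, B, hA, hB, hd, hu, hAB⟩ := Pool.Agent.H175R2.spl_of_p4free (Fintype.card V) G univ
    (le_of_eq card_univ) (by rw [card_univ]; omega) (by
      intro a _ b _ c _ d _ n1 n2 n3 e1 e2 e3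
      by_contra hcon
      push Not at hcon
      exact h a b c d ⟨e1, e2, e3, hcon.1, hcon.2.1, hcon.2.2, n1, n2, n3⟩)
  have gen : ∀ A B : Finset V, B.Nonempty → Disjoint A B → A ∪ B = univ →
      ((∀ a ∈ A, ∀ b ∈ B, ¬ G.Adj a b) ∨ (∀ a ∈ A, ∀ b ∈ B, G.Adj a b)) → A.card ≤ 1 := by
    intro A B hB hd hu hAB
    have hMA : Mod G A := by
      intro z hz x hx y hy
      have hzB : z ∈ B := by
        have : z ∈ A ∪ B := by rw [hu]; exact mem_univ _
        exact (mem_union.1 this).resolve_left hz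
      rcases hAB with h | h
      · exact iff_of_false (fun h' => h x hx z hzB h'.symm) (fun h' => h y hy z hzB h'.symm)
      · exact iff_of_true (h x hx z hzB).symm (h y hy z hzB).symm
    rcases hP A hMA with h1 | h1
    · exact h1
    · exfalso
      obtain ⟨b, hb⟩ := hB
      exact (disjoint_left.1 hd) (by rw [h1]; exact mem_univ b) hb
  have e1 := gen A B hB hd hu hAB
  have e2 := gen B A hA hd.symm (by rw [union_comm]; exact hu) (by
    rcases hAB with h | h
    · exact Or.inl fun b hb a ha h' => h a ha b hb h'.symm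
    · exact Or.inr fun b hb a ha => (h a ha b hb).symm)
  have e3 : Fintype.card V = A.card + B.card := by
    rw [← card_univ, ← hu, card_union_of_disjoint hd]
  omega

/-- the tree when no path has an attached vertex -/
theorem tr_sparse [Fintype V] (hP : Prm G) (hS : Tyc G) (hn : (univ : Finset V).Nonempty) :
    TR G 5 univ univ := by
  by_cases hfree : ∀ a b c d, ¬ P4 G a b c d
  · have := p4free_card hP hfree
    exact tr_card hn (by rw [card_univ]; omega)
  · push Not at hfree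
    obtain ⟨a, b, c, d, hp⟩ := hfree
    obtain ⟨F, hF0, hmax0⟩ := exists_max_image
      (univ.filter (fun F : Finset (V × V) => ∃ τ, Spider G τ F)) (fun F => F.card)
      ⟨∅, mem_filter.2 ⟨mem_univ _, True, by intro p hp; simp at hp⟩⟩
    obtain ⟨-, τ, hF⟩ := mem_filter.1 hF0
    have hmax : MaxSp G F := fun τ' F' hF' => hmax0 F' (mem_filter.2 ⟨mem_univ _, τ', hF'⟩)
    have h2 : 2 ≤ F.card := by
      obtain ⟨h1, h2, h3, h4, h5, h6, n1, n2, n3⟩ := hp
      have hq : Sp2 G True (b, a) (c, d) := ⟨h2, h5, n2, h1.ne.symm, h3.ne, iff_of_true h1.symm trivial,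
        iff_of_true h3 trivial, iff_of_false h6 (by simp), iff_of_false (fun h => h4 h.symm) (by simp)⟩
      have := hmax True {(b, a), (c, d)} (by
        intro p hp p' hp' hne
        simp only [mem_insert, mem_singleton] at hp hp'
        rcases hp with rfl | rfl <;> rcases hp' with rfl | rfl
        · exact absurd rfl hne
        · exact hq
        · exact hq.symm
        · exact absurd rfl hne)
      rw [card_pair (fun h => h2.ne (Prod.ext_iff.1 h).1)] at this
      exact this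
    have hne : ∀ v ∉ lv F, ∀ p ∈ F, v ≠ p.1 ∧ v ≠ p.2 := by
      intro v hv p hp
      rw [mem_lv] at hv
      push Not at hv
      exact hv p hp
    obtain ⟨p0, hp0⟩ : F.Nonempty := card_pos.1 (by omega)
    obtain ⟨p1, hp1, hn1, hs1⟩ := hF.leg h2 hp0
    -- the middle vertices
    set Rm := univ.filter (fun v => v ∉ lv F ∧ ∀ p ∈ F, G.Adj v p.1 ∧ ¬ G.Adj v p.2) with hRm
    have memR : ∀ v, v ∈ Rm ↔ v ∉ lv F ∧ ∀ p ∈ F, G.Adj v p.1 ∧ ¬ G.Adj v p.2 := by
      intro v; simp [hRm]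
    have hMod : Mod G (lv F ∪ Rm) := by
      have key : ∀ z ∉ lv F ∪ Rm, (∀ x ∈ lv F ∪ Rm, ¬ G.Adj z x) ∨ (∀ x ∈ lv F ∪ Rm, G.Adj z x) := by
        intro z hz
        rw [mem_union, not_or, memR] at hz
        obtain ⟨hz1, hz2⟩ := hz
        have hzn := hne z hz1
        rcases sp_type hS hF h2 hz1 with h | h | h
        · left
          intro x hx
          rcases mem_union.1 hx with hx | hx
          · obtain ⟨p, hp, rfl | rfl⟩ := mem_lv.1 hx
            · exact (h p hp).1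
            · exact (h p hp).2
          · obtain ⟨x1, x2⟩ := (memR x).1 hx
            exact sp_one hS hF h2 hmax (fun p hp => ⟨(h p hp).1, (h p hp).2, (hzn p hp).1, (hzn p hp).2⟩)
              (fun p hp => ⟨(x2 p hp).1, (x2 p hp).2, (hne x x1 p hp).1, (hne x x1 p hp).2⟩)
        · right
          intro x hx
          rcases mem_union.1 hx with hx | hx
          · obtain ⟨p, hp, rfl | rfl⟩ := mem_lv.1 hx
            · exact (h p hp).1
            · exact (h p hp).2
          · obtain ⟨x1, x2⟩ := (memR x).1 hx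
            refine sp_two hS hF h2 hmax ?_ (fun p hp => ⟨(h p hp).1, (h p hp).2, (hzn p hp).1, (hzn p hp).2⟩)
              (fun p hp => ⟨(x2 p hp).1, (x2 p hp).2, (hne x x1 p hp).1, (hne x x1 p hp).2⟩)
            rintro rfl
            exact (x2 p0 hp0).2 (h p0 hp0).2
        · exact absurd ⟨hz1, h⟩ hz2
      intro z hz x hx y hy
      rcases key z hz with h | h
      · exact iff_of_false (h x hx) (h y hy)
      · exact iff_of_true (h x hx) (h y hy)
    have hall : lv F ∪ Rm = univ := by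
      rcases hP _ hMod with h | h
      · exfalso
        have m1 : p0.1 ∈ lv F ∪ Rm := mem_union_left _ (mem_lv.2 ⟨p0, hp0, Or.inl rfl⟩)
        have m2 : p1.1 ∈ lv F ∪ Rm := mem_union_left _ (mem_lv.2 ⟨p1, hp1, Or.inl rfl⟩)
        exact hs1.1.ne (card_le_one.1 h _ m1 _ m2)
      · exact h
    have hV : ∀ v, v ∈ lv F ∨ (∀ p ∈ F, G.Adj v p.1 ∧ ¬ G.Adj v p.2) := by
      intro v
      have : v ∈ lv F ∪ Rm := by rw [hall]; exact mem_univ _
      rcases mem_union.1 this with h | h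
      · exact Or.inl h
      · exact Or.inr ((memR v).1 h).2
    have hMR : Mod G Rm := by
      intro z hz x hx y hy
      have hz' : z ∈ lv F := by
        have : z ∈ lv F ∪ Rm := by rw [hall]; exact mem_univ _
        exact (mem_union.1 this).resolve_right hz
      obtain ⟨p, hp, rfl | rfl⟩ := mem_lv.1 hz'
      · exact iff_of_true (((memR x).1 hx).2 p hp).1.symm (((memR y).1 hy).2 p hp).1.symm
      · exact iff_of_false (fun h => (((memR x).1 hx).2 p hp).2 h.symm)
          (fun h => (((memR y).1 hy).2 p hp).2 h.symm)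
    have hR1 : Rm.card ≤ 1 := by
      rcases hP Rm hMR with h | h
      · exact h
      · exfalso
        have : p0.1 ∈ Rm := by rw [h]; exact mem_univ _
        exact ((memR _).1 this).1 (mem_lv.2 ⟨p0, hp0, Or.inl rfl⟩)
    refine tr_spider hF ⟨p0, hp0⟩ hV ((card_le_card ?_).trans hR1)
    intro v hv
    have : v ∈ lv F ∪ Rm := by rw [hall]; exact mem_univ _
    exact (mem_union.1 this).resolve_left (mem_sdiff.1 hv).2

end Pool.Agent.H19
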